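import Pool.Agent.Helper12.GR.Defs
import Pool.Agent.Helper12.BI.Run

set_option autoImplicit false

/-!
Finite monoids with orthodox blocks: stability, lowest idempotents, the action on extended blocks.

Proof sketch. (The corresponding statements for aperiodic rectangular monoids are in
Helper12/BI/Mon.lean and Helper12/BI/Run.lean; everything below is an adaptation. `mid`, `mid'` of
Run.lean do not use aperiodicity.)

`stabR`, `stabL`: `x = p x w q` implies `x = p ^ N x (w q) ^ N`; take `N > 0` with `(w q) ^ N`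
idempotent (`exists_idem`); then `x (w q) ^ N = x`. (A copy is in Helper68/DS/Basic.lean.)

`low_iff`: as in BI/Run.lean with `stabR` in the place of `JEq.right_inv`.

`exists_act`: the extended block of `r` is `Phi r = {(z, m) | JEq e z ∧ m = r * z ∧ JEq e m}`, the
set `Q` of states consists of the nonempty sets `Phi r` with `JEq e r` (at most `card M`), the letter
`c` sends `B` to `pull c B = {(z, m) | JEq e z ∧ (c * z, m) ∈ B}` if this is nonempty (it is
`Phi (r * c)` for `B = Phi r`), else to `none`. Injectivity: `(z, m)` in both pulls means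
`r (c z) = m = r' (c z)`, now `Orth` shows `Phi r = Phi r'` (`JEq e (c z)` as `m` is below `c z`).
`q₀ = Phi e` (it contains `(e, e)`). `bact w q₀ = some (Phi (e w))` if `Phi (e w)` is nonempty.
The set `Phi (e w)` is nonempty iff `JEq e (e * w)`: see `blk_nonempty`, `of_blk_nonempty` in
BI/Run.lean. Last item: `(u, e w u) ∈ Phi (e w) = Phi (e w')`.
-/

namespace Helper12.GR

open Helper12.BI

variable {M : Type} [Monoid M]

private lemma pow_conj {q a b : M} (h : q = a * q * b) (N : ℕ) : q = a ^ N * q * b ^ N := by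
  induction N with
  | zero => simp
  | succ N ih =>
    calc q = a * q * b := h
      _ = a * (a ^ N * q * b ^ N) * b := by rw [← ih]
      _ = a ^ (N + 1) * q * b ^ (N + 1) := by
        rw [pow_succ' a N, pow_succ b N]
        simp only [mul_assoc]

lemma stabR [Finite M] {x w : M} (h : JLe x (x * w)) : ∃ q, x * w * q = x := by
  obtain ⟨p, q, h⟩ := h
  obtain ⟨N, hN, hi⟩ := exists_idem (w * q)
  have h1 : x = p ^ N * x * (w * q) ^ N := pow_conj (by simpa only [mul_assoc] using h) N
  have h2 : x * (w * q) ^ N = x := by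
    calc x * (w * q) ^ N = p ^ N * x * (w * q) ^ N * (w * q) ^ N := by rw [← h1]
      _ = p ^ N * x * ((w * q) ^ N * (w * q) ^ N) := by simp only [mul_assoc]
      _ = x := by rw [hi, ← h1]
  obtain ⟨K, rfl⟩ := Nat.exists_eq_succ_of_ne_zero hN.ne'
  refine ⟨q * (w * q) ^ K, ?_⟩
  calc x * w * (q * (w * q) ^ K) = x * ((w * q) * (w * q) ^ K) := by simp only [mul_assoc]
    _ = x := by rw [← pow_succ']; exact h2

lemma stabL [Finite M] {x w : M} (h : JLe x (w * x)) : ∃ q, q * (w * x) = x := by
  obtain ⟨p, q, h⟩ := h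
  obtain ⟨N, hN, hi⟩ := exists_idem (p * w)
  have h1 : x = (p * w) ^ N * x * q ^ N := pow_conj (by simpa only [mul_assoc] using h) N
  have h2 : (p * w) ^ N * x = x := by
    calc (p * w) ^ N * x = (p * w) ^ N * ((p * w) ^ N * x * q ^ N) := by rw [← h1]
      _ = ((p * w) ^ N * (p * w) ^ N) * x * q ^ N := by simp only [mul_assoc]
      _ = x := by rw [hi, ← h1]
  obtain ⟨K, rfl⟩ := Nat.exists_eq_succ_of_ne_zero hN.ne'
  refine ⟨(p * w) ^ K * p, ?_⟩
  calc (p * w) ^ K * p * (w * x) = (p * w) ^ K * (p * w) * x := by simp only [mul_assoc]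
    _ = x := by rw [← pow_succ]; exact h2

lemma low_iff [Finite M] {y e : M} (h2 : y * e = y)
    (h3 : ∀ f : M, f * f = f → y * f = y → ht f ≤ ht e) (w : M) :
    JEq y (y * w) ↔ JEq e (e * w) := by
  constructor
  · intro h
    obtain ⟨q, hq⟩ := stabR h.1
    obtain ⟨N, hN, hi⟩ := exists_idem (e * w * q)
    have h4 : y * (e * w * q) = y := by
      calc y * (e * w * q) = y * e * w * q := by simp only [mul_assoc]
        _ = y := by rw [h2, hq]
    have h5 : ∀ n : ℕ, y * (e * w * q) ^ n = y := by
      intro n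
      induction n with
      | zero => simp
      | succ n ih => rw [pow_succ', ← mul_assoc, h4, ih]
    have h6 := h3 _ hi (h5 N)
    obtain ⟨K, rfl⟩ := Nat.exists_eq_succ_of_ne_zero hN.ne'
    have h7 : JLe ((e * w * q) ^ (K + 1)) (e * w) := by
      rw [pow_succ', mul_assoc (e * w)]
      exact (JLe.of_mul_right _ _)
    have h8 : JEq ((e * w * q) ^ (K + 1)) e :=
      JEq.of_ht (h7.trans (JLe.of_mul_right _ _)) h6
    exact ⟨h8.2.trans h7, JLe.of_mul_right _ _⟩
  · intro h
    obtain ⟨q, hq⟩ := stabR h.1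
    refine ⟨⟨1, q, ?_⟩, JLe.of_mul_right _ _⟩
    calc y = y * e := h2.symm
      _ = y * (e * w * q) := by rw [hq]
      _ = y * e * w * q := by simp only [mul_assoc]
      _ = 1 * (y * w) * q := by rw [h2, one_mul]

/-- The extended block of `r`. -/
private def eblk (e r : M) : Set (M × M) := {z | JEq e z.1 ∧ z.2 = r * z.1 ∧ JEq e z.2}

private def epull (e c : M) (B : Set (M × M)) : Set (M × M) :=
  {z | JEq e z.1 ∧ (c * z.1, z.2) ∈ B}

private lemma epull_eblk {e r c : M} : epull e c (eblk e r) = eblk e (r * c) := by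
  ext z
  constructor
  · rintro ⟨h1, h2, h3, h4⟩
    refine ⟨h1, ?_, h4⟩
    show z.2 = r * c * z.1
    rw [mul_assoc]
    exact h3
  · rintro ⟨h1, h2, h3⟩
    have h2' : z.2 = r * (c * z.1) := by rw [h2, mul_assoc]
    refine ⟨h1, ?_, h2', h3⟩
    have h4 : JEq e (r * (c * z.1)) := by rwa [← h2']
    exact mid h1 (h4.1.trans (JLe.of_mul_left _ _))

private lemma eblk_nonempty_iff {e r : M} : (eblk e r).Nonempty ↔ (blk e r).Nonempty := by
  constructor
  · rintro ⟨z, h1, h2, h3⟩
    refine ⟨z.1, h1, ?_⟩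
    rwa [← h2]
  · rintro ⟨z, h1, h2⟩
    exact ⟨(z, r * z), h1, rfl, h2⟩

private def EBlk (e : M) : Type := {B : Set (M × M) // B.Nonempty ∧ ∃ r, JEq e r ∧ B = eblk e r}

private lemma eBlk_finite [Finite M] (e : M) : Finite (EBlk e) := Subtype.finite

private lemma epull_isBlk {e c : M} (B : EBlk e) (h : (epull e c B.1).Nonempty) :
    (epull e c B.1).Nonempty ∧ ∃ r, JEq e r ∧ epull e c B.1 = eblk e r := by
  refine ⟨h, ?_⟩
  obtain ⟨B, _, r, hr, rfl⟩ := B
  refine ⟨r * c, of_blk_nonempty hr ?_, epull_eblk⟩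
  rw [← eblk_nonempty_iff, ← epull_eblk]
  exact h

open Classical in
private noncomputable def eact (e : M) (c : M) (B : EBlk e) : Option (EBlk e) :=
  if h : (epull e c B.1).Nonempty then some ⟨epull e c B.1, epull_isBlk B h⟩ else none

private lemma eact_some {e c : M} {B P : EBlk e} : eact e c B = some P ↔ epull e c B.1 = P.1 := by
  unfold eact
  constructor
  · intro h
    split_ifs at h with h1
    rw [Option.some.injEq] at h
    rw [← h]
  · intro h
    have h1 : (epull e c B.1).Nonempty := by
      rw [h]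
      exact P.2.1
    rw [dif_pos h1, Option.some.injEq]
    exact Subtype.ext h

private lemma eact_ne_none {e c : M} {B : EBlk e} : eact e c B ≠ none ↔ (epull e c B.1).Nonempty := by
  unfold eact
  split_ifs with h
  · simp [h]
  · simp [h]

private lemma epull_mul {e a b : M} {B : EBlk e} :
    epull e (a * b) B.1 = epull e b (epull e a B.1) := by
  obtain ⟨B, _, r, hr, rfl⟩ := B
  simp only [epull_eblk, mul_assoc]

private lemma epull_one {e : M} {B : EBlk e} : epull e 1 B.1 = B.1 := by
  obtain ⟨B, _, r, hr, rfl⟩ := B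
  simp only [epull_eblk, mul_one]

private lemma eact_isAct (hO : Orth M) (e : M) : IsAct (eact e) where
  one := fun q => eact_some.2 epull_one
  mul := by
    intro a b q
    rcases h : eact e a q with _ | p
    · simp only [Option.bind_none]
      have h1 : ¬ (epull e a q.1).Nonempty := by
        rw [← eact_ne_none, not_not]
        exact h
      by_contra h2
      apply h1
      obtain ⟨z, hz⟩ := eact_ne_none.1 h2
      rw [epull_mul] at hz
      exact ⟨(b * z.1, z.2), hz.2⟩
    · simp only [Option.bind_some]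
      rw [eact_some] at h
      rcases h2 : eact e b p with _ | r
      · by_contra h3
        obtain ⟨z, hz⟩ := eact_ne_none.1 h3
        rw [epull_mul, h] at hz
        exact (eact_ne_none.2 ⟨z, hz⟩) h2
      · rw [eact_some] at h2 ⊢
        rw [epull_mul, h, h2]
  inj := by
    intro a q q' p h h'
    rw [eact_some] at h h'
    obtain ⟨z, hz⟩ := p.2.1
    have h1 : (a * z.1, z.2) ∈ q.1 := by
      rw [← h] at hz
      exact hz.2
    have h1' : (a * z.1, z.2) ∈ q'.1 := by
      rw [← h'] at hz
      exact hz.2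
    obtain ⟨B, _, r, hr, rfl⟩ := q
    obtain ⟨B', _, r', hr', rfl⟩ := q'
    apply Subtype.ext
    have key : ∀ s s' : M, JEq e s → JEq e s' → (a * z.1, z.2) ∈ eblk e s →
        (a * z.1, z.2) ∈ eblk e s' → eblk e s ⊆ eblk e s' := by
      intro s s' hs hs' h3 h3' z' hz'
      obtain ⟨u1, u2, u3⟩ := h3
      obtain ⟨v1, v2, v3⟩ := h3'
      obtain ⟨w1, w2, w3⟩ := hz'
      simp only at u1 u2 u3 v1 v2 v3
      refine ⟨w1, ?_, w3⟩
      rw [w2]
      symm
      refine hO s s' (a * z.1) z'.1 (hs.symm.trans hs') (hs.symm.trans u1) (hs.symm.trans w1)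
        (by rw [← u2, ← v2]) ?_ ?_
      · rw [← u2]
        exact hs.symm.trans u3
      · rw [← w2]
        exact hs.symm.trans w3
    exact Set.Subset.antisymm (key r r' hr hr' h1 h1') (key r' r hr' hr h1' h1)

private lemma card_eblk_le [Finite M] (e : M) : Nat.card (EBlk e) ≤ Nat.card M := by
  apply Nat.card_le_card_of_injective (fun B : EBlk e => B.2.2.choose)
  intro B B' h
  apply Subtype.ext
  rw [B.2.2.choose_spec.2, B'.2.2.choose_spec.2]
  simp only at h
  rw [h]

/-- The action on extended blocks. -/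
theorem exists_act [Finite M] (hO : Orth M) {e : M} (he : e * e = e) :
    ∃ (Q : Type) (_ : Finite Q) (act : M → Q → Option Q) (q₀ : Q), IsAct act ∧
      Nat.card Q ≤ Nat.card M ∧ (∀ w, act w q₀ ≠ none ↔ JEq e (e * w)) ∧
      ∀ w w' u, act w q₀ = act w' q₀ → JEq e u → JEq e (e * (w * u)) →
        e * (w' * u) = e * (w * u) := by
  let q₀ : EBlk e := ⟨eblk e e, ⟨(e, e), JEq.refl e, he.symm, JEq.refl e⟩, e, JEq.refl e, rfl⟩
  refine ⟨EBlk e, eBlk_finite e, eact e, q₀, eact_isAct hO e, card_eblk_le e, ?_, ?_⟩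
  · intro w
    rw [eact_ne_none]
    show (epull e w (eblk e e)).Nonempty ↔ _
    rw [epull_eblk, eblk_nonempty_iff]
    exact ⟨fun h => of_blk_nonempty (JEq.refl e) h, fun h => blk_nonempty he h⟩
  · intro w w' u h hu h1
    have h2 : (u, e * (w * u)) ∈ eblk e (e * w) := ⟨hu, by rw [mul_assoc], h1⟩
    have h3 : eact e w q₀ ≠ none := by
      rw [eact_ne_none]
      show (epull e w (eblk e e)).Nonempty
      rw [epull_eblk]
      exact ⟨_, h2⟩
    obtain ⟨P, hP⟩ := Option.ne_none_iff_exists'.1 h3
    have hP' : eact e w' q₀ = some P := by rw [← h, hP]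
    have h4 : epull e w (eblk e e) = P.1 := eact_some.1 hP
    have h5 : epull e w' (eblk e e) = P.1 := eact_some.1 hP'
    rw [epull_eblk] at h4 h5
    rw [h4, ← h5] at h2
    have h6 : e * (w * u) = e * w' * u := h2.2.1
    rw [h6, mul_assoc]

end Helper12.GR
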