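import Pool.Agent.Helper12.GR.Unif

set_option autoImplicit false

/-!
In a run of partial injections without deaths each reachable state has probability bounded below.

Proof sketch. Let `R` be the set of the states `act (val L x) q₀` (all of them are `some q`).
Claim: every `q ∈ R` has probability at least `(1 / card S) ^ R.ncard`. Induction on `L` from
the right: for `L ++ [(i, c)]` the new set is
`R' = {q' | ∃ q ∈ R, ∃ s, act (c s) q = some q'}`, no letter kills a state of `R`, each letter is
injective on `R`, so `R.ncard ≤ R'.ncard`. The probability of `q'` is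
`(1 / card S) * ∑ s, ∑ q ∈ R with act (c s) q = some q', prob q` (independence `U_inter`,
`U_letter`: the letter at the position `i` is not read by `L`). If `R'.ncard = R.ncard` every letter
is a bijection `R → R'` and the sum is at least the minimum; otherwise at least one pair `(s, q)`
contributes. Finally `R.ncard ≤ card Q`.

`prob_group`: the special case of a group acting on itself by right multiplication.
-/

namespace Helper12.GR

open Helper12.BI

variable {ι S M Q : Type} [Monoid M]

namespace ProbAux

lemma inv_le_one' [Finite S] [Nonempty S] : (1 / (Nat.card S : ℝ)) ≤ 1 := by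
  have h : (1 : ℝ) ≤ Nat.card S := by exact_mod_cast Nat.card_pos
  rw [div_le_one (by linarith)]
  exact h

lemma inv_nonneg' : (0 : ℝ) ≤ (1 / (Nat.card S : ℝ)) := by positivity

/-- The step of the induction. -/
lemma step [Finite ι] [Finite S] [Nonempty S] [Finite Q] {P : List ι} {i : ι} (hi : i ∉ P)
    (σ : (ι → S) → Q) (hσ : ∀ x y : ι → S, (∀ j ∈ P, x j = y j) → σ x = σ y)
    (δ : S → Q → Q)
    (hδ : ∀ s x y, δ s (σ x) = δ s (σ y) → σ x = σ y)
    (hp : ∀ x₀, (1 / (Nat.card S : ℝ)) ^ (Set.range σ).ncard ≤ U {x | σ x = σ x₀})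
    (x₀ : ι → S) :
    (1 / (Nat.card S : ℝ)) ^ (Set.range fun x : ι → S => δ (x i) (σ x)).ncard ≤
      U {x : ι → S | δ (x i) (σ x) = δ (x₀ i) (σ x₀)} := by
  classical
  have := Fintype.ofFinite S
  set p : ℝ := 1 / (Nat.card S : ℝ) with hpdef
  have hp0 : 0 ≤ p := inv_nonneg'
  have hp1 : p ≤ 1 := inv_le_one'
  set q' := δ (x₀ i) (σ x₀) with hq'
  set R := Set.range σ with hR
  set R' := Set.range fun x : ι → S => δ (x i) (σ x) with hR'
  have hmap : ∀ s, Set.MapsTo (δ s) R R' := by
    rintro s _ ⟨x, rfl⟩
    refine ⟨Function.update x i s, ?_⟩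
    have h1 : σ (Function.update x i s) = σ x := by
      apply hσ
      intro j hj
      rw [Function.update_of_ne]
      rintro rfl
      exact hi hj
    simp only [Function.update_self, h1]
  have hinj : ∀ s, Set.InjOn (δ s) R := by
    rintro s _ ⟨x, rfl⟩ _ ⟨y, rfl⟩ h
    exact hδ s x y h
  have hRfin : R'.Finite := Set.toFinite _
  -- decomposition
  have hsum : U {x : ι → S | δ (x i) (σ x) = q'} = ∑ s : S, p * U {x | δ s (σ x) = q'} := by
    rw [← U_partition (fun s : S => {x : ι → S | x i = s})
      (fun x => ⟨x i, rfl, fun s hs => hs.symm⟩)]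
    apply Finset.sum_congr rfl
    intro s _
    have h1 : {x : ι → S | x i = s} ∩ {x : ι → S | δ (x i) (σ x) = q'} =
        {x : ι → S | x i = s} ∩ {x | δ s (σ x) = q'} := by
      ext x
      simp only [Set.mem_inter_iff, Set.mem_setOf_eq]
      constructor
      · rintro ⟨h1, h2⟩
        exact ⟨h1, by rw [← h1]; exact h2⟩
      · rintro ⟨h1, h2⟩
        exact ⟨h1, by rw [h1]; exact h2⟩
    rw [h1, U_inter (P := [i]) (P' := P), U_letter]
    · intro x y hxy
      simp only [Set.mem_setOf_eq]
      rw [hxy i (List.mem_singleton_self i)]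
    · intro x y hxy
      simp only [Set.mem_setOf_eq]
      rw [hσ x y hxy]
    · intro j hj hj'
      rw [List.mem_singleton] at hj
      subst hj
      exact hi hj'
  rw [hsum]
  have hterm : ∀ s, (∃ x, δ s (σ x) = q') → p ^ R.ncard ≤ U {x | δ s (σ x) = q'} := by
    rintro s ⟨x, hx⟩
    refine (hp x).trans (U_mono ?_)
    intro y hy
    simp only [Set.mem_setOf_eq] at hy ⊢
    rw [hy, hx]
  by_cases hc : R'.ncard = R.ncard
  · have hall : ∀ s, ∃ x, δ s (σ x) = q' := by
      intro s
      have hq'R : q' ∈ R' := ⟨x₀, rfl⟩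
      have himg : δ s '' R = R' := by
        apply Set.eq_of_subset_of_ncard_le (hmap s).image_subset _ hRfin
        rw [Set.ncard_image_of_injOn (hinj s), hc]
      rw [← himg] at hq'R
      obtain ⟨_, ⟨x, rfl⟩, hx⟩ := hq'R
      exact ⟨x, hx⟩
    rw [hc]
    have hcard : (Finset.univ : Finset S).card = Nat.card S := by
      rw [Nat.card_eq_fintype_card, Finset.card_univ]
    calc p ^ R.ncard = ∑ s : S, p * p ^ R.ncard := by
          rw [Finset.sum_const, hcard, nsmul_eq_mul, ← mul_assoc, hpdef,
            mul_one_div_cancel, one_mul]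
          have : (0 : ℝ) < Nat.card S := by exact_mod_cast Nat.card_pos
          exact this.ne'
      _ ≤ _ := by
          apply Finset.sum_le_sum
          intro s _
          exact mul_le_mul_of_nonneg_left (hterm s (hall s)) hp0
  · have hlt : R.ncard + 1 ≤ R'.ncard := by
      have h1 : R.ncard ≤ R'.ncard := by
        obtain ⟨s⟩ := (inferInstance : Nonempty S)
        rw [← Set.ncard_image_of_injOn (hinj s)]
        exact Set.ncard_le_ncard (hmap s).image_subset hRfin
      omega
    calc p ^ R'.ncard ≤ p ^ (R.ncard + 1) := pow_le_pow_of_le_one hp0 hp1 hlt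
      _ = p * p ^ R.ncard := by rw [pow_succ, mul_comm]
      _ ≤ p * U {x | δ (x₀ i) (σ x) = q'} :=
          mul_le_mul_of_nonneg_left (hterm _ ⟨x₀, rfl⟩) hp0
      _ ≤ _ := Finset.single_le_sum (f := fun s : S => p * U {x | δ s (σ x) = q'})
          (fun s _ => mul_nonneg hp0 (U_nonneg _)) (Finset.mem_univ (x₀ i))

lemma main [Finite ι] [Finite S] [Nonempty S] [Finite Q] {act : M → Q → Option Q}
    (hact : IsAct act) (q₀ : Q) : ∀ L : List (ι × (S → M)), (pos L).Nodup →
    (∀ x, act (val L x) q₀ ≠ none) → ∃ σ : (ι → S) → Q,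
      (∀ x, act (val L x) q₀ = some (σ x)) ∧
      ∀ x₀, (1 / (Nat.card S : ℝ)) ^ (Set.range σ).ncard ≤ U {x | σ x = σ x₀} := by
  classical
  intro L
  induction L using List.reverseRecOn with
  | nil =>
    intro _ _
    refine ⟨fun _ => q₀, fun x => ?_, fun x₀ => ?_⟩
    · rw [val_nil, hact.one]
    · have h1 : {x : ι → S | q₀ = q₀} = Set.univ := by ext; simp
      rw [h1, U_univ]
      exact pow_le_one₀ inv_nonneg' inv_le_one'
  | append_singleton L a ih =>
    obtain ⟨i, c⟩ := a
    intro hnd halive
    rw [pos_append, List.nodup_append] at hnd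
    obtain ⟨hndL, -, hdis⟩ := hnd
    have hi : i ∉ pos L := by
      intro h
      exact hdis i h i (by simp [pos]) rfl
    have hval : ∀ x : ι → S, val (L ++ [(i, c)]) x = val L x * c (x i) := by
      intro x
      rw [val_append, val_cons, val_nil, mul_one]
    have haL : ∀ x, act (val L x) q₀ ≠ none := by
      intro x h
      apply halive x
      rw [hval, hact.mul, h]
      rfl
    obtain ⟨σ, hσ, hp⟩ := ih hndL haL
    have hσc : ∀ x y : ι → S, (∀ j ∈ pos L, x j = y j) → σ x = σ y := by
      intro x y hxy
      have h1 := hσ x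
      rw [val_congr hxy, hσ y] at h1
      exact (Option.some.inj h1).symm
    set δ : S → Q → Q := fun s q => (act (c s) q).getD q with hδdef
    have hδ : ∀ s x, act (c s) (σ x) = some (δ s (σ x)) := by
      intro s x
      have h1 := halive (Function.update x i s)
      have h2 : σ (Function.update x i s) = σ x := by
        apply hσc
        intro j hj
        rw [Function.update_of_ne]
        rintro rfl
        exact hi hj
      rw [hval, hact.mul, hσ, h2, Function.update_self] at h1
      change act (c s) (σ x) ≠ none at h1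
      obtain ⟨r, hr⟩ := Option.ne_none_iff_exists'.1 h1
      have h3 : δ s (σ x) = r := by
        simp only [hδdef, hr, Option.getD_some]
      rw [h3]
      exact hr
    refine ⟨fun x => δ (x i) (σ x), fun x => ?_, fun x₀ => ?_⟩
    · rw [hval, hact.mul, hσ]
      exact hδ (x i) x
    · apply step hi σ hσc δ _ hp x₀
      intro s x y h
      exact hact.inj (c s) _ _ _ (hδ s x) (by rw [h]; exact hδ s y)

end ProbAux

theorem prob_reach [Finite ι] [Finite S] [Nonempty S] [Finite Q] {act : M → Q → Option Q}
    (hact : IsAct act) {L : List (ι × (S → M))} (hL : (pos L).Nodup) (q₀ : Q)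
    (halive : ∀ x, act (val L x) q₀ ≠ none) (x₀ : ι → S) :
    (1 / (Nat.card S : ℝ)) ^ Nat.card Q ≤ U {x | act (val L x) q₀ = act (val L x₀) q₀} := by
  obtain ⟨σ, hσ, hp⟩ := ProbAux.main hact q₀ L hL halive
  have h1 : {x | act (val L x) q₀ = act (val L x₀) q₀} = {x | σ x = σ x₀} := by
    ext x
    simp only [Set.mem_setOf_eq, hσ, Option.some.injEq]
  rw [h1]
  refine le_trans ?_ (hp x₀)
  apply pow_le_pow_of_le_one ProbAux.inv_nonneg' ProbAux.inv_le_one'
  rw [← Set.ncard_univ]
  exact Set.ncard_le_ncard (Set.subset_univ _) (Set.toFinite _)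

theorem prob_group [Finite ι] [Finite S] [Nonempty S] {G : Type} [Group G] [Finite G]
    {P : List ι} (hP : P.Nodup) (g : ι → S → G) (x₀ : ι → S) :
    (1 / (Nat.card S : ℝ)) ^ Nat.card G ≤ U {x | gval P g x = gval P g x₀} := by
  have hact : IsAct (fun (a : G) (q : G) => some (q * a)) :=
    { one := fun q => by simp
      mul := fun a b q => by simp [mul_assoc]
      inj := fun a q q' p h h' => by
        simp only [Option.some.injEq] at h h'
        exact mul_right_cancel (h.trans h'.symm) }
  set L : List (ι × (S → G)) := P.map fun i => (i, g i) with hL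
  have hpos : pos L = P := by
    rw [hL, pos, List.map_map]
    conv_rhs => rw [← List.map_id P]
    rfl
  have hval : ∀ x, val L x = gval P g x := by
    intro x
    rw [hL, val, gval, List.map_map]
    rfl
  have h := prob_reach hact (L := L) (by rw [hpos]; exact hP) 1 (fun x => by simp) x₀
  have h1 : {x | (some ((1 : G) * val L x)) = some ((1 : G) * val L x₀)} =
      {x | gval P g x = gval P g x₀} := by
    ext x
    simp [hval]
  rw [← h1]
  exact h

end Helper12.GR
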