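import Pool.Agent.Helper12.GR.Res
import Pool.Agent.Helper12.GR.Prob

set_option autoImplicit false
set_option linter.unusedSectionVars false

/-!
Runs of partial injections without deaths are resolved by boundedly many letters and programs over
groups.

Proof sketch. For a set `R` of states let `reach L R = {p | ∃ q ∈ R, ∃ x, act (val L x) q = some p}`.
`L` is alive on `R` if no `act (val L x) q`, `q ∈ R`, is `none`. Claim, for `R` nonempty: if `L` is
alive on `R` and at most `n` different sets `reach L1 R`, `L1` an initial part of `L`, occur, then the map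
`x ↦ (fun q : R => act (val L x) q)` is resolved with `C = lam ^ (2 n)`. Strong induction on
`n` (or on the length).
Let `L = L1 ++ L2` with `reach L1 R = R` and `L1` as long as possible (the last return to `R`).
(a) The maps `q ↦ act (val L1 x) q` permute `R`. Let `N = {u : M | u permutes R}` (a submonoid) and
`G = MonoidHom.range`-like image of `N` in the permutations of `R` (order of multiplication: words
act from the left to the right, so use the opposite of `Equiv.Perm R` or the inverse map): a finite
group that divides `M`, with at most `card M` elements. With reference letters `s₀` let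
`p_t : R → reach (first t instructions) R` be the (bijective) map of the first `t` reference
letters; `h_t (s) = p_t * c_t (s) * p_(t+1)⁻¹` is a permutation of `R`, in `G`, because
`p_(t+1)⁻¹ = s_(t+1) * p_j⁻¹` with `s_(t+1)` the reference word from `t + 1` to the end `j` of `L1`;
the map of `L1` is the product of the `h_t (x_t)` times `p_j`. So it is resolved by one basic set of
group type (its measure is at least `tau` by `prob_group`), `C = lam`.
(b) `L2 = []` or `L2 = (i, c) :: L3` where the first letter is resolved by `Res.letter` and `L3` is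
alive on `R1 = reach [(i, c)] R`, and `R` does not occur among the sets of `L3` from `R1`: induction
hypothesis with `n - 1`.
Combine with `Res.prod` and `Res.of_determined`. There are at most `2 ^ card Q` sets.
-/

namespace Helper12.GR

open Helper12.BI

variable {ι S M Q : Type} [Monoid M]

namespace Alive

/-- The sets of instructions of the program. -/
private def sets (L : List (ι × (S → M))) : List (Set M) := L.map fun p => Set.range p.2

private lemma sets_cons (i : ι) (c : S → M) (L : List (ι × (S → M))) :
    sets ((i, c) :: L) = Set.range c :: sets L := rfl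

private lemma sets_append (L L' : List (ι × (S → M))) : sets (L ++ L') = sets L ++ sets L' := by
  simp [sets]

private lemma allNe_sets [Nonempty S] (L : List (ι × (S → M))) : AllNe (sets L) := by
  intro C hC
  obtain ⟨p, _, rfl⟩ := List.mem_map.1 hC
  exact Set.range_nonempty _

private lemma val_mem (L : List (ι × (S → M))) (x : ι → S) : val L x ∈ prods (sets L) := by
  induction L with
  | nil => rfl
  | cons p L ih =>
    obtain ⟨i, c⟩ := p
    rw [sets_cons, val_cons]
    exact ⟨c (x i), ⟨x i, rfl⟩, val L x, ih, rfl⟩

private lemma exists_val [Nonempty S] {L : List (ι × (S → M))} (hL : (pos L).Nodup) {w : M}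
    (hw : w ∈ prods (sets L)) : ∃ x : ι → S, w = val L x := by
  classical
  induction L generalizing w with
  | nil => exact ⟨fun _ => Classical.arbitrary S, hw⟩
  | cons p L ih =>
    obtain ⟨i, c⟩ := p
    rw [pos_cons, List.nodup_cons] at hL
    rw [sets_cons] at hw
    obtain ⟨_, ⟨s, rfl⟩, v, hv, rfl⟩ := hw
    obtain ⟨x, rfl⟩ := ih hL.2 hv
    refine ⟨Function.update x i s, ?_⟩
    rw [val_cons, Function.update_self]
    congr 1
    refine val_congr fun j hj => ?_
    rw [Function.update_of_ne]
    rintro rfl
    exact hL.1 hj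

/-! The group of a loop. -/

section loop

variable {act : M → Q → Option Q} (hact : IsAct act) (R : Set Q)

/-- The elements of `M` that permute `R`. -/
private def stab (hact : IsAct act) (R : Set Q) : Submonoid M where
  carrier := {u | ∀ q ∈ R, ∃ p ∈ R, act u q = some p}
  one_mem' := fun q hq => ⟨q, hq, hact.one q⟩
  mul_mem' := by
    intro a b ha hb q hq
    obtain ⟨p, hp, h1⟩ := ha q hq
    obtain ⟨r, hr, h2⟩ := hb p hp
    exact ⟨r, hr, act_mul_some hact h1 h2⟩

/-- The map of `R` given by an element of `stab`. -/
private noncomputable def mp (u : stab hact R) (q : R) : R :=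
  ⟨(u.2 q.1 q.2).choose, (u.2 q.1 q.2).choose_spec.1⟩

private lemma mp_spec (u : stab hact R) (q : R) : act u.1 q.1 = some (mp hact R u q).1 :=
  (u.2 q.1 q.2).choose_spec.2

private lemma mp_inj (u : stab hact R) : Function.Injective (mp hact R u) := by
  intro q q' h
  apply Subtype.ext
  refine hact.inj u.1 q.1 q'.1 (mp hact R u q).1 (mp_spec hact R u q) ?_
  rw [h]
  exact mp_spec hact R u q'

variable [Finite Q]

private lemma mp_bij (u : stab hact R) : Function.Bijective (mp hact R u) :=
  Finite.injective_iff_bijective.1 (mp_inj hact R u)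

/-- The homomorphism to the permutations of `R` (words act from the left to the right). -/
private noncomputable def hom : stab hact R →* (Equiv.Perm R)ᵐᵒᵖ where
  toFun u := MulOpposite.op (Equiv.ofBijective _ (mp_bij hact R u))
  map_one' := by
    rw [← MulOpposite.op_one]
    congr 1
    ext q
    rw [Equiv.ofBijective_apply, Equiv.Perm.one_apply, ← Option.some_inj, ← mp_spec]
    exact hact.one q.1
  map_mul' a b := by
    rw [← MulOpposite.op_mul]
    congr 1
    ext q
    rw [Equiv.ofBijective_apply, Equiv.Perm.mul_apply, Equiv.ofBijective_apply,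
      Equiv.ofBijective_apply, ← Option.some_inj, ← mp_spec]
    exact act_mul_some hact (mp_spec hact R a q) (mp_spec hact R b _)

private lemma hom_apply (u : stab hact R) (q : R) :
    act u.1 q.1 = some ((MulOpposite.unop (hom hact R u)) q).1 := mp_spec hact R u q

/-- The group of the permutations of `R` given by elements of `M`. -/
private noncomputable def grp : Subgroup (Equiv.Perm R)ᵐᵒᵖ where
  carrier := Set.range (hom hact R)
  one_mem' := ⟨1, map_one _⟩
  mul_mem' := by
    rintro _ _ ⟨a, rfl⟩ ⟨b, rfl⟩
    exact ⟨a * b, map_mul _ _ _⟩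
  inv_mem' := by
    rintro _ ⟨a, rfl⟩
    refine ⟨a ^ (orderOf (hom hact R a) - 1), ?_⟩
    rw [map_pow]
    apply eq_inv_of_mul_eq_one_left
    have : Finite (Equiv.Perm R)ᵐᵒᵖ := Finite.of_equiv _ MulOpposite.opEquiv
    rw [← pow_succ, Nat.sub_add_cancel (orderOf_pos _), pow_orderOf_eq_one]

/-- The homomorphism onto the group of permutations. -/
private noncomputable def hom' : stab hact R →* grp hact R where
  toFun u := ⟨hom hact R u, u, rfl⟩
  map_one' := Subtype.ext (map_one _)
  map_mul' _ _ := Subtype.ext (map_mul _ _ _)

private lemma hom'_apply (u : stab hact R) (q : R) :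
    act u.1 q.1 = some ((MulOpposite.unop (hom' hact R u).1) q).1 := hom_apply hact R u q

private lemma hom'_surj : Function.Surjective (hom' hact R) := by
  rintro ⟨_, u, rfl⟩
  exact ⟨u, rfl⟩

private lemma hom'_ext {u v : stab hact R} (h : ∀ q ∈ R, act u.1 q = act v.1 q) :
    hom' hact R u = hom' hact R v := by
  apply Subtype.ext
  apply MulOpposite.unop_injective
  ext q
  rw [← Option.some_inj, ← hom'_apply, ← hom'_apply]
  exact h q.1 q.2

private lemma divides_grp : Divides (grp hact R) M := ⟨stab hact R, hom' hact R, hom'_surj hact R⟩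

private lemma finite_grp : Finite (grp hact R) := by
  have : Finite (Equiv.Perm R)ᵐᵒᵖ := Finite.of_equiv _ MulOpposite.opEquiv
  exact Subtype.finite

private lemma card_grp [Finite M] : Nat.card (grp hact R) ≤ Nat.card M :=
  (Nat.card_le_card_of_surjective _ (hom'_surj hact R)).trans
    (Nat.card_le_card_of_injective _ Subtype.val_injective)

/-- The exchange rule for two ways `a`, `b` to a middle set and two ways back. -/
private lemma exch {a b σ₀ σ : M} (h1 : a * σ₀ ∈ stab hact R) (h2 : b * σ₀ ∈ stab hact R)
    (h3 : b * σ ∈ stab hact R) (h4 : a * σ ∈ stab hact R) :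
    hom' hact R ⟨a * σ₀, h1⟩ * (hom' hact R ⟨b * σ₀, h2⟩)⁻¹ * hom' hact R ⟨b * σ, h3⟩ =
      hom' hact R ⟨a * σ, h4⟩ := by
  apply Subtype.ext
  apply MulOpposite.unop_injective
  ext q
  obtain ⟨r, hr, h5⟩ := h1 q.1 q.2
  obtain ⟨p, h6, h7⟩ := act_mul_inv hact h5
  have h8 : (MulOpposite.unop (hom' hact R ⟨a * σ₀, h1⟩).1) q = ⟨r, hr⟩ := by
    apply Subtype.ext
    rw [← Option.some_inj, ← hom'_apply hact R ⟨a * σ₀, h1⟩ q, h5]
  obtain ⟨q', hq'⟩ := (MulOpposite.unop (hom' hact R ⟨b * σ₀, h2⟩).1).surjective ⟨r, hr⟩
  have h9 : act (b * σ₀) q'.1 = some r := by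
    rw [hom'_apply hact R ⟨b * σ₀, h2⟩ q', hq']
  obtain ⟨p', h10, h11⟩ := act_mul_inv hact h9
  have h12 : p' = p := hact.inj _ _ _ _ h11 h7
  subst h12
  rw [← Option.some_inj, ← hom'_apply hact R ⟨a * σ, h4⟩ q]
  have h13 : act (a * σ) q.1 = act (b * σ) q'.1 := by
    rw [hact.mul, hact.mul, h6, h10]
  rw [h13, hom'_apply hact R ⟨b * σ, h3⟩ q']
  congr 2
  simp only [Subgroup.coe_mul, InvMemClass.coe_inv, MulOpposite.unop_mul, MulOpposite.unop_inv,
    Equiv.Perm.mul_apply]
  congr 1
  rw [h8, ← hq']
  exact Equiv.symm_apply_apply _ _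

end loop

lemma res_gval [Finite ι] [Finite S] [Nonempty S] [Finite M] {G : Type} [Group G] [Finite G]
    (hG : Divides G M) (hcard : Nat.card G ≤ Nat.card M) {P : List ι} (hP : P.Nodup)
    (g : ι → S → G) {lam tau : ℝ} (htau : tau ≤ (1 / (Nat.card S : ℝ)) ^ (Nat.card M + 1)) :
    Res M P (fun x => gval P g x) lam lam tau := by
  classical
  let T := {γ : G // ∃ x : ι → S, gval P g x = γ}
  have : Fintype T := Fintype.ofFinite T
  have hpart : ∀ x : ι → S, ∃! j : T, x ∈ Set.univ ∩ {x | gval P g x = j.1} := by
    intro x
    refine ⟨⟨gval P g x, x, rfl⟩, ⟨trivial, rfl⟩, ?_⟩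
    rintro ⟨γ, hγ⟩ ⟨_, h⟩
    exact Subtype.ext (Eq.symm h)
  have hS : (0 : ℝ) < Nat.card S := by exact_mod_cast Nat.card_pos
  have hS1 : (1 : ℝ) ≤ Nat.card S := by exact_mod_cast Nat.card_pos
  refine ⟨T, this, fun j => Set.univ ∩ {x | gval P g x = j.1}, fun _ => 1, fun j => ?_, ?_,
    hpart, ?_, ?_⟩
  · exact Cell.inter Cell.univ (Basic.group G hG g j.1)
  · rintro j x ⟨_, hx⟩ y ⟨_, hy⟩
    exact Eq.trans hx (Eq.symm hy)
  · rintro ⟨_, x₀, rfl⟩
    show tau ^ 1 ≤ U (Set.univ ∩ {x | gval P g x = gval P g x₀})
    rw [pow_one, Set.univ_inter]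
    refine le_trans (htau.trans ?_) (prob_group hP g x₀)
    apply pow_le_pow_of_le_one (by positivity)
    · rw [div_le_one hS]
      exact hS1
    · omega
  · simp only [pow_one]
    rw [← Finset.sum_mul]
    have h1 := U_partition (fun j : T => Set.univ ∩ {x | gval P g x = j.1}) hpart Set.univ
    simp only [Set.inter_univ] at h1
    rw [h1, U_univ, one_mul]

lemma res_loop [Finite ι] [Finite S] [Nonempty S] [Finite M] [Finite Q]
    {act : M → Q → Option Q} (hact : IsAct act) {L : List (ι × (S → M))} (hL : (pos L).Nodup)
    {R : Set Q} (ha : BI.Alive act (sets L) R) (hr : reach act (sets L) R = R) {lam tau : ℝ}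
    (htau : tau ≤ (1 / (Nat.card S : ℝ)) ^ (Nat.card M + 1)) :
    Res M (pos L) (fun x => fun q : R => act (val L x) q.1) lam lam tau := by
  classical
  have hst : ∀ w ∈ prods (sets L), w ∈ stab hact R := by
    intro w hw q hq
    obtain ⟨p, hp⟩ := Option.ne_none_iff_exists'.1 (ha q hq w hw)
    refine ⟨p, ?_, hp⟩
    rw [← hr]
    exact ⟨q, hq, w, hw, hp⟩
  let x₀ : ι → S := fun _ => Classical.arbitrary S
  let F : (ι → S) → grp hact R := fun x => hom' hact R ⟨val L x, hst _ (val_mem L x)⟩
  let g : ι → S → grp hact R := fun i s => F (Function.update x₀ i s) * (F x₀)⁻¹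
  have hupd : ∀ (i : ι) (c : S → M) (A B : List (ι × (S → M))) (s : S),
      (pos (A ++ (i, c) :: B)).Nodup →
      val (A ++ (i, c) :: B) (Function.update x₀ i s) = val A x₀ * (c s * val B x₀) := by
    intro i c A B s hnd
    rw [pos_append, pos_cons] at hnd
    have hdis := (List.nodup_append.1 hnd).2.2
    have hB := (List.nodup_cons.1 (List.nodup_append.1 hnd).2.1).1
    rw [val_append, val_cons, Function.update_self]
    congr 1
    · refine val_congr fun j hj => ?_
      rw [Function.update_of_ne]
      exact hdis j hj i List.mem_cons_self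
    · congr 1
      refine val_congr fun j hj => ?_
      rw [Function.update_of_ne]
      rintro rfl
      exact hB hj
  have key : ∀ (B A : List (ι × (S → M))) (hAB : L = A ++ B) (x : ι → S)
      (hm : val A x₀ * val B x ∈ stab hact R),
      gval (pos B) g x = hom' hact R ⟨val A x₀ * val B x, hm⟩ * (F x₀)⁻¹ := by
    intro B
    induction B with
    | nil =>
      intro A hAB x hm
      have h1 : val A x₀ * val ([] : List (ι × (S → M))) x = val L x₀ := by
        rw [hAB, List.append_nil, val_nil, mul_one]
      have h2 : hom' hact R ⟨val A x₀ * val ([] : List (ι × (S → M))) x, hm⟩ = F x₀ := by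
        show _ = hom' hact R ⟨val L x₀, hst _ (val_mem L x₀)⟩
        congr 1
        exact Subtype.ext h1
      rw [h2, mul_inv_cancel]
      rfl
    | cons p B ih =>
      obtain ⟨i, c⟩ := p
      intro A hAB x hm
      have hA' : L = (A ++ [(i, c)]) ++ B := by rw [hAB]; simp
      have hvA : val (A ++ [(i, c)]) x₀ = val A x₀ * c (x₀ i) := by
        rw [val_append, val_cons, val_nil, mul_one]
      have hprodsA : val A x₀ ∈ prods (sets A) := val_mem A x₀
      have hmemg : ∀ (s : S) (y : ι → S), val A x₀ * c s * val B y ∈ stab hact R := by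
        intro s y
        apply hst
        rw [hAB, sets_append, sets_cons, mem_prods_append]
        exact ⟨_, hprodsA, c s * val B y, ⟨c s, ⟨s, rfl⟩, _, val_mem B y, rfl⟩, mul_assoc _ _ _⟩
      have hm2 : val (A ++ [(i, c)]) x₀ * val B x ∈ stab hact R := by
        rw [hvA]
        exact hmemg _ _
      have h1 : gval (pos ((i, c) :: B)) g x = g i (x i) * gval (pos B) g x := by
        simp [gval, pos_cons]
      have hg : g i (x i) = hom' hact R ⟨val A x₀ * c (x i) * val B x₀, hmemg _ _⟩ *
          (hom' hact R ⟨val A x₀ * c (x₀ i) * val B x₀, hmemg _ _⟩)⁻¹ := by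
        have e1 : F (Function.update x₀ i (x i)) =
            hom' hact R ⟨val A x₀ * c (x i) * val B x₀, hmemg _ _⟩ := by
          show hom' hact R ⟨val L (Function.update x₀ i (x i)), _⟩ = _
          congr 1
          apply Subtype.ext
          show val L (Function.update x₀ i (x i)) = val A x₀ * c (x i) * val B x₀
          rw [hAB, hupd i c A B (x i) (by rw [← hAB]; exact hL), mul_assoc]
        have e2 : F x₀ =
            hom' hact R ⟨val A x₀ * c (x₀ i) * val B x₀, hmemg _ _⟩ := by
          show hom' hact R ⟨val L x₀, _⟩ = _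
          congr 1
          apply Subtype.ext
          show val L x₀ = val A x₀ * c (x₀ i) * val B x₀
          rw [hAB, val_append, val_cons, mul_assoc]
        show F (Function.update x₀ i (x i)) * (F x₀)⁻¹ = _
        rw [e1, e2]
      rw [h1, hg, ih (A ++ [(i, c)]) hA' x hm2, ← mul_assoc]
      congr 1
      have e3 : hom' hact R ⟨val (A ++ [(i, c)]) x₀ * val B x, hm2⟩ =
          hom' hact R ⟨val A x₀ * c (x₀ i) * val B x, hmemg _ _⟩ := by
        congr 1
        apply Subtype.ext
        show val (A ++ [(i, c)]) x₀ * val B x = val A x₀ * c (x₀ i) * val B x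
        rw [hvA]
      have e4 : hom' hact R ⟨val A x₀ * val ((i, c) :: B) x, hm⟩ =
          hom' hact R ⟨val A x₀ * c (x i) * val B x, hmemg _ _⟩ := by
        congr 1
        apply Subtype.ext
        show val A x₀ * val ((i, c) :: B) x = val A x₀ * c (x i) * val B x
        rw [val_cons, mul_assoc]
      rw [e3, e4]
      exact exch hact R _ _ _ _
  have := finite_grp hact R
  refine (res_gval (lam := lam) (divides_grp hact R) (card_grp hact R) hL g htau).of_determined
    fun x y hxy => ?_
  have hmem : ∀ z : ι → S, val ([] : List (ι × (S → M))) x₀ * val L z ∈ stab hact R := by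
    intro z
    rw [val_nil, one_mul]
    exact hst _ (val_mem L z)
  have k1 := key L [] rfl x (hmem x)
  have k2 := key L [] rfl y (hmem y)
  rw [hxy] at k1
  have k3 := mul_right_cancel (k1.symm.trans k2)
  funext q
  have k4 := hom'_apply hact R ⟨_, hmem x⟩ q
  have k5 := hom'_apply hact R ⟨_, hmem y⟩ q
  rw [k3] at k4
  have k6 := k4.trans k5.symm
  simpa only [val_nil, one_mul] using k6

/-! The induction. -/

private lemma self_mem_trace (act : M → Q → Option Q) (L : List (Set M)) (R : Set Q) :
    R ∈ trace act L R := by
  cases L with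
  | nil => exact rfl
  | cons C L => exact Set.mem_insert _ _

private lemma trace_append {act : M → Q → Option Q} (hact : IsAct act) (A B : List (Set M)) :
    ∀ R : Set Q, trace act B (reach act A R) ⊆ trace act (A ++ B) R := by
  induction A with
  | nil =>
    intro R
    rw [reach_nil hact, List.nil_append]
  | cons C A ih =>
    intro R
    rw [List.cons_append, trace]
    refine Set.Subset.trans ?_ (Set.subset_insert _ _)
    refine Set.Subset.trans ?_ (ih _)
    rw [← reach_append hact]
    exact Set.Subset.rfl

/-- The last return to `R`. -/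
private lemma last_return {act : M → Q → Option Q} (hact : IsAct act) (R : Set Q) : ∀ (n : ℕ)
    (L : List (ι × (S → M))), L.length ≤ n → ∃ L1 L2, L = L1 ++ L2 ∧
      reach act (sets L1) R = R ∧ (L2 = [] ∨ ∃ i c L3, L2 = (i, c) :: L3 ∧
        R ∉ trace act (sets L3) (reach act [Set.range c] R)) := by
  intro n
  induction n with
  | zero =>
    intro L hL
    have h : L = [] := List.length_eq_zero_iff.1 (by omega)
    subst h
    exact ⟨[], [], rfl, reach_nil hact R, Or.inl rfl⟩
  | succ n ih =>
    intro L hL
    rcases L with _ | ⟨⟨i, c⟩, L⟩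
    · exact ⟨[], [], rfl, reach_nil hact R, Or.inl rfl⟩
    · by_cases h : R ∈ trace act (sets L) (reach act [Set.range c] R)
      · obtain ⟨A, B, h1, h2⟩ := mem_trace hact h
        obtain ⟨LA, LB, h3, h4, h5⟩ := List.map_eq_append_iff.1 h1
        have hlen : LB.length ≤ n := by
          have := congrArg List.length h3
          rw [List.length_append] at this
          rw [List.length_cons] at hL
          omega
        obtain ⟨L1, L2, h6, h7, h8⟩ := ih LB hlen
        refine ⟨(i, c) :: LA ++ L1, L2, ?_, ?_, h8⟩
        · rw [h3, h6]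
          simp
        · have h9 : sets ((i, c) :: LA ++ L1) = [Set.range c] ++ (A ++ sets L1) := by
            rw [sets_append, sets_cons]
            have : sets LA = A := h4
            rw [this]
            rfl
          rw [h9, reach_append hact, reach_append hact, h2, h7]
      · exact ⟨[], (i, c) :: L, rfl, reach_nil hact R, Or.inr ⟨i, c, L, rfl, h⟩⟩

private lemma res_main [Finite ι] [Finite S] [Nonempty S] [Finite M] [Finite Q]
    {act : M → Q → Option Q} (hact : IsAct act) {lam tau : ℝ} (hlam : 1 ≤ lam)
    (htau0 : 0 < tau) (htau : tau ≤ (1 / (Nat.card S : ℝ)) ^ (Nat.card M + 1)) : ∀ (n : ℕ)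
    (L : List (ι × (S → M))) (R : Set Q), L.length ≤ n → (pos L).Nodup →
      BI.Alive act (sets L) R →
      Res M (pos L) (fun x => fun q : R => act (val L x) q.1) lam
        (lam ^ (2 * (trace act (sets L) R).ncard)) tau := by
  have hS : (0 : ℝ) < Nat.card S := by exact_mod_cast Nat.card_pos
  have hS1 : (1 : ℝ) ≤ Nat.card S := by exact_mod_cast Nat.card_pos
  have htau1 : tau ≤ 1 / (Nat.card S : ℝ) := by
    refine htau.trans ?_
    calc (1 / (Nat.card S : ℝ)) ^ (Nat.card M + 1) ≤ (1 / (Nat.card S : ℝ)) ^ 1 := by
          apply pow_le_pow_of_le_one (by positivity)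
          · rw [div_le_one hS]
            exact hS1
          · omega
      _ = 1 / (Nat.card S : ℝ) := pow_one _
  have hlam0 : 0 ≤ lam := by linarith
  intro n
  induction n with
  | zero =>
    intro L R hL _ _
    have h : L = [] := List.length_eq_zero_iff.1 (by omega)
    subst h
    exact Res.const (fun x y => rfl) (one_le_pow₀ hlam)
  | succ n ih =>
    intro L R hLn hnd ha
    obtain ⟨L1, L2, h1, h2, h3⟩ := last_return hact R L.length L le_rfl
    have hne2 : AllNe (sets L2) := allNe_sets L2
    have ha1 : BI.Alive act (sets L1) R := by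
      intro q hq w hw h4
      obtain ⟨v, hv⟩ := prods_nonempty hne2
      apply ha q hq (w * v)
      · rw [h1, sets_append]
        exact mem_prods_append.2 ⟨w, hw, v, hv, rfl⟩
      · rw [hact.mul, h4]
        rfl
    have hnd1 : (pos L1).Nodup := by
      rw [h1, pos_append] at hnd
      exact (List.nodup_append.1 hnd).1
    have hres1 : Res M (pos L1) (fun x => fun q : R => act (val L1 x) q.1) lam lam tau :=
      res_loop hact hnd1 ha1 h2 htau
    have hn1 : 1 ≤ (trace act (sets L) R).ncard := by
      have h4 : (trace act (sets L) R).Nonempty := ⟨R, self_mem_trace _ _ _⟩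
      exact (Set.ncard_pos (Set.toFinite _)).2 h4
    rcases h3 with h3 | ⟨i, c, L3, h3, h4⟩
    · subst h3
      rw [List.append_nil] at h1
      subst h1
      refine hres1.mono hlam0 le_rfl ?_
      calc lam = lam ^ 1 := (pow_one _).symm
        _ ≤ _ := pow_le_pow_right₀ hlam (by omega)
    · subst h3
      have ha2 : BI.Alive act (sets ((i, c) :: L3)) R := by
        have h5 : BI.Alive act (sets ((i, c) :: L3)) (reach act (sets L1) R) := by
          apply Alive.tail hact
          rw [← sets_append, ← h1]
          exact ha
        rwa [h2] at h5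
      rw [sets_cons] at ha2
      have ha3 : BI.Alive act (sets L3) (reach act [Set.range c] R) :=
        Alive.tail hact (L := [Set.range c]) ha2
      have hhead := Alive.head hact (allNe_sets L3) ha2
      have hnd' := hnd
      rw [h1, pos_append, pos_cons] at hnd'
      have hnd2 : (i :: pos L3).Nodup := (List.nodup_append.1 hnd').2.1
      have hnd3 : (pos L3).Nodup := (List.nodup_cons.1 hnd2).2
      have hlen : L3.length ≤ n := by
        have := congrArg List.length h1
        rw [List.length_append, List.length_cons] at this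
        omega
      have hres3 := ih L3 _ hlen hnd3 ha3
      have hresi : Res M [i] (fun x : ι → S => x i) lam lam tau :=
        Res.letter i (by simp) htau1 hlam0 le_rfl
      have hres23 := Res.prod (P1 := [i]) (P2 := pos L3) (by simpa using hnd2) hlam0 htau0.le
        hresi hres3 hlam0
      have hres := Res.prod (P1 := pos L1) (P2 := [i] ++ pos L3) (by simpa using hnd') hlam0
        htau0.le hres1 hres23 hlam0
      have hpos : pos L = pos L1 ++ ([i] ++ pos L3) := by
        rw [h1, pos_append, pos_cons]
        rfl
      rw [hpos]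
      have hdet : ∀ x y : ι → S,
          ((fun q : R => act (val L1 x) q.1), (x i, fun q : (reach act [Set.range c] R) =>
            act (val L3 x) q.1)) =
          ((fun q : R => act (val L1 y) q.1), (y i, fun q : (reach act [Set.range c] R) =>
            act (val L3 y) q.1)) →
          (fun q : R => act (val L x) q.1) = (fun q : R => act (val L y) q.1) := by
        intro x y hxy
        rw [Prod.mk.injEq, Prod.mk.injEq] at hxy
        obtain ⟨e1, e2, e3⟩ := hxy
        funext q
        show act (val L x) q.1 = act (val L y) q.1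
        rw [h1, val_append, val_append, hact.mul, hact.mul, val_cons, val_cons, ← e2]
        have e4 : act (val L1 x) q.1 = act (val L1 y) q.1 := congrFun e1 q
        rw [← e4]
        obtain ⟨p, hp⟩ := Option.ne_none_iff_exists'.1 (ha1 q.1 q.2 _ (val_mem L1 x))
        have hpR : p ∈ R := by
          rw [← h2]
          exact ⟨q.1, q.2, _, val_mem L1 x, hp⟩
        rw [hp, Option.bind_some, Option.bind_some, hact.mul, hact.mul]
        have hb' : c (x i) ∈ prods [Set.range c] := ⟨c (x i), ⟨x i, rfl⟩, 1, rfl, by rw [mul_one]⟩
        obtain ⟨r, hr⟩ := Option.ne_none_iff_exists'.1 (hhead p hpR _ hb')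
        rw [hr, Option.bind_some, Option.bind_some]
        exact congrFun e3 ⟨r, p, hpR, _, hb', hr⟩
      have hcount : (trace act (sets L3) (reach act [Set.range c] R)).ncard + 1 ≤
          (trace act (sets L) R).ncard := by
        rw [← Set.ncard_insert_of_notMem h4 (Set.toFinite _)]
        apply Set.ncard_le_ncard _ (Set.toFinite _)
        apply Set.insert_subset (self_mem_trace _ _ _)
        have h6 : sets L = (sets L1 ++ [Set.range c]) ++ sets L3 := by
          rw [h1, sets_append, sets_cons]
          simp
        rw [h6]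
        have h7 := trace_append hact (sets L1 ++ [Set.range c]) (sets L3) R
        rwa [reach_append hact, h2] at h7
      refine (hres.of_determined hdet).mono hlam0 le_rfl ?_
      calc lam * (lam * lam ^ (2 * (trace act (sets L3) (reach act [Set.range c] R)).ncard))
          = lam ^ (2 * (trace act (sets L3) (reach act [Set.range c] R)).ncard + 2) := by ring
        _ ≤ _ := pow_le_pow_right₀ hlam (by omega)

end Alive

theorem res_alive [Finite ι] [Finite S] [Nonempty S] [Finite M] [Finite Q]
    {act : M → Q → Option Q} (hact : IsAct act) {L : List (ι × (S → M))} (hL : (pos L).Nodup)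
    (q₀ : Q) (halive : ∀ x, act (val L x) q₀ ≠ none) {lam tau : ℝ} (hlam : 1 ≤ lam)
    (htau0 : 0 < tau) (htau : tau ≤ (1 / (Nat.card S : ℝ)) ^ (Nat.card M + 1)) :
    Res M (pos L) (fun x => act (val L x) q₀) lam (lam ^ 2 ^ (Nat.card Q + 1)) tau := by
  have ha : BI.Alive act (Alive.sets L) {q₀} := by
    intro q hq w hw
    rw [Set.mem_singleton_iff] at hq
    subst hq
    obtain ⟨x, rfl⟩ := Alive.exists_val hL hw
    exact halive x
  have h := Alive.res_main hact hlam htau0 htau L.length L {q₀} le_rfl hL ha
  refine (h.of_determined (g := fun x => act (val L x) q₀) fun x y hxy =>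
    congrFun hxy ⟨q₀, rfl⟩).mono (by linarith) le_rfl ?_
  apply pow_le_pow_right₀ hlam
  have h1 : (trace act (Alive.sets L) {q₀}).ncard ≤ Nat.card (Set Q) := Set.ncard_le_card _
  have h2 : Nat.card (Set Q) = 2 ^ Nat.card Q := by
    have := Fintype.ofFinite Q
    rw [Nat.card_eq_fintype_card, Nat.card_eq_fintype_card, Fintype.card_set]
  rw [h2] at h1
  rw [pow_succ']
  exact Nat.mul_le_mul_left 2 h1

end Helper12.GR
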