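import Mathlib

set_option autoImplicit false

/-!
Mean values over finite types in real vector spaces.
-/

namespace Helper12.GR

variable {X Y E E' : Type} [Fintype X] [Fintype Y]

section vec

variable [AddCommGroup E] [Module ℝ E] [AddCommGroup E'] [Module ℝ E']

/-- The mean value of `f`. -/
noncomputable def av (f : X → E) : E := (Fintype.card X : ℝ)⁻¹ • ∑ x, f x

lemma av_congr {f g : X → E} (h : ∀ x, f x = g x) : av f = av g := by
  rw [funext h]

lemma av_const [Nonempty X] (a : E) : av (fun _ : X => a) = a := by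
  unfold av
  rw [Finset.sum_const, Finset.card_univ, ← Nat.cast_smul_eq_nsmul ℝ, smul_smul,
    inv_mul_cancel₀ (by exact_mod_cast Fintype.card_ne_zero), one_smul]

lemma av_equiv (e : X ≃ Y) (f : Y → E) : av (fun x => f (e x)) = av f := by
  unfold av
  rw [Equiv.sum_comp e f, Fintype.card_congr e]

lemma av_prod (f : X × Y → E) : av f = av fun x => av fun y => f (x, y) := by
  unfold av
  rw [Fintype.card_prod, Fintype.sum_prod_type, Nat.cast_mul, mul_inv, mul_smul]
  congr 1
  rw [Finset.smul_sum]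

lemma av_comm (f : X → Y → E) : (av fun x => av fun y => f x y) = av fun y => av fun x => f x y := by
  unfold av
  rw [← Finset.smul_sum, ← Finset.smul_sum, smul_smul, smul_smul, mul_comm, Finset.sum_comm]

lemma av_map (φ : E →ₗ[ℝ] E') (f : X → E) : φ (av f) = av fun x => φ (f x) := by
  unfold av
  rw [map_smul, map_sum]

lemma av_add (f g : X → E) : (av fun x => f x + g x) = av f + av g := by
  unfold av
  rw [Finset.sum_add_distrib, smul_add]

lemma av_sub (f g : X → E) : (av fun x => f x - g x) = av f - av g := by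
  unfold av
  rw [Finset.sum_sub_distrib, smul_sub]

lemma av_smul (c : ℝ) (f : X → E) : (av fun x => c • f x) = c • av f := by
  unfold av
  rw [← Finset.smul_sum, smul_comm]

end vec

section alg

variable {R : Type} [Ring R] [Algebra ℝ R]

lemma av_mul_left (c : R) (f : X → R) : (av fun x => c * f x) = c * av f := by
  unfold av
  rw [← Finset.mul_sum, mul_smul_comm]

lemma av_mul_right (c : R) (f : X → R) : (av fun x => f x * c) = av f * c := by
  unfold av
  rw [← Finset.sum_mul, smul_mul_assoc]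

end alg

section real

lemma av_mono {f g : X → ℝ} (h : ∀ x, f x ≤ g x) : av f ≤ av g := by
  unfold av
  rw [smul_eq_mul, smul_eq_mul]
  exact mul_le_mul_of_nonneg_left (Finset.sum_le_sum fun x _ => h x) (by positivity)

lemma av_nonneg {f : X → ℝ} (h : ∀ x, 0 ≤ f x) : 0 ≤ av f := by
  unfold av
  rw [smul_eq_mul]
  exact mul_nonneg (by positivity) (Finset.sum_nonneg fun x _ => h x)

lemma norm_av_le [SeminormedAddCommGroup E] [NormedSpace ℝ E] (f : X → E) :
    ‖av f‖ ≤ av fun x => ‖f x‖ := by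
  unfold av
  rw [norm_smul, smul_eq_mul, Real.norm_of_nonneg (by positivity)]
  exact mul_le_mul_of_nonneg_left (norm_sum_le _ _) (by positivity)

/-- Cauchy-Schwarz. -/
lemma sq_av_mul_le (f g : X → ℝ) :
    (av fun x => f x * g x) ^ 2 ≤ (av fun x => f x ^ 2) * av fun x => g x ^ 2 := by
  unfold av
  simp only [smul_eq_mul]
  have h := Finset.sum_mul_sq_le_sq_mul_sq Finset.univ f g
  have h2 : 0 ≤ ((Fintype.card X : ℝ)⁻¹) ^ 2 := by positivity
  calc ((Fintype.card X : ℝ)⁻¹ * ∑ x, f x * g x) ^ 2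
      = ((Fintype.card X : ℝ)⁻¹) ^ 2 * (∑ x, f x * g x) ^ 2 := by ring
    _ ≤ ((Fintype.card X : ℝ)⁻¹) ^ 2 * ((∑ x, f x ^ 2) * ∑ x, g x ^ 2) :=
        mul_le_mul_of_nonneg_left h h2
    _ = _ := by ring

lemma sq_av_le [Nonempty X] (f : X → ℝ) : (av f) ^ 2 ≤ av fun x => f x ^ 2 := by
  have := sq_av_mul_le f fun _ => 1
  simpa [av_const] using this

end real

section inner

variable {H : Type} [NormedAddCommGroup H] [InnerProductSpace ℝ H]

open scoped InnerProductSpace

lemma av_inner_left (u : H) (f : X → H) : (av fun x => ⟪f x, u⟫_ℝ) = ⟪av f, u⟫_ℝ := by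
  unfold av
  rw [real_inner_smul_left, sum_inner, smul_eq_mul]

lemma av_inner_right (u : H) (f : X → H) : (av fun x => ⟪u, f x⟫_ℝ) = ⟪u, av f⟫_ℝ := by
  unfold av
  rw [real_inner_smul_right, inner_sum, smul_eq_mul]

/-- The variance. -/
lemma av_norm_sub_sq [Nonempty X] (f : X → H) :
    (av fun x => ‖f x - av f‖ ^ 2) = (av fun x => ‖f x‖ ^ 2) - ‖av f‖ ^ 2 := by
  have h : ∀ x, ‖f x - av f‖ ^ 2 = ‖f x‖ ^ 2 - 2 * ⟪f x, av f⟫_ℝ + ‖av f‖ ^ 2 := fun x =>
    norm_sub_sq_real _ _
  rw [av_congr h, av_add, av_sub, av_const]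
  have h2 : (av fun x => 2 * ⟪f x, av f⟫_ℝ) = 2 * ‖av f‖ ^ 2 := by
    have := av_smul 2 fun x => ⟪f x, av f⟫_ℝ
    simp only [smul_eq_mul] at this
    rw [this, av_inner_left, real_inner_self_eq_norm_sq]
  rw [h2]
  ring

lemma norm_av_sq_le [Nonempty X] (f : X → H) : ‖av f‖ ^ 2 ≤ av fun x => ‖f x‖ ^ 2 := by
  have h := av_norm_sub_sq f
  have h2 : 0 ≤ av fun x => ‖f x - av f‖ ^ 2 := av_nonneg fun x => by positivity
  linarith

end inner

end Helper12.GR
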