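import Mathlib

set_option autoImplicit false

/-!
Choice of the depth: a family of bounds `C / lam ^ T + e / tau ^ T` gives a power bound.
-/

namespace Helper12.GR

theorem power_bound {lam C tau θ : ℝ} (h1 : 1 < lam) (hC : 1 ≤ C) (h3 : 0 < tau) (hθ : 0 < θ) :
    ∃ C' c : ℝ, 0 < c ∧ ∀ t err : ℝ, 0 ≤ t → err ≤ 1 →
      (∀ T : ℕ, err ≤ C / lam ^ T + 9 * t ^ θ / tau ^ T) → err ≤ C' * t ^ c := by
  set tau' := min tau (1 / 2) with htau'
  have ht0 : 0 < tau' := lt_min h3 (by norm_num)
  have ht1 : tau' < 1 := (min_le_right _ _).trans_lt (by norm_num)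
  have htt : tau' ≤ tau := min_le_left _ _
  set L := -Real.log tau' with hL
  have hL0 : 0 < L := by
    have := Real.log_neg ht0 ht1
    linarith
  set Λ := Real.log lam with hΛ
  have hΛ0 : 0 < Λ := Real.log_pos h1
  set κ := θ / (2 * L) with hκ
  have hκ0 : 0 < κ := by positivity
  refine ⟨C * lam + 9, min (κ * Λ) (θ / 2), by positivity, fun t err ht herr h => ?_⟩
  rcases ht.eq_or_lt with rfl | ht'
  · have hc : (0 : ℝ) < min (κ * Λ) (θ / 2) := by positivity
    rw [Real.zero_rpow hc.ne', mul_zero]
    have h4 : Filter.Tendsto (fun T : ℕ => C / lam ^ T) Filter.atTop (nhds 0) :=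
      Filter.Tendsto.const_div_atTop (tendsto_pow_atTop_atTop_of_one_lt h1) C
    refine ge_of_tendsto' h4 fun T => ?_
    have := h T
    rwa [Real.zero_rpow hθ.ne', mul_zero, zero_div, add_zero] at this
  · rcases le_or_gt 1 t with h1t | ht1'
    · have h5 : 1 ≤ t ^ min (κ * Λ) (θ / 2) := Real.one_le_rpow h1t (by positivity)
      nlinarith [mul_pos (show (0 : ℝ) < C by linarith) (show (0 : ℝ) < lam by linarith)]
    · set ℓ := -Real.log t with hℓ
      have hℓ0 : 0 < ℓ := by
        have := Real.log_neg ht' ht1'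
        linarith
      have hpow : ∀ a : ℝ, t ^ a = Real.exp (-(a * ℓ)) := by
        intro a
        rw [Real.rpow_def_of_pos ht', hℓ]
        congr 1
        ring
      set T := ⌊κ * ℓ⌋₊ with hT
      have hT1 : (T : ℝ) ≤ κ * ℓ := Nat.floor_le (by positivity)
      have hT2 : κ * ℓ < T + 1 := Nat.lt_floor_add_one _
      have h6 : 1 / tau ^ T ≤ Real.exp (θ / 2 * ℓ) := by
        have h7 : 1 / tau ^ T ≤ 1 / tau' ^ T :=
          one_div_le_one_div_of_le (by positivity) (pow_le_pow_left₀ ht0.le htt T)
        refine h7.trans ?_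
        have h8 : 1 / tau' ^ T = Real.exp (L * T) := by
          have : tau' ^ T = Real.exp (-(L * T)) := by
            rw [hL, ← Real.exp_log (show 0 < tau' ^ T by positivity), Real.log_pow]
            congr 1
            ring
          rw [this, Real.exp_neg, one_div, inv_inv]
        rw [h8, Real.exp_le_exp]
        calc L * T ≤ L * (κ * ℓ) := mul_le_mul_of_nonneg_left hT1 hL0.le
          _ = θ / 2 * ℓ := by
            rw [hκ]
            field_simp
      have h9 : 1 / lam ^ T ≤ lam * Real.exp (-(κ * Λ * ℓ)) := by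
        have h10 : 1 / lam ^ T = Real.exp (-(Λ * T)) := by
          have : lam ^ T = Real.exp (Λ * T) := by
            rw [hΛ, ← Real.exp_log (show 0 < lam ^ T by positivity), Real.log_pow]
            congr 1
            ring
          rw [this, Real.exp_neg, one_div]
        have h11 : lam = Real.exp Λ := (Real.exp_log (by linarith)).symm
        rw [h10]
        conv_rhs => rw [h11]
        rw [← Real.exp_add, Real.exp_le_exp]
        nlinarith
      have hm1 : Real.exp (-(κ * Λ * ℓ)) ≤ t ^ min (κ * Λ) (θ / 2) := by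
        rw [hpow, Real.exp_le_exp]
        have := min_le_left (κ * Λ) (θ / 2)
        nlinarith
      have hm2 : Real.exp (-(θ / 2 * ℓ)) ≤ t ^ min (κ * Λ) (θ / 2) := by
        rw [hpow, Real.exp_le_exp]
        have := min_le_right (κ * Λ) (θ / 2)
        nlinarith
      have h12 : 9 * t ^ θ / tau ^ T ≤ 9 * Real.exp (-(θ / 2 * ℓ)) := by
        rw [mul_div_assoc, div_eq_mul_one_div (t ^ θ), hpow θ]
        have : Real.exp (-(θ * ℓ)) * (1 / tau ^ T) ≤
            Real.exp (-(θ * ℓ)) * Real.exp (θ / 2 * ℓ) :=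
          mul_le_mul_of_nonneg_left h6 (Real.exp_pos _).le
        rw [← Real.exp_add] at this
        have h13 : -(θ * ℓ) + θ / 2 * ℓ = -(θ / 2 * ℓ) := by ring
        rw [h13] at this
        linarith
      have h14 : C / lam ^ T ≤ C * (lam * Real.exp (-(κ * Λ * ℓ))) := by
        rw [div_eq_mul_one_div]
        exact mul_le_mul_of_nonneg_left h9 (by linarith)
      have h15 := h T
      have h16 : C * (lam * Real.exp (-(κ * Λ * ℓ))) ≤
          C * (lam * t ^ min (κ * Λ) (θ / 2)) := by
        apply mul_le_mul_of_nonneg_left _ (by linarith)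
        exact mul_le_mul_of_nonneg_left hm1 (by linarith)
      calc err ≤ C * (lam * t ^ min (κ * Λ) (θ / 2)) + 9 * t ^ min (κ * Λ) (θ / 2) := by linarith
        _ = (C * lam + 9) * t ^ min (κ * Λ) (θ / 2) := by ring

end Helper12.GR
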