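import Pool.Agent.Helper12.GR.Poly

set_option autoImplicit false

/-!
Cells for monoids whose groups are `2`-groups are systems of polynomial equations.

Proof sketch. A group `G` which divides `M` is a `2`-group: every `g` satisfies `g ^ (2 ^ k) = 1` for
some `k`; so its order is a power of two (`IsPGroup`, `IsPGroup.iff_card`) and at most `card M`; take
the maximum of the `D` for the finitely many possible `m`. A letter condition is one linear
equation, a group condition is the system `co (value) j = co γ j`, and intersections are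
concatenated.
-/

namespace Helper12.GR

open Helper12.BI

private lemma divides_card {M G : Type} [Monoid M] [Finite M] [Group G] [Finite G]
    (hM : TwoGroups M) (h : Divides G M) : ∃ m : ℕ, m ≤ Nat.card M ∧ Nat.card G = 2 ^ m := by
  obtain ⟨N, φ, hφ⟩ := h
  have hp : IsPGroup 2 G := by
    intro g
    obtain ⟨x, rfl⟩ := hφ g
    obtain ⟨n, k, hk⟩ := hM (x : M)
    refine ⟨k, ?_⟩
    have h1 : x ^ (n + 2 ^ k) = x ^ n := by
      apply Subtype.ext
      simpa using hk
    have h2 : (φ x) ^ (n + 2 ^ k) = (φ x) ^ n := by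
      rw [← map_pow, ← map_pow, h1]
    rw [pow_add] at h2
    exact mul_left_cancel (a := (φ x) ^ n) (by rw [h2, mul_one])
  obtain ⟨m, hm⟩ := (IsPGroup.iff_card (p := 2)).1 hp
  refine ⟨m, ?_, hm⟩
  have h1 : Nat.card G ≤ Nat.card N := Nat.card_le_card_of_surjective φ hφ
  have h2 : Nat.card N ≤ Nat.card M := Nat.card_le_card_of_injective _ Subtype.val_injective
  have h3 : m < 2 ^ m := Nat.lt_two_pow_self
  omega

private lemma sys_append {ι : Type} {D r r' : ℕ} {A B : Set (ι → ZMod 2)}
    {p : Fin r → (ι → ZMod 2) → ZMod 2} {a : Fin r → ZMod 2}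
    {p' : Fin r' → (ι → ZMod 2) → ZMod 2} {a' : Fin r' → ZMod 2}
    (hp : ∀ j, DegLe D (p j)) (hp' : ∀ j, DegLe D (p' j))
    (hA : A = {x | ∀ j, p j x = a j}) (hB : B = {x | ∀ j, p' j x = a' j}) :
    ∃ (r : ℕ) (p : Fin r → (ι → ZMod 2) → ZMod 2) (a : Fin r → ZMod 2),
        (∀ j, DegLe D (p j)) ∧ A ∩ B = {x | ∀ j, p j x = a j} := by
  refine ⟨r + r', Fin.append p p', Fin.append a a', ?_, ?_⟩
  · intro j
    refine Fin.addCases (fun i => ?_) (fun i => ?_) j
    · rw [Fin.append_left]; exact hp i
    · rw [Fin.append_right]; exact hp' i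
  · subst hA
    subst hB
    ext x
    constructor
    · rintro ⟨h1, h2⟩ j
      refine Fin.addCases (fun i => ?_) (fun i => ?_) j
      · rw [Fin.append_left, Fin.append_left]; exact h1 i
      · rw [Fin.append_right, Fin.append_right]; exact h2 i
    · intro h
      refine ⟨fun i => ?_, fun i => ?_⟩
      · have := h (Fin.castAdd r' i)
        rwa [Fin.append_left, Fin.append_left] at this
      · have := h (Fin.natAdd r i)
        rwa [Fin.append_right, Fin.append_right] at this

theorem cell_poly (M : Type) [Monoid M] [Finite M] (hM : TwoGroups M) : ∃ D : ℕ, 1 ≤ D ∧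
    ∀ (ι : Type) (P : List ι) (k : ℕ) (A : Set (ι → ZMod 2)), Cell M P k A →
      ∃ (r : ℕ) (p : Fin r → (ι → ZMod 2) → ZMod 2) (a : Fin r → ZMod 2),
        (∀ j, DegLe D (p j)) ∧ A = {x | ∀ j, p j x = a j} := by
  choose Dm hDm using group_poly
  have hle : ∀ m, m ≤ Nat.card M → Dm m ≤ (∑ i ∈ Finset.range (Nat.card M + 1), Dm i) + 1 := by
    intro m hm
    have := Finset.single_le_sum (f := Dm) (s := Finset.range (Nat.card M + 1))
      (fun i _ => Nat.zero_le _) (Finset.mem_range.2 (Nat.lt_succ_of_le hm))
    omega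
  refine ⟨(∑ i ∈ Finset.range (Nat.card M + 1), Dm i) + 1, by omega, ?_⟩
  intro ι P k A hA
  induction hA with
  | univ =>
    refine ⟨0, Fin.elim0, Fin.elim0, fun j => j.elim0, ?_⟩
    ext x
    simp
  | inter hA hB ih =>
    obtain ⟨r, p, a, hp, hAeq⟩ := ih
    cases hB with
    | letter i hi s =>
      refine sys_append (p := p) (a := a) (p' := fun _ : Fin 1 => fun x => x i)
        (a' := fun _ => s) hp (fun _ => DegLe.coord _ i) hAeq ?_
      ext x
      simp
    | group G h g γ =>
      obtain ⟨m, hm, hG⟩ := divides_card hM h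
      obtain ⟨co, hco, hdeg⟩ := hDm m G hG
      refine sys_append (p := p) (a := a) (p' := fun j x => co (gval P g x) j)
        (a' := fun j => co γ j) hp (fun j => (hdeg ι P g j).mono (hle m hm)) hAeq ?_
      ext x
      constructor
      · intro hx j
        show co (gval P g x) j = co γ j
        rw [show gval P g x = γ from hx]
      · intro hx
        exact hco (funext hx)

end Helper12.GR
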