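import Pool.Agent.Helper12.GR.Mix

set_option autoImplicit false

/-!
Products of close operators.
-/

namespace Helper12.GR

open Helper12.BI

open scoped InnerProductSpace

variable {H : Type} [NormedAddCommGroup H] [InnerProductSpace ℝ H] [CompleteSpace H]

private lemma sq_add_le {c x y p q r s : ℝ} (hc : 0 ≤ c) (hp : 0 ≤ p) (hq : 0 ≤ q) (hr : 0 ≤ r)
    (hs : 0 ≤ s) (hx : x ^ 2 ≤ c * p * q) (hy : y ^ 2 ≤ c * r * s) :
    (x + y) ^ 2 ≤ c * (p + r) * (q + s) := by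
  have h1 : (2 * (x * y)) ^ 2 ≤ (c * (p * s + r * q)) ^ 2 := by
    have h2 : (x * y) ^ 2 ≤ (c * p * q) * (c * r * s) := by
      rw [mul_pow]
      exact mul_le_mul hx hy (by positivity) (by positivity)
    nlinarith [mul_nonneg (sq_nonneg c) (sq_nonneg (p * s - r * q))]
  have h3 : 2 * (x * y) ≤ c * (p * s + r * q) :=
    (le_abs_self _).trans (abs_le_of_sq_le_sq h1 (by positivity))
  nlinarith

private lemma norm_le_of_one {T : H →L[ℝ] H} (hT : ‖T‖ ≤ 1) (v : H) : ‖T v‖ ^ 2 ≤ ‖v‖ ^ 2 := by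
  have h := T.le_opNorm v
  have h2 : ‖T‖ * ‖v‖ ≤ 1 * ‖v‖ := mul_le_mul_of_nonneg_right hT (norm_nonneg _)
  rw [one_mul] at h2
  exact pow_le_pow_left₀ (norm_nonneg _) (h.trans h2) 2

private lemma norm_adj {T : H →L[ℝ] H} (hT : ‖T‖ ≤ 1) : ‖ContinuousLinearMap.adjoint T‖ ≤ 1 := by
  rwa [LinearIsometryEquiv.norm_map]

private lemma main {lam : ℝ} (h0 : 0 ≤ lam) (h1 : lam < 1)
    (l : List ((H →L[ℝ] H) × (H →L[ℝ] H) × (H →L[ℝ] H)))
    (hl : ∀ p ∈ l, Close lam p.1 p.2.1 p.2.2) :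
    ‖(l.map fun p => p.1).prod‖ ≤ 1 ∧ ‖(l.map fun p => p.2.1 * p.2.2).prod‖ ≤ 1 ∧
    ∀ u v : H, ⟪u, (l.map fun p => p.1).prod v - (l.map fun p => p.2.1 * p.2.2).prod v⟫_ℝ ^ 2 ≤
      (lam ^ 2 / (1 - lam ^ 2)) *
        (‖u‖ ^ 2 - ‖ContinuousLinearMap.adjoint (l.map fun p => p.1).prod u‖ ^ 2) *
        (‖v‖ ^ 2 - ‖(l.map fun p => p.2.1 * p.2.2).prod v‖ ^ 2) := by
  have hlam : 0 < 1 - lam ^ 2 := by nlinarith
  induction l with
  | nil =>
    refine ⟨ContinuousLinearMap.norm_id_le, ContinuousLinearMap.norm_id_le, fun u v => ?_⟩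
    simp
  | cons p l ih =>
    obtain ⟨hZ', hW', hm⟩ := ih fun p hp => hl p (List.mem_cons_of_mem _ hp)
    have hp := hl p List.mem_cons_self
    simp only [List.map_cons, List.prod_cons]
    set Z' := (l.map fun p => p.1).prod
    set W' := (l.map fun p => p.2.1 * p.2.2).prod
    refine ⟨?_, ?_, fun u v => ?_⟩
    · exact (norm_mul_le _ _).trans (mul_le_one₀ hp.hZ (norm_nonneg _) hZ')
    · refine (norm_mul_le _ _).trans (mul_le_one₀ ?_ (norm_nonneg _) hW')
      exact (norm_mul_le _ _).trans (mul_le_one₀ hp.hX (norm_nonneg _) hp.hY)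
    · have hadj : ContinuousLinearMap.adjoint (p.1 * Z') u =
          ContinuousLinearMap.adjoint Z' (ContinuousLinearMap.adjoint p.1 u) := by
        rw [ContinuousLinearMap.mul_def, ContinuousLinearMap.adjoint_comp]
        rfl
      rw [hadj]
      have hmul : (p.1 * Z') v - (p.2.1 * p.2.2 * W') v =
          (p.1 (W' v) - p.2.1 (p.2.2 (W' v))) + p.1 (Z' v - W' v) := by
        rw [map_sub]
        simp only [ContinuousLinearMap.mul_apply]
        abel
      have hmul2 : (p.2.1 * p.2.2 * W') v = p.2.1 (p.2.2 (W' v)) := rfl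
      rw [hmul, inner_add_right, hmul2]
      have e1 : ⟪u, p.1 (Z' v - W' v)⟫_ℝ =
          ⟪ContinuousLinearMap.adjoint p.1 u, Z' v - W' v⟫_ℝ := by
        rw [ContinuousLinearMap.adjoint_inner_left]
      rw [e1]
      have a1 := norm_le_of_one (norm_adj hp.hX) u
      have a2 := norm_le_of_one (norm_adj hp.hZ) u
      have a3 := norm_le_of_one (norm_adj hZ') (ContinuousLinearMap.adjoint p.1 u)
      have a4 := norm_le_of_one hW' v
      have a5 := norm_le_of_one hp.hY (W' v)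
      have a6 := norm_le_of_one hp.hX (p.2.2 (W' v))
      have b1 := hp.sq u (W' v)
      have b2 := hp.loss u
      have b3 := hm (ContinuousLinearMap.adjoint p.1 u) v
      have c1 : ⟪u, p.1 (W' v) - p.2.1 (p.2.2 (W' v))⟫_ℝ ^ 2 ≤
          (lam ^ 2 / (1 - lam ^ 2)) * (‖u‖ ^ 2 - ‖ContinuousLinearMap.adjoint p.1 u‖ ^ 2) *
            (‖W' v‖ ^ 2 - ‖p.2.1 (p.2.2 (W' v))‖ ^ 2) := by
        refine b1.trans ?_
        have c2 : ‖u‖ ^ 2 - ‖ContinuousLinearMap.adjoint p.2.1 u‖ ^ 2 ≤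
            (‖u‖ ^ 2 - ‖ContinuousLinearMap.adjoint p.1 u‖ ^ 2) / (1 - lam ^ 2) := by
          rw [le_div_iff₀ hlam]
          linarith
        calc lam ^ 2 * (‖u‖ ^ 2 - ‖ContinuousLinearMap.adjoint p.2.1 u‖ ^ 2) *
              (‖W' v‖ ^ 2 - ‖p.2.2 (W' v)‖ ^ 2)
            ≤ lam ^ 2 * ((‖u‖ ^ 2 - ‖ContinuousLinearMap.adjoint p.1 u‖ ^ 2) / (1 - lam ^ 2)) *
              (‖W' v‖ ^ 2 - ‖p.2.1 (p.2.2 (W' v))‖ ^ 2) := by
              apply mul_le_mul
              · exact mul_le_mul_of_nonneg_left c2 (sq_nonneg _)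
              · linarith
              · linarith
              · apply mul_nonneg (sq_nonneg _)
                apply div_nonneg _ hlam.le
                linarith
          _ = _ := by ring
      refine (sq_add_le (by positivity) (by linarith) (by linarith) (by linarith) (by linarith)
        c1 b3).trans (le_of_eq ?_)
      ring

/-- A list of close operators: the products are close. -/
theorem close_list {lam : ℝ} (h0 : 0 ≤ lam) (h1 : lam < 1)
    (l : List ((H →L[ℝ] H) × (H →L[ℝ] H) × (H →L[ℝ] H)))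
    (hl : ∀ p ∈ l, Close lam p.1 p.2.1 p.2.2) :
    ‖(l.map fun p => p.1).prod - (l.map fun p => p.2.1 * p.2.2).prod‖ ≤
      lam / Real.sqrt (1 - lam ^ 2) := by
  have hlam : 0 < 1 - lam ^ 2 := by nlinarith
  obtain ⟨hZ, hW, hm⟩ := main h0 h1 l hl
  set Z := (l.map fun p => p.1).prod
  set W := (l.map fun p => p.2.1 * p.2.2).prod
  refine ContinuousLinearMap.opNorm_le_bound _ (by positivity) fun v => ?_
  have h := hm (Z v - W v) v
  rw [real_inner_self_eq_norm_sq] at h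
  have h2 : (Z - W) v = Z v - W v := rfl
  rw [h2]
  set x := ‖Z v - W v‖ with hx
  have hx0 : 0 ≤ x := norm_nonneg _
  have h3 : (x ^ 2) ^ 2 ≤ (lam ^ 2 / (1 - lam ^ 2)) * x ^ 2 * ‖v‖ ^ 2 := by
    refine h.trans ?_
    have hA := norm_le_of_one (norm_adj hZ) (Z v - W v)
    have hB := norm_le_of_one hW v
    apply mul_le_mul
    · apply mul_le_mul_of_nonneg_left _ (by positivity)
      linarith [sq_nonneg ‖ContinuousLinearMap.adjoint Z (Z v - W v)‖]
    · linarith [sq_nonneg ‖W v‖]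
    · linarith
    · positivity
  have h4 : (lam / Real.sqrt (1 - lam ^ 2) * ‖v‖) ^ 2 = (lam ^ 2 / (1 - lam ^ 2)) * ‖v‖ ^ 2 := by
    rw [mul_pow, div_pow, Real.sq_sqrt hlam.le]
  rcases hx0.eq_or_lt with h5 | h5
  · rw [← h5]
    positivity
  · apply le_of_sq_le_sq _ (by positivity)
    rw [h4]
    have h6 : 0 < x ^ 2 := by positivity
    nlinarith

end Helper12.GR
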