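import Pool.Agent.Helper12.GR.Deg

set_option autoImplicit false

/-!
Mean values, sums of independent strings, signs.

`mean_conv`: `E_(W + Y) f = E_W E_Y f (W + Y)`. `parseval`: for `f : (Fin n → ZMod 2) → ℝ` with
`f x ^ 2 = 1` and `ν` with all biases at most `ε` in absolute value,
`E_U (E_W f (W + U)) ^ 2 ≤ (E_U f) ^ 2 + ε ^ 2`: by Plancherel (from
`∑_T χ_T (x + y) = if x = y then 2 ^ n else 0`) the left side is `∑_T (a_T b_T) ^ 2` with
`a_T = E_U f χ_T`, `b_T = E_W χ_T`, and `∑_T a_T ^ 2 = E_U f ^ 2 = 1`, `b_∅ = 1`.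
-/

namespace Helper12.GR

open Helper12.BI

/-- The sign of a bit. -/
noncomputable def sg (t : ZMod 2) : ℝ := if t = 0 then 1 else -1

variable {n : ℕ}

/-- The mean value of `f`. -/
noncomputable def mean (μ f : (Fin n → ZMod 2) → ℝ) : ℝ := ∑ x, μ x * f x

/-- The distribution of the sum of two independent strings. -/
noncomputable def conv (μ ν : (Fin n → ZMod 2) → ℝ) : (Fin n → ZMod 2) → ℝ :=
  fun x => ∑ y, μ y * ν (x - y)

/-- The distribution of the sum of `d + 1` independent strings. -/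
noncomputable def iter (ν : (Fin n → ZMod 2) → ℝ) : ℕ → (Fin n → ZMod 2) → ℝ
  | 0 => ν
  | d + 1 => conv ν (iter ν d)

lemma conv_isDist {μ ν : (Fin n → ZMod 2) → ℝ} (hμ : IsDist μ) (hν : IsDist ν) :
    IsDist (conv μ ν) := by
  refine ⟨fun x => Finset.sum_nonneg fun y _ => mul_nonneg (hμ.1 y) (hν.1 _), ?_⟩
  unfold conv
  rw [Finset.sum_comm]
  have h : ∀ y : Fin n → ZMod 2, ∑ x, μ y * ν (x - y) = μ y := by
    intro y
    rw [← Finset.mul_sum]
    have h1 : ∑ x, ν (x - y) = 1 := by
      rw [← hν.2]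
      exact Fintype.sum_equiv (Equiv.subRight y) _ _ (fun x => by simp)
    rw [h1, mul_one]
  simp only [h]
  exact hμ.2

lemma iter_isDist {ν : (Fin n → ZMod 2) → ℝ} (hν : IsDist ν) (d : ℕ) : IsDist (iter ν d) := by
  induction d with
  | zero => exact hν
  | succ d ih => exact conv_isDist hν ih

lemma mean_conv (μ ν f : (Fin n → ZMod 2) → ℝ) :
    mean (conv μ ν) f = mean μ fun w => mean ν fun y => f (w + y) := by
  unfold mean conv
  simp only [Finset.sum_mul, Finset.mul_sum]
  rw [Finset.sum_comm]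
  refine Finset.sum_congr rfl fun w _ => ?_
  refine Fintype.sum_equiv (Equiv.subRight w) _ _ (fun x => ?_)
  simp only [Equiv.subRight_apply, add_sub_cancel]
  ring

lemma mean_unif_shift (f : (Fin n → ZMod 2) → ℝ) (w : Fin n → ZMod 2) :
    mean (unif (ZMod 2) n) (fun x => f (w + x)) = mean (unif (ZMod 2) n) f := by
  unfold mean unif
  exact Fintype.sum_equiv (Equiv.addLeft w) _ _ (fun x => by simp)

lemma sg_add (a b : ZMod 2) : sg (a + b) = sg a * sg b := by
  have h11 : (1 : ZMod 2) + 1 = 0 := by decide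
  have h10 : (1 : ZMod 2) ≠ 0 := by decide
  have ha : a = 0 ∨ a = 1 := by
    revert a; decide
  have hb : b = 0 ∨ b = 1 := by
    revert b; decide
  unfold sg
  rcases ha with rfl | rfl <;> rcases hb with rfl | rfl <;> simp [h11]

lemma unif_isDist : IsDist (unif (ZMod 2) n) := by
  refine ⟨fun x => by unfold unif; positivity, ?_⟩
  unfold unif
  rw [Finset.sum_const, Finset.card_univ, Fintype.card_fun, ZMod.card, Fintype.card_fin,
    nsmul_eq_mul]
  push_cast
  rw [← mul_pow]
  norm_num

private lemma sg_zero : sg 0 = 1 := by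
  simp [sg]

private lemma sg_one : sg 1 = -1 := by
  have h10 : (1 : ZMod 2) ≠ 0 := by decide
  simp [sg]

/-- The characters. -/
private noncomputable def chi (T : Finset (Fin n)) (x : Fin n → ZMod 2) : ℝ := ∏ i ∈ T, sg (x i)

private lemma chi_add (T : Finset (Fin n)) (x y : Fin n → ZMod 2) :
    chi T (x + y) = chi T x * chi T y := by
  unfold chi
  rw [← Finset.prod_mul_distrib]
  exact Finset.prod_congr rfl fun i _ => sg_add _ _

/-- The uniform mean of a nontrivial character is zero. -/
lemma mean_char {T : Finset (Fin n)} (hT : T.Nonempty) :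
    mean (unif (ZMod 2) n) (fun x => ∏ i ∈ T, sg (x i)) = 0 := by
  classical
  obtain ⟨j, hj⟩ := hT
  have h1 := mean_unif_shift (fun x : Fin n → ZMod 2 => ∏ i ∈ T, sg (x i))
    (Pi.single j (1 : ZMod 2))
  have h2 : (fun x : Fin n → ZMod 2 => ∏ i ∈ T, sg (((Pi.single j (1 : ZMod 2) :
      Fin n → ZMod 2) + x) i)) = fun x => -∏ i ∈ T, sg (x i) := by
    funext x
    have h3 := chi_add T (Pi.single j (1 : ZMod 2)) x
    unfold chi at h3
    rw [h3]
    have h4 : ∏ i ∈ T, sg ((Pi.single j (1 : ZMod 2) : Fin n → ZMod 2) i) = -1 := by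
      rw [Finset.prod_eq_single j]
      · rw [Pi.single_eq_same, sg_one]
      · intro i _ hij
        rw [Pi.single_eq_of_ne hij, sg_zero]
      · intro h
        exact absurd hj h
    rw [h4]
    ring
  rw [h2] at h1
  have h5 : mean (unif (ZMod 2) n) (fun x => -∏ i ∈ T, sg (x i)) =
      -mean (unif (ZMod 2) n) (fun x => ∏ i ∈ T, sg (x i)) := by
    unfold mean
    rw [← Finset.sum_neg_distrib]
    exact Finset.sum_congr rfl fun x _ => by ring
  rw [h5] at h1
  linarith

/-- Orthogonality. -/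
private lemma sum_chi (x y : Fin n → ZMod 2) :
    ∑ T : Finset (Fin n), chi T (x + y) = if x = y then (2 : ℝ) ^ n else 0 := by
  classical
  have h1 : ∑ T : Finset (Fin n), chi T (x + y) = ∏ i : Fin n, (1 + sg ((x + y) i)) := by
    rw [Finset.prod_one_add]
    unfold chi
    rw [Finset.powerset_univ]
  rw [h1]
  split_ifs with h
  · subst h
    have h2 : ∀ i, (x + x) i = 0 := fun i => CharTwo.add_self_eq_zero _
    simp only [h2, sg_zero, Finset.prod_const, Finset.card_univ, Fintype.card_fin]
    norm_num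
  · obtain ⟨i, hi⟩ := Function.ne_iff.1 h
    refine Finset.prod_eq_zero (Finset.mem_univ i) ?_
    have h3 : (x + y) i ≠ 0 := by
      intro h0
      apply hi
      rw [Pi.add_apply] at h0
      exact CharTwo.add_eq_zero.1 h0
    have h4 : ∀ t : ZMod 2, t ≠ 0 → t = 1 := by decide
    rw [h4 _ h3, sg_one]
    ring

private lemma unif_val (x : Fin n → ZMod 2) : unif (ZMod 2) n x = ((2 : ℝ) ^ n)⁻¹ := by
  unfold unif
  rw [ZMod.card]
  push_cast
  rw [one_div, inv_pow]

private lemma plancherel (g : (Fin n → ZMod 2) → ℝ) :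
    ∑ T : Finset (Fin n), (mean (unif (ZMod 2) n) fun x => g x * chi T x) ^ 2 =
      mean (unif (ZMod 2) n) fun x => g x ^ 2 := by
  classical
  have hN : ((2 : ℝ) ^ n) ≠ 0 := by positivity
  have h1 : ∀ T : Finset (Fin n), (mean (unif (ZMod 2) n) fun x => g x * chi T x) ^ 2 =
      ∑ x, ∑ y, ((2 : ℝ) ^ n)⁻¹ * ((2 : ℝ) ^ n)⁻¹ * (g x * g y) * chi T (x + y) := by
    intro T
    unfold mean
    rw [pow_two, Finset.sum_mul_sum]
    refine Finset.sum_congr rfl fun x _ => Finset.sum_congr rfl fun y _ => ?_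
    rw [unif_val, unif_val, chi_add]
    ring
  simp only [h1]
  rw [Finset.sum_comm]
  unfold mean
  refine Finset.sum_congr rfl fun x _ => ?_
  rw [Finset.sum_comm]
  have h2 : ∀ y : Fin n → ZMod 2,
      ∑ T : Finset (Fin n), ((2 : ℝ) ^ n)⁻¹ * ((2 : ℝ) ^ n)⁻¹ * (g x * g y) * chi T (x + y) =
        if x = y then ((2 : ℝ) ^ n)⁻¹ * g x ^ 2 else 0 := by
    intro y
    rw [← Finset.mul_sum, sum_chi]
    split_ifs with h
    · subst h
      field_simp
    · ring
  simp only [h2]
  rw [Finset.sum_ite_eq, if_pos (Finset.mem_univ x), unif_val]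

private lemma mean_transl_chi (ν f : (Fin n → ZMod 2) → ℝ) (T : Finset (Fin n)) :
    (mean (unif (ZMod 2) n) fun u => (mean ν fun w => f (w + u)) * chi T u) =
      (mean ν fun w => chi T w) * mean (unif (ZMod 2) n) fun u => f u * chi T u := by
  have h1 : ∀ w : Fin n → ZMod 2,
      (mean (unif (ZMod 2) n) fun u => f (w + u) * chi T u) =
        chi T w * mean (unif (ZMod 2) n) fun u => f u * chi T u := by
    intro w
    have h2 := mean_unif_shift (fun u => f u * chi T (w + u)) w
    have h3 : ∀ u : Fin n → ZMod 2, w + (w + u) = u := by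
      intro u
      funext i
      simp only [Pi.add_apply]
      rw [← add_assoc, CharTwo.add_self_eq_zero, zero_add]
    simp only [h3] at h2
    rw [h2]
    unfold mean
    rw [Finset.mul_sum]
    refine Finset.sum_congr rfl fun u _ => ?_
    simp only [chi_add]
    ring
  have h4 : (mean (unif (ZMod 2) n) fun u => (mean ν fun w => f (w + u)) * chi T u) =
      mean ν fun w => mean (unif (ZMod 2) n) fun u => f (w + u) * chi T u := by
    unfold mean
    simp only [Finset.sum_mul, Finset.mul_sum]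
    rw [Finset.sum_comm]
    refine Finset.sum_congr rfl fun w _ => Finset.sum_congr rfl fun u _ => ?_
    ring
  rw [h4]
  simp only [h1]
  unfold mean
  rw [Finset.sum_mul]
  refine Finset.sum_congr rfl fun w _ => ?_
  ring

theorem parseval {ν : (Fin n → ZMod 2) → ℝ} (hν : IsDist ν) {ε : ℝ}
    (hb : ∀ T : Finset (Fin n), T.Nonempty → |mean ν fun x => ∏ i ∈ T, sg (x i)| ≤ ε)
    (f : (Fin n → ZMod 2) → ℝ) (hf : ∀ x, f x ^ 2 = 1) :
    mean (unif (ZMod 2) n) (fun u => (mean ν fun w => f (w + u)) ^ 2) ≤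
      mean (unif (ZMod 2) n) f ^ 2 + ε ^ 2 := by
  classical
  rw [← plancherel]
  simp only [mean_transl_chi]
  have hsum : ∑ T : Finset (Fin n), (mean (unif (ZMod 2) n) fun x => f x * chi T x) ^ 2 = 1 := by
    rw [plancherel]
    simp only [hf]
    have := (unif_isDist (n := n)).2
    unfold mean
    simpa using this
  have hchi0 : ∀ x : Fin n → ZMod 2, chi ∅ x = 1 := by
    intro x
    simp [chi]
  have hterm : ∀ T : Finset (Fin n),
      ((mean ν fun w => chi T w) * mean (unif (ZMod 2) n) fun u => f u * chi T u) ^ 2 ≤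
        (if T = ∅ then mean (unif (ZMod 2) n) f ^ 2 else 0) +
          ε ^ 2 * (mean (unif (ZMod 2) n) fun x => f x * chi T x) ^ 2 := by
    intro T
    split_ifs with h
    · subst h
      have h1 : (mean ν fun w => chi ∅ w) = 1 := by
        simp only [hchi0]
        unfold mean
        simpa using hν.2
      rw [h1]
      simp only [hchi0, mul_one, one_mul]
      have : 0 ≤ ε ^ 2 * mean (unif (ZMod 2) n) (fun x => f x) ^ 2 := by positivity
      linarith
    · have h1 := hb T (Finset.nonempty_iff_ne_empty.2 h)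
      have h2 : (mean ν fun w => chi T w) ^ 2 ≤ ε ^ 2 := by
        rw [← sq_abs]
        exact pow_le_pow_left₀ (abs_nonneg _) h1 2
      rw [mul_pow, zero_add]
      exact mul_le_mul_of_nonneg_right h2 (sq_nonneg _)
  calc _ ≤ ∑ T : Finset (Fin n), ((if T = ∅ then mean (unif (ZMod 2) n) f ^ 2 else 0) +
          ε ^ 2 * (mean (unif (ZMod 2) n) fun x => f x * chi T x) ^ 2) :=
        Finset.sum_le_sum fun T _ => hterm T
    _ = _ := by
        rw [Finset.sum_add_distrib, ← Finset.mul_sum, hsum, Finset.sum_ite_eq',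
          if_pos (Finset.mem_univ _), mul_one]

end Helper12.GR
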