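import Pool.Agent.Helper12.GR.Rep
import Pool.Agent.Helper12.GR.Mean

set_option autoImplicit false

/-!
Independent biased coins.

Hints. `coins_sum`: induction on `n` with `Fin.consEquiv`, `List.ofFn_succ` (compare `gen_av_ofFn` in
Gen.lean). `coins_perm`: substitute `x ∘ σ` (`Equiv.sum_comp` for `Equiv.arrowCongr`).
`prob_coins_op`: like `key` in the proof of `inw_fools` in Rep.lean.
-/

namespace Helper12.GR

open Helper12.BI

variable {n : ℕ}

/-- Independent bits: the bit `i` is `0` with probability `(1 + β i) / 2` and `1` with probability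
`(1 - β i) / 2`. -/
noncomputable def coins (β : Fin n → ℝ) : (Fin n → ZMod 2) → ℝ :=
  fun x => ∏ i, (1 + sg (x i) * β i) / 2

private lemma zm_cases (s : ZMod 2) : s = 0 ∨ s = 1 := by
  revert s; decide

private lemma sg_z : sg 0 = 1 := by simp [sg]

private lemma sg_o : sg 1 = -1 := by
  have h10 : (1 : ZMod 2) ≠ 0 := by decide
  simp [sg]

private lemma sum_zm (f : ZMod 2 → ℝ) : ∑ s, f s = f 0 + f 1 := by
  exact Fin.sum_univ_two f

lemma coins_isDist {β : Fin n → ℝ} (h : ∀ i, |β i| ≤ 1) : IsDist (coins β) := by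
  refine ⟨fun x => ?_, ?_⟩
  · refine Finset.prod_nonneg fun i _ => ?_
    have hi := abs_le.1 (h i)
    rcases zm_cases (x i) with hx | hx
    · rw [hx, sg_z]
      linarith [hi.1]
    · rw [hx, sg_o]
      linarith [hi.2]
  · unfold coins
    have h1 := Finset.prod_univ_sum (fun _ : Fin n => (Finset.univ : Finset (ZMod 2)))
      (fun (i : Fin n) (s : ZMod 2) => (1 + sg s * β i) / 2)
    rw [Fintype.piFinset_univ] at h1
    rw [← h1]
    refine Finset.prod_eq_one fun i _ => ?_
    rw [sum_zm, sg_z, sg_o]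
    ring

lemma coins_zero : coins (fun _ : Fin n => (0 : ℝ)) = unif (ZMod 2) n := by
  funext x
  unfold coins unif
  simp only [mul_zero, add_zero]
  rw [Finset.prod_const, Finset.card_univ, Fintype.card_fin]
  simp [ZMod.card]

/-- A change of the order. -/
lemma coins_perm (β : Fin n → ℝ) (σ : Equiv.Perm (Fin n)) (B : Set (Fin n → ZMod 2)) :
    prob (coins β) {x | x ∘ σ ∈ B} = prob (coins (β ∘ σ)) B := by
  unfold prob
  have key : ∀ x : Fin n → ZMod 2, coins (β ∘ σ) (x ∘ σ) = coins β x := by
    intro x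
    unfold coins
    exact Equiv.prod_comp σ (fun i => (1 + sg (x i) * β i) / 2)
  rw [← Equiv.sum_comp (Equiv.arrowCongr σ.symm (Equiv.refl (ZMod 2)))
    (fun x => B.indicator (coins (β ∘ σ)) x)]
  refine Finset.sum_congr rfl fun x _ => ?_
  have hx : (Equiv.arrowCongr σ.symm (Equiv.refl (ZMod 2))) x = x ∘ σ := rfl
  rw [hx]
  by_cases hB : x ∘ σ ∈ B
  · have hm : x ∈ {x : Fin n → ZMod 2 | x ∘ σ ∈ B} := hB
    rw [Set.indicator_of_mem hB, Set.indicator_of_mem hm, key]
  · have hm : x ∉ {x : Fin n → ZMod 2 | x ∘ σ ∈ B} := hB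
    rw [Set.indicator_of_notMem hB, Set.indicator_of_notMem hm]

/-- The mean value of a letter. -/
noncomputable def cm {R : Type} [Ring R] [Algebra ℝ R] (b : ℝ) (A : ZMod 2 → R) : R :=
  ((1 + b) / 2) • A 0 + ((1 - b) / 2) • A 1

lemma coins_sum {R : Type} [Ring R] [Algebra ℝ R] (β : Fin n → ℝ) (A : Fin n → ZMod 2 → R) :
    ∑ x, coins β x • (List.ofFn fun t => A t (x t)).prod =
      (List.ofFn fun t => cm (β t) (A t)).prod := by
  induction n with
  | zero =>
    simp [coins]
  | succ n ih =>
    rw [List.ofFn_succ, List.prod_cons, ← ih (fun t => β t.succ) (fun t => A t.succ)]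
    rw [← Equiv.sum_comp (Fin.consEquiv fun _ : Fin (n + 1) => ZMod 2)]
    rw [Fintype.sum_prod_type, Finset.mul_sum, Finset.sum_comm]
    refine Finset.sum_congr rfl fun w _ => ?_
    have hs : ∀ F : ZMod 2 → R, ∑ s, F s = F 0 + F 1 := fun F => Fin.sum_univ_two F
    rw [hs]
    have hc : ∀ s : ZMod 2, coins β ((Fin.consEquiv fun _ : Fin (n + 1) => ZMod 2) (s, w)) •
        (List.ofFn fun t => A t ((Fin.consEquiv fun _ : Fin (n + 1) => ZMod 2) (s, w) t)).prod =
        (((1 + sg s * β 0) / 2) • A 0 s) *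
          (coins (fun t : Fin n => β t.succ) w • (List.ofFn fun t : Fin n => A t.succ (w t)).prod) := by
      intro s
      have h0 : (Fin.consEquiv fun _ : Fin (n + 1) => ZMod 2) (s, w) = Fin.cons s w := rfl
      rw [h0, List.ofFn_succ, List.prod_cons, smul_mul_smul_comm]
      unfold coins
      rw [Fin.prod_univ_succ]
      simp only [Fin.cons_zero, Fin.cons_succ]
    rw [hc, hc, ← add_mul]
    congr 1
    unfold cm
    rw [sg_z, sg_o, one_mul]
    congr 3
    ring

open RepAux in
open Classical in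
/-- The probability of a cell is a matrix coefficient of the product of the mean letters. -/
lemma prob_coins_op {G : Type} [Group G] [Fintype G] (β : Fin n → ℝ) (Q : Finset (Fin n))
    (a : Fin n → ZMod 2) (g : Fin n → ZMod 2 → G) (γ : G) :
    prob (coins β) (cube Q a ∩ {x | value g x = γ}) =
      co γ (List.ofFn fun t => cm (β t) fun s =>
        (if t ∈ Q ∧ s ≠ a t then 0 else rho (g t s) :
          EuclideanSpace ℝ G →L[ℝ] EuclideanSpace ℝ G)).prod := by
  have key : ∀ x : Fin n → ZMod 2,
      co γ (List.ofFn fun t : Fin n => (if t ∈ Q ∧ x t ≠ a t then 0 else rho (g t (x t)) :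
          EuclideanSpace ℝ G →L[ℝ] EuclideanSpace ℝ G)).prod =
        (cube Q a ∩ {x | value g x = γ}).indicator (fun _ => (1 : ℝ)) x := by
    intro x
    by_cases hx : x ∈ cube Q a
    · have h1 : (List.ofFn fun t : Fin n => (if t ∈ Q ∧ x t ≠ a t then 0 else rho (g t (x t)) :
          EuclideanSpace ℝ G →L[ℝ] EuclideanSpace ℝ G)) =
          (List.ofFn fun t : Fin n => g t (x t)).map rho := by
        rw [List.map_ofFn]
        congr 1
        funext t
        rw [if_neg, Function.comp_apply]
        rintro ⟨h2, h3⟩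
        exact h3 (hx t h2)
      rw [h1]
      show (((List.ofFn fun t : Fin n => g t (x t)).map rho).prod (dl 1)) γ = _
      rw [prod_dl, mul_one]
      unfold dl
      by_cases h2 : value g x = γ
      · have hm : x ∈ cube Q a ∩ {x | value g x = γ} := ⟨hx, h2⟩
        rw [Set.indicator_of_mem hm]
        have h3 : (List.ofFn fun t : Fin n => g t (x t)).prod = γ := h2
        rw [h3]
        simp
      · rw [Set.indicator_of_notMem fun h => h2 h.2]
        have h3 : (List.ofFn fun t : Fin n => g t (x t)).prod ≠ γ := h2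
        simp [Ne.symm h3]
    · rw [Set.indicator_of_notMem fun h => hx h.1]
      have h1 : ∃ t ∈ Q, x t ≠ a t := by
        by_contra h
        push Not at h
        exact hx h
      obtain ⟨t, h2, h3⟩ := h1
      rw [List.prod_eq_zero, map_zero]
      rw [List.mem_ofFn]
      exact ⟨t, by rw [if_pos ⟨h2, h3⟩]⟩
  rw [← coins_sum, map_sum]
  unfold prob
  refine Finset.sum_congr rfl fun x _ => ?_
  rw [map_smul, key x, smul_eq_mul]
  by_cases hm : x ∈ cube Q a ∩ {x | value g x = γ}
  · rw [Set.indicator_of_mem hm, Set.indicator_of_mem hm, mul_one]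
  · rw [Set.indicator_of_notMem hm, Set.indicator_of_notMem hm, mul_zero]

end Helper12.GR
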