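import Pool.Agent.Helper12.GR.CoinStep
import Pool.Agent.Helper12.GR.Bound

set_option autoImplicit false

/-!
Biased coins fool programs over groups, also when letters are fixed.
-/

namespace Helper12.GR

open Helper12.BI

open scoped InnerProductSpace

section

variable {H : Type} [NormedAddCommGroup H] [InnerProductSpace ℝ H] [CompleteSpace H]

private lemma sq_add_le' {c x y p q r s : ℝ} (hc : 0 ≤ c) (hp : 0 ≤ p) (hq : 0 ≤ q) (hr : 0 ≤ r)
    (hs : 0 ≤ s) (hx : x ^ 2 ≤ c * p * q) (hy : y ^ 2 ≤ c * r * s) :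
    (x + y) ^ 2 ≤ c * (p + r) * (q + s) := by
  have h1 : (2 * (x * y)) ^ 2 ≤ (c * (p * s + r * q)) ^ 2 := by
    have h2 : (x * y) ^ 2 ≤ (c * p * q) * (c * r * s) := by
      rw [mul_pow]
      exact mul_le_mul hx hy (by positivity) (by positivity)
    nlinarith [mul_nonneg (sq_nonneg c) (sq_nonneg (p * s - r * q))]
  have h3 : 2 * (x * y) ≤ c * (p * s + r * q) :=
    (le_abs_self _).trans (abs_le_of_sq_le_sq h1 (by positivity))
  nlinarith

private lemma norm_le_of_one' {T : H →L[ℝ] H} (hT : ‖T‖ ≤ 1) (v : H) :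
    ‖T v‖ ^ 2 ≤ ‖v‖ ^ 2 := by
  have h := T.le_opNorm v
  have h2 : ‖T‖ * ‖v‖ ≤ 1 * ‖v‖ := mul_le_mul_of_nonneg_right hT (norm_nonneg _)
  rw [one_mul] at h2
  exact pow_le_pow_left₀ (norm_nonneg _) (h.trans h2) 2

private lemma norm_adj' {T : H →L[ℝ] H} (hT : ‖T‖ ≤ 1) : ‖ContinuousLinearMap.adjoint T‖ ≤ 1 := by
  rwa [LinearIsometryEquiv.norm_map]

private lemma main' {kap : ℝ} (l : List ((H →L[ℝ] H) × (H →L[ℝ] H)))
    (hl : ∀ p ∈ l, Near kap p.1 p.2) :
    ‖(l.map fun p => p.1).prod‖ ≤ 1 ∧ ‖(l.map fun p => p.2).prod‖ ≤ 1 ∧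
    ∀ u v : H, ⟪u, (l.map fun p => p.1).prod v - (l.map fun p => p.2).prod v⟫_ℝ ^ 2 ≤
      kap ^ 2 * (‖u‖ ^ 2 - ‖ContinuousLinearMap.adjoint (l.map fun p => p.1).prod u‖ ^ 2) *
        (‖v‖ ^ 2 - ‖(l.map fun p => p.2).prod v‖ ^ 2) := by
  induction l with
  | nil =>
    refine ⟨ContinuousLinearMap.norm_id_le, ContinuousLinearMap.norm_id_le, fun u v => ?_⟩
    simp
  | cons p l ih =>
    obtain ⟨hZ', hW', hm⟩ := ih fun p hp => hl p (List.mem_cons_of_mem _ hp)
    have hp := hl p List.mem_cons_self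
    simp only [List.map_cons, List.prod_cons]
    set Z' := (l.map fun p => p.1).prod
    set W' := (l.map fun p => p.2).prod
    refine ⟨?_, ?_, fun u v => ?_⟩
    · exact (norm_mul_le _ _).trans (mul_le_one₀ hp.hY (norm_nonneg _) hZ')
    · exact (norm_mul_le _ _).trans (mul_le_one₀ hp.hX (norm_nonneg _) hW')
    · have hadj : ContinuousLinearMap.adjoint (p.1 * Z') u =
          ContinuousLinearMap.adjoint Z' (ContinuousLinearMap.adjoint p.1 u) := by
        rw [ContinuousLinearMap.mul_def, ContinuousLinearMap.adjoint_comp]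
        rfl
      rw [hadj]
      have hmul : (p.1 * Z') v - (p.2 * W') v =
          (p.1 (W' v) - p.2 (W' v)) + p.1 (Z' v - W' v) := by
        rw [map_sub]
        change p.1 (Z' v) - p.2 (W' v) = _
        abel
      have hmul2 : (p.2 * W') v = p.2 (W' v) := rfl
      rw [hmul, inner_add_right, hmul2]
      have e1 : ⟪u, p.1 (Z' v - W' v)⟫_ℝ =
          ⟪ContinuousLinearMap.adjoint p.1 u, Z' v - W' v⟫_ℝ := by
        rw [ContinuousLinearMap.adjoint_inner_left]
      rw [e1]
      have a2 := norm_le_of_one' (norm_adj' hp.hY) u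
      have a3 := norm_le_of_one' (norm_adj' hZ') (ContinuousLinearMap.adjoint p.1 u)
      have a4 := norm_le_of_one' hW' v
      have a5 := norm_le_of_one' hp.hX (W' v)
      refine (sq_add_le' (sq_nonneg kap) (by linarith) (by linarith) (by linarith) (by linarith)
        (hp.sq u (W' v)) (hm (ContinuousLinearMap.adjoint p.1 u) v)).trans (le_of_eq ?_)
      ring

/-- Products of small perturbations. -/
theorem near_list {kap : ℝ} (h0 : 0 ≤ kap) (l : List ((H →L[ℝ] H) × (H →L[ℝ] H)))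
    (hl : ∀ p ∈ l, Near kap p.1 p.2) :
    ‖(l.map fun p => p.1).prod - (l.map fun p => p.2).prod‖ ≤ kap := by
  obtain ⟨hZ, hW, hm⟩ := main' l hl
  set Z := (l.map fun p => p.1).prod
  set W := (l.map fun p => p.2).prod
  refine ContinuousLinearMap.opNorm_le_bound _ h0 fun v => ?_
  have h := hm (Z v - W v) v
  rw [real_inner_self_eq_norm_sq] at h
  have h2 : (Z - W) v = Z v - W v := rfl
  rw [h2]
  set x := ‖Z v - W v‖ with hx
  have hx0 : 0 ≤ x := norm_nonneg _
  have h3 : (x ^ 2) ^ 2 ≤ kap ^ 2 * x ^ 2 * ‖v‖ ^ 2 := by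
    refine h.trans ?_
    have hA := norm_le_of_one' (norm_adj' hZ) (Z v - W v)
    have hB := norm_le_of_one' hW v
    apply mul_le_mul
    · apply mul_le_mul_of_nonneg_left _ (by positivity)
      linarith [sq_nonneg ‖ContinuousLinearMap.adjoint Z (Z v - W v)‖]
    · linarith [sq_nonneg ‖W v‖]
    · linarith
    · positivity
  have h4 : (kap * ‖v‖) ^ 2 = kap ^ 2 * ‖v‖ ^ 2 := by ring
  rcases hx0.eq_or_lt with h5 | h5
  · rw [← h5]
    positivity
  · apply le_of_sq_le_sq _ (by positivity)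
    rw [h4]
    have h6 : 0 < x ^ 2 := by positivity
    nlinarith

end

open RepAux in
/-- Biased coins fool group programs with fixed letters, in the standard order. -/
theorem coins_fools' {n : ℕ} {β : Fin n → ℝ} {ε : ℝ} (hε0 : 0 ≤ ε) (hβ : ∀ i, |β i| ≤ ε)
    (hε : ε ≤ 1 / 2) (Q : Finset (Fin n)) (a : Fin n → ZMod 2) (G : Type) [Group G]
    [Finite G] (g : Fin n → ZMod 2 → G) (γ : G) :
    |prob (coins β) (cube Q a ∩ {x | value g x = γ})
      - prob (unif (ZMod 2) n) (cube Q a ∩ {x | value g x = γ})| ≤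
      4 * Nat.card G * ε := by
  classical
  let _ : Fintype G := Fintype.ofFinite G
  rw [← coins_zero, prob_coins_op, prob_coins_op, ← map_sub]
  refine (co_le γ _).trans ?_
  rw [Nat.card_eq_fintype_card]
  have key : ∀ X Y : Fin n → EuclideanSpace ℝ G →L[ℝ] EuclideanSpace ℝ G,
      (∀ t, Near (4 * Fintype.card G * ε) (X t) (Y t)) →
      ‖(List.ofFn X).prod - (List.ofFn Y).prod‖ ≤ 4 * Fintype.card G * ε := by
    intro X Y hXY
    have h := near_list (H := EuclideanSpace ℝ G) (kap := 4 * Fintype.card G * ε) (by positivity)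
      (List.ofFn fun t : Fin n => (X t, Y t)) (by
        intro p hp
        rw [List.mem_ofFn] at hp
        obtain ⟨t, rfl⟩ := hp
        exact hXY t)
    rw [List.map_ofFn, List.map_ofFn] at h
    exact h
  refine key _ _ fun t => ?_
  convert coin_step (G := G) (hβ t) hε (t ∈ Q) (a t) (g t) using 2 <;> (funext s; congr)

/-- Biased coins fool group programs with fixed letters. -/
theorem coins_fools {n : ℕ} {β : Fin n → ℝ} {ε : ℝ} (hε0 : 0 ≤ ε) (hβ : ∀ i, |β i| ≤ ε)
    (hε : ε ≤ 1 / 2)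
    (σ : Equiv.Perm (Fin n)) (Q : Finset (Fin n)) (a : Fin n → ZMod 2) (G : Type) [Group G]
    [Finite G] (g : Fin n → ZMod 2 → G) (γ : G) :
    |prob (coins β) (cube Q a ∩ {x | value g (x ∘ σ) = γ})
      - prob (unif (ZMod 2) n) (cube Q a ∩ {x | value g (x ∘ σ) = γ})| ≤
      4 * Nat.card G * ε := by
  classical
  have hset : cube Q a ∩ {x | value g (x ∘ σ) = γ} =
      {x | x ∘ σ ∈ cube (Q.map σ.symm.toEmbedding) (a ∘ σ) ∩ {x | value g x = γ}} := by
    ext x
    simp only [cube, Set.mem_inter_iff, Set.mem_setOf_eq, Finset.mem_map_equiv, Equiv.symm_symm,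
      Function.comp_apply]
    refine and_congr_left fun _ => ⟨fun h i hi => h _ hi, fun h i hi => ?_⟩
    have := h (σ.symm i)
    rw [Equiv.apply_symm_apply] at this
    exact this hi
  rw [hset, ← coins_zero, coins_perm, coins_perm]
  have h := coins_fools' hε0 (β := β ∘ σ) (fun i => hβ _) hε (Q.map σ.symm.toEmbedding) (a ∘ σ) G
    g γ
  rw [← coins_zero] at h
  exact h

end Helper12.GR
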