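import Pool.Agent.Helper12.GR.NegProg
import Pool.Agent.Helper12.GR.CoinDef

set_option autoImplicit false

/-!
The coin problem for monoids whose blocks are not orthodox.

Proof sketch. The program of `not_reduces` in NegProg.lean with `k + 1 = W`, `N = 2 ^ W` blocks of
`W` bits, `F = {m | y * m ≠ y}`. For fair coins the acceptance probability is at least `1 / 3`, as in
the proof of `not_reduces` (for `ZMod 2` instead of `Fin 2`, definitionally the same). A string without
zero block is not accepted; a given block is zero with probability `((1 - ε) / 2) ^ W` for the biased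
coins (`P (x_i = 0) = (1 - ε) / 2`), so by the union bound the acceptance probability is at most
`2 ^ W * ((1 - ε) / 2) ^ W = (1 - ε) ^ W ≤ exp (- ε W) ≤ exp (-2) ≤ 1 / 6`.
-/

namespace Helper12.GR

open Helper12.BI

namespace CoinNeg

open NegProg in
/-- The fair coins. -/
theorem fair_third {M : Type} [Monoid M] {u v y : M}
    (hd2 : ∀ l1 l2 : List ℕ, 0 ∉ l1 → 0 ∉ l2 →
      y * ((l1 ++ 0 :: l2).map fun r => u ^ r * v).prod ≠ y) (k : ℕ) :
    1 / 3 ≤ prob (unif (Fin 2) (2 ^ (k + 1) * (k + 1)))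
      {x | value (NegRectProg.prog u v (2 ^ (k + 1)) k) x ∈ {m | y * m ≠ y}} := by
  classical
  have hsub : ∀ x : Fin (2 ^ (k + 1) * (k + 1)) → Fin 2, OneZero (2 ^ (k + 1)) k x →
      x ∈ {x | value (NegRectProg.prog u v (2 ^ (k + 1)) k) x ∈ {m | y * m ≠ y}} := by
    rintro x ⟨a, ha, hb⟩
    show y * value (NegRectProg.prog u v (2 ^ (k + 1)) k) x ≠ y
    rw [NegRectProg.value_prog]
    obtain ⟨l1, l2, e, h1, h2⟩ := split_ofFn
      (fun a : Fin (2 ^ (k + 1)) => ∑ j : Fin (k + 1),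
        ((x (finProdFinEquiv (a, j)) : Fin 2) : ℕ)) a
      (Finset.sum_eq_zero fun j _ => by rw [ha j]; rfl)
      (fun b hba h0 => by
        obtain ⟨j, hj⟩ := hb b hba
        exact hj (Fin.ext ((Finset.sum_eq_zero_iff.mp h0) j (Finset.mem_univ j))))
    rw [e]
    exact hd2 l1 l2 h1 h2
  refine (third_le k).trans ?_
  unfold prob unif
  have h1 : ∑ x : Fin (2 ^ (k + 1) * (k + 1)) → Fin 2,
      (if OneZero (2 ^ (k + 1)) k x then (1 / 2 : ℝ) ^ (2 ^ (k + 1) * (k + 1)) else 0) ≤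
      ∑ x : Fin (2 ^ (k + 1) * (k + 1)) → Fin 2,
      Set.indicator {x | value (NegRectProg.prog u v (2 ^ (k + 1)) k) x ∈ {m | y * m ≠ y}}
        (fun _ => (1 / (Fintype.card (Fin 2) : ℝ)) ^ (2 ^ (k + 1) * (k + 1))) x := by
    apply Finset.sum_le_sum
    intro x _
    by_cases hx : OneZero (2 ^ (k + 1)) k x
    · rw [if_pos hx, Set.indicator_of_mem (hsub x hx), Fintype.card_fin, Nat.cast_ofNat]
    · rw [if_neg hx]
      exact Set.indicator_nonneg (fun _ _ => by positivity) x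
  refine le_trans ?_ h1
  rw [← Finset.sum_filter, Finset.sum_const, nsmul_eq_mul, mul_comm]
  exact mul_le_mul_of_nonneg_right (by exact_mod_cast count_one (2 ^ (k + 1)) k) (by positivity)

/-- The probability that some given biased bits are zero. -/
theorem prob_zeros {n : ℕ} (ε : ℝ) (P : Finset (Fin n)) :
    prob (coins fun _ : Fin n => -ε) {x | ∀ i ∈ P, x i = 0} = ((1 - ε) / 2) ^ P.card := by
  classical
  unfold prob
  have h1 : ∀ x : Fin n → ZMod 2,
      Set.indicator {x | ∀ i ∈ P, x i = 0} (coins fun _ : Fin n => -ε) x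
      = ∏ i, (fun (i : Fin n) (s : ZMod 2) =>
          if i ∈ P ∧ s ≠ 0 then (0 : ℝ) else (1 + sg s * -ε) / 2) i (x i) := by
    intro x
    by_cases hx : x ∈ {x : Fin n → ZMod 2 | ∀ i ∈ P, x i = 0}
    · rw [Set.indicator_of_mem hx]
      unfold coins
      refine Finset.prod_congr rfl fun i _ => ?_
      show _ = if i ∈ P ∧ x i ≠ 0 then (0 : ℝ) else (1 + sg (x i) * -ε) / 2
      rw [if_neg]
      rintro ⟨h1, h2⟩
      exact h2 (hx i h1)
    · rw [Set.indicator_of_notMem hx]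
      have hx' : ∃ i ∈ P, x i ≠ 0 := by
        by_contra hcon
        push Not at hcon
        exact hx hcon
      obtain ⟨i, hi, hi'⟩ := hx'
      symm
      refine Finset.prod_eq_zero (Finset.mem_univ i) ?_
      show (if i ∈ P ∧ x i ≠ 0 then (0 : ℝ) else (1 + sg (x i) * -ε) / 2) = 0
      rw [if_pos ⟨hi, hi'⟩]
  rw [Finset.sum_congr rfl (fun x _ => h1 x)]
  have h2 := Finset.prod_univ_sum (fun _ : Fin n => (Finset.univ : Finset (ZMod 2)))
    (fun (i : Fin n) (s : ZMod 2) => if i ∈ P ∧ s ≠ 0 then (0 : ℝ) else (1 + sg s * -ε) / 2)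
  rw [Fintype.piFinset_univ] at h2
  rw [← h2]
  have h3 : ∀ i : Fin n, ∑ s : ZMod 2,
      (if i ∈ P ∧ s ≠ 0 then (0 : ℝ) else (1 + sg s * -ε) / 2) =
      if i ∈ P then (1 - ε) / 2 else 1 := by
    intro i
    have h4 : ∀ g : ZMod 2 → ℝ, ∑ s, g s = g 0 + g 1 := fun g => Fin.sum_univ_two g
    rw [h4]
    have h10 : (1 : ZMod 2) ≠ 0 := one_ne_zero
    unfold sg
    by_cases hi : i ∈ P
    · simp [hi, h10]
      ring
    · simp [hi, h10]
      ring
  rw [Finset.prod_congr rfl (fun i _ => h3 i), Finset.prod_ite_mem, Finset.univ_inter,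
    Finset.prod_const]

theorem coins_nonneg {n : ℕ} {ε : ℝ} (h0 : 0 < ε) (h1 : ε ≤ 1) (x : Fin n → ZMod 2) :
    0 ≤ coins (fun _ : Fin n => -ε) x := by
  unfold coins
  refine Finset.prod_nonneg fun i _ => ?_
  unfold sg
  split_ifs <;> linarith

/-- The biased coins. -/
theorem biased {M : Type} [Monoid M] {u v y : M}
    (hd1 : ∀ l : List ℕ, 0 ∉ l → y * (l.map fun r => u ^ r * v).prod = y) {ε : ℝ}
    (h0 : 0 < ε) (h1 : ε ≤ 1) (k : ℕ) (l : Fin (2 ^ (k + 1) * (k + 1)) → ZMod 2 → M)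
    (hl : l = NegRectProg.prog u v (2 ^ (k + 1)) k) :
    prob (coins fun _ : Fin (2 ^ (k + 1) * (k + 1)) => -ε)
      {x | value l x ∈ {m | y * m ≠ y}} ≤ (1 - ε) ^ (k + 1) := by
  classical
  let P : Fin (2 ^ (k + 1)) → Finset (Fin (2 ^ (k + 1) * (k + 1))) := fun a =>
    Finset.univ.image fun j : Fin (k + 1) => finProdFinEquiv (a, j)
  have hP : ∀ a, (P a).card = k + 1 := by
    intro a
    rw [Finset.card_image_of_injective, Finset.card_univ, Fintype.card_fin]
    intro j j' hjj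
    have := finProdFinEquiv.injective hjj
    exact (Prod.mk.injEq _ _ _ _ ▸ this).2
  have hcov : ∀ x ∈ {x | value l x ∈ {m | y * m ≠ y}},
      ∃ a, x ∈ {x : Fin (2 ^ (k + 1) * (k + 1)) → ZMod 2 | ∀ i ∈ P a, x i = 0} := by
    intro x hx
    by_contra hcon
    push Not at hcon
    apply hx
    rw [hl]
    show y * value (NegRectProg.prog u v (2 ^ (k + 1)) k)
      (x : Fin (2 ^ (k + 1) * (k + 1)) → Fin 2) = y
    rw [NegRectProg.value_prog]
    apply hd1
    rw [List.mem_ofFn]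
    rintro ⟨a, ha⟩
    apply hcon a
    intro i hi
    obtain ⟨j, -, rfl⟩ := Finset.mem_image.1 hi
    exact Fin.ext ((Finset.sum_eq_zero_iff.mp ha) j (Finset.mem_univ j))
  have hle : prob (coins fun _ : Fin (2 ^ (k + 1) * (k + 1)) => -ε)
      {x | value l x ∈ {m | y * m ≠ y}} ≤ ∑ a : Fin (2 ^ (k + 1)),
      prob (coins fun _ : Fin (2 ^ (k + 1) * (k + 1)) => -ε) {x | ∀ i ∈ P a, x i = 0} := by
    unfold prob
    rw [Finset.sum_comm]
    refine Finset.sum_le_sum fun x _ => ?_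
    by_cases hx : x ∈ {x | value l x ∈ {m | y * m ≠ y}}
    · obtain ⟨a, ha⟩ := hcov x hx
      rw [Set.indicator_of_mem hx]
      refine le_trans (le_of_eq (Set.indicator_of_mem ha _).symm)
        (Finset.single_le_sum (f := fun a => Set.indicator {x | ∀ i ∈ P a, x i = 0}
          (coins fun _ : Fin (2 ^ (k + 1) * (k + 1)) => -ε) x)
          (fun b _ => Set.indicator_nonneg (fun x _ => coins_nonneg h0 h1 x) x)
          (Finset.mem_univ a))
    · rw [Set.indicator_of_notMem hx]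
      exact Finset.sum_nonneg fun b _ =>
        Set.indicator_nonneg (fun x _ => coins_nonneg h0 h1 x) x
  refine hle.trans (le_of_eq ?_)
  rw [Finset.sum_congr rfl (fun a _ => by rw [prob_zeros, hP a]), Finset.sum_const,
    Finset.card_univ, Fintype.card_fin, nsmul_eq_mul]
  push_cast
  rw [← mul_pow]
  congr 1
  ring

end CoinNeg

open CoinNeg in
theorem coin_neg {M : Type} [Monoid M] [Finite M] (h : ¬ Orth M) {ε : ℝ} (h0 : 0 < ε)
    (h1 : ε ≤ 1) (W : ℕ) (hW : 2 ≤ ε * W) :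
    ∃ (l : Fin (2 ^ W * W) → ZMod 2 → M) (F : Set M),
      1 / 3 ≤ prob (unif (ZMod 2) (2 ^ W * W)) {x | value l x ∈ F} ∧
      prob (coins fun _ : Fin (2 ^ W * W) => -ε) {x | value l x ∈ F} ≤ 1 / 6 := by
  obtain ⟨u, v, y, hd1, hd2⟩ := exists_detector h
  obtain ⟨k, rfl⟩ : ∃ k, W = k + 1 := by
    cases W with
    | zero => norm_num at hW
    | succ k => exact ⟨k, rfl⟩
  refine ⟨NegRectProg.prog u v (2 ^ (k + 1)) k, {m | y * m ≠ y}, fair_third hd2 k,
    (biased hd1 h0 h1 k _ rfl).trans ?_⟩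
  have h2 : 1 - ε ≤ Real.exp (-ε) := by
    have := Real.add_one_le_exp (-ε)
    linarith
  have h3 : (1 - ε) ^ (k + 1) ≤ Real.exp (-2) := by
    calc (1 - ε) ^ (k + 1) ≤ Real.exp (-ε) ^ (k + 1) := pow_le_pow_left₀ (by linarith) h2 _
      _ = Real.exp (-(ε * ((k + 1 : ℕ) : ℝ))) := by
          rw [← Real.exp_nat_mul]
          congr 1
          ring
      _ ≤ Real.exp (-2) := Real.exp_le_exp.2 (by linarith)
  refine h3.trans ?_
  rw [Real.exp_neg, one_div]
  apply inv_anti₀ (by norm_num)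
  have h4 : Real.exp 2 = Real.exp 1 * Real.exp 1 := by
    rw [← Real.exp_add]
    norm_num
  have h5 := Real.exp_one_gt_d9
  rw [h4]
  nlinarith

end Helper12.GR
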