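import Pool.Agent.Helper12.GR.Main
import Pool.Agent.Helper12.GR.CoinList
import Pool.Agent.Helper12.GR.CoinNeg

set_option autoImplicit false

/-!
The coin problem for programs over finite monoids.
-/

namespace Helper12.GR

open Helper12.BI

/-- No program over a finite monoid with orthodox blocks distinguishes nearly fair coins. -/
theorem coin_pos (M : Type) [Monoid M] [Finite M] (hO : Orth M) :
    ∃ (C c : ℝ), 0 < c ∧ ∀ (n : ℕ) (σ : Equiv.Perm (Fin n)) (ε : ℝ) (β : Fin n → ℝ), 0 ≤ ε →
      ε ≤ 1 → (∀ i, |β i| ≤ ε) → ∀ (l : Fin n → ZMod 2 → M) (A : Set M),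
        |prob (coins β) {x | value l (x ∘ σ) ∈ A}
          - prob (unif (ZMod 2) n) {x | value l (x ∘ σ) ∈ A}| ≤ C * ε ^ c := by
  obtain ⟨lam, C, tau, h1, h3, h⟩ := reduce (ZMod 2) M hO
  have hM : 0 < (Nat.card M : ℝ) := by exact_mod_cast Nat.card_pos
  obtain ⟨C', c, hc, hb⟩ := power_bound (C := max C 1) (tau := tau / Nat.card M) (θ := 1) h1
    (le_max_right _ _) (by positivity) (by norm_num)
  refine ⟨C', c, hc, fun n σ ε β hε0 hε1 hβ l A => ?_⟩
  have hdist : IsDist (coins β) := coins_isDist fun i => (hβ i).trans hε1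
  refine hb _ _ hε0 (abs_prob_sub_le hdist unif_isDist _) fun T => ?_
  have hfool : FoolsGroups M σ (coins β) T (4 * (Nat.card M : ℝ) ^ T * ε) := by
    intro Q a G _ _ g γ _ hG
    have hcard : (Nat.card G : ℝ) ≤ (Nat.card M : ℝ) ^ T := by
      obtain ⟨N, φ, hφ⟩ := hG
      have h4 : Nat.card G ≤ Nat.card (Fin T → M) :=
        (Nat.card_le_card_of_surjective φ hφ).trans
          (Nat.card_le_card_of_injective _ Subtype.val_injective)
      rw [Nat.card_fun, Nat.card_fin] at h4
      exact_mod_cast h4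
    have hle : 4 * (Nat.card G : ℝ) * ε ≤ 4 * (Nat.card M : ℝ) ^ T * ε := by
      apply mul_le_mul_of_nonneg_right _ hε0
      linarith
    refine le_trans ?_ hle
    rcases le_or_gt ε (1 / 2) with h5 | h5
    · exact coins_fools hε0 hβ h5 σ Q a G g γ
    · refine (abs_prob_sub_le hdist unif_isDist _).trans ?_
      have : (1 : ℝ) ≤ Nat.card G := by exact_mod_cast Nat.card_pos
      nlinarith
  have h6 := h n σ (coins β) T _ (by positivity) hdist hfool l A
  refine h6.trans ?_
  rw [Real.rpow_one, div_pow, div_div_eq_mul_div]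
  have h7 : C / lam ^ T ≤ max C 1 / lam ^ T :=
    div_le_div_of_nonneg_right (le_max_left _ _) (by positivity)
  have h8 : 4 * (Nat.card M : ℝ) ^ T * ε / tau ^ T ≤ 9 * ε * (Nat.card M : ℝ) ^ T / tau ^ T := by
    apply div_le_div_of_nonneg_right _ (by positivity)
    have : 0 ≤ (Nat.card M : ℝ) ^ T * ε := by positivity
    nlinarith
  linarith

end Helper12.GR
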