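import Pool.Agent.Helper12.GR.CoinDef

set_option autoImplicit false

/-!
One step of the comparison of biased and fair coins.

Proof sketch. `a = adjoint (rho g0) u`, `b = adjoint (rho g1) u` (`rho` is an isometry and its adjoint is
`rho` of the inverse), `U = rho (g1⁻¹ * g0)`, so `rho g0 = rho g1 * U`, `U ^ card G = 1`.
`step_unit`: `Y v - X v = (b₀ / 2) • (rho g0 v - rho g1 v)`, `b₀` the bias.
 ‖v‖² - ‖X v‖² = ‖rho g0 v - rho g1 v‖² / 4 = ‖U v - v‖² / 4 (parallelogram identity);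
 ‖u‖² - ‖adjoint Y u‖² = (1 - b₀²) ‖a - b‖² / 4;
 ⟪u, Y v - X v⟫ = (b₀ / 2) ⟪b, U v - v⟫. With `r = card G`, `P = (1 / r) ∑ j < r, U ^ j`, one has
 `P (U v - v) = 0`, so `⟪b, U v - v⟫ = (1 / r) ∑ j < r ⟪b - adjoint (U ^ j) b, U v - v⟫`
 (the sum of `⟪adjoint (U ^ j) b, U v - v⟫ = ⟪b, U ^ (j + 1) v - U ^ j v⟫` telescopes to
 `⟪b, U ^ r v - v⟫ = 0`), and `‖b - adjoint (U ^ j) b‖ ≤ j ‖b - adjoint U b‖ = j ‖b - a‖`.
 So `|⟪b, U v - v⟫| ≤ r ‖a - b‖ ‖U v - v‖`, and `⟪u, Y v - X v⟫² ≤ (b₀² / 4) r² ‖a - b‖² ‖U v - v‖²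
 = b₀² r² 4 (loss u) (loss v) / (1 - b₀²) ≤ 16 ε² r² (loss u) (loss v)` as `1 - b₀² ≥ 3 / 4`.
`step_fix`: `X = (1 / 2) • T`, `Y = ((1 + b₀) / 2) • T`, `T = rho g`: `‖X v‖² = ‖v‖² / 4`,
 `‖adjoint Y u‖² = ((1 + b₀) / 2)² ‖u‖² ≤ (9 / 16) ‖u‖²`, `⟪u, (b₀ / 2) T v⟫² ≤ (ε² / 4) ‖u‖² ‖v‖²`.
`step`: the mean letter for `t ∈ Q` is `((1 ± b₀) / 2) • rho (g (a t))`.
-/

namespace Helper12.GR

open Helper12.BI

open scoped InnerProductSpace

section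

variable {H : Type} [NormedAddCommGroup H] [InnerProductSpace ℝ H] [CompleteSpace H]

/-- `Y` is a small perturbation of `X`, in terms of the losses of norm. -/
structure Near (kap : ℝ) (Y X : H →L[ℝ] H) : Prop where
  hY : ‖Y‖ ≤ 1
  hX : ‖X‖ ≤ 1
  sq : ∀ u v : H, ⟪u, Y v - X v⟫_ℝ ^ 2 ≤
    kap ^ 2 * (‖u‖ ^ 2 - ‖ContinuousLinearMap.adjoint Y u‖ ^ 2) * (‖v‖ ^ 2 - ‖X v‖ ^ 2)

end

namespace CoinStepAux

open RepAux

section

variable {H : Type} [NormedAddCommGroup H] [InnerProductSpace ℝ H]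

/-- The loss of norm of a convex combination of two vectors of the same norm. -/
lemma loss_two (x y : H) (n c d : ℝ) (hx : ‖x‖ = n) (hy : ‖y‖ = n) (hcd : c + d = 1) :
    n ^ 2 - ‖c • x + d • y‖ ^ 2 = c * d * ‖x - y‖ ^ 2 := by
  rw [@norm_add_sq_real, @norm_sub_sq_real, norm_smul, norm_smul, inner_smul_left,
    inner_smul_right, mul_pow, mul_pow, hx, hy]
  simp only [Real.norm_eq_abs, sq_abs, conj_trivial]
  have hd : d = 1 - c := by linarith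
  subst hd
  ring

end

section

variable {G : Type} [Group G] [Fintype G]

lemma rho_norm (x : G) (v : EuclideanSpace ℝ G) : ‖rho x v‖ = ‖v‖ := by
  unfold rho
  exact (LinearIsometryEquiv.piLpCongrLeft 2 ℝ ℝ (Equiv.mulLeft x)).norm_map v

lemma rho_op (x : G) : ‖(rho x : EuclideanSpace ℝ G →L[ℝ] EuclideanSpace ℝ G)‖ ≤ 1 := by
  refine ContinuousLinearMap.opNorm_le_bound _ zero_le_one fun v => ?_
  rw [one_mul, rho_norm]

lemma rho_app (x : G) (v : EuclideanSpace ℝ G) (h : G) : rho x v h = v (x⁻¹ * h) := by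
  rfl

lemma rho_mul (x y : G) (v : EuclideanSpace ℝ G) : rho (x * y) v = rho x (rho y v) := by
  ext h
  have e : (x * y)⁻¹ * h = y⁻¹ * (x⁻¹ * h) := by group
  rw [rho_app, rho_app, rho_app, e]

lemma rho_one (v : EuclideanSpace ℝ G) : rho (1 : G) v = v := by
  ext h
  rw [rho_app]
  simp

lemma rho_inner (x : G) (u v : EuclideanSpace ℝ G) : ⟪rho x u, rho x v⟫_ℝ = ⟪u, v⟫_ℝ := by
  unfold rho
  exact (LinearIsometryEquiv.piLpCongrLeft 2 ℝ ℝ (Equiv.mulLeft x)).inner_map_map u v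

lemma rho_adj (x : G) (u : EuclideanSpace ℝ G) :
    ContinuousLinearMap.adjoint (rho x) u = rho x⁻¹ u := by
  refine ext_inner_right ℝ fun v => ?_
  rw [ContinuousLinearMap.adjoint_inner_left, ← rho_inner x (rho x⁻¹ u) v, ← rho_mul,
    mul_inv_cancel, rho_one]

/-- The key inequality. -/
lemma key_unit (w : G) (b v : EuclideanSpace ℝ G) :
    |⟪b, rho w v - v⟫_ℝ| ≤
      Fintype.card G * (‖b - rho w⁻¹ b‖ * ‖rho w v - v‖) := by
  set r := Fintype.card G with hr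
  have hr0 : 0 < r := Fintype.card_pos
  have h1 : ∀ j : ℕ, ‖b - rho (w⁻¹ ^ j) b‖ ≤ j * ‖b - rho w⁻¹ b‖ := by
    intro j
    induction j with
    | zero => simp [rho_one]
    | succ j ih =>
      have e : b - rho (w⁻¹ ^ (j + 1)) b =
          (b - rho (w⁻¹ ^ j) b) + rho (w⁻¹ ^ j) (b - rho w⁻¹ b) := by
        rw [map_sub, ← rho_mul, ← pow_succ]
        abel
      rw [e]
      refine (norm_add_le _ _).trans ?_
      rw [rho_norm]
      push_cast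
      linarith
  have h2 : ∀ j : ℕ, ⟪rho (w⁻¹ ^ j) b, rho w v - v⟫_ℝ =
      ⟪b, rho (w ^ (j + 1)) v⟫_ℝ - ⟪b, rho (w ^ j) v⟫_ℝ := by
    intro j
    rw [← rho_inner (w ^ j), ← rho_mul, inv_pow, mul_inv_cancel, rho_one, map_sub, ← rho_mul,
      ← pow_succ, inner_sub_right]
  have h3 : ∑ j ∈ Finset.range r, ⟪rho (w⁻¹ ^ j) b, rho w v - v⟫_ℝ = 0 := by
    rw [Finset.sum_congr rfl fun j _ => h2 j,
      Finset.sum_range_sub (fun j => ⟪b, rho (w ^ j) v⟫_ℝ), hr, pow_card_eq_one, pow_zero]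
    ring
  have h4 : (r : ℝ) * ⟪b, rho w v - v⟫_ℝ =
      ∑ j ∈ Finset.range r, ⟪b - rho (w⁻¹ ^ j) b, rho w v - v⟫_ℝ := by
    rw [Finset.sum_congr rfl fun j _ => inner_sub_left (𝕜 := ℝ) b (rho (w⁻¹ ^ j) b) (rho w v - v),
      Finset.sum_sub_distrib, h3]
    simp
  have h5 : (r : ℝ) * |⟪b, rho w v - v⟫_ℝ| ≤
      r * (r * (‖b - rho w⁻¹ b‖ * ‖rho w v - v‖)) := by
    have e : (r : ℝ) * |⟪b, rho w v - v⟫_ℝ| = |(r : ℝ) * ⟪b, rho w v - v⟫_ℝ| := by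
      rw [abs_mul, abs_of_nonneg (by positivity : (0 : ℝ) ≤ r)]
    rw [e, h4]
    refine (Finset.abs_sum_le_sum_abs _ _).trans ?_
    have h6 : ∀ j ∈ Finset.range r, |⟪b - rho (w⁻¹ ^ j) b, rho w v - v⟫_ℝ| ≤
        r * (‖b - rho w⁻¹ b‖ * ‖rho w v - v‖) := by
      intro j hj
      refine (abs_real_inner_le_norm _ _).trans ?_
      rw [← mul_assoc]
      refine mul_le_mul_of_nonneg_right ((h1 j).trans ?_) (norm_nonneg _)
      refine mul_le_mul_of_nonneg_right ?_ (norm_nonneg _)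
      exact_mod_cast (Finset.mem_range.1 hj).le
    refine (Finset.sum_le_sum h6).trans (le_of_eq ?_)
    rw [Finset.sum_const, Finset.card_range, nsmul_eq_mul]
  exact le_of_mul_le_mul_left h5 (by exact_mod_cast hr0)

lemma near_two {ε b : ℝ} (hb : |b| ≤ ε) (hε : ε ≤ 1 / 2) (g0 g1 : G) :
    Near (4 * Fintype.card G * ε)
      (((1 + b) / 2) • rho g0 + ((1 - b) / 2) • rho g1 :
        EuclideanSpace ℝ G →L[ℝ] EuclideanSpace ℝ G)
      (((1 + 0) / 2 : ℝ) • rho g0 + ((1 - 0) / 2 : ℝ) • rho g1) := by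
  have hb' := abs_le.1 (hb.trans hε)
  have hn : ∀ c : ℝ, -(1 / 2) ≤ c → c ≤ 1 / 2 →
      ‖(((1 + c) / 2) • rho g0 + ((1 - c) / 2) • rho g1 :
        EuclideanSpace ℝ G →L[ℝ] EuclideanSpace ℝ G)‖ ≤ 1 := by
    intro c h1 h2
    refine (norm_add_le _ _).trans ?_
    rw [norm_smul, norm_smul, Real.norm_of_nonneg (by linarith), Real.norm_of_nonneg (by linarith)]
    have e0 := rho_op g0
    have e1 := rho_op g1
    nlinarith [norm_nonneg (rho g0), norm_nonneg (rho g1)]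
  refine ⟨hn b hb'.1 hb'.2, hn 0 (by norm_num) (by norm_num), fun u v => ?_⟩
  set r : ℝ := ((Fintype.card G : ℕ) : ℝ) with hr
  have hv : ‖v‖ ^ 2 - ‖(((1 + 0) / 2 : ℝ) • rho g0 + ((1 - 0) / 2 : ℝ) • rho g1 :
      EuclideanSpace ℝ G →L[ℝ] EuclideanSpace ℝ G) v‖ ^ 2 =
      (1 / 4) * ‖rho (g1⁻¹ * g0) v - v‖ ^ 2 := by
    have e : (((1 + 0) / 2 : ℝ) • rho g0 + ((1 - 0) / 2 : ℝ) • rho g1 :
      EuclideanSpace ℝ G →L[ℝ] EuclideanSpace ℝ G) v =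
      ((1 + 0) / 2 : ℝ) • rho g0 v + ((1 - 0) / 2 : ℝ) • rho g1 v := rfl
    have e2 : rho g0 v - rho g1 v = rho g1 (rho (g1⁻¹ * g0) v - v) := by
      rw [map_sub, ← rho_mul, mul_inv_cancel_left]
    rw [e, loss_two (rho g0 v) (rho g1 v) ‖v‖ _ _ (rho_norm g0 v) (rho_norm g1 v) (by norm_num),
      e2, rho_norm]
    norm_num
  have hu : ‖u‖ ^ 2 - ‖ContinuousLinearMap.adjoint (((1 + b) / 2) • rho g0 +
      ((1 - b) / 2) • rho g1 : EuclideanSpace ℝ G →L[ℝ] EuclideanSpace ℝ G) u‖ ^ 2 =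
      ((1 - b ^ 2) / 4) * ‖rho g1⁻¹ u - rho (g1⁻¹ * g0)⁻¹ (rho g1⁻¹ u)‖ ^ 2 := by
    have e : ContinuousLinearMap.adjoint (((1 + b) / 2) • rho g0 +
      ((1 - b) / 2) • rho g1 : EuclideanSpace ℝ G →L[ℝ] EuclideanSpace ℝ G) u =
      ((1 + b) / 2) • rho g0⁻¹ u + ((1 - b) / 2) • rho g1⁻¹ u := by
      rw [map_add, _root_.add_apply, ← rho_adj, ← rho_adj]
      congr 1
      · rw [map_smulₛₗ]
        simp
      · rw [map_smulₛₗ]
        simp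
    have e2 : rho (g1⁻¹ * g0)⁻¹ (rho g1⁻¹ u) = rho g0⁻¹ u := by
      rw [← rho_mul]
      congr 2
      group
    rw [e, loss_two (rho g0⁻¹ u) (rho g1⁻¹ u) ‖u‖ _ _ (rho_norm _ u) (rho_norm _ u) (by ring),
      e2, norm_sub_rev (rho g1⁻¹ u)]
    ring
  have hi : ⟪u, (((1 + b) / 2) • rho g0 + ((1 - b) / 2) • rho g1 :
        EuclideanSpace ℝ G →L[ℝ] EuclideanSpace ℝ G) v -
      (((1 + 0) / 2 : ℝ) • rho g0 + ((1 - 0) / 2 : ℝ) • rho g1 :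
        EuclideanSpace ℝ G →L[ℝ] EuclideanSpace ℝ G) v⟫_ℝ =
      (b / 2) * ⟪rho g1⁻¹ u, rho (g1⁻¹ * g0) v - v⟫_ℝ := by
    have e : (((1 + b) / 2) • rho g0 + ((1 - b) / 2) • rho g1 :
        EuclideanSpace ℝ G →L[ℝ] EuclideanSpace ℝ G) v -
      (((1 + 0) / 2 : ℝ) • rho g0 + ((1 - 0) / 2 : ℝ) • rho g1 :
        EuclideanSpace ℝ G →L[ℝ] EuclideanSpace ℝ G) v = (b / 2) • (rho g0 v - rho g1 v) := by
      show (((1 + b) / 2) • rho g0 v + ((1 - b) / 2) • rho g1 v) -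
        (((1 + 0) / 2 : ℝ) • rho g0 v + ((1 - 0) / 2 : ℝ) • rho g1 v) = _
      module
    have e2 : rho g0 v - rho g1 v = rho g1 (rho (g1⁻¹ * g0) v - v) := by
      rw [map_sub, ← rho_mul, mul_inv_cancel_left]
    have e3 : ⟪u, rho g1 (rho (g1⁻¹ * g0) v - v)⟫_ℝ =
        ⟪rho g1⁻¹ u, rho (g1⁻¹ * g0) v - v⟫_ℝ := by
      rw [← rho_inner g1 (rho g1⁻¹ u), ← rho_mul g1 g1⁻¹ u, mul_inv_cancel, rho_one]
    rw [e, inner_smul_right, e2, e3]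
  rw [hv, hu, hi]
  have hk := key_unit (g1⁻¹ * g0) (rho g1⁻¹ u) v
  rw [← hr] at hk
  set A := ‖rho g1⁻¹ u - rho (g1⁻¹ * g0)⁻¹ (rho g1⁻¹ u)‖ with hA
  set B := ‖rho (g1⁻¹ * g0) v - v‖ with hB
  set I := ⟪rho g1⁻¹ u, rho (g1⁻¹ * g0) v - v⟫_ℝ with hI
  have hI2 : I ^ 2 ≤ (r * (A * B)) ^ 2 := by
    rw [← sq_abs I]
    exact pow_le_pow_left₀ (abs_nonneg _) hk 2
  have hb2 : b ^ 2 ≤ ε ^ 2 := by
    rw [← sq_abs b]
    exact pow_le_pow_left₀ (abs_nonneg _) hb 2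
  have hb3 : b ^ 2 ≤ 1 / 4 := by nlinarith [hb'.1, hb'.2]
  have hS : 0 ≤ (r * (A * B)) ^ 2 := sq_nonneg _
  calc (b / 2 * I) ^ 2 = (b ^ 2 / 4) * I ^ 2 := by ring
    _ ≤ (b ^ 2 / 4) * (r * (A * B)) ^ 2 :=
        mul_le_mul_of_nonneg_left hI2 (by positivity)
    _ ≤ (ε ^ 2 / 4) * (r * (A * B)) ^ 2 :=
        mul_le_mul_of_nonneg_right (by linarith) hS
    _ ≤ (ε ^ 2 * (1 - b ^ 2)) * (r * (A * B)) ^ 2 := by
        refine mul_le_mul_of_nonneg_right ?_ hS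
        nlinarith [sq_nonneg ε]
    _ = (4 * r * ε) ^ 2 * ((1 - b ^ 2) / 4 * A ^ 2) * (1 / 4 * B ^ 2) := by ring

lemma near_one {ε b : ℝ} (hb : |b| ≤ ε) (hε : ε ≤ 1 / 2) (g : G) :
    Near (4 * Fintype.card G * ε)
      (((1 + b) / 2) • rho g : EuclideanSpace ℝ G →L[ℝ] EuclideanSpace ℝ G)
      ((1 / 2 : ℝ) • rho g) := by
  have hb' := abs_le.1 (hb.trans hε)
  have hn : ∀ c : ℝ, 0 ≤ c → c ≤ 1 →
      ‖(c • rho g : EuclideanSpace ℝ G →L[ℝ] EuclideanSpace ℝ G)‖ ≤ 1 := by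
    intro c h1 h2
    rw [norm_smul, Real.norm_of_nonneg h1]
    have e0 := rho_op g
    nlinarith [norm_nonneg (rho g)]
  refine ⟨hn _ (by linarith) (by linarith), hn _ (by norm_num) (by norm_num), fun u v => ?_⟩
  set r : ℝ := ((Fintype.card G : ℕ) : ℝ) with hr
  have hr1 : 1 ≤ r := by
    rw [hr]
    exact_mod_cast (Fintype.card_pos : 0 < Fintype.card G)
  have hv : ‖((1 / 2 : ℝ) • rho g : EuclideanSpace ℝ G →L[ℝ] EuclideanSpace ℝ G) v‖ ^ 2 =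
      (1 / 4) * ‖v‖ ^ 2 := by
    have e : ((1 / 2 : ℝ) • rho g : EuclideanSpace ℝ G →L[ℝ] EuclideanSpace ℝ G) v =
      (1 / 2 : ℝ) • rho g v := rfl
    rw [e, norm_smul, rho_norm, Real.norm_of_nonneg (by norm_num)]
    ring
  have hu : ‖ContinuousLinearMap.adjoint (((1 + b) / 2) • rho g :
      EuclideanSpace ℝ G →L[ℝ] EuclideanSpace ℝ G) u‖ ^ 2 =
      ((1 + b) / 2) ^ 2 * ‖u‖ ^ 2 := by
    have e : ContinuousLinearMap.adjoint (((1 + b) / 2) • rho g :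
      EuclideanSpace ℝ G →L[ℝ] EuclideanSpace ℝ G) u = ((1 + b) / 2) • rho g⁻¹ u := by
      rw [← rho_adj, map_smulₛₗ]
      simp
    rw [e, norm_smul, rho_norm, Real.norm_of_nonneg (by linarith)]
    ring
  have hi : ⟪u, (((1 + b) / 2) • rho g : EuclideanSpace ℝ G →L[ℝ] EuclideanSpace ℝ G) v -
      ((1 / 2 : ℝ) • rho g : EuclideanSpace ℝ G →L[ℝ] EuclideanSpace ℝ G) v⟫_ℝ =
      (b / 2) * ⟪u, rho g v⟫_ℝ := by
    have e : (((1 + b) / 2) • rho g : EuclideanSpace ℝ G →L[ℝ] EuclideanSpace ℝ G) v -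
      ((1 / 2 : ℝ) • rho g : EuclideanSpace ℝ G →L[ℝ] EuclideanSpace ℝ G) v =
      (b / 2) • rho g v := by
      show ((1 + b) / 2) • rho g v - (1 / 2 : ℝ) • rho g v = _
      module
    rw [e, inner_smul_right]
  rw [hv, hu, hi]
  have hI2 : ⟪u, rho g v⟫_ℝ ^ 2 ≤ (‖u‖ * ‖v‖) ^ 2 := by
    rw [← sq_abs]
    refine pow_le_pow_left₀ (abs_nonneg _) ?_ 2
    have := abs_real_inner_le_norm u (rho g v)
    rwa [rho_norm] at this
  have hb2 : b ^ 2 ≤ ε ^ 2 := by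
    rw [← sq_abs b]
    exact pow_le_pow_left₀ (abs_nonneg _) hb 2
  have h1 : (1 : ℝ) ≤ r ^ 2 := by nlinarith
  have h2 : ((1 + b) / 2) ^ 2 ≤ 9 / 16 := by nlinarith [hb'.1, hb'.2]
  calc (b / 2 * ⟪u, rho g v⟫_ℝ) ^ 2 = (b ^ 2 / 4) * ⟪u, rho g v⟫_ℝ ^ 2 := by ring
    _ ≤ (ε ^ 2 / 4) * (‖u‖ * ‖v‖) ^ 2 :=
        mul_le_mul (by linarith) hI2 (sq_nonneg _) (by positivity)
    _ ≤ (ε ^ 2 * (16 * r ^ 2 * ((7 / 16) * (3 / 4)))) * (‖u‖ * ‖v‖) ^ 2 := by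
        refine mul_le_mul_of_nonneg_right ?_ (sq_nonneg _)
        nlinarith [sq_nonneg ε]
    _ = (4 * r * ε) ^ 2 * ((7 / 16) * ‖u‖ ^ 2) * ((3 / 4) * ‖v‖ ^ 2) := by ring
    _ ≤ (4 * r * ε) ^ 2 * (‖u‖ ^ 2 - ((1 + b) / 2) ^ 2 * ‖u‖ ^ 2) *
        (‖v‖ ^ 2 - 1 / 4 * ‖v‖ ^ 2) := by
        refine mul_le_mul (mul_le_mul_of_nonneg_left ?_ (sq_nonneg _)) (le_of_eq (by ring))
          (by positivity) ?_
        · nlinarith [sq_nonneg ‖u‖]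
        · refine mul_nonneg (sq_nonneg _) ?_
          nlinarith [sq_nonneg ‖u‖]

end

end CoinStepAux

open CoinStepAux

open RepAux in
open Classical in
/-- One step: the mean letters for a biased coin and for a fair coin. -/
theorem coin_step {G : Type} [Group G] [Fintype G] {ε b : ℝ} (hb : |b| ≤ ε) (hε : ε ≤ 1 / 2)
    (P : Prop) (s₀ : ZMod 2) (g : ZMod 2 → G) :
    Near (4 * Fintype.card G * ε)
      (cm b fun s => (if P ∧ s ≠ s₀ then 0 else rho (g s) :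
        EuclideanSpace ℝ G →L[ℝ] EuclideanSpace ℝ G))
      (cm 0 fun s => (if P ∧ s ≠ s₀ then 0 else rho (g s) :
        EuclideanSpace ℝ G →L[ℝ] EuclideanSpace ℝ G)) := by
  have z : ∀ c : ℝ, c • (0 : EuclideanSpace ℝ G →L[ℝ] EuclideanSpace ℝ G) = 0 :=
    fun c => ContinuousLinearMap.ext fun v => smul_zero (A := EuclideanSpace ℝ G) c
  unfold cm
  by_cases hP : P
  · have h01 : (0 : ZMod 2) ≠ 1 := by decide
    have h10 : (1 : ZMod 2) ≠ 0 := by decide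
    have hs : s₀ = 0 ∨ s₀ = 1 := by
      revert s₀; decide
    rcases hs with hs | hs
    · subst hs
      have h := near_one hb hε (g 0)
      have e1 : ((1 + b) / 2) • (if P ∧ (0 : ZMod 2) ≠ 0 then 0 else rho (g 0) :
          EuclideanSpace ℝ G →L[ℝ] EuclideanSpace ℝ G) +
          ((1 - b) / 2) • (if P ∧ (1 : ZMod 2) ≠ 0 then 0 else rho (g 1)) =
          ((1 + b) / 2) • rho (g 0) := by
        rw [if_neg (fun h => h.2 rfl), if_pos ⟨hP, h10⟩, z, add_zero]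
      have e2 : ((1 + 0) / 2 : ℝ) • (if P ∧ (0 : ZMod 2) ≠ 0 then 0 else rho (g 0) :
          EuclideanSpace ℝ G →L[ℝ] EuclideanSpace ℝ G) +
          ((1 - 0) / 2 : ℝ) • (if P ∧ (1 : ZMod 2) ≠ 0 then 0 else rho (g 1)) =
          (1 / 2 : ℝ) • rho (g 0) := by
        rw [if_neg (fun h => h.2 rfl), if_pos ⟨hP, h10⟩, z, add_zero, add_zero]
      rw [← e1, ← e2] at h
      exact h
    · subst hs
      have h := near_one (b := -b) (by rwa [abs_neg]) hε (g 1)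
      have e1 : ((1 + b) / 2) • (if P ∧ (0 : ZMod 2) ≠ 1 then 0 else rho (g 0) :
          EuclideanSpace ℝ G →L[ℝ] EuclideanSpace ℝ G) +
          ((1 - b) / 2) • (if P ∧ (1 : ZMod 2) ≠ 1 then 0 else rho (g 1)) =
          ((1 + -b) / 2) • rho (g 1) := by
        rw [if_pos ⟨hP, h01⟩, if_neg (fun h => h.2 rfl), z, zero_add, sub_eq_add_neg]
      have e2 : ((1 + 0) / 2 : ℝ) • (if P ∧ (0 : ZMod 2) ≠ 1 then 0 else rho (g 0) :
          EuclideanSpace ℝ G →L[ℝ] EuclideanSpace ℝ G) +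
          ((1 - 0) / 2 : ℝ) • (if P ∧ (1 : ZMod 2) ≠ 1 then 0 else rho (g 1)) =
          (1 / 2 : ℝ) • rho (g 1) := by
        rw [if_pos ⟨hP, h01⟩, if_neg (fun h => h.2 rfl), z, zero_add, sub_zero]
      rw [← e1, ← e2] at h
      exact h
  · have h := near_two hb hε (g 0) (g 1)
    have e : ∀ s : ZMod 2, (if P ∧ s ≠ s₀ then 0 else rho (g s) :
        EuclideanSpace ℝ G →L[ℝ] EuclideanSpace ℝ G) = rho (g s) := by
      intro s
      rw [if_neg fun h => hP h.1]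
    rw [← e 0, ← e 1] at h
    exact h

end Helper12.GR
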