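import Pool.Agent.Helper12.BI.Auto

set_option autoImplicit false

/-!
Reduction of programs over monoids to programs over groups: the definitions.
-/

namespace Helper12.GR

open Helper12.BI

/-- The blocks of the `J`-classes are orthodox: if `x z = x' z` and `x z'` stay in the `J`-class of
`x, x', z, z'`, then `x' z' = x z'`. -/
def Orth (M : Type) [Monoid M] : Prop := ∀ x x' z z' : M,
  JEq x x' → JEq x z → JEq x z' → x * z = x' * z → JEq x (x * z) → JEq x (x * z') →
    x' * z' = x * z'

/-- `G` divides `M`: it is a homomorphic image of a submonoid of `M`. -/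
def Divides (G M : Type) [Monoid G] [Monoid M] : Prop :=
  ∃ (N : Submonoid M) (φ : N →* G), Function.Surjective φ

section programs

variable {ι S : Type}

/-- The value of a program, a list of instructions `(i, c)` (apply `c` to the letter at the
position `i`), on the input `x`. -/
def val {M : Type} [Monoid M] (L : List (ι × (S → M))) (x : ι → S) : M :=
  (L.map fun p => p.2 (x p.1)).prod

/-- The positions read by the program. -/
def pos {M : Type} (L : List (ι × (S → M))) : List ι := L.map Prod.fst

lemma val_nil {M : Type} [Monoid M] (x : ι → S) : val ([] : List (ι × (S → M))) x = 1 := rfl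

lemma val_cons {M : Type} [Monoid M] (i : ι) (c : S → M) (L : List (ι × (S → M))) (x : ι → S) :
    val ((i, c) :: L) x = c (x i) * val L x := rfl

lemma val_append {M : Type} [Monoid M] (L L' : List (ι × (S → M))) (x : ι → S) :
    val (L ++ L') x = val L x * val L' x := by
  simp [val]

lemma pos_cons {M : Type} (i : ι) (c : S → M) (L : List (ι × (S → M))) :
    pos ((i, c) :: L) = i :: pos L := rfl

lemma pos_append {M : Type} (L L' : List (ι × (S → M))) : pos (L ++ L') = pos L ++ pos L' := by
  simp [pos]

/-- The value of a program depends only on the letters at its positions. -/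
lemma val_congr {M : Type} [Monoid M] {L : List (ι × (S → M))} {x y : ι → S}
    (h : ∀ i ∈ pos L, x i = y i) : val L x = val L y := by
  unfold val
  congr 1
  apply List.map_congr_left
  intro p hp
  rw [h p.1 (List.mem_map_of_mem hp)]

/-- The value of the program with the letters `g i` at the positions `i` of the list `P`. -/
def gval {G : Type} [Monoid G] (P : List ι) (g : ι → S → G) (x : ι → S) : G :=
  (P.map fun i => g i (x i)).prod

/-- The basic sets: a letter is fixed, or the value of a program over a group that divides `M`. -/
inductive Basic (M : Type) [Monoid M] (P : List ι) : Set (ι → S) → Prop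
  | letter (i : ι) (hi : i ∈ P) (s : S) : Basic M P {x | x i = s}
  | group (G : Type) [Group G] [Finite G] (h : Divides G M) (g : ι → S → G) (γ : G) :
      Basic M P {x | gval P g x = γ}

/-- The cells of complexity `k`: intersections of `k` basic sets. -/
inductive Cell (M : Type) [Monoid M] (P : List ι) : ℕ → Set (ι → S) → Prop
  | univ : Cell M P 0 Set.univ
  | inter {k : ℕ} {A B : Set (ι → S)} : Cell M P k A → Basic M P B → Cell M P (k + 1) (A ∩ B)

/-- The uniform measure. -/
noncomputable def U (A : Set (ι → S)) : ℝ := (Nat.card A : ℝ) / (Nat.card (ι → S) : ℝ)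

/-- `f` can be resolved by cells on the positions `P`: there is a partition into cells on which
`f` is constant, the cells `A` of complexity `k` have measure at least `tau ^ k`, and the mean value
of `lam ^ k` is at most `C`. -/
def Res (M : Type) [Monoid M] (P : List ι) {α : Type} (f : (ι → S) → α) (lam C tau : ℝ) : Prop :=
  ∃ (J : Type) (_ : Fintype J) (A : J → Set (ι → S)) (k : J → ℕ),
    (∀ j, Cell M P (k j) (A j)) ∧ (∀ j, ∀ x ∈ A j, ∀ y ∈ A j, f x = f y) ∧
    (∀ x, ∃! j, x ∈ A j) ∧ (∀ j, tau ^ k j ≤ U (A j)) ∧ ∑ j, U (A j) * lam ^ k j ≤ C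

end programs

/-- Exact control of the runs to the right that stay in the `J`-class of `y`, for `ht y < t`. -/
def HasPR (M S : Type) [Monoid M] (t : ℕ) (tau : ℝ) : Prop :=
  ∃ lam C : ℝ, 1 < lam ∧ 1 ≤ C ∧ ∀ (ι : Type) [Finite ι] (y : M) (L : List (ι × (S → M))),
    (pos L).Nodup → ht y < t → (∀ x, JEq y (y * val L x)) →
      Res M (pos L) (fun x => y * val L x) lam C tau

/-- The left-right dual of `HasPR`. -/
def HasPL (M S : Type) [Monoid M] (t : ℕ) (tau : ℝ) : Prop :=
  ∃ lam C : ℝ, 1 < lam ∧ 1 ≤ C ∧ ∀ (ι : Type) [Finite ι] (v : M) (L : List (ι × (S → M))),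
    (pos L).Nodup → ht v < t → (∀ x, JEq v (val L x * v)) →
      Res M (pos L) (fun x => val L x * v) lam C tau

end Helper12.GR
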