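import Pool.Agent.Helper12.GR.Defs

set_option autoImplicit false

/-!
Polynomial functions of bounded degree over the field with two elements.

`any_fun`: `F` is the sum over the `a : Fin r → ZMod 2` of `F a` times the product over `j` of
`p j x + a j + 1` (induction on `r`, or `Finset` induction with closure of `DegLe` under products).
`DegLe_deriv`: induction on `DegLe`; a function with `DegLe 0` is constant; product rule
`f g + f' g' = f (g + g') + (f + f') g'`, where `f'`, `g'` are the translates (`DegLe.shift`).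
-/

namespace Helper12.GR

open Helper12.BI

/-- Polynomial functions of degree at most `d` over the field with two elements. -/
inductive DegLe {ι : Type} : ℕ → ((ι → ZMod 2) → ZMod 2) → Prop
  | const (d : ℕ) (a : ZMod 2) : DegLe d fun _ => a
  | coord (d : ℕ) (i : ι) : DegLe (d + 1) fun x => x i
  | add {d : ℕ} {f g : (ι → ZMod 2) → ZMod 2} : DegLe d f → DegLe d g → DegLe d fun x => f x + g x
  | mul {a b d : ℕ} {f g : (ι → ZMod 2) → ZMod 2} : DegLe a f → DegLe b g → a + b ≤ d →
      DegLe d fun x => f x * g x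

/-- All groups in `M` are `2`-groups. -/
def TwoGroups (M : Type) [Monoid M] : Prop := ∀ x : M, ∃ n k : ℕ, x ^ (n + 2 ^ k) = x ^ n

variable {ι : Type}

lemma DegLe.mono {d d' : ℕ} {f : (ι → ZMod 2) → ZMod 2} (h : DegLe d f) (hd : d ≤ d') :
    DegLe d' f := by
  induction h generalizing d' with
  | const d a => exact DegLe.const d' a
  | coord d i =>
    obtain ⟨e, rfl⟩ : ∃ e, d' = e + 1 := ⟨d' - 1, by omega⟩
    exact DegLe.coord e i
  | add h1 h2 ih1 ih2 => exact DegLe.add (ih1 hd) (ih2 hd)
  | mul h1 h2 h3 ih1 ih2 => exact DegLe.mul h1 h2 (h3.trans hd)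

private lemma split_aux {r : ℕ} (F : (Fin (r + 1) → ZMod 2) → ZMod 2) (b : ZMod 2)
    (v : Fin r → ZMod 2) :
    F (Fin.cons b v) = (b + 1) * F (Fin.cons 0 v) + b * F (Fin.cons 1 v) := by
  have hb : ∀ b : ZMod 2, b = 0 ∨ b = 1 := by decide
  rcases hb b with rfl | rfl
  · simp
  · have : (1 : ZMod 2) + 1 = 0 := by decide
    rw [this]
    simp

/-- A function of `r` polynomials of degree at most `d` has degree at most `r d`. -/
theorem any_fun {r d : ℕ} (p : Fin r → (ι → ZMod 2) → ZMod 2) (hp : ∀ j, DegLe d (p j))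
    (F : (Fin r → ZMod 2) → ZMod 2) : DegLe (r * d) fun x => F fun j => p j x := by
  induction r with
  | zero =>
    have h1 : (fun x : ι → ZMod 2 => F fun j => p j x) = fun _ => F fun j => j.elim0 := by
      funext x
      congr 1
      funext j
      exact j.elim0
    rw [h1]
    exact DegLe.const _ _
  | succ r ih =>
    have h0 := ih (fun j => p j.succ) (fun j => hp j.succ) fun v => F (Fin.cons 0 v)
    have h1 := ih (fun j => p j.succ) (fun j => hp j.succ) fun v => F (Fin.cons 1 v)
    have hle : d + r * d ≤ (r + 1) * d := by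
      rw [Nat.succ_mul, Nat.add_comm]
    have h2 : DegLe ((r + 1) * d) fun x : ι → ZMod 2 =>
        (p 0 x + 1) * F (Fin.cons 0 fun j => p j.succ x) +
          p 0 x * F (Fin.cons 1 fun j => p j.succ x) :=
      DegLe.add (DegLe.mul (DegLe.add (hp 0) (DegLe.const d 1)) h0 hle) (DegLe.mul (hp 0) h1 hle)
    have h3 : (fun x : ι → ZMod 2 => F fun j => p j x) = fun x : ι → ZMod 2 =>
        (p 0 x + 1) * F (Fin.cons 0 fun j => p j.succ x) +
          p 0 x * F (Fin.cons 1 fun j => p j.succ x) := by
      funext x
      have h4 : (fun j => p j x) = (Fin.cons (p 0 x) fun j => p j.succ x : Fin (r + 1) → ZMod 2) := by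
        funext j
        refine Fin.cases ?_ (fun j => ?_) j
        · rfl
        · rfl
      rw [h4]
      exact split_aux F (p 0 x) fun j => p j.succ x
    rw [h3]
    exact h2

lemma DegLe.shift {d : ℕ} {f : (ι → ZMod 2) → ZMod 2} (h : DegLe d f) (a : ι → ZMod 2) :
    DegLe d fun x => f (x + a) := by
  induction h with
  | const d b => exact DegLe.const d b
  | coord d i => exact DegLe.add (DegLe.coord d i) (DegLe.const (d + 1) (a i))
  | add h1 h2 ih1 ih2 => exact DegLe.add ih1 ih2
  | mul h1 h2 h3 ih1 ih2 => exact DegLe.mul ih1 ih2 h3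

private lemma DegLe_zero_aux {d : ℕ} {f : (ι → ZMod 2) → ZMod 2} (h : DegLe d f) (hd : d = 0)
    (x y : ι → ZMod 2) : f x = f y := by
  induction h with
  | const d a => rfl
  | coord d i => omega
  | @add d f g h1 h2 ih1 ih2 =>
    change f x + g x = f y + g y
    rw [ih1 hd, ih2 hd]
  | @mul a b d f g h1 h2 h3 ih1 ih2 =>
    change f x * g x = f y * g y
    rw [ih1 (by omega), ih2 (by omega)]

lemma DegLe_zero {f : (ι → ZMod 2) → ZMod 2} (h : DegLe 0 f) (x y : ι → ZMod 2) : f x = f y :=
  DegLe_zero_aux h rfl x y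

private lemma add_self_two (b : ZMod 2) : b + b = 0 := by
  revert b
  decide

private lemma deriv_aux {d : ℕ} {p : (ι → ZMod 2) → ZMod 2} (hp : DegLe d p)
    (h : ι → ZMod 2) : DegLe (d - 1) fun x => p x + p (x + h) := by
  induction hp with
  | const d a => exact DegLe.const _ _
  | coord d i =>
    have h1 : (fun x : ι → ZMod 2 => x i + (x + h) i) = fun _ => h i := by
      funext x
      rw [Pi.add_apply, ← add_assoc, add_self_two, zero_add]
    rw [h1]
    exact DegLe.const _ _
  | @add d f g h1 h2 ih1 ih2 =>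
    have h3 : (fun x : ι → ZMod 2 => f x + g x + (f (x + h) + g (x + h))) =
        fun x => f x + f (x + h) + (g x + g (x + h)) := by
      funext x
      ring
    rw [h3]
    exact DegLe.add ih1 ih2
  | @mul a b d f g h1 h2 h3 ih1 ih2 =>
    have key : ∀ x : ι → ZMod 2, f x * g x + f (x + h) * g (x + h) =
        f x * (g x + g (x + h)) + (f x + f (x + h)) * g (x + h) := by
      intro x
      have h4 : f x * (g x + g (x + h)) + (f x + f (x + h)) * g (x + h) =
        f x * g x + f (x + h) * g (x + h) + (f x * g (x + h) + f x * g (x + h)) := by ring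
      rw [h4, add_self_two, add_zero]
    rcases Nat.eq_zero_or_pos a with ha | ha
    · subst ha
      rcases Nat.eq_zero_or_pos b with hb | hb
      · subst hb
        have h4 : (fun x : ι → ZMod 2 => f x * g x + f (x + h) * g (x + h)) = fun _ => 0 := by
          funext x
          rw [DegLe_zero h1 (x + h) x, DegLe_zero h2 (x + h) x, add_self_two]
        rw [h4]
        exact DegLe.const _ _
      · have h4 : (fun x : ι → ZMod 2 => f x * g x + f (x + h) * g (x + h)) =
            fun x => f x * (g x + g (x + h)) := by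
          funext x
          rw [DegLe_zero h1 (x + h) x, mul_add]
        rw [h4]
        exact DegLe.mul h1 ih2 (by omega)
    · rcases Nat.eq_zero_or_pos b with hb | hb
      · subst hb
        have h4 : (fun x : ι → ZMod 2 => f x * g x + f (x + h) * g (x + h)) =
            fun x => (f x + f (x + h)) * g x := by
          funext x
          rw [DegLe_zero h2 (x + h) x, add_mul]
        rw [h4]
        exact DegLe.mul ih1 h2 (by omega)
      · have h4 : (fun x : ι → ZMod 2 => f x * g x + f (x + h) * g (x + h)) =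
            fun x => f x * (g x + g (x + h)) + (f x + f (x + h)) * g (x + h) := by
          funext x
          exact key x
        rw [h4]
        exact DegLe.add (DegLe.mul h1 ih2 (by omega)) (DegLe.mul ih1 (h2.shift h) (by omega))

lemma DegLe_deriv {d : ℕ} {p : (ι → ZMod 2) → ZMod 2} (hp : DegLe (d + 1) p)
    (h : ι → ZMod 2) : DegLe d fun x => p x + p (x + h) :=
  deriv_aux hp h

private lemma DegLe_one_aux [Fintype ι] {d : ℕ} {p : (ι → ZMod 2) → ZMod 2} (hp : DegLe d p)
    (hd : d ≤ 1) : ∃ (a : ZMod 2) (c : ι → ZMod 2), ∀ x, p x = a + ∑ i, c i * x i := by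
  classical
  induction hp with
  | const d a => exact ⟨a, fun _ => 0, fun x => by simp⟩
  | coord d i =>
    refine ⟨0, fun j => if j = i then 1 else 0, fun x => ?_⟩
    simp
  | add h1 h2 ih1 ih2 =>
    obtain ⟨a, c, h3⟩ := ih1 hd
    obtain ⟨a', c', h4⟩ := ih2 hd
    refine ⟨a + a', fun i => c i + c' i, fun x => ?_⟩
    simp only [h3, h4, add_mul, Finset.sum_add_distrib]
    ring
  | @mul a b d f g h1 h2 h3 ih1 ih2 =>
    rcases Nat.eq_zero_or_pos a with ha | ha
    · subst ha
      obtain ⟨a', c, h4⟩ := ih2 (by omega)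
      refine ⟨f 0 * a', fun i => f 0 * c i, fun x => ?_⟩
      change f x * g x = f 0 * a' + ∑ i, f 0 * c i * x i
      rw [DegLe_zero h1 x 0, h4, mul_add, Finset.mul_sum]
      simp only [mul_assoc]
    · have hb : b = 0 := by omega
      subst hb
      obtain ⟨a', c, h4⟩ := ih1 (by omega)
      refine ⟨a' * g 0, fun i => g 0 * c i, fun x => ?_⟩
      change f x * g x = a' * g 0 + ∑ i, g 0 * c i * x i
      rw [DegLe_zero h2 x 0, h4, add_mul, Finset.sum_mul]
      congr 1
      apply Finset.sum_congr rfl
      intro i _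
      ring

/-- A function of degree at most one is a constant plus a sum of coordinates. -/
lemma DegLe_one [Finite ι] {p : (ι → ZMod 2) → ZMod 2} (hp : DegLe 1 p) :
    ∃ (a : ZMod 2) (T : Finset ι), ∀ x, p x = a + ∑ i ∈ T, x i := by
  classical
  have := Fintype.ofFinite ι
  obtain ⟨a, c, h⟩ := DegLe_one_aux hp le_rfl
  refine ⟨a, Finset.univ.filter fun i => c i = 1, fun x => ?_⟩
  rw [h, Finset.sum_filter]
  congr 1
  apply Finset.sum_congr rfl
  intro i _
  have hb : ∀ b : ZMod 2, b = 0 ∨ b = 1 := by decide
  rcases hb (c i) with h1 | h1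
  · rw [h1]
    simp
  · rw [h1]
    simp

end Helper12.GR
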