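import Pool.Agent.Helper12.GR.Mean

set_option autoImplicit false

/-!
Distributions that fool polynomials of degree `D` fool systems of polynomial equations.

Proof sketch. The indicator function of `{x | ∀ j, p j x = a j}` is
`∏ j, (1 + sg (p j x + a j)) / 2 = 2 ^ (-r) * ∑_(T ⊆ Fin r) sg (∑ j ∈ T, (p j x + a j))`
(`Finset.prod_one_add` or `Finset.prod_add`, `sg_add`), each sum over `T` is a polynomial of degree at
most `D`; average over the `2 ^ r` sets `T`.
-/

namespace Helper12.GR

open Helper12.BI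

variable {n : ℕ}

private lemma sg_sum' {α : Type} [DecidableEq α] (T : Finset α) (q : α → ZMod 2) :
    sg (∑ j ∈ T, q j) = ∏ j ∈ T, sg (q j) := by
  induction T using Finset.induction_on with
  | empty => simp [sg]
  | insert a s ha ih => rw [Finset.sum_insert ha, Finset.prod_insert ha, sg_add, ih]

private lemma deg_sum' {D r : ℕ} (p : Fin r → (Fin n → ZMod 2) → ZMod 2) (a : Fin r → ZMod 2)
    (hp : ∀ j, DegLe D (p j)) (T : Finset (Fin r)) :
    DegLe D fun x => ∑ j ∈ T, (p j x + a j) := by
  induction T using Finset.induction_on with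
  | empty =>
    simp only [Finset.sum_empty]
    exact DegLe.const D 0
  | insert i s hi ih =>
    have h1 : (fun x : Fin n → ZMod 2 => ∑ j ∈ insert i s, (p j x + a j)) =
        fun x => (p i x + a i) + ∑ j ∈ s, (p j x + a j) := by
      funext x
      rw [Finset.sum_insert hi]
    rw [h1]
    exact DegLe.add (DegLe.add (hp i) (DegLe.const D (a i))) ih

private lemma ind_eq' {r : ℕ} (q : Fin r → ZMod 2) [Decidable (∀ j, q j = 0)] :
    (1 / 2 : ℝ) ^ r * ∑ T : Finset (Fin r), sg (∑ j ∈ T, q j) = if ∀ j, q j = 0 then 1 else 0 := by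
  have h1 : ∑ T : Finset (Fin r), sg (∑ j ∈ T, q j) = ∏ j : Fin r, (1 + sg (q j)) := by
    rw [Finset.prod_one_add, Finset.powerset_univ]
    exact Finset.sum_congr rfl fun T _ => sg_sum' T q
  rw [h1]
  split_ifs with h
  · have h2 : ∏ j : Fin r, (1 + sg (q j)) = 2 ^ r := by
      have h3 : ∀ j ∈ (Finset.univ : Finset (Fin r)), (1 + sg (q j)) = (2 : ℝ) := by
        intro j _
        rw [h j]
        norm_num [sg]
      rw [Finset.prod_congr rfl h3, Finset.prod_const, Finset.card_univ, Fintype.card_fin]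
    rw [h2, ← mul_pow]
    norm_num
  · push Not at h
    obtain ⟨j, hj⟩ := h
    have h2 : ∏ j : Fin r, (1 + sg (q j)) = 0 := by
      apply Finset.prod_eq_zero (Finset.mem_univ j)
      simp [sg, hj]
    rw [h2, mul_zero]

private lemma prob_eq' (μ : (Fin n → ZMod 2) → ℝ) {r : ℕ}
    (p : Fin r → (Fin n → ZMod 2) → ZMod 2) (a : Fin r → ZMod 2) :
    prob μ {x | ∀ j, p j x = a j} =
      (1 / 2 : ℝ) ^ r * ∑ T : Finset (Fin r),
        mean μ (fun x => sg (∑ j ∈ T, (p j x + a j))) := by
  classical
  unfold prob mean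
  rw [Finset.sum_comm, Finset.mul_sum]
  refine Finset.sum_congr rfl fun x _ => ?_
  rw [← Finset.mul_sum, mul_left_comm, ind_eq' (fun j => p j x + a j)]
  have h0 : ∀ u v : ZMod 2, u + v = 0 ↔ u = v := by decide
  simp only [h0]
  rw [Set.indicator_apply]
  simp only [Set.mem_ofPred_eq]
  split_ifs <;> simp

/-- A distribution that fools polynomials gives systems of polynomial equations the right
probability: the indicator function of the system is the average of `± sg` of the partial sums. -/
theorem disc_of_poly {μ : (Fin n → ZMod 2) → ℝ} (hμ : IsDist μ) {D : ℕ} {η : ℝ}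
    (h : ∀ p, DegLe D p →
      |mean μ (fun x => sg (p x)) - mean (unif (ZMod 2) n) (fun x => sg (p x))| ≤ η)
    {r : ℕ} (p : Fin r → (Fin n → ZMod 2) → ZMod 2) (a : Fin r → ZMod 2)
    (hp : ∀ j, DegLe D (p j)) :
    |prob μ {x | ∀ j, p j x = a j} - prob (unif (ZMod 2) n) {x | ∀ j, p j x = a j}| ≤ η := by
  rw [prob_eq', prob_eq', ← mul_sub, ← Finset.sum_sub_distrib, abs_mul,
    abs_of_pos (by positivity : (0 : ℝ) < (1 / 2) ^ r)]
  have h1 : |∑ T : Finset (Fin r), (mean μ (fun x => sg (∑ j ∈ T, (p j x + a j))) -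
      mean (unif (ZMod 2) n) (fun x => sg (∑ j ∈ T, (p j x + a j))))| ≤ 2 ^ r * η := by
    calc _ ≤ ∑ T : Finset (Fin r), |mean μ (fun x => sg (∑ j ∈ T, (p j x + a j))) -
          mean (unif (ZMod 2) n) (fun x => sg (∑ j ∈ T, (p j x + a j)))| :=
          Finset.abs_sum_le_sum_abs _ _
      _ ≤ ∑ _T : Finset (Fin r), η :=
          Finset.sum_le_sum fun T _ => h _ (deg_sum' p a hp T)
      _ = 2 ^ r * η := by
          rw [Finset.sum_const, Finset.card_univ, Fintype.card_finset, Fintype.card_fin,
            nsmul_eq_mul]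
          push_cast
          ring
  calc (1 / 2 : ℝ) ^ r * _ ≤ (1 / 2) ^ r * (2 ^ r * η) :=
        mul_le_mul_of_nonneg_left h1 (by positivity)
    _ = η := by
        rw [← mul_assoc, ← mul_pow]
        norm_num

end Helper12.GR
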