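import Pool.Agent.Helper12.GR.Unif

set_option autoImplicit false

/-!
Rules for `Res` (resolution by cells).

`Res.bind`: the index type is `Σ j, J j` where `J j` is the index type of the resolution of `g j`,
the cells are `A j ∩ B` (`B` a cell for `g j`), complexity `k j + k'`; cells on `P2` or `P1` are
cells on `P1 ++ P2` (`Cell.append_left`, `Cell.append_right`: a program over a group with
positions `P2` is continued by the letter `1` at the positions of `P1`, and conversely), the
intersection of cells of complexities `k`, `k'` is a cell of complexity `k + k'`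
(`Cell.inter_cell`); the measure of `A j ∩ B` is the product (`U_inter`).
-/

namespace Helper12.GR

open Helper12.BI

variable {ι S M : Type} [Monoid M]

lemma Cell.inter_cell {P : List ι} {k k' : ℕ} {A B : Set (ι → S)} (hA : Cell M P k A)
    (hB : Cell M P k' B) : Cell M P (k + k') (A ∩ B) := by
  induction hB with
  | univ => simpa using hA
  | inter _ h2 ih =>
    rw [← Set.inter_assoc]
    exact Cell.inter ih h2

open Classical in
private lemma gval_ext {G : Type} [Monoid G] {P : List ι} {g g' : ι → S → G} {x : ι → S}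
    (h : ∀ i ∈ P, g i (x i) = g' i (x i)) : gval P g x = gval P g' x := by
  unfold gval
  congr 1
  exact List.map_congr_left h

private lemma gval_one {G : Type} [Monoid G] {P : List ι} {g : ι → S → G} {x : ι → S}
    (h : ∀ i ∈ P, g i (x i) = 1) : gval P g x = 1 := by
  unfold gval
  apply List.prod_eq_one
  intro a ha
  obtain ⟨i, hi, rfl⟩ := List.mem_map.1 ha
  exact h i hi

private lemma gval_append {G : Type} [Monoid G] (P P' : List ι) (g : ι → S → G) (x : ι → S) :
    gval (P ++ P') g x = gval P g x * gval P' g x := by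
  simp [gval]

open Classical in
private lemma basic_append_right {P1 P2 : List ι} (hP : (P1 ++ P2).Nodup) {A : Set (ι → S)}
    (hA : Basic M P2 A) : Basic M (P1 ++ P2) A := by
  have hd : ∀ i ∈ P1, i ∉ P2 := fun i h1 h2 => (List.nodup_append.1 hP).2.2 i h1 i h2 rfl
  cases hA with
  | letter i hi s => exact Basic.letter i (List.mem_append_right _ hi) s
  | group G h g γ =>
    have e : {x : ι → S | gval P2 g x = γ} =
        {x | gval (P1 ++ P2) (fun i s => if i ∈ P2 then g i s else 1) x = γ} := by
      ext x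
      have h1 : gval P1 (fun i s => if i ∈ P2 then g i s else 1) x = 1 := by
        apply gval_one
        intro i hi
        simp [hd i hi]
      have h2 : gval P2 (fun i s => if i ∈ P2 then g i s else 1) x = gval P2 g x := by
        apply gval_ext
        intro i hi
        simp [hi]
      simp only [Set.mem_setOf_eq, gval_append, h1, h2, one_mul]
    rw [e]
    exact Basic.group G h _ γ

open Classical in
private lemma basic_append_left {P1 P2 : List ι} (hP : (P1 ++ P2).Nodup) {A : Set (ι → S)}
    (hA : Basic M P1 A) : Basic M (P1 ++ P2) A := by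
  have hd : ∀ i ∈ P2, i ∉ P1 := fun i h2 h1 => (List.nodup_append.1 hP).2.2 i h1 i h2 rfl
  cases hA with
  | letter i hi s => exact Basic.letter i (List.mem_append_left _ hi) s
  | group G h g γ =>
    have e : {x : ι → S | gval P1 g x = γ} =
        {x | gval (P1 ++ P2) (fun i s => if i ∈ P1 then g i s else 1) x = γ} := by
      ext x
      have h1 : gval P2 (fun i s => if i ∈ P1 then g i s else 1) x = 1 := by
        apply gval_one
        intro i hi
        simp [hd i hi]
      have h2 : gval P1 (fun i s => if i ∈ P1 then g i s else 1) x = gval P1 g x := by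
        apply gval_ext
        intro i hi
        simp [hi]
      simp only [Set.mem_setOf_eq, gval_append, h1, h2, mul_one]
    rw [e]
    exact Basic.group G h _ γ

lemma Cell.append_right {P1 P2 : List ι} (hP : (P1 ++ P2).Nodup) {k : ℕ} {A : Set (ι → S)}
    (hA : Cell M P2 k A) : Cell M (P1 ++ P2) k A := by
  induction hA with
  | univ => exact Cell.univ
  | inter _ h2 ih => exact Cell.inter ih (basic_append_right hP h2)

lemma Cell.append_left {P1 P2 : List ι} (hP : (P1 ++ P2).Nodup) {k : ℕ} {A : Set (ι → S)}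
    (hA : Cell M P1 k A) : Cell M (P1 ++ P2) k A := by
  induction hA with
  | univ => exact Cell.univ
  | inter _ h2 ih => exact Cell.inter ih (basic_append_left hP h2)

section rules

variable [Finite ι] [Finite S] [Nonempty S] {P P1 P2 : List ι} {α β : Type} {lam C tau : ℝ}

omit [Finite ι] [Finite S] [Nonempty S] in
lemma Res.of_determined {f : (ι → S) → α} {g : (ι → S) → β} (h : Res M P f lam C tau)
    (hg : ∀ x y, f x = f y → g x = g y) : Res M P g lam C tau := by
  obtain ⟨J, hJ, A, k, h1, h2, h3, h4, h5⟩ := h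
  exact ⟨J, hJ, A, k, h1, fun j x hx y hy => hg x y (h2 j x hx y hy), h3, h4, h5⟩

omit [Finite ι] [Finite S] [Nonempty S] in
lemma Res.mono {f : (ι → S) → α} {lam' C' : ℝ} (h : Res M P f lam C tau) (h1 : 0 ≤ lam')
    (h2 : lam' ≤ lam) (h3 : C ≤ C') : Res M P f lam' C' tau := by
  obtain ⟨J, hJ, A, k, a1, a2, a3, a4, a5⟩ := h
  refine ⟨J, hJ, A, k, a1, a2, a3, a4, ?_⟩
  refine le_trans (Finset.sum_le_sum fun j _ => ?_) (a5.trans h3)
  exact mul_le_mul_of_nonneg_left (pow_le_pow_left₀ h1 h2 _) (U_nonneg _)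

lemma Res.const {f : (ι → S) → α} (hf : ∀ x y, f x = f y) (hC : 1 ≤ C) :
    Res M P f lam C tau := by
  refine ⟨Unit, inferInstance, fun _ => Set.univ, fun _ => 0, fun _ => Cell.univ,
    fun _ x _ y _ => hf x y, fun x => ⟨(), trivial, fun _ _ => rfl⟩, fun _ => ?_, ?_⟩
  · rw [U_univ, pow_zero]
  · simpa [U_univ] using hC

/-- A letter is resolved by the cells of complexity one. -/
lemma Res.letter (i : ι) (hi : i ∈ P) (htau : tau ≤ 1 / (Nat.card S : ℝ)) (hlam : 0 ≤ lam)
    (hC : lam ≤ C) : Res M P (fun x : ι → S => x i) lam C tau := by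
  have := Fintype.ofFinite S
  refine ⟨S, inferInstance, fun s => {x | x i = s}, fun _ => 1, fun s => ?_, ?_,
    fun x => ⟨x i, rfl, fun s hs => hs.symm⟩, fun s => ?_, ?_⟩
  · have h := Cell.inter (Cell.univ (M := M) (P := P) (S := S)) (Basic.letter (M := M) i hi s)
    simpa using h
  · intro s x hx y hy
    exact (hx : x i = s).trans (hy : y i = s).symm
  · rw [U_letter, pow_one]
    exact htau
  · simp only [U_letter, pow_one]
    rw [Finset.sum_const, Finset.card_univ, nsmul_eq_mul, Nat.card_eq_fintype_card]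
    have h0 : (0 : ℝ) < (Fintype.card S : ℝ) := by
      exact_mod_cast Fintype.card_pos
    have e : (Fintype.card S : ℝ) * (1 / (Fintype.card S : ℝ) * lam) = lam := by
      field_simp
    rw [e]
    exact hC

/-- Adaptive composition: first the cells `A j` on the positions `P2`, then, depending on `j`,
cells on the positions `P1`. -/
theorem Res.bind (hP : (P1 ++ P2).Nodup) (hlam : 0 ≤ lam) (htau : 0 ≤ tau)
    {f : (ι → S) → α} {J : Type} [Fintype J] (A : J → Set (ι → S)) (k : J → ℕ)
    (hcell : ∀ j, Cell M P2 (k j) (A j)) (hpart : ∀ x, ∃! j, x ∈ A j)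
    (hA : ∀ j, tau ^ k j ≤ U (A j)) (g : J → (ι → S) → α) (hfg : ∀ j, ∀ x ∈ A j, f x = g j x)
    (C' : J → ℝ) (hg : ∀ j, Res M P1 (g j) lam (C' j) tau)
    (hC : ∑ j, U (A j) * lam ^ k j * C' j ≤ C) : Res M (P1 ++ P2) f lam C tau := by
  choose J' hJ' B k' b1 b2 b3 b4 b5 using hg
  have hd : List.Disjoint P2 P1 := by
    intro i h2 h1
    exact (List.nodup_append.1 hP).2.2 i h1 i h2 rfl
  have hU : ∀ j i, U (A j ∩ B j i) = U (A j) * U (B j i) := fun j i =>
    U_inter (hcell j).dependsOn (b1 j i).dependsOn hd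
  refine ⟨Σ j, J' j, inferInstance, fun p => A p.1 ∩ B p.1 p.2, fun p => k p.1 + k' p.1 p.2,
    fun p => ?_, ?_, ?_, fun p => ?_, ?_⟩
  · exact ((hcell p.1).append_right hP).inter_cell ((b1 p.1 p.2).append_left hP)
  · rintro ⟨j, i⟩ x hx y hy
    rw [hfg j x hx.1, hfg j y hy.1]
    exact b2 j i x hx.2 y hy.2
  · intro x
    obtain ⟨j, hj, hju⟩ := hpart x
    obtain ⟨i, hi, hiu⟩ := b3 j x
    refine ⟨⟨j, i⟩, ⟨hj, hi⟩, ?_⟩
    rintro ⟨j', i'⟩ ⟨h1, h2⟩
    have h1' : j' = j := hju j' h1
    subst h1'
    have h2' : i' = i := hiu i' h2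
    rw [h2']
  · rw [hU, pow_add]
    exact mul_le_mul (hA _) (b4 _ _) (pow_nonneg htau _) (U_nonneg _)
  · rw [Fintype.sum_sigma]
    refine le_trans (Finset.sum_le_sum fun j _ => ?_) hC
    have e : ∑ i, U (A j ∩ B j i) * lam ^ (k j + k' j i) =
        U (A j) * lam ^ k j * ∑ i, U (B j i) * lam ^ k' j i := by
      rw [Finset.mul_sum]
      apply Finset.sum_congr rfl
      intro i _
      rw [hU, pow_add]
      ring
    rw [e]
    exact mul_le_mul_of_nonneg_left (b5 j) (mul_nonneg (U_nonneg _) (pow_nonneg hlam _))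

open Classical in
/-- Independent resolutions (a special case of `Res.bind`). -/
theorem Res.prod (hP : (P1 ++ P2).Nodup) (hlam : 0 ≤ lam) (htau : 0 ≤ tau)
    {f1 : (ι → S) → α} {f2 : (ι → S) → β} {C1 C2 : ℝ} (h1 : Res M P1 f1 lam C1 tau)
    (h2 : Res M P2 f2 lam C2 tau) (hC1 : 0 ≤ C1) :
    Res M (P1 ++ P2) (fun x => (f1 x, f2 x)) lam (C1 * C2) tau := by
  obtain ⟨J, hJ, A, k, a1, a2, a3, a4, a5⟩ := h2
  let b : J → β := fun j => if h : (A j).Nonempty then f2 h.choose
    else f2 (fun _ => Classical.arbitrary S)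
  refine Res.bind hP hlam htau A k a1 a3 a4 (fun j x => (f1 x, b j)) ?_ (fun _ => C1) ?_ ?_
  · intro j x hx
    have hne : (A j).Nonempty := ⟨x, hx⟩
    have e : b j = f2 x := by
      simp only [b, dif_pos hne]
      exact a2 j _ hne.choose_spec x hx
    rw [e]
  · intro j
    refine h1.of_determined ?_
    intro x y hxy
    rw [hxy]
  · rw [← Finset.sum_mul, mul_comm]
    exact mul_le_mul_of_nonneg_left a5 hC1

end rules

end Helper12.GR
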