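import Pool.Agent.Helper12.GR.Split
import Pool.Agent.Helper12.GR.Res
import Pool.Agent.Helper12.BI.Dual

set_option autoImplicit false

/-!
Left-right duality.

Proof sketch. The mirror image of a program `L` over `M` is the program
`L.reverse.map (fun p => (p.1, fun s => MulOpposite.op (p.2 s)))` over `Mᵐᵒᵖ`, its value is `op` of
the value, its positions are reversed. A basic set for `Mᵐᵒᵖ` and `P.reverse` is a basic set for `M`
and `P`: replace a group `G` dividing `Mᵐᵒᵖ` by `Gᵐᵒᵖ`, which divides `M`. Hence cells and `Res`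
transfer (`Res Mᵐᵒᵖ P.reverse f lam C tau → Res M P f lam C tau`). `JLe`, `JEq`, `ht` transfer as in
Helper12/BI/Dual.lean (`anti_op`, `Anti.jeq_iff`, `Anti.ht_eq`).

`orth_op`: let `x, x', z, z'` in `M` be `J`-equivalent with `z x = z x'`, `z x` and `z' x` in the
same class; to show `z' x' = z' x`. `z' x` and `z x` are in the left ideal class of `x`
(`stabL`), so `z x = s (z' x)` for some `s`. Put `z'' = s z'`; it is `J`-equivalent to `x` (above
`z x`, below `z'`). Now `z x = z'' x` and `z x' = z x` stay in the class, so `Orth` (for the rows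
`z, z''` and the columns `x, x'`) gives `z'' x' = z x' = z x = z'' x`, i.e.
`s (z' x') = s (z' x)`. As `s (z' x)` is `J`-equivalent to `z' x`, there is `t` with
`t (s (z' x)) = z' x` (`stabL`). `z' x'` is in the class (it is above `s z' x' = z x`) and
in the right ideal class of `z'`, as is `z' x`, so `z' x' = z' x r` for some `r` (`stabR`), and
`z' x' = z' x r = t s z' x r = t s z' x' = t s z' x = z' x`.
-/

namespace Helper12.GR

open Helper12.BI

variable {ι S M : Type} [Monoid M]

theorem orth_op [Finite M] (hO : Orth M) : Orth Mᵐᵒᵖ := by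
  have h : Anti (MulOpposite.op : M → Mᵐᵒᵖ) MulOpposite.unop := anti_op
  intro x₁ x₁' z₁ z₁' a1 a2 a3 a4 a5 a6
  obtain ⟨x, rfl⟩ : ∃ x, MulOpposite.op x = x₁ := ⟨x₁.unop, rfl⟩
  obtain ⟨x', rfl⟩ : ∃ x, MulOpposite.op x = x₁' := ⟨x₁'.unop, rfl⟩
  obtain ⟨z, rfl⟩ : ∃ x, MulOpposite.op x = z₁ := ⟨z₁.unop, rfl⟩
  obtain ⟨z', rfl⟩ : ∃ x, MulOpposite.op x = z₁' := ⟨z₁'.unop, rfl⟩
  rw [← MulOpposite.op_mul] at a5 a6
  rw [← MulOpposite.op_mul, ← MulOpposite.op_mul] at a4
  rw [← MulOpposite.op_mul, ← MulOpposite.op_mul]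
  rw [h.jeq_iff] at a1 a2 a3 a5 a6
  have a7 : z * x = z * x' := MulOpposite.op_injective a4
  obtain ⟨b, hb⟩ := stabL a6.1
  obtain ⟨s, hs⟩ : ∃ s, s = z * b := ⟨_, rfl⟩
  have hzx : z * x = s * (z' * x) := by
    rw [hs, mul_assoc, hb]
  have h1 : JEq x (s * z') := by
    refine ⟨?_, ?_⟩
    · refine a5.1.trans ?_
      rw [hzx, ← mul_assoc]
      exact JLe.of_mul_right _ _
    · exact (JLe.of_mul_left z' s).trans a3.2
  have h2 := hO z (s * z') x x' (a2.symm.trans h1) a2.symm (a2.symm.trans a1)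
    (by rw [hzx, mul_assoc]) (a2.symm.trans a5) (a2.symm.trans (by rw [← a7]; exact a5))
  have h3 : s * (z' * x') = s * (z' * x) := by
    rw [← hzx, a7, ← h2, mul_assoc]
  have h4 : JLe (z' * x) (s * (z' * x)) := by
    rw [← hzx]
    exact (JLe.of_mul_left x z').trans a5.1
  obtain ⟨t, ht⟩ := stabL h4
  obtain ⟨q, hq⟩ := stabR (a3.2.trans a6.1)
  have h5 : z' * x' = z' * x * (q * x') := by
    rw [← mul_assoc, hq]
  congr 1
  calc z' * x' = z' * x * (q * x') := h5
    _ = t * (s * (z' * x)) * (q * x') := by rw [ht]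
    _ = t * (s * (z' * x * (q * x'))) := by simp only [mul_assoc]
    _ = t * (s * (z' * x')) := by rw [← h5]
    _ = z' * x := by rw [h3, ht]

/-- The mirror image of a program. -/
private def mr {M N : Type} (a : M → N) (L : List (ι × (S → M))) : List (ι × (S → N)) :=
  (L.map fun p => (p.1, fun s => a (p.2 s))).reverse

private lemma mr_cons {M N : Type} (a : M → N) (i : ι) (c : S → M) (L : List (ι × (S → M))) :
    mr a ((i, c) :: L) = mr a L ++ [(i, fun s => a (c s))] := by
  simp [mr]

private lemma mr_append {M N : Type} (a : M → N) (L L' : List (ι × (S → M))) :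
    mr a (L ++ L') = mr a L' ++ mr a L := by
  simp [mr]

private lemma mr_mr {M N : Type} {a : M → N} {b : N → M} (h : ∀ x, b (a x) = x)
    (L : List (ι × (S → M))) : mr b (mr a L) = L := by
  induction L with
  | nil => rfl
  | cons p L ih =>
    obtain ⟨i, c⟩ := p
    rw [mr_cons, mr_append, ih, mr_cons]
    simp only [h]
    rfl

private lemma pos_mr {M N : Type} (a : M → N) (L : List (ι × (S → M))) :
    pos (mr a L) = (pos L).reverse := by
  simp [mr, pos, Function.comp_def]

private lemma val_mr {M N : Type} [Monoid M] [Monoid N] {a : M → N} {b : N → M} (h : Anti a b)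
    (L : List (ι × (S → M))) (x : ι → S) : val (mr a L) x = a (val L x) := by
  induction L with
  | nil => exact h.one.symm
  | cons p L ih =>
    obtain ⟨i, c⟩ := p
    rw [mr_cons, val_append, ih, val_cons, val_cons, val_nil, mul_one, h.mul]

theorem splitL [Finite ι] [Finite S] [Nonempty S] [Finite M] (hO : Orth M) (v : M)
    {L : List (ι × (S → M))} (hL : (pos L).Nodup) :
    (∀ x, JEq v (val L x * v)) ∨ ∃ L1 i c L2, L = L1 ++ (i, c) :: L2 ∧
      (∀ x, JEq v (val L2 x * v)) ∧
      (1 / (Nat.card S : ℝ)) ^ (Nat.card M + 1) ≤ U {x | ¬ JEq v (c (x i) * (val L2 x * v))} := by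
  have h : Anti (MulOpposite.op : M → Mᵐᵒᵖ) MulOpposite.unop := anti_op
  have : Finite Mᵐᵒᵖ := Finite.of_equiv M MulOpposite.opEquiv
  have hcard : Nat.card Mᵐᵒᵖ = Nat.card M := Nat.card_congr MulOpposite.opEquiv.symm
  have hn : (pos (mr (MulOpposite.op : M → Mᵐᵒᵖ) L)).Nodup := by
    rw [pos_mr]
    exact List.nodup_reverse.2 hL
  rcases splitR (orth_op hO) (MulOpposite.op v) hn with h1 | ⟨L1, i, c, L2, h1, h2, h3⟩
  · left
    intro x
    have := h1 x
    rw [val_mr h, ← h.mul, h.jeq_iff] at this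
    exact this
  · right
    refine ⟨mr MulOpposite.unop L2, i, fun s => MulOpposite.unop (c s), mr MulOpposite.unop L1,
      ?_, ?_, ?_⟩
    · rw [← mr_mr h.left L, h1, mr_append, mr_cons, List.append_assoc]
      rfl
    · intro x
      have := h2 x
      rw [← h.right (val L1 x), ← h.mul, h.jeq_iff] at this
      rw [val_mr h.symm]
      exact this
    · rw [hcard] at h3
      refine h3.trans (le_of_eq ?_)
      congr 1
      ext x
      have e : MulOpposite.op v * val L1 x * c (x i) =
          MulOpposite.op (MulOpposite.unop (c (x i)) *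
            (val (mr MulOpposite.unop L1) x * v)) := by
        rw [h.mul, h.mul, val_mr h.symm, h.right, h.right]
      simp only [Set.mem_setOf_eq]
      rw [e, h.jeq_iff]

private lemma divides_op {G : Type} [Group G] (h : Divides G Mᵐᵒᵖ) : Divides Gᵐᵒᵖ M := by
  obtain ⟨N, φ, hφ⟩ := h
  refine ⟨N.unop, ⟨⟨fun x => MulOpposite.op (φ ⟨MulOpposite.op x.1, x.2⟩), ?_⟩, ?_⟩, ?_⟩
  · have : (⟨MulOpposite.op (1 : N.unop).1, (1 : N.unop).2⟩ : N) = 1 := rfl
    rw [this, map_one]
    rfl
  · intro x y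
    have : (⟨MulOpposite.op (x * y).1, (x * y).2⟩ : N) =
        ⟨MulOpposite.op y.1, y.2⟩ * ⟨MulOpposite.op x.1, x.2⟩ := rfl
    show MulOpposite.op (φ ⟨MulOpposite.op (x * y).1, (x * y).2⟩) = _
    rw [this, map_mul]
    rfl
  · intro g
    obtain ⟨x, hx⟩ := hφ g.unop
    refine ⟨⟨MulOpposite.unop x.1, x.2⟩, ?_⟩
    show MulOpposite.op (φ x) = g
    rw [hx, MulOpposite.op_unop]

private lemma gval_op {G : Type} [Group G] (P : List ι) (g : ι → S → G) (x : ι → S) :
    gval P (fun i s => MulOpposite.op (g i s)) x = MulOpposite.op (gval P.reverse g x) := by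
  unfold gval
  rw [MulOpposite.op_list_prod, List.map_reverse, List.map_reverse, List.reverse_reverse,
    List.map_map]
  rfl

private lemma basic_op {P : List ι} {A : Set (ι → S)} (h : Basic Mᵐᵒᵖ P.reverse A) :
    Basic M P A := by
  cases h with
  | letter i hi s => exact Basic.letter i (List.mem_reverse.1 hi) s
  | group G h g γ =>
    have : Finite Gᵐᵒᵖ := Finite.of_equiv G MulOpposite.opEquiv
    have e : {x : ι → S | gval P.reverse g x = γ} =
        {x | gval P (fun i s => MulOpposite.op (g i s)) x = MulOpposite.op γ} := by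
      ext x
      simp only [Set.mem_setOf_eq]
      rw [gval_op]
      exact ⟨fun h1 => by rw [h1], fun h1 => MulOpposite.op_injective h1⟩
    rw [e]
    exact Basic.group Gᵐᵒᵖ (divides_op h) _ _

private lemma cell_op {P : List ι} {k : ℕ} {A : Set (ι → S)} (h : Cell Mᵐᵒᵖ P.reverse k A) :
    Cell M P k A := by
  induction h with
  | univ => exact Cell.univ
  | inter _ hB ih => exact Cell.inter ih (basic_op hB)

theorem HasPL_of_HasPR {t : ℕ} {tau : ℝ} (h : HasPR Mᵐᵒᵖ S t tau) : HasPL M S t tau := by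
  have ha : Anti (MulOpposite.op : M → Mᵐᵒᵖ) MulOpposite.unop := anti_op
  obtain ⟨lam, C, hlam, hC, h⟩ := h
  refine ⟨lam, C, hlam, hC, ?_⟩
  intro ι _ v L hL ht hv
  obtain ⟨J, hJ, A, k, h1, h2, h3, h4, h5⟩ := h ι (MulOpposite.op v) (mr MulOpposite.op L)
    (by rw [pos_mr]; exact List.nodup_reverse.2 hL) (by rwa [ha.ht_eq]) (by
      intro x
      rw [val_mr ha, ← ha.mul, ha.jeq_iff]
      exact hv x)
  rw [pos_mr] at h1
  refine ⟨J, hJ, A, k, fun j => cell_op (h1 j), ?_, h3, h4, h5⟩
  intro j x hx y hy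
  have := h2 j x hx y hy
  simp only [val_mr ha, ← ha.mul] at this
  exact MulOpposite.op_injective this

end Helper12.GR
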