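import Pool.Agent.Helper12.GR.Defs
import Pool.Agent.Helper68.EDA.Alg

set_option autoImplicit false

/-!
The blocks of all `J`-classes are orthodox if and only if every regular product of idempotents is
idempotent.
-/

namespace Helper12.GR

open Helper12.BI

theorem orth_iff_eda {M : Type} [Monoid M] [Finite M] : Orth M ↔ Helper68.EDA.IsEDA M := by
  constructor
  · intro h
    refine Helper68.EDA.Pat.eda ?_
    intro e g f he hg hf h1 h2 h3 h4
    have hgf : JEq g f := ⟨⟨1, g, by rw [one_mul, h4]⟩, ⟨1, f, by rw [one_mul, h3]⟩⟩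
    have hge : JEq g e := ⟨⟨g, 1, by rw [mul_one, h2]⟩, ⟨e, 1, by rw [mul_one, h1]⟩⟩
    have hfe : f * e = g * e := h g f g e hgf (JEq.refl g) hge (by rw [hg, h4])
      (by rw [hg]; exact JEq.refl g) (by rw [h2]; exact JEq.refl g)
    rw [mul_assoc, hfe, h2, h1]
  · intro h x x' z z' h1 h2 h3 h4 h5 h6
    have hP := h.pat
    have g1 : JEq z (x * z) := h2.symm.trans h5
    have g2 : JEq x' (x * z) := h1.symm.trans h5
    have g3 : JEq z' (x * z') := h3.symm.trans h6
    exact Helper68.EDA.keyK hP (w := z) h4 h5.1 g1.1 g2.1 h6.1 g3.1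

end Helper12.GR
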