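import Pool.Agent.Helper12.GR.Res

set_option autoImplicit false

/-!
Fooling from a resolution by cells.

Proof sketch for `fool_of_res`. Let `J, A, k` be the resolution and `J_T = {j | k j ≤ T}`.
`#J_T ≤ 1 / tau ^ T` because `tau ^ T ≤ tau ^ k j ≤ U (A j)` for `j ∈ J_T` and the measures add up
to one; the measure of the other cells is at most `C / lam ^ T` since `lam ^ T ≤ lam ^ k j`.
`μ {f ∈ F} ≥ ∑ μ (A j)` over the `j ∈ J_T` with value in `F`, which is
`≥ ∑ (U (A j) - η) ≥ U {f ∈ F} - C / lam ^ T - η / tau ^ T`; the same for the complement of `F`.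
-/

namespace Helper12.GR

open Helper12.BI

lemma U_eq_prob {S : Type} [Fintype S] [Nonempty S] {n : ℕ} (A : Set (Fin n → S)) :
    U A = prob (unif S n) A := by
  classical
  have hc : (Fintype.card S : ℝ) ≠ 0 := by
    exact_mod_cast Fintype.card_ne_zero
  have h1 : prob (unif S n) A = (Nat.card A : ℝ) * (1 / (Fintype.card S : ℝ)) ^ n := by
    unfold prob unif
    simp only [Set.indicator_apply]
    rw [← Finset.sum_filter, Finset.sum_const, nsmul_eq_mul]
    congr 2
    rw [Nat.card_eq_fintype_card, Fintype.card_subtype]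
  rw [h1]
  unfold U
  rw [Nat.card_eq_fintype_card (α := Fin n → S), Fintype.card_fun, Fintype.card_fin]
  push_cast
  rw [one_div, inv_pow, div_eq_mul_inv]

namespace FoolRes

variable {S : Type} [Fintype S] {n : ℕ}

lemma prob_partition {J : Type} [Fintype J] {A : J → Set (Fin n → S)}
    (hpart : ∀ x, ∃! j, x ∈ A j) (ν : (Fin n → S) → ℝ) (E : Set (Fin n → S)) :
    prob ν E = ∑ j, prob ν (E ∩ A j) := by
  classical
  unfold prob
  rw [Finset.sum_comm]
  refine Finset.sum_congr rfl fun x _ => ?_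
  obtain ⟨j0, hj0, huniq⟩ := hpart x
  rw [Finset.sum_eq_single j0]
  · by_cases hx : x ∈ E
    · rw [Set.indicator_of_mem hx, Set.indicator_of_mem (Set.mem_inter hx hj0)]
    · rw [Set.indicator_of_notMem hx, Set.indicator_of_notMem fun h => hx h.1]
  · intro j _ hj
    exact Set.indicator_of_notMem (fun h => hj (huniq j h.2)) _
  · intro h
    exact absurd (Finset.mem_univ _) h

lemma prob_mono' {ν : (Fin n → S) → ℝ} (hν : ∀ x, 0 ≤ ν x) {A B : Set (Fin n → S)}
    (h : A ⊆ B) : prob ν A ≤ prob ν B := by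
  classical
  unfold prob
  refine Finset.sum_le_sum fun x _ => ?_
  exact Set.indicator_le_indicator_of_subset h hν x

lemma prob_nonneg' {ν : (Fin n → S) → ℝ} (hν : ∀ x, 0 ≤ ν x) (A : Set (Fin n → S)) :
    0 ≤ prob ν A := by
  unfold prob
  exact Finset.sum_nonneg fun x _ => Set.indicator_nonneg (fun y _ => hν y) x

lemma prob_univ' {ν : (Fin n → S) → ℝ} (hν : IsDist ν) : prob ν Set.univ = 1 := by
  unfold prob
  rw [Set.indicator_univ]
  exact hν.2

lemma prob_compl' {ν : (Fin n → S) → ℝ} (hν : IsDist ν) (A : Set (Fin n → S)) :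
    prob ν Aᶜ = 1 - prob ν A := by
  have h : prob ν A + prob ν Aᶜ = 1 := by
    unfold prob
    rw [← Finset.sum_add_distrib, ← hν.2]
    exact Finset.sum_congr rfl fun x _ => Set.indicator_self_add_compl_apply A ν x
  linarith

lemma unif_dist [Nonempty S] : IsDist (unif S n) := by
  constructor
  · intro x
    unfold unif
    positivity
  · have h := U_eq_prob (S := S) (n := n) Set.univ
    have h2 : prob (unif S n) Set.univ = ∑ x, unif S n x := by
      unfold prob
      rw [Set.indicator_univ]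
    rw [← h2, ← h]
    unfold U
    rw [Nat.card_univ]
    have : (Nat.card (Fin n → S) : ℝ) ≠ 0 := by
      exact_mod_cast Nat.card_pos.ne'
    exact div_self this

/-- The one-sided estimate. -/
lemma one_side [Nonempty S] {α : Type} {f : (Fin n → S) → α} {lam C tau : ℝ} (hlam : 1 ≤ lam)
    (htau : 0 < tau) (htau1 : tau ≤ 1) {J : Type} [Fintype J] {A : J → Set (Fin n → S)}
    {k : J → ℕ} (hconst : ∀ j, ∀ x ∈ A j, ∀ y ∈ A j, f x = f y)
    (hpart : ∀ x, ∃! j, x ∈ A j) (hlow : ∀ j, tau ^ k j ≤ U (A j))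
    (hsum : ∑ j, U (A j) * lam ^ k j ≤ C) (F : Set α) (T : ℕ) {η : ℝ} (hη : 0 ≤ η)
    {μ : (Fin n → S) → ℝ} (hμ : IsDist μ)
    (hcell : ∀ j, k j ≤ T → |prob μ (A j) - prob (unif S n) (A j)| ≤ η) :
    prob (unif S n) {x | f x ∈ F} - prob μ {x | f x ∈ F} ≤ C / lam ^ T + η / tau ^ T := by
  classical
  set E : Set (Fin n → S) := {x | f x ∈ F} with hE
  have hu := unif_dist (S := S) (n := n)
  have hlamT : 0 < lam ^ T := pow_pos (by linarith) T
  have htauT : 0 < tau ^ T := pow_pos htau T
  have hUn : ∀ j, 0 ≤ prob (unif S n) (A j) := fun j => prob_nonneg' hu.1 _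
  -- the measures add up to one
  have htot : ∑ j, prob (unif S n) (A j) = 1 := by
    have h := prob_partition hpart (unif S n) Set.univ
    rw [prob_univ' hu] at h
    rw [h]
    exact Finset.sum_congr rfl fun j _ => by rw [Set.univ_inter]
  -- the number of cells of small complexity
  have hcard : ((Finset.univ.filter fun j => k j ≤ T).card : ℝ) * tau ^ T ≤ 1 := by
    calc ((Finset.univ.filter fun j => k j ≤ T).card : ℝ) * tau ^ T
        = ∑ _j ∈ Finset.univ.filter fun j => k j ≤ T, tau ^ T := by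
          rw [Finset.sum_const, nsmul_eq_mul]
      _ ≤ ∑ j ∈ Finset.univ.filter fun j => k j ≤ T, prob (unif S n) (A j) := by
          refine Finset.sum_le_sum fun j hj => ?_
          rw [← U_eq_prob]
          refine le_trans ?_ (hlow j)
          exact pow_le_pow_of_le_one htau.le htau1 (Finset.mem_filter.1 hj).2
      _ ≤ ∑ j, prob (unif S n) (A j) :=
          Finset.sum_le_sum_of_subset_of_nonneg (Finset.filter_subset _ _) fun j _ _ => hUn j
      _ = 1 := htot
  -- the cells of large complexity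
  have hlarge : ∑ j ∈ Finset.univ.filter fun j => ¬ k j ≤ T, prob (unif S n) (A j)
      ≤ C / lam ^ T := by
    rw [le_div_iff₀ hlamT, Finset.sum_mul]
    calc ∑ j ∈ Finset.univ.filter fun j => ¬ k j ≤ T, prob (unif S n) (A j) * lam ^ T
        ≤ ∑ j ∈ Finset.univ.filter fun j => ¬ k j ≤ T, U (A j) * lam ^ k j := by
          refine Finset.sum_le_sum fun j hj => ?_
          rw [U_eq_prob]
          refine mul_le_mul_of_nonneg_left ?_ (hUn j)
          have := (Finset.mem_filter.1 hj).2
          exact pow_le_pow_right₀ hlam (by omega)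
      _ ≤ ∑ j, U (A j) * lam ^ k j := by
          refine Finset.sum_le_sum_of_subset_of_nonneg (Finset.filter_subset _ _) fun j _ _ => ?_
          rw [U_eq_prob]
          exact mul_nonneg (hUn j) (pow_nonneg (by linarith) _)
      _ ≤ C := hsum
  -- comparison cell by cell
  have hsmall : ∀ j, k j ≤ T → prob (unif S n) (E ∩ A j) ≤ prob μ (E ∩ A j) + η := by
    intro j hj
    by_cases hne : ∃ x ∈ A j, f x ∈ F
    · obtain ⟨x, hx, hxF⟩ := hne
      have hsub : A j ⊆ E := by
        intro y hy
        show f y ∈ F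
        rw [hconst j y hy x hx]
        exact hxF
      rw [Set.inter_eq_self_of_subset_right hsub]
      have := abs_le.1 (hcell j hj)
      linarith [this.1]
    · have hemp : E ∩ A j = ∅ := by
        ext y
        simp only [Set.mem_inter_iff, Set.mem_empty_iff_false, iff_false]
        rintro ⟨h1, h2⟩
        exact hne ⟨y, h2, h1⟩
      rw [hemp]
      have : ∀ ν : (Fin n → S) → ℝ, prob ν (∅ : Set (Fin n → S)) = 0 := by
        intro ν
        unfold prob
        simp
      rw [this, this]
      linarith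
  have key : prob (unif S n) E ≤ prob μ E
      + ((Finset.univ.filter fun j => k j ≤ T).card : ℝ) * η + C / lam ^ T := by
    rw [prob_partition hpart (unif S n) E, prob_partition hpart μ E,
      ← Finset.sum_filter_add_sum_filter_not Finset.univ (fun j => k j ≤ T),
      ← Finset.sum_filter_add_sum_filter_not Finset.univ (fun j => k j ≤ T)
        (fun j => prob μ (E ∩ A j))]
    have h1 : ∑ j ∈ Finset.univ.filter fun j => k j ≤ T, prob (unif S n) (E ∩ A j)
        ≤ (∑ j ∈ Finset.univ.filter fun j => k j ≤ T, prob μ (E ∩ A j))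
          + ((Finset.univ.filter fun j => k j ≤ T).card : ℝ) * η := by
      rw [← nsmul_eq_mul, ← Finset.sum_const, ← Finset.sum_add_distrib]
      exact Finset.sum_le_sum fun j hj => hsmall j (Finset.mem_filter.1 hj).2
    have h2 : ∑ j ∈ Finset.univ.filter fun j => ¬ k j ≤ T, prob (unif S n) (E ∩ A j)
        ≤ C / lam ^ T :=
      le_trans (Finset.sum_le_sum fun j _ => prob_mono' hu.1 Set.inter_subset_right) hlarge
    have h3 : 0 ≤ ∑ j ∈ Finset.univ.filter fun j => ¬ k j ≤ T, prob μ (E ∩ A j) :=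
      Finset.sum_nonneg fun j _ => prob_nonneg' hμ.1 _
    linarith
  have hlast : ((Finset.univ.filter fun j => k j ≤ T).card : ℝ) * η ≤ η / tau ^ T := by
    rw [le_div_iff₀ htauT]
    calc ((Finset.univ.filter fun j => k j ≤ T).card : ℝ) * η * tau ^ T
        = (((Finset.univ.filter fun j => k j ≤ T).card : ℝ) * tau ^ T) * η := by ring
      _ ≤ 1 * η := mul_le_mul_of_nonneg_right hcard hη
      _ = η := one_mul η
  linarith

end FoolRes

theorem fool_of_res {S M α : Type} [Monoid M] [Fintype S] [Nonempty S] {n : ℕ}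
    {P : List (Fin n)} {f : (Fin n → S) → α} {lam C tau : ℝ} (hlam : 1 ≤ lam) (htau : 0 < tau)
    (htau1 : tau ≤ 1) (hres : Res M P f lam C tau) (F : Set α) (T : ℕ) (η : ℝ)
    (μ : (Fin n → S) → ℝ) (hμ : IsDist μ)
    (hcell : ∀ k ≤ T, ∀ A, Cell M P k A → |prob μ A - prob (unif S n) A| ≤ η) :
    |prob μ {x | f x ∈ F} - prob (unif S n) {x | f x ∈ F}| ≤ C / lam ^ T + η / tau ^ T := by
  obtain ⟨J, hJ, A, k, h1, h2, h3, h4, h5⟩ := hres
  have hη : 0 ≤ η := le_trans (abs_nonneg _) (hcell 0 (Nat.zero_le T) _ Cell.univ)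
  have hc : ∀ j, k j ≤ T → |prob μ (A j) - prob (unif S n) (A j)| ≤ η :=
    fun j hj => hcell (k j) hj (A j) (h1 j)
  have hF := FoolRes.one_side hlam htau htau1 h2 h3 h4 h5 F T hη hμ hc
  have hFc := FoolRes.one_side hlam htau htau1 h2 h3 h4 h5 Fᶜ T hη hμ hc
  have e : {x : Fin n → S | f x ∈ Fᶜ} = {x | f x ∈ F}ᶜ := rfl
  rw [e, FoolRes.prob_compl' FoolRes.unif_dist, FoolRes.prob_compl' hμ] at hFc
  rw [abs_le]
  constructor
  · linarith
  · linarith

end Helper12.GR
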