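import Pool.Agent.Helper12.GR.Defs
import Pool.Agent.Helper12.GR.Av

set_option autoImplicit false

/-!
The generator of Impagliazzo, Nisan and Wigderson with small bias steps.

Hints. `Pt_succ`: `Fin (2 * (i + 1) + 1) → F` is `F × F × (Fin (2 * i + 1) → F)` by
`Fin.consEquiv` (or `Fin.cons`, `Fin.insertNthEquiv`) twice (`av_equiv`, `av_prod`); for
`w' = Fin.cons a (Fin.cons b w)` one has `ext w' 0 = a`, `ext w' 1 = b`, `ext w' (j + 2) = ext w j`,
and `ext w j + b * a ^ j = ext (w + sh (2 * i + 1) (a, b)) j` for `j < 2 * i + 1` (`tOp_congr`).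
`Pt_zero`: `Fin 1 → F` is `F`, and the trace `F → ZMod 2` is additive and surjective
(`Algebra.trace_surjective`), so every bit has `card F / 2` preimages.
`pr_eq`: induction on `i`, `Fin (2 ^ (i + 1)) → ZMod 2` is the product of two copies of
`Fin (2 ^ i) → ZMod 2` (`Fin.appendEquiv`, `Fin.append`, `List.ofFn_fin_append`), or first
the general lemma: the mean value over `x : Fin n → ZMod 2` of
`(List.ofFn fun t : Fin n => B t (x t)).prod` is `(List.ofFn fun t => av (B t)).prod` by induction
on `n` with `Fin.consEquiv`, `List.ofFn_succ`, `av_prod`, `av_mul_left`, `av_mul_right`.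
-/

namespace Helper12.GR

open Helper12.BI

section gen

variable {F : Type} [Field F] [Algebra (ZMod 2) F]

/-- The generator: the bit `t < 2 ^ i` of the output for the seed `w 0, ..., w (2 i)`. -/
noncomputable def gen : ℕ → (ℕ → F) → ℕ → ZMod 2
  | 0, w, _ => Algebra.trace (ZMod 2) F (w 0)
  | i + 1, w, t => if t < 2 ^ i then gen i (fun j => w (j + 2)) t
      else gen i (fun j => w (j + 2) + w 1 * w 0 ^ j) (t - 2 ^ i)

/-- Extension by zero. -/
def ext {N : ℕ} (w : Fin N → F) : ℕ → F := fun j => if h : j < N then w ⟨j, h⟩ else 0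

/-- The product of the letters for the seed `w`. -/
noncomputable def tOp {R : Type} [Monoid R] : ℕ → (ℕ → ZMod 2 → R) → (ℕ → F) → R
  | 0, A, w => A 0 (Algebra.trace (ZMod 2) F (w 0))
  | i + 1, A, w => tOp i A (fun j => w (j + 2)) *
      tOp i (fun t => A (t + 2 ^ i)) (fun j => w (j + 2) + w 1 * w 0 ^ j)

/-- The shift with parameters `a`, `b`. -/
def sh (N : ℕ) (e : F × F) : Fin N → F := fun j => e.2 * e.1 ^ (j : ℕ)

lemma tOp_congr {R : Type} [Monoid R] (i : ℕ) : ∀ (A : ℕ → ZMod 2 → R) {w w' : ℕ → F},
    (∀ j < 2 * i + 1, w j = w' j) → tOp i A w = tOp i A w' := by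
  induction i with
  | zero =>
    intro A w w' h
    simp only [tOp]
    rw [h 0 (by omega)]
  | succ i ih =>
    intro A w w' h
    simp only [tOp]
    rw [ih A (w := fun j => w (j + 2)) (w' := fun j => w' (j + 2)) (fun j hj => h _ (by omega)),
      ih _ (w := fun j => w (j + 2) + w 1 * w 0 ^ j) (w' := fun j => w' (j + 2) + w' 1 * w' 0 ^ j)
        (fun j hj => by rw [h (j + 2) (by omega), h 0 (by omega), h 1 (by omega)])]

lemma tOp_eq {R : Type} [Monoid R] (i : ℕ) : ∀ (A : ℕ → ZMod 2 → R) (w : ℕ → F),
    tOp i A w = ((List.range (2 ^ i)).map fun t => A t (gen i w t)).prod := by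
  induction i with
  | zero =>
    intro A w
    simp [tOp, gen]
  | succ i ih =>
    intro A w
    simp only [tOp, ih]
    rw [show 2 ^ (i + 1) = 2 ^ i + 2 ^ i by ring, List.range_add, List.map_append, List.prod_append]
    congr 1
    · congr 1
      apply List.map_congr_left
      intro t ht
      rw [List.mem_range] at ht
      simp [gen, ht]
    · rw [List.map_map]
      congr 1
      apply List.map_congr_left
      intro t ht
      simp [gen, add_comm]

end gen

section mean

variable (F : Type) [Field F] [Fintype F] [Algebra (ZMod 2) F]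
variable {R : Type} [Ring R] [Algebra ℝ R]

/-- The mean value of the products for uniformly random seeds. -/
noncomputable def Pt (i : ℕ) (A : ℕ → ZMod 2 → R) : R :=
  av fun w : Fin (2 * i + 1) → F => tOp i A (ext w)

/-- The product of the mean values of the letters. -/
noncomputable def pr : ℕ → (ℕ → ZMod 2 → R) → R
  | 0, A => av fun s => A 0 s
  | i + 1, A => pr i A * pr i fun t => A (t + 2 ^ i)

/-- The mean value over the vectors of length `n + 1`. -/
private lemma gen_av_cons {S E : Type} [Fintype S] [AddCommGroup E] [Module ℝ E] {n : ℕ}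
    (f : (Fin (n + 1) → S) → E) :
    av f = av fun a : S => av fun w : Fin n → S => f (Fin.cons a w) := by
  rw [← av_equiv (Fin.consEquiv fun _ : Fin (n + 1) => S) f, av_prod]
  rfl

/-- One step of the recursion. -/
lemma Pt_succ (i : ℕ) (A : ℕ → ZMod 2 → R) :
    Pt F (i + 1) A = av fun e : F × F => av fun w : Fin (2 * i + 1) → F =>
      tOp i A (ext w) * tOp i (fun t => A (t + 2 ^ i)) (ext (w + sh (2 * i + 1) e)) := by
  unfold Pt
  change (av fun w : Fin (2 * i + 1 + 1 + 1) → F => tOp (i + 1) A (ext w)) = _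
  rw [gen_av_cons, av_prod]
  refine av_congr fun a => ?_
  rw [gen_av_cons]
  refine av_congr fun b => av_congr fun w => ?_
  simp only [tOp]
  have h0 : ext (Fin.cons a (Fin.cons b w) : Fin (2 * i + 1 + 1 + 1) → F) 0 = a := by
    simp [ext]
  have h1 : ext (Fin.cons a (Fin.cons b w) : Fin (2 * i + 1 + 1 + 1) → F) 1 = b := by
    unfold ext
    rw [dif_pos (by omega)]
    have : (⟨1, by omega⟩ : Fin (2 * i + 1 + 1 + 1)) = Fin.succ 0 := rfl
    rw [this, Fin.cons_succ, Fin.cons_zero]
  have h2 : ∀ j < 2 * i + 1,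
      ext (Fin.cons a (Fin.cons b w) : Fin (2 * i + 1 + 1 + 1) → F) (j + 2) = ext w j := by
    intro j hj
    unfold ext
    rw [dif_pos (by omega), dif_pos hj]
    have : (⟨j + 2, by omega⟩ : Fin (2 * i + 1 + 1 + 1)) = Fin.succ (Fin.succ ⟨j, hj⟩) := rfl
    rw [this, Fin.cons_succ, Fin.cons_succ]
  rw [tOp_congr i A h2]
  congr 1
  apply tOp_congr
  intro j hj
  rw [h2 j hj, h0, h1]
  simp [ext, hj, sh]

/-- The mean value of the pullback under a surjective homomorphism. -/
private lemma gen_av_surj {X Y E : Type} [Fintype X] [Fintype Y] [AddCommGroup X] [AddCommGroup Y]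
    [AddCommGroup E] [Module ℝ E] (φ : X →+ Y) (hφ : Function.Surjective φ) (f : Y → E) :
    (av fun x => f (φ x)) = av f := by
  calc (av fun x => f (φ x)) = av fun s : Y => av fun x => f (φ x) := (av_const _).symm
    _ = av fun s : Y => av fun x => f (φ x + s) := by
        refine av_congr fun s => ?_
        obtain ⟨y, rfl⟩ := hφ s
        rw [← av_equiv (Equiv.addRight y) fun x => f (φ x)]
        refine av_congr fun x => ?_
        rw [Equiv.coe_addRight, map_add]
    _ = av fun x : X => av fun s => f (φ x + s) := (av_comm _).symm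
    _ = av fun x : X => av f := av_congr fun x => av_equiv (Equiv.addLeft (φ x)) f
    _ = av f := av_const _

lemma Pt_zero [Algebra.IsSeparable (ZMod 2) F] (A : ℕ → ZMod 2 → R) :
    Pt F 0 A = pr 0 A := by
  unfold Pt pr
  rw [← gen_av_surj (Algebra.trace (ZMod 2) F).toAddMonoidHom
    (Algebra.trace_surjective (ZMod 2) F) (A 0)]
  change (av fun w : Fin 1 → F => tOp 0 A (ext w)) = _
  rw [← av_equiv (Equiv.funUnique (Fin 1) F)]
  refine av_congr fun w => ?_
  simp [tOp, ext]

private lemma gen_av_ofFn (n : ℕ) : ∀ (B : Fin n → ZMod 2 → R),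
    (av fun x : Fin n → ZMod 2 => (List.ofFn fun t : Fin n => B t (x t)).prod) =
      (List.ofFn fun t : Fin n => av (B t)).prod := by
  induction n with
  | zero =>
    intro B
    simp [av_const]
  | succ n ih =>
    intro B
    rw [gen_av_cons, List.ofFn_succ, List.prod_cons, ← av_mul_right]
    refine av_congr fun a => ?_
    rw [← ih fun t => B t.succ, ← av_mul_left]
    refine av_congr fun w => ?_
    rw [List.ofFn_succ, List.prod_cons, Fin.cons_zero]
    simp only [Fin.cons_succ]

private lemma gen_pr_range (i : ℕ) : ∀ (A : ℕ → ZMod 2 → R),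
    pr i A = ((List.range (2 ^ i)).map fun t => av (A t)).prod := by
  induction i with
  | zero =>
    intro A
    simp [pr]
  | succ i ih =>
    intro A
    simp only [pr, ih]
    rw [show 2 ^ (i + 1) = 2 ^ i + 2 ^ i by ring, List.range_add, List.map_append, List.prod_append]
    congr 1
    rw [List.map_map]
    congr 1
    apply List.map_congr_left
    intro t _
    simp [add_comm]

/-- The mean value of the ordered products for uniformly random bits. -/
lemma pr_eq (i : ℕ) (A : ℕ → ZMod 2 → R) :
    pr i A = av fun x : Fin (2 ^ i) → ZMod 2 =>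
      (List.ofFn fun t : Fin (2 ^ i) => A t (x t)).prod := by
  rw [gen_av_ofFn (2 ^ i) fun t => A t, gen_pr_range]
  congr 1
  apply List.ext_getElem
  · simp
  · intro n h1 h2
    simp

end mean

end Helper12.GR
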