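import Pool.Agent.Helper12.GR.CloseList

set_option autoImplicit false

/-!
The generator fools products of contractions.
-/

namespace Helper12.GR

open Helper12.BI

variable (F : Type) [Field F] [Fintype F] [Algebra (ZMod 2) F]
variable {H : Type} [NormedAddCommGroup H] [InnerProductSpace ℝ H]

/-- The two halves of the families of letters in a list. -/
def halves {R : Type} (i : ℕ) (l : List (ℕ → ZMod 2 → R)) : List (ℕ → ZMod 2 → R) :=
  l.flatMap fun A => [A, fun t => A (t + 2 ^ i)]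

lemma halves_prod {R R' : Type} [Monoid R'] (i : ℕ) (l : List (ℕ → ZMod 2 → R))
    (f : (ℕ → ZMod 2 → R) → R') : ((halves i l).map f).prod =
      (l.map fun A => f A * f fun t => A (t + 2 ^ i)).prod := by
  induction l with
  | nil => rfl
  | cons A l ih =>
    unfold halves at ih ⊢
    rw [List.flatMap_cons, List.map_append, List.prod_append, ih, List.map_cons, List.prod_cons]
    simp

lemma halves_norm (i : ℕ) {l : List (ℕ → ZMod 2 → H →L[ℝ] H)}
    (hl : ∀ A ∈ l, ∀ t s, ‖A t s‖ ≤ 1) : ∀ A ∈ halves i l, ∀ t s, ‖A t s‖ ≤ 1 := by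
  intro A hA t s
  unfold halves at hA
  rw [List.mem_flatMap] at hA
  obtain ⟨B, hB, hA⟩ := hA
  simp only [List.mem_cons, List.not_mem_nil, or_false] at hA
  rcases hA with rfl | rfl
  · exact hl _ hB t s
  · exact hl _ hB _ s

variable {F} in
omit [Fintype F] in
lemma norm_tOp_le (i : ℕ) : ∀ (A : ℕ → ZMod 2 → H →L[ℝ] H) (w : ℕ → F),
    (∀ t s, ‖A t s‖ ≤ 1) → ‖tOp i A w‖ ≤ 1 := by
  induction i with
  | zero => exact fun A w h => h _ _
  | succ i ih =>
    intro A w h
    simp only [tOp]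
    exact (norm_mul_le _ _).trans (mul_le_one₀ (ih _ _ h) (norm_nonneg _)
      (ih _ _ fun t s => h _ s))

lemma norm_Pt_le (i : ℕ) (A : ℕ → ZMod 2 → H →L[ℝ] H) (h : ∀ t s, ‖A t s‖ ≤ 1) :
    ‖Pt F i A‖ ≤ 1 := by
  unfold Pt
  refine (norm_av_le _).trans ?_
  refine (av_mono fun w => norm_tOp_le i A (ext w) h).trans ?_
  rw [av_const]

lemma norm_pr_le (i : ℕ) : ∀ (A : ℕ → ZMod 2 → H →L[ℝ] H), (∀ t s, ‖A t s‖ ≤ 1) →
    ‖pr i A‖ ≤ 1 := by
  induction i with
  | zero =>
    intro A h
    simp only [pr]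
    refine (norm_av_le _).trans ?_
    refine (av_mono fun s => h 0 s).trans ?_
    rw [av_const]
  | succ i ih =>
    intro A h
    simp only [pr]
    exact (norm_mul_le _ _).trans (mul_le_one₀ (ih _ h) (norm_nonneg _) (ih _ fun t s => h _ s))

theorem inw_list [Algebra.IsSeparable (ZMod 2) F] [CompleteSpace H] {lam : ℝ} (h0 : 0 ≤ lam)
    (h1 : lam < 1) (L : ℕ) (hlam : (2 * L + 1 : ℝ) / Fintype.card F ≤ lam) (i : ℕ) (hi : i ≤ L) :
    ∀ l : List (ℕ → ZMod 2 → H →L[ℝ] H), (∀ A ∈ l, ∀ t s, ‖A t s‖ ≤ 1) →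
      ‖(l.map (Pt F i)).prod - (l.map (pr i)).prod‖ ≤ i * (lam / Real.sqrt (1 - lam ^ 2)) := by
  induction i with
  | zero =>
    intro l _
    have : l.map (Pt F 0) = l.map (pr (R := H →L[ℝ] H) 0) :=
      List.map_congr_left fun A _ => Pt_zero F A
    rw [this, sub_self, norm_zero]
    simp
  | succ i ih =>
    intro l hl
    have hstep : ∀ A ∈ l, Close lam (Pt F (i + 1) A) (Pt F i A)
        (Pt F i fun t => A (t + 2 ^ i)) := by
      intro A hA
      rw [Pt_succ]
      refine close_step (2 * i + 1) (fun w => tOp i A (ext w))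
        (fun w => tOp i (fun t => A (t + 2 ^ i)) (ext w)) (fun w => norm_tOp_le i _ _ (hl A hA))
        (fun w => norm_tOp_le i _ _ fun t s => hl A hA _ s) ?_
      refine le_trans ?_ hlam
      apply div_le_div_of_nonneg_right _ (by positivity)
      have : (i : ℝ) ≤ L := by exact_mod_cast (by omega : i ≤ L)
      push_cast
      linarith
    have h2 := close_list h0 h1 (l.map fun A => (Pt F (i + 1) A, Pt F i A,
      Pt F i fun t => A (t + 2 ^ i))) (by
        intro p hp
        obtain ⟨A, hA, rfl⟩ := List.mem_map.1 hp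
        exact hstep A hA)
    rw [List.map_map, List.map_map] at h2
    have h3 := ih (by omega) (halves i l) (halves_norm i hl)
    rw [halves_prod, halves_prod] at h3
    have h4 : (l.map fun A => pr i A * pr i fun t => A (t + 2 ^ i)) = l.map (pr (i + 1)) := rfl
    rw [h4] at h3
    have h5 : ((fun p : (H →L[ℝ] H) × (H →L[ℝ] H) × (H →L[ℝ] H) => p.1) ∘
        fun A => (Pt F (i + 1) A, Pt F i A, Pt F i fun t => A (t + 2 ^ i))) = Pt F (i + 1) := rfl
    have h6 : ((fun p : (H →L[ℝ] H) × (H →L[ℝ] H) × (H →L[ℝ] H) => p.2.1 * p.2.2) ∘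
        fun A => (Pt F (i + 1) A, Pt F i A, Pt F i fun t => A (t + 2 ^ i))) =
        fun A => Pt F i A * Pt F i fun t => A (t + 2 ^ i) := rfl
    rw [h5, h6] at h2
    calc ‖(l.map (Pt F (i + 1))).prod - (l.map (pr (i + 1))).prod‖
        ≤ ‖(l.map (Pt F (i + 1))).prod
            - (l.map fun A => Pt F i A * Pt F i fun t => A (t + 2 ^ i)).prod‖
          + ‖(l.map fun A => Pt F i A * Pt F i fun t => A (t + 2 ^ i)).prod
            - (l.map (pr (i + 1))).prod‖ := norm_sub_le_norm_sub_add_norm_sub _ _ _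
      _ ≤ lam / Real.sqrt (1 - lam ^ 2) + i * (lam / Real.sqrt (1 - lam ^ 2)) := add_le_add h2 h3
      _ = _ := by
        push_cast
        ring

theorem inw_bound [Algebra.IsSeparable (ZMod 2) F] [CompleteSpace H] (L : ℕ)
    (A : ℕ → ZMod 2 → H →L[ℝ] H) (hA : ∀ t s, ‖A t s‖ ≤ 1) :
    ‖Pt F L A - pr L A‖ ≤ 9 * ((L : ℝ) ^ 2 / Fintype.card F) := by
  rcases Nat.eq_zero_or_pos L with rfl | hL
  · rw [Pt_zero, sub_self, norm_zero]
    positivity
  have hF : 0 < (Fintype.card F : ℝ) := by exact_mod_cast Fintype.card_pos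
  have hL1 : (1 : ℝ) ≤ L := by exact_mod_cast hL
  set lam : ℝ := (2 * L + 1 : ℝ) / Fintype.card F with hlam
  have hlam0 : 0 < lam := by positivity
  have hlam3 : lam ≤ 3 * (L / Fintype.card F) := by
    rw [hlam, ← mul_div_assoc]
    apply div_le_div_of_nonneg_right _ hF.le
    linarith
  have hL2 : (L : ℝ) ^ 2 / Fintype.card F = L * (L / Fintype.card F) := by ring
  rcases le_or_gt lam (2 / 3) with h | h
  · have h2 := inw_list (H := H) F hlam0.le (by linarith) L le_rfl L le_rfl [A] (by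
      intro B hB
      rw [List.mem_singleton] at hB
      rw [hB]
      exact hA)
    simp only [List.map_cons, List.map_nil, List.prod_cons, List.prod_nil, mul_one] at h2
    refine h2.trans ?_
    have h3 : (2 : ℝ) / 3 ≤ Real.sqrt (1 - lam ^ 2) := by
      apply Real.le_sqrt_of_sq_le
      nlinarith
    have h4 : lam / Real.sqrt (1 - lam ^ 2) ≤ 3 / 2 * lam := by
      rw [div_le_iff₀ (by linarith)]
      nlinarith
    have h5 : lam / Real.sqrt (1 - lam ^ 2) ≤ 9 * (L / Fintype.card F) := by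
      have : 0 ≤ (L : ℝ) / Fintype.card F := by positivity
      linarith
    calc (L : ℝ) * (lam / Real.sqrt (1 - lam ^ 2)) ≤ L * (9 * (L / Fintype.card F)) :=
          mul_le_mul_of_nonneg_left h5 (by linarith)
      _ = _ := by
        rw [hL2]
        ring
  · have h2 : ‖Pt F L A - pr L A‖ ≤ 2 := by
      have := norm_sub_le (Pt F L A) (pr L A)
      have h3 := norm_Pt_le F L A hA
      have h4 := norm_pr_le L A hA
      linarith
    refine h2.trans ?_
    have h3 : 2 / 9 ≤ (L : ℝ) / Fintype.card F := by linarith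
    rw [hL2]
    nlinarith

end Helper12.GR
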