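import Pool.Agent.Helper12.GR.Dual

set_option autoImplicit false

/-!
The left loop: reading a program from its end one controls the suffix products.

Proof sketch. Let `lam'`, `C'` be the constants of `hPL`, `c = (1 / card S) ^ (card M + 1) > 0`.
Claim for `d = 0, 1, ...`: there are `lam > 1`, `C ≥ 1` such that the conclusion holds for all `v`
with `card M < ht v + d` (for all `ι, y, Pr, L` as in the statement). `d = 0`: there is no such `v`
(`ht_le_card`). `d + 1`: let `lam1`, `C1` be the constants for `d`. Choose `θ` in `(0, 1]` with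
`θ * lam' * C' ≤ c / 2` and `lam = min` of `1 + θ (lam' - 1)`, `lam1`, `2`; note
`(1 + θ (lam' - 1)) ^ k ≤ (1 - θ) + θ * lam' ^ k` (convexity, or induction on `k`).
Put `C = max` of `C'`, `2 ^ K0`, `C1 * lam' * C' * 2 / c`. Strong induction on the length of `L`:
* `t ≤ ht v`: the base hypothesis, `lam ^ K0 ≤ 2 ^ K0 ≤ C`.
* `ht v < t` and `JEq v (val L x * v)` for all `x`: `hPL` and `Res.of_determined`, `Res.mono`.
* otherwise `splitL`: `L = L1 ++ (i, c) :: L2`. Resolve `val L2 x * v` by `hPL` (cells `A j` of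
  complexity `k j` on `pos L2`, for the constant `lam'`), then the letter at `i`: cells
  `A j ∩ {x | x i = s}` of complexity `k j + 1` on `i :: pos L2`. On such a cell
  `v' = c s * (val L2 x * v)` is constant. If `JEq v v'` fails, `ht v < ht v'` and the claim for `d`
  resolves `y * (val L1 x * v')` with `C1`; otherwise `ht v' = ht v` and the induction hypothesis
  (`L1` is shorter) resolves it with `C`. `Res.bind`: the new constant is at most
  `lam' C' C1 + C * ∑ (U (A j) / card S) * lam ^ (k j + 1)` over the cells with `JEq v v'`, and by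
  the inequality above this sum is at most `(1 - c) + θ lam' C' ≤ 1 - c / 2` (the total measure of
  the cells with `JEq v v'` is at most `1 - c` by `splitL`, `U_compl`, `U_iUnion`).
  So the new constant is at most `c / 2 * C + (1 - c / 2) * C = C`.
-/

namespace Helper12.GR

open Helper12.BI

variable {S M : Type} [Monoid M]

namespace LoopAux

lemma convex_pow {a θ : ℝ} (ha : 0 ≤ a) (h0 : 0 ≤ θ) (h1 : θ ≤ 1) (k : ℕ) :
    (1 + θ * (a - 1)) ^ k ≤ (1 - θ) + θ * a ^ k := by
  have hconv : ConvexOn ℝ (Set.Ici (0 : ℝ)) (fun x : ℝ => x ^ k) := convexOn_pow k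
  have h := hconv.2 (show (1 : ℝ) ∈ Set.Ici (0 : ℝ) by simp) (show a ∈ Set.Ici (0 : ℝ) from ha)
    (show (0 : ℝ) ≤ 1 - θ by linarith) h0 (by ring)
  simp only [smul_eq_mul, mul_one, one_pow] at h
  have h2 : 1 + θ * (a - 1) = 1 - θ + θ * a := by ring
  rw [h2]
  exact h

/-- The inductive step for one program whose run may leave the `J`-class. -/
lemma leave [Finite S] [Nonempty S] [Finite M] {tau : ℝ} (htau0 : 0 < tau)
    (htau : tau ≤ (1 / (Nat.card S : ℝ)) ^ (Nat.card M + 1)) {ι : Type} [Finite ι] (y v : M)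
    (L1 : List (ι × (S → M))) (i : ι) (c : S → M) (L2 : List (ι × (S → M)))
    (hnd : (pos (L1 ++ (i, c) :: L2)).Nodup) {lam' C' lam C C1 θ c0 : ℝ}
    (hlam : 1 < lam) (hlam' : lam ≤ 1 + θ * (lam' - 1)) (hl' : 1 < lam')
    (hθ0 : 0 < θ) (hθ1 : θ ≤ 1) (hθ : θ * lam' * C' ≤ c0 / 2) (hC1 : 1 ≤ C1)
    (hC : C1 * (lam' * C') ≤ c0 / 2 * C) (hC0 : 0 ≤ C)
    (hres : Res M (pos L2) (fun x : ι → S => val L2 x * v) lam' C' tau)
    (hbig : c0 ≤ U {x : ι → S | ¬ JEq v (c (x i) * (val L2 x * v))})
    (hgood : ∀ x : ι → S, JEq v (c (x i) * (val L2 x * v)) →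
      Res M (pos L1) (fun x' : ι → S => y * (val L1 x' * (c (x i) * (val L2 x * v)))) lam C tau)
    (hbad : ∀ x : ι → S, ¬ JEq v (c (x i) * (val L2 x * v)) →
      Res M (pos L1) (fun x' : ι → S => y * (val L1 x' * (c (x i) * (val L2 x * v)))) lam C1 tau) :
    Res M (pos (L1 ++ (i, c) :: L2)) (fun x : ι → S => y * (val (L1 ++ (i, c) :: L2) x * v))
      lam C tau := by
  classical
  obtain ⟨J, _, A, k, hcell, hconst, hpart, hmeas, hsum⟩ := hres
  have : Fintype S := Fintype.ofFinite S
  have hS0 : 0 < (Nat.card S : ℝ) := by exact_mod_cast Nat.card_pos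
  have hS1 : (1 : ℝ) ≤ Nat.card S := by exact_mod_cast Nat.card_pos
  have hinv1 : 1 / (Nat.card S : ℝ) ≤ 1 := by
    rw [div_le_one hS0]
    exact hS1
  have hinv0 : 0 < 1 / (Nat.card S : ℝ) := by positivity
  have htauS : tau ≤ 1 / (Nat.card S : ℝ) := by
    refine htau.trans ?_
    rw [pow_succ]
    exact mul_le_of_le_one_left hinv0.le (pow_le_one₀ hinv0.le hinv1)
  rw [pos_append, pos_cons] at hnd
  have hnd2 : (i :: pos L2).Nodup := (List.nodup_append.1 hnd).2.1
  have hi : i ∉ pos L2 := (List.nodup_cons.1 hnd2).1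
  -- the cells
  let B : J × S → Set (ι → S) := fun p => A p.1 ∩ {x | x i = p.2}
  have hU : ∀ p : J × S, U (B p) = U (A p.1) * (1 / (Nat.card S : ℝ)) := by
    intro p
    have h1 : U (A p.1 ∩ {x : ι → S | x i = p.2}) = U (A p.1) * U {x : ι → S | x i = p.2} := by
      refine U_inter (P := pos L2) (P' := [i]) (hcell p.1).dependsOn ?_ ?_
      · intro x x' h
        have := h i (by simp)
        simp only [Set.mem_ofPred_eq, this]
      · rw [List.disjoint_singleton]
        exact hi
    have h2 : U {x : ι → S | x i = p.2} = 1 / (Nat.card S : ℝ) := U_letter i p.2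
    rw [← h2]
    exact h1
  have hBcell : ∀ p : J × S, Cell M (i :: pos L2) (k p.1 + 1) (B p) := by
    intro p
    have h1 : Cell M ([i] ++ pos L2) (k p.1) (A p.1) :=
      Cell.append_right (by simpa using hnd2) (hcell p.1)
    exact Cell.inter h1 (Basic.letter i List.mem_cons_self p.2)
  have hBpart : ∀ x, ∃! p, x ∈ B p := by
    intro x
    obtain ⟨j, hj, hju⟩ := hpart x
    refine ⟨(j, x i), ⟨hj, rfl⟩, ?_⟩
    rintro ⟨j', s'⟩ ⟨h1, h2⟩
    have h3 := hju j' h1
    have h4 : x i = s' := h2
    rw [h3, h4]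
  have hBmeas : ∀ p : J × S, tau ^ (k p.1 + 1) ≤ U (B p) := by
    intro p
    rw [hU, pow_succ]
    exact mul_le_mul (hmeas p.1) htauS htau0.le (U_nonneg _)
  have hBne : ∀ p : J × S, (B p).Nonempty := fun p =>
    U_nonempty (lt_of_lt_of_le (pow_pos htau0 _) (hBmeas p))
  choose xx hxx using hBne
  have hv : ∀ p : J × S, ∀ x ∈ B p, c (x i) * (val L2 x * v) =
      c (xx p i) * (val L2 (xx p) * v) := by
    intro p x hx
    have h1 : val L2 x * v = val L2 (xx p) * v := hconst p.1 x hx.1 (xx p) (hxx p).1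
    have h2 : x i = p.2 := hx.2
    have h3 : xx p i = p.2 := (hxx p).2
    rw [h1, h2, h3]
  have hpl : lam ≤ lam' := by
    refine hlam'.trans ?_
    nlinarith
  -- the sums
  have hsumB : ∑ p : J × S, U (B p) * lam' ^ (k p.1 + 1) ≤ lam' * C' := by
    have h1 : ∀ p : J × S, U (B p) * lam' ^ (k p.1 + 1) =
        (1 / (Nat.card S : ℝ)) * (lam' * (U (A p.1) * lam' ^ k p.1)) := by
      intro p
      rw [hU, pow_succ]
      ring
    rw [Finset.sum_congr rfl (fun p _ => h1 p), ← Finset.mul_sum, ← Finset.mul_sum,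
      Fintype.sum_prod_type]
    simp only [Finset.sum_const, Finset.card_univ, nsmul_eq_mul]
    rw [← Finset.mul_sum, ← Nat.card_eq_fintype_card]
    have h2 : 1 / (Nat.card S : ℝ) * (lam' * ((Nat.card S : ℝ) * ∑ j, U (A j) * lam' ^ k j)) =
        lam' * ∑ j, U (A j) * lam' ^ k j := by
      field_simp
    rw [h2]
    exact mul_le_mul_of_nonneg_left hsum (by linarith)
  let E : Set (ι → S) := {x | JEq v (c (x i) * (val L2 x * v))}
  have hE : U E ≤ 1 - c0 := by
    have h1 := U_compl E
    have h2 : Eᶜ = {x : ι → S | ¬ JEq v (c (x i) * (val L2 x * v))} := rfl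
    rw [h2] at h1
    linarith
  let G : J × S → Prop := fun p => JEq v (c (xx p i) * (val L2 (xx p) * v))
  have hGsum : ∑ p : J × S, (if G p then U (B p) else 0) ≤ 1 - c0 := by
    refine le_trans ?_ hE
    rw [← U_partition B hBpart E]
    apply Finset.sum_le_sum
    intro p _
    split_ifs with h
    · apply U_mono
      intro x hx
      refine ⟨hx, ?_⟩
      change JEq v (c (x i) * (val L2 x * v))
      rw [hv p x hx]
      exact h
    · exact U_nonneg _
  have hGsum0 : 0 ≤ ∑ p : J × S, (if G p then U (B p) else 0) := by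
    apply Finset.sum_nonneg
    intro p _
    split_ifs
    · exact U_nonneg _
    · exact le_rfl
  have hsum1 : ∑ p : J × S, U (B p) * lam ^ (k p.1 + 1) ≤ lam' * C' := by
    refine le_trans (Finset.sum_le_sum fun p _ => ?_) hsumB
    exact mul_le_mul_of_nonneg_left (pow_le_pow_left₀ (by linarith) hpl _) (U_nonneg _)
  have hsum2 : ∑ p : J × S, (if G p then U (B p) * lam ^ (k p.1 + 1) else 0) ≤ 1 - c0 / 2 := by
    have h1 : ∀ p : J × S, (if G p then U (B p) * lam ^ (k p.1 + 1) else 0) ≤
        (1 - θ) * (if G p then U (B p) else 0) + θ * (U (B p) * lam' ^ (k p.1 + 1)) := by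
      intro p
      have hUB := U_nonneg (B p)
      have hpow : 0 ≤ lam' ^ (k p.1 + 1) := pow_nonneg (by linarith) _
      split_ifs with h
      · have h2 : lam ^ (k p.1 + 1) ≤ (1 - θ) + θ * lam' ^ (k p.1 + 1) :=
          (pow_le_pow_left₀ (by linarith) hlam' _).trans
            (convex_pow (by linarith) hθ0.le hθ1 _)
        calc U (B p) * lam ^ (k p.1 + 1)
            ≤ U (B p) * ((1 - θ) + θ * lam' ^ (k p.1 + 1)) :=
              mul_le_mul_of_nonneg_left h2 hUB
          _ = (1 - θ) * U (B p) + θ * (U (B p) * lam' ^ (k p.1 + 1)) := by ring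
      · have : 0 ≤ θ * (U (B p) * lam' ^ (k p.1 + 1)) := by positivity
        linarith
    refine (Finset.sum_le_sum fun p _ => h1 p).trans ?_
    rw [Finset.sum_add_distrib, ← Finset.mul_sum, ← Finset.mul_sum]
    have h2 : θ * ∑ p : J × S, U (B p) * lam' ^ (k p.1 + 1) ≤ c0 / 2 := by
      refine (mul_le_mul_of_nonneg_left hsumB hθ0.le).trans ?_
      linarith
    have h3 : (1 - θ) * ∑ p : J × S, (if G p then U (B p) else 0) ≤ 1 - c0 := by
      refine le_trans ?_ hGsum
      exact mul_le_of_le_one_left hGsum0 (by linarith)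
    linarith
  rw [pos_append, pos_cons]
  refine Res.bind hnd (by linarith) htau0.le B (fun p => k p.1 + 1) hBcell hBpart hBmeas
    (fun p x' => y * (val L1 x' * (c (xx p i) * (val L2 (xx p) * v)))) ?_
    (fun p => if G p then C else C1) ?_ ?_
  · intro p x hx
    simp only [val_append, val_cons]
    rw [← hv p x hx]
    simp only [mul_assoc]
  · intro p
    by_cases h : G p
    · simp only [if_pos h]
      exact hgood (xx p) h
    · simp only [if_neg h]
      exact hbad (xx p) h
  · have h1 : ∀ p : J × S, U (B p) * lam ^ (k p.1 + 1) * (if G p then C else C1) ≤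
        C1 * (U (B p) * lam ^ (k p.1 + 1)) +
          C * (if G p then U (B p) * lam ^ (k p.1 + 1) else 0) := by
      intro p
      have h0 : 0 ≤ U (B p) * lam ^ (k p.1 + 1) :=
        mul_nonneg (U_nonneg _) (pow_nonneg (by linarith) _)
      split_ifs with h
      · have : 0 ≤ C1 * (U (B p) * lam ^ (k p.1 + 1)) := mul_nonneg (by linarith) h0
        linarith
      · linarith
    refine (Finset.sum_le_sum fun p _ => h1 p).trans ?_
    rw [Finset.sum_add_distrib, ← Finset.mul_sum, ← Finset.mul_sum]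
    have h2 : C1 * ∑ p : J × S, U (B p) * lam ^ (k p.1 + 1) ≤ C1 * (lam' * C') :=
      mul_le_mul_of_nonneg_left hsum1 (by linarith)
    have h3 : C * ∑ p : J × S, (if G p then U (B p) * lam ^ (k p.1 + 1) else 0) ≤
        C * (1 - c0 / 2) := mul_le_mul_of_nonneg_left hsum2 hC0
    nlinarith

end LoopAux

open LoopAux in
theorem loop [Finite S] [Nonempty S] [Finite M] (hO : Orth M) {t : ℕ} {tau : ℝ} (htau0 : 0 < tau)
    (htau : tau ≤ (1 / (Nat.card S : ℝ)) ^ (Nat.card M + 1)) (hPL : HasPL M S t tau) (K0 : ℕ) :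
    ∃ lam C : ℝ, 1 < lam ∧ 1 ≤ C ∧ ∀ (ι : Type) [Finite ι] (y : M)
      (Pr : List (ι × (S → M)) → M → Prop),
      (∀ L1 i c L2 v x, (pos (L1 ++ (i, c) :: L2)).Nodup → Pr (L1 ++ (i, c) :: L2) v →
        Pr L1 (c (x i) * (val L2 x * v))) →
      (∀ L v, (pos L).Nodup → Pr L v → t ≤ ht v → ∀ lam' : ℝ, 1 ≤ lam' →
        Res M (pos L) (fun x : ι → S => y * (val L x * v)) lam' (lam' ^ K0) tau) →
      ∀ L v, (pos L).Nodup → Pr L v →
        Res M (pos L) (fun x : ι → S => y * (val L x * v)) lam C tau := by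
  obtain ⟨lam', C', hl', hC', hPL⟩ := hPL
  have hS0 : 0 < (Nat.card S : ℝ) := by exact_mod_cast Nat.card_pos
  obtain ⟨c0, hc0⟩ : ∃ c0 : ℝ, c0 = (1 / (Nat.card S : ℝ)) ^ (Nat.card M + 1) := ⟨_, rfl⟩
  have hc0pos : 0 < c0 := by
    rw [hc0]
    positivity
  have claim : ∀ d : ℕ, ∃ lam C : ℝ, 1 < lam ∧ 1 ≤ C ∧ ∀ (ι : Type) [Finite ι] (y : M)
      (Pr : List (ι × (S → M)) → M → Prop),
      (∀ L1 i c L2 v x, (pos (L1 ++ (i, c) :: L2)).Nodup → Pr (L1 ++ (i, c) :: L2) v →
        Pr L1 (c (x i) * (val L2 x * v))) →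
      (∀ L v, (pos L).Nodup → Pr L v → t ≤ ht v → ∀ lam' : ℝ, 1 ≤ lam' →
        Res M (pos L) (fun x : ι → S => y * (val L x * v)) lam' (lam' ^ K0) tau) →
      ∀ L v, (pos L).Nodup → Pr L v → Nat.card M < ht v + d →
        Res M (pos L) (fun x : ι → S => y * (val L x * v)) lam C tau := by
    intro d
    induction d with
    | zero =>
      refine ⟨2, 1, by norm_num, le_rfl, fun ι _ y Pr _ _ L v _ _ h => ?_⟩
      have := ht_le_card v
      omega
    | succ d ih =>
      obtain ⟨lam1, C1, hl1, hC1, ih⟩ := ih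
      have hK : 0 < lam' * C' := by positivity
      obtain ⟨θ, hθdef⟩ : ∃ θ : ℝ, θ = min 1 (c0 / (2 * (lam' * C'))) := ⟨_, rfl⟩
      have hθ0 : 0 < θ := by
        rw [hθdef]
        exact lt_min one_pos (by positivity)
      have hθ1 : θ ≤ 1 := hθdef ▸ min_le_left _ _
      have hθ : θ * lam' * C' ≤ c0 / 2 := by
        have h1 : θ ≤ c0 / (2 * (lam' * C')) := hθdef ▸ min_le_right _ _
        have h2 : θ * (lam' * C') ≤ c0 / (2 * (lam' * C')) * (lam' * C') :=
          mul_le_mul_of_nonneg_right h1 hK.le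
        have h3 : c0 / (2 * (lam' * C')) * (lam' * C') = c0 / 2 := by
          field_simp
        rw [h3] at h2
        linarith
      obtain ⟨lam, hlamdef⟩ : ∃ lam : ℝ, lam = min (min (1 + θ * (lam' - 1)) lam1) 2 := ⟨_, rfl⟩
      have hlam : 1 < lam := by
        rw [hlamdef]
        refine lt_min (lt_min ?_ hl1) (by norm_num)
        have : 0 < θ * (lam' - 1) := mul_pos hθ0 (by linarith)
        linarith
      have hlam2 : lam ≤ 2 := hlamdef ▸ min_le_right _ _
      have hlam1 : lam ≤ lam1 := hlamdef ▸ (min_le_left _ _).trans (min_le_right _ _)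
      have hlamθ : lam ≤ 1 + θ * (lam' - 1) :=
        hlamdef ▸ (min_le_left _ _).trans (min_le_left _ _)
      have hlaml : lam ≤ lam' := by
        refine hlamθ.trans ?_
        nlinarith
      obtain ⟨C, hCdef⟩ : ∃ C : ℝ, C = max (max C' (2 ^ K0)) (2 * (C1 * (lam' * C')) / c0) :=
        ⟨_, rfl⟩
      have hCC' : C' ≤ C := hCdef ▸ (le_max_left _ _).trans (le_max_left _ _)
      have hCK : (2 : ℝ) ^ K0 ≤ C := hCdef ▸ (le_max_right _ _).trans (le_max_left _ _)
      have hCC1 : C1 * (lam' * C') ≤ c0 / 2 * C := by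
        have h1 : 2 * (C1 * (lam' * C')) / c0 ≤ C := hCdef ▸ le_max_right _ _
        rw [div_le_iff₀ hc0pos] at h1
        linarith
      refine ⟨lam, C, hlam, hC'.trans hCC', fun ι _ y Pr hher hbase => ?_⟩
      have main : ∀ n : ℕ, ∀ L v, L.length = n → (pos L).Nodup → Pr L v →
          Nat.card M < ht v + (d + 1) →
          Res M (pos L) (fun x : ι → S => y * (val L x * v)) lam C tau := by
        intro n
        induction n using Nat.strong_induction_on with
        | _ n ihn =>
        intro L v hn hnd hPr hht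
        by_cases htv : t ≤ ht v
        · refine (hbase L v hnd hPr htv lam hlam.le).mono (by linarith) le_rfl ?_
          exact (pow_le_pow_left₀ (by linarith) hlam2 K0).trans hCK
        · have htv' : ht v < t := by omega
          rcases splitL hO v hnd with hstay | ⟨L1, i, c, L2, rfl, hstay2, hbig⟩
          · refine ((hPL ι v L hnd htv' hstay).of_determined
              (g := fun x => y * (val L x * v)) ?_).mono (by linarith) hlaml hCC'
            intro x x' h
            change val L x * v = val L x' * v at h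
            rw [h]
          · have hnd' := hnd
            rw [pos_append, pos_cons] at hnd'
            have hnd1 : (pos L1).Nodup := (List.nodup_append.1 hnd').1
            have hnd2 : (pos L2).Nodup :=
              (List.nodup_cons.1 (List.nodup_append.1 hnd').2.1).2
            refine leave htau0 htau y v L1 i c L2 hnd hlam hlamθ hl' hθ0 hθ1 hθ hC1 hCC1
              (by linarith) (hPL ι v L2 hnd2 htv' hstay2) (hc0 ▸ hbig) ?_ ?_
            · intro x hx
              refine ihn L1.length ?_ L1 _ rfl hnd1 (hher L1 i c L2 v x hnd hPr) ?_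
              · rw [← hn]
                simp
              · rw [← hx.ht_eq]
                exact hht
            · intro x hx
              have hle : JLe (c (x i) * (val L2 x * v)) v :=
                ((JLe.refl v).mul_left _).mul_left _
              have hlt : ht v < ht (c (x i) * (val L2 x * v)) := by
                by_contra hcon
                exact hx (JEq.of_ht hle (not_lt.1 hcon)).symm
              refine (ih ι y Pr hher hbase L1 _ hnd1 (hher L1 i c L2 v x hnd hPr)
                (by omega)).mono (by linarith) hlam1 le_rfl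
      intro L v hnd hPr hht
      exact main L.length L v rfl hnd hPr hht
  obtain ⟨lam, C, h1, h2, h3⟩ := claim (Nat.card M + 1)
  exact ⟨lam, C, h1, h2, fun ι _ y Pr hher hbase L v hnd hPr =>
    h3 ι y Pr hher hbase L v hnd hPr (by omega)⟩

end Helper12.GR
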