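import Pool.Agent.Helper12.GR.Defs

set_option autoImplicit false
set_option linter.unusedSectionVars false

/-!
The uniform distribution on the strings of `N` blocks of `W` bits, none of them zero, fools programs
over groups of bounded order also when a bounded number of letters is fixed.

Proof sketch. Let `b = 2 ^ W - 1`, `n = N * W`, positions `finProdFinEquiv (j, t)`, `j < N` the block.
`nzDist N W x = 1 / b ^ N` if each block of `x` is nonzero, else `0`. (It is a distribution: product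
over the blocks, `Fintype.card_pi` as in Helper12/BI/NegRectProg.lean, `count`.)
Fix a group `G` (with `c` elements), a cube `Q, a`, `Q.card ≤ K` and letters `g`. For a vector
`π : G → ℝ` and a block `j` let
  `A_j π (h) = ∑_(x_j in the cube) 2^(-W) π (h * (product of the letters of the block for x_j)⁻¹)`,
  `B_j π (h) =` the same with `x_j ≠ 0` and the factor `1 / b`.
Then `B_j π - A_j π = (1 / b) (A_j π - 2 ^ (-W) * ... )`: precisely
`B_j π = (2^W / b) A_j π - (1 / b) [0 in the cube] π (h * g_j(0)⁻¹)`, so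
`B_j π - A_j π = (1 / b) (A_j π - [0 in the cube] π * g_j(0))`.
The probabilities in question are the coefficients at `γ` of `B_N ... B_1 δ_1` and
`A_N ... A_1 δ_1`. All `A_j`, `B_j` are contractions for the l^1 norm, so by telescoping the
difference is at most `(1 / b) ∑_j ‖A_j π_j - [0 in the cube] π_j * g_j(0)‖_1`,
`π_j = A_(j-1) ... A_1 δ_1` (a nonnegative vector, of mass at most one).
* The at most `K` blocks which meet `Q` contribute at most `2` each.
* For the other blocks `A_j` is the composition of `W` averages over one bit each; let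
  `π^0 = π_j, π^1, ..., π^W = A_j π_j`, `π^(t+1) = (π^t g_t(0) + π^t g_t(1)) / 2`. Telescoping:
  `‖A_j π_j - π_j g_j(0)‖_2 ≤ ∑_t ‖π^(t+1) - π^t g_t(0)‖_2 = ∑_t ‖π^t g_t(0) - π^t g_t(1)‖_2 / 2
  = ∑_t sqrt (‖π^t‖² - ‖π^(t+1)‖²)` (parallelogram identity; right translations are isometries).
  The squares of the l^2 norms decrease in total by at most one, also through the blocks which
  meet `Q` (there `A_j` is a contraction for the l^2 norm too). Cauchy-Schwarz twice: the sum over
  all blocks of the l^1 norms is at most `sqrt c * sqrt (N W)`.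
Altogether the difference is at most `(2 K + sqrt (c N W)) / (2 ^ W - 1)`.
-/

namespace Helper12.GR

open Helper12.BI

open Classical in
/-- The uniform distribution on the strings without zero block. -/
noncomputable def nzDist (N W : ℕ) : (Fin (N * W) → Fin 2) → ℝ :=
  fun x => if ∀ j : Fin N, ∃ t : Fin W, x (finProdFinEquiv (j, t)) ≠ 0 then
    1 / ((2 : ℝ) ^ W - 1) ^ N else 0

namespace NegDist

/-- Cutting a string into blocks. -/
def blk (N W : ℕ) : (Fin (N * W) → Fin 2) ≃ (Fin N → Fin W → Fin 2) :=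
  (Equiv.arrowCongr (finProdFinEquiv (m := N) (n := W)).symm (Equiv.refl (Fin 2))).trans
    (Equiv.curry (Fin N) (Fin W) (Fin 2))

lemma blk_apply (N W : ℕ) (x : Fin (N * W) → Fin 2) (j : Fin N) (t : Fin W) :
    blk N W x j t = x (finProdFinEquiv (j, t)) := rfl

lemma one_lt (W : ℕ) (hW : 1 ≤ W) : (1 : ℝ) ≤ (2 : ℝ) ^ W - 1 := by
  have h : (2 : ℝ) ^ 1 ≤ (2 : ℝ) ^ W := pow_le_pow_right₀ (by norm_num) hW
  linarith

open Classical in
lemma nz_eq (N W : ℕ) (x : Fin (N * W) → Fin 2) :
    nzDist N W x = ∏ j : Fin N, (if blk N W x j = 0 then (0 : ℝ) else 1 / ((2 : ℝ) ^ W - 1)) := by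
  unfold nzDist
  by_cases h : ∀ j : Fin N, ∃ t : Fin W, x (finProdFinEquiv (j, t)) ≠ 0
  · rw [if_pos h]
    have : ∀ j : Fin N, (if blk N W x j = 0 then (0 : ℝ) else 1 / ((2 : ℝ) ^ W - 1)) =
        1 / ((2 : ℝ) ^ W - 1) := by
      intro j
      rw [if_neg]
      intro h0
      obtain ⟨t, ht⟩ := h j
      exact ht (congrFun h0 t)
    rw [Finset.prod_congr rfl fun j _ => this j, Finset.prod_const, Finset.card_univ,
      Fintype.card_fin, one_div_pow]
  · rw [if_neg h]
    push Not at h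
    obtain ⟨j, hj⟩ := h
    symm
    apply Finset.prod_eq_zero (Finset.mem_univ j)
    rw [if_pos]
    funext t
    exact hj t

open Classical in
lemma sum_block (W : ℕ) (hW : 1 ≤ W) :
    ∑ y : Fin W → Fin 2, (if y = 0 then (0 : ℝ) else 1 / ((2 : ℝ) ^ W - 1)) = 1 := by
  have h1 := one_lt W hW
  have h2 : ∀ y : Fin W → Fin 2, (if y = 0 then (0 : ℝ) else 1 / ((2 : ℝ) ^ W - 1)) =
      1 / ((2 : ℝ) ^ W - 1) - (if y = 0 then 1 / ((2 : ℝ) ^ W - 1) else 0) := by
    intro y
    split_ifs <;> ring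
  rw [Finset.sum_congr rfl fun y _ => h2 y, Finset.sum_sub_distrib, Finset.sum_ite_eq',
    Finset.sum_const, Finset.card_univ, Fintype.card_fun, Fintype.card_fin, Fintype.card_fin]
  simp only [Finset.mem_univ, if_true, nsmul_eq_mul]
  push_cast
  field_simp

end NegDist

open NegDist in
theorem nzDist_isDist (N W : ℕ) (hW : 1 ≤ W) : IsDist (nzDist N W) := by
  classical
  have h1 := one_lt W hW
  constructor
  · intro x
    rw [nz_eq]
    apply Finset.prod_nonneg
    intro j _
    split_ifs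
    · exact le_refl _
    · positivity
  · rw [Finset.sum_congr rfl fun x _ => nz_eq N W x]
    rw [Equiv.sum_comp (blk N W)
      (fun X => ∏ j : Fin N, (if X j = 0 then (0 : ℝ) else 1 / ((2 : ℝ) ^ W - 1)))]
    rw [← Fintype.sum_pow (fun y : Fin W → Fin 2 =>
      (if y = 0 then (0 : ℝ) else 1 / ((2 : ℝ) ^ W - 1))) N, sum_block W hW, one_pow]

namespace NegDist

section vectors

variable {G : Type} [Group G] [Fintype G]

/-- The vector `π` is moved by random letters: letter `v y` with weight `w y`. -/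
noncomputable def act {β : Type} [Fintype β] (w : β → ℝ) (v : β → G) (p : G → ℝ) : G → ℝ :=
  fun h => ∑ y, w y * p (h * (v y)⁻¹)

/-- The `l^1` norm. -/
noncomputable def n1 (p : G → ℝ) : ℝ := ∑ h, |p h|

/-- The square of the `l^2` norm. -/
noncomputable def n2 (p : G → ℝ) : ℝ := ∑ h, p h ^ 2

lemma n1_nonneg (p : G → ℝ) : 0 ≤ n1 p := Finset.sum_nonneg fun _ _ => abs_nonneg _

lemma n2_nonneg (p : G → ℝ) : 0 ≤ n2 p := Finset.sum_nonneg fun _ _ => sq_nonneg _

lemma n1_add (p q : G → ℝ) : n1 (p + q) ≤ n1 p + n1 q := by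
  unfold n1
  rw [← Finset.sum_add_distrib]
  exact Finset.sum_le_sum fun h _ => abs_add_le _ _

lemma n1_sub (p q : G → ℝ) : n1 (p - q) ≤ n1 p + n1 q := by
  unfold n1
  rw [← Finset.sum_add_distrib]
  exact Finset.sum_le_sum fun h _ => abs_sub _ _

lemma n1_smul (r : ℝ) (p : G → ℝ) : n1 (r • p) = |r| * n1 p := by
  unfold n1
  rw [Finset.mul_sum]
  exact Finset.sum_congr rfl fun h _ => by simp [abs_mul]

lemma le_n1 (p : G → ℝ) (h : G) : |p h| ≤ n1 p :=
  Finset.single_le_sum (f := fun h => |p h|) (fun _ _ => abs_nonneg _) (Finset.mem_univ h)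

/-- Right translation. -/
noncomputable def sh (v : G) (p : G → ℝ) : G → ℝ := fun h => p (h * v⁻¹)

lemma sum_sh (v : G) (f : G → ℝ) : ∑ h, f (h * v⁻¹) = ∑ h, f h :=
  Equiv.sum_comp (Equiv.mulRight v⁻¹) f

lemma n1_sh (v : G) (p : G → ℝ) : n1 (sh v p) = n1 p := sum_sh v fun h => |p h|

lemma sh_sub (v : G) (p q : G → ℝ) : sh v (p - q) = sh v p - sh v q := rfl

lemma sh_sh (u v : G) (p : G → ℝ) : sh u (sh v p) = sh (v * u) p := by
  funext h
  simp [sh, mul_assoc]

lemma act_sub {β : Type} [Fintype β] (w : β → ℝ) (v : β → G) (p q : G → ℝ) :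
    act w v (p - q) = act w v p - act w v q := by
  funext h
  simp [act, mul_sub, Finset.sum_sub_distrib]

lemma n1_act {β : Type} [Fintype β] (w : β → ℝ) (v : β → G) (p : G → ℝ) :
    n1 (act w v p) ≤ (∑ y, |w y|) * n1 p := by
  unfold n1 act
  calc ∑ h, |∑ y, w y * p (h * (v y)⁻¹)| ≤ ∑ h, ∑ y, |w y| * |p (h * (v y)⁻¹)| := by
        apply Finset.sum_le_sum
        intro h _
        refine (Finset.abs_sum_le_sum_abs _ _).trans ?_
        exact Finset.sum_le_sum fun y _ => le_of_eq (abs_mul _ _)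
    _ = ∑ y, |w y| * ∑ h, |p (h * (v y)⁻¹)| := by
        rw [Finset.sum_comm]
        exact Finset.sum_congr rfl fun y _ => by rw [Finset.mul_sum]
    _ = (∑ y, |w y|) * ∑ h, |p h| := by
        rw [Finset.sum_mul]
        exact Finset.sum_congr rfl fun y _ => by rw [sum_sh (v y) fun h => |p h|]

lemma n1_le_sqrt (p : G → ℝ) : n1 p ≤ Real.sqrt (Fintype.card G * n2 p) := by
  apply Real.le_sqrt_of_sq_le
  have h := sq_sum_le_card_mul_sum_sq (s := (Finset.univ : Finset G)) (f := fun h => |p h|)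
  unfold n1 n2
  simpa [sq_abs] using h

/-- The letters `i < k` act one after the other. -/
noncomputable def run {β : Type} [Fintype β] (w : ℕ → β → ℝ) (v : ℕ → β → G) (p : G → ℝ) :
    ℕ → (G → ℝ)
  | 0 => p
  | k + 1 => act (w k) (v k) (run w v p k)

lemma run_add {β : Type} [Fintype β] (w : ℕ → β → ℝ) (v : ℕ → β → G) (p : G → ℝ) (m k : ℕ) :
    run w v p (m + k) = run (fun i => w (m + i)) (fun i => v (m + i)) (run w v p m) k := by
  induction k with
  | zero => rfl
  | succ k ih =>
    show act (w (m + k)) (v (m + k)) (run w v p (m + k)) = _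
    rw [ih]
    rfl

lemma ofFn_succ_prod {M : Type} [Monoid M] (k : ℕ) (F : Fin (k + 1) → M) :
    (List.ofFn F).prod = (List.ofFn fun i : Fin k => F i.castSucc).prod * F (Fin.last k) := by
  rw [List.ofFn_succ', List.concat_eq_append, List.prod_append, List.prod_singleton]

lemma run_eq {β : Type} [Fintype β] (w : ℕ → β → ℝ) (v : ℕ → β → G) (p : G → ℝ) (k : ℕ) :
    run w v p k = act (fun x : Fin k → β => ∏ i : Fin k, w i (x i))
      (fun x => (List.ofFn fun i : Fin k => v i (x i)).prod) p := by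
  induction k with
  | zero =>
    funext h
    simp [run, act]
  | succ k ih =>
    funext h
    show ∑ y, w k y * run w v p k (h * (v k y)⁻¹) = _
    rw [ih]
    unfold act
    rw [← (Fin.snocEquiv fun _ : Fin (k + 1) => β).sum_comp, Fintype.sum_prod_type]
    apply Finset.sum_congr rfl
    intro y _
    rw [Finset.mul_sum]
    apply Finset.sum_congr rfl
    intro x _
    show w k y * ((∏ i : Fin k, w i (x i)) *
        p (h * (v k y)⁻¹ * ((List.ofFn fun i : Fin k => v i (x i)).prod)⁻¹)) =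
      (∏ i : Fin (k + 1), w i ((Fin.snocEquiv fun _ : Fin (k + 1) => β) (y, x) i)) *
        p (h * ((List.ofFn fun i : Fin (k + 1) =>
          v i ((Fin.snocEquiv fun _ : Fin (k + 1) => β) (y, x) i)).prod)⁻¹)
    rw [Fin.prod_univ_castSucc, ofFn_succ_prod]
    simp only [Fin.snocEquiv, Equiv.coe_fn_mk, Fin.snoc_castSucc, Fin.snoc_last, Fin.val_castSucc,
      Fin.val_last, mul_inv_rev, mul_assoc]
    ring

/-- The letters of one position: each letter has weight `0` or `1 / 2`. -/
structure Half (c : Fin 2 → ℝ) : Prop where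
  zero : c 0 = 0 ∨ c 0 = 1 / 2
  one : c 1 = 0 ∨ c 1 = 1 / 2

lemma Half.abs_sum {c : Fin 2 → ℝ} (hc : Half c) : ∑ s, |c s| ≤ 1 := by
  rw [Fin.sum_univ_two]
  rcases hc.zero with h | h <;> rcases hc.one with h' | h' <;> rw [h, h'] <;> norm_num

lemma n1_step {c : Fin 2 → ℝ} (hc : Half c) (u : Fin 2 → G) (p : G → ℝ) :
    n1 (act c u p) ≤ n1 p := by
  refine (n1_act c u p).trans ?_
  have := mul_le_mul_of_nonneg_right hc.abs_sum (n1_nonneg p)
  linarith

lemma n2_mid (u : Fin 2 → G) (p : G → ℝ) :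
    ∑ h, (p (h * (u 0)⁻¹) ^ 2 + p (h * (u 1)⁻¹) ^ 2) / 2 = n2 p := by
  rw [← Finset.sum_div, Finset.sum_add_distrib, sum_sh (u 0) fun h => p h ^ 2,
    sum_sh (u 1) fun h => p h ^ 2]
  unfold n2
  ring

lemma n2_step {c : Fin 2 → ℝ} (hc : Half c) (u : Fin 2 → G) (p : G → ℝ) :
    n2 (act c u p) ≤ n2 p := by
  rw [← n2_mid u p]
  apply Finset.sum_le_sum
  intro h _
  unfold act
  rw [Fin.sum_univ_two]
  rcases hc.zero with h0 | h0 <;> rcases hc.one with h1 | h1 <;> rw [h0, h1]
  · nlinarith [sq_nonneg (p (h * (u 0)⁻¹)), sq_nonneg (p (h * (u 1)⁻¹))]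
  · nlinarith [sq_nonneg (p (h * (u 0)⁻¹)), sq_nonneg (p (h * (u 1)⁻¹))]
  · nlinarith [sq_nonneg (p (h * (u 0)⁻¹)), sq_nonneg (p (h * (u 1)⁻¹))]
  · nlinarith [sq_nonneg (p (h * (u 0)⁻¹) - p (h * (u 1)⁻¹))]

lemma n1_good {c : Fin 2 → ℝ} (h0 : c 0 = 1 / 2) (h1 : c 1 = 1 / 2) (u : Fin 2 → G)
    (p : G → ℝ) : n1 (act c u p - sh (u 0) p) ≤
      Real.sqrt (Fintype.card G * (n2 p - n2 (act c u p))) := by
  have h : n2 (act c u p - sh (u 0) p) = n2 p - n2 (act c u p) := by
    rw [← n2_mid u p]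
    unfold n2
    rw [← Finset.sum_sub_distrib]
    apply Finset.sum_congr rfl
    intro h _
    simp only [Pi.sub_apply, act, sh]
    rw [Fin.sum_univ_two, h0, h1]
    ring
  rw [← h]
  exact n1_le_sqrt _

lemma n1_run {c : ℕ → Fin 2 → ℝ} (u : ℕ → Fin 2 → G) (p : G → ℝ) (k : ℕ)
    (hc : ∀ i, Half (c i)) : n1 (run c u p k) ≤ n1 p := by
  induction k with
  | zero => exact le_refl _
  | succ k ih => exact (n1_step (hc k) (u k) _).trans ih

/-- A block of free letters. -/
lemma block_good {c : ℕ → Fin 2 → ℝ} (u : ℕ → Fin 2 → G) (p : G → ℝ) (k : ℕ)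
    (hc : ∀ i < k, c i 0 = 1 / 2 ∧ c i 1 = 1 / 2) :
    n1 (run c u p k - sh (List.ofFn fun i : Fin k => u i 0).prod p) ≤
      ∑ i ∈ Finset.range k,
        Real.sqrt (Fintype.card G * (n2 (run c u p i) - n2 (run c u p (i + 1)))) := by
  induction k with
  | zero =>
    have : run c u p 0 - sh (List.ofFn fun i : Fin 0 => u i 0).prod p = (0 : ℝ) • p := by
      funext h
      simp [run, sh]
    rw [this, n1_smul]
    simp
  | succ k ih =>
    rw [ofFn_succ_prod, Finset.sum_range_succ]
    have e : run c u p (k + 1) - sh ((List.ofFn fun i : Fin k => u (i.castSucc : Fin (k + 1)) 0).prod *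
        u (Fin.last k : Fin (k + 1)) 0) p =
        (act (c k) (u k) (run c u p k) - sh (u k 0) (run c u p k)) +
          sh (u k 0) (run c u p k - sh (List.ofFn fun i : Fin k => u i 0).prod p) := by
      rw [sh_sub, sh_sh]
      simp only [Fin.val_castSucc, Fin.val_last]
      show act (c k) (u k) (run c u p k) - _ = _
      abel
    rw [e]
    refine (n1_add _ _).trans ?_
    rw [n1_sh, add_comm]
    exact add_le_add (ih fun i hi => hc i (by omega))
      (n1_good (hc k (by omega)).1 (hc k (by omega)).2 (u k) _)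

end vectors

section blocks

variable {G : Type} [Group G] [Fintype G] (N W : ℕ) (Q : Finset (Fin (N * W)))
  (a : Fin (N * W) → Fin 2) (g : Fin (N * W) → Fin 2 → G)

/-- The letters, with positions in `ℕ`. -/
noncomputable def lu (i : ℕ) (s : Fin 2) : G := if h : i < N * W then g ⟨i, h⟩ s else 1

open Classical in
/-- The weights of the letters in the cube. -/
noncomputable def lc (i : ℕ) (s : Fin 2) : ℝ :=
  if h : i < N * W then (if (⟨i, h⟩ ∈ Q → s = a ⟨i, h⟩) then 1 / 2 else 0) else 1 / 2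

/-- The block letters. -/
noncomputable def bv (j : ℕ) (y : Fin W → Fin 2) : G :=
  (List.ofFn fun t : Fin W => lu N W g (W * j + t) (y t)).prod

/-- The weights of the blocks for the uniform distribution. -/
noncomputable def wA (j : ℕ) (y : Fin W → Fin 2) : ℝ := ∏ t : Fin W, lc N W Q a (W * j + t) (y t)

open Classical in
/-- The weights of the blocks for `nzDist`. -/
noncomputable def wB (j : ℕ) (y : Fin W → Fin 2) : ℝ :=
  if y = 0 then 0 else (2 : ℝ) ^ W / ((2 : ℝ) ^ W - 1) * wA N W Q a j y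

open Classical in
/-- The start. -/
noncomputable def dl (G : Type) [Group G] : G → ℝ := fun h => if h = 1 then 1 else 0

lemma n1_dl : n1 (dl G) = 1 := by
  classical
  unfold n1 dl
  rw [Finset.sum_eq_single (1 : G)]
  · simp
  · intro b _ hb
    simp [hb]
  · intro h
    exact absurd (Finset.mem_univ _) h

lemma n2_dl : n2 (dl G) = 1 := by
  classical
  unfold n2 dl
  rw [Finset.sum_eq_single (1 : G)]
  · simp
  · intro b _ hb
    simp [hb]
  · intro h
    exact absurd (Finset.mem_univ _) h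

lemma pos_eq (j : Fin N) (t : Fin W) (h : W * (j : ℕ) + t < N * W) :
    (⟨W * (j : ℕ) + t, h⟩ : Fin (N * W)) = finProdFinEquiv (j, t) := by
  apply Fin.ext
  show W * (j : ℕ) + t = (t : ℕ) + W * (j : ℕ)
  ring

lemma pos_lt (j : Fin N) (t : Fin W) : W * (j : ℕ) + t < N * W := by
  have h := (finProdFinEquiv (j, t)).2
  have h2 : ((finProdFinEquiv (j, t) : Fin (N * W)) : ℕ) = (t : ℕ) + W * (j : ℕ) := rfl
  omega

lemma lu_fin (i : Fin (N * W)) (s : Fin 2) : lu N W g i s = g i s := by
  unfold lu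
  rw [dif_pos i.2]

lemma lc_fin (i : Fin (N * W)) (s : Fin 2) :
    lc N W Q a i s = 1 / 2 * (if (i ∈ Q → s = a i) then (1 : ℝ) else 0) := by
  unfold lc
  rw [dif_pos i.2]
  split_ifs <;> simp

lemma pos_val (j : Fin N) (t : Fin W) :
    ((finProdFinEquiv (j, t) : Fin (N * W)) : ℕ) = W * (j : ℕ) + t := by
  show (t : ℕ) + W * (j : ℕ) = _
  ring

lemma lc_half (i : ℕ) : Half (lc N W Q a i) := by
  constructor <;>
  · unfold lc
    split_ifs <;> simp

lemma half_prod {k : ℕ} (f : Fin k → ℝ) (h : ∀ i, f i = 0 ∨ f i = 1 / 2) :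
    0 ≤ ∏ i, f i ∧ ∏ i, f i ≤ (1 / 2) ^ k := by
  have h0 : ∀ i, 0 ≤ f i := fun i => by rcases h i with h | h <;> rw [h] <;> norm_num
  have h1 : ∀ i, f i ≤ 1 / 2 := fun i => by rcases h i with h | h <;> rw [h] <;> norm_num
  constructor
  · exact Finset.prod_nonneg fun i _ => h0 i
  · calc ∏ i, f i ≤ ∏ _i : Fin k, (1 / 2 : ℝ) :=
        Finset.prod_le_prod (fun i _ => h0 i) fun i _ => h1 i
      _ = (1 / 2) ^ k := by simp

lemma wA_bd (j : ℕ) (y : Fin W → Fin 2) : 0 ≤ wA N W Q a j y ∧ wA N W Q a j y ≤ (1 / 2) ^ W := by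
  apply half_prod
  intro t
  have h := lc_half N W Q a (W * j + t)
  rcases (show y t = 0 ∨ y t = 1 by omega) with h' | h' <;> rw [h']
  · exact h.zero
  · exact h.one

lemma run_block (j : ℕ) : run (wA N W Q a) (bv N W g) (dl G) j =
    run (lc N W Q a) (lu N W g) (dl G) (W * j) := by
  induction j with
  | zero => rfl
  | succ j ih =>
    show act (wA N W Q a j) (bv N W g j) (run (wA N W Q a) (bv N W g) (dl G) j) = _
    rw [ih, Nat.mul_succ, run_add]
    exact (run_eq (fun i => lc N W Q a (W * j + i)) (fun i => lu N W g (W * j + i))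
      (run (lc N W Q a) (lu N W g) (dl G) (W * j)) W).symm

open Classical in
lemma dl_eq (γ h : G) : dl G (γ * h⁻¹) = if h = γ then 1 else 0 := by
  unfold dl
  by_cases e : h = γ
  · rw [if_pos e, if_pos]
    rw [e, mul_inv_cancel]
  · rw [if_neg e, if_neg]
    intro h'
    exact e (mul_inv_eq_one.mp h').symm

open Classical in
lemma prod_lc (x : Fin (N * W) → Fin 2) :
    ∏ i : Fin (N * W), lc N W Q a i (x i) = (1 / 2) ^ (N * W) * (if x ∈ cube Q a then 1 else 0) := by
  rw [Finset.prod_congr rfl fun i _ => lc_fin N W Q a i (x i), Finset.prod_mul_distrib,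
    Finset.prod_const, Finset.card_univ, Fintype.card_fin]
  congr 1
  by_cases h : x ∈ cube Q a
  · rw [if_pos h]
    apply Finset.prod_eq_one
    intro i _
    rw [if_pos (fun hi => h i hi)]
  · rw [if_neg h]
    have : ∃ i ∈ Q, x i ≠ a i := by
      by_contra hcon
      push Not at hcon
      exact h hcon
    obtain ⟨i, hi, hx⟩ := this
    apply Finset.prod_eq_zero (Finset.mem_univ i)
    rw [if_neg (fun h' => hx (h' hi))]

lemma prob_unif (γ : G) : prob (unif (Fin 2) (N * W)) (cube Q a ∩ {x | value g x = γ}) =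
    run (wA N W Q a) (bv N W g) (dl G) N γ := by
  classical
  rw [run_block, mul_comm W N, run_eq]
  show ∑ x, (cube Q a ∩ {x | value g x = γ}).indicator (unif (Fin 2) (N * W)) x =
    ∑ x : Fin (N * W) → Fin 2, (∏ i : Fin (N * W), lc N W Q a i (x i)) *
      dl G (γ * ((List.ofFn fun i : Fin (N * W) => lu N W g i (x i)).prod)⁻¹)
  apply Finset.sum_congr rfl
  intro x _
  have e : (List.ofFn fun i : Fin (N * W) => lu N W g i (x i)).prod = value g x := by
    unfold value
    simp only [lu_fin]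
  rw [e, dl_eq, prod_lc, Set.indicator_apply]
  by_cases h1 : x ∈ cube Q a
  · by_cases h2 : value g x = γ
    · rw [if_pos ⟨h1, h2⟩, if_pos h1, if_pos h2]
      simp [unif]
    · rw [if_neg (fun h => h2 h.2), if_neg h2, mul_zero]
  · rw [if_neg (fun h => h1 h.1), if_neg h1]
    simp

lemma value_blk (x : Fin (N * W) → Fin 2) :
    (List.ofFn fun j : Fin N => bv N W g j (blk N W x j)).prod = value g x := by
  unfold value
  rw [List.ofFn_mul, List.prod_flatten, List.map_ofFn]
  congr 1
  congr 1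
  funext j
  show (List.ofFn fun t : Fin W => lu N W g (W * j + t) (blk N W x j t)).prod = (List.ofFn _).prod
  congr 1
  congr 1
  funext t
  have h : ∀ h : (j : ℕ) * W + (t : ℕ) < N * W,
      (⟨(j : ℕ) * W + (t : ℕ), h⟩ : Fin (N * W)) = finProdFinEquiv (j, t) := by
    intro h
    apply Fin.ext
    show (j : ℕ) * W + (t : ℕ) = (t : ℕ) + W * (j : ℕ)
    ring
  rw [h, ← pos_val N W j t, lu_fin, blk_apply]

lemma prod_wA (x : Fin (N * W) → Fin 2) :
    ∏ j : Fin N, wA N W Q a j (blk N W x j) = ∏ i : Fin (N * W), lc N W Q a i (x i) := by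
  rw [← (finProdFinEquiv (m := N) (n := W)).prod_comp, Fintype.prod_prod_type]
  apply Finset.prod_congr rfl
  intro j _
  unfold wA
  apply Finset.prod_congr rfl
  intro t _
  rw [← pos_val N W j t, blk_apply]

lemma prod_wB (hW : 1 ≤ W) (x : Fin (N * W) → Fin 2) :
    ∏ j : Fin N, wB N W Q a j (blk N W x j) = (cube Q a).indicator (nzDist N W) x := by
  classical
  have h1 := one_lt W hW
  have e : ∀ j : Fin N, wB N W Q a j (blk N W x j) =
      (if blk N W x j = 0 then (0 : ℝ) else 1 / ((2 : ℝ) ^ W - 1)) *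
        ((2 : ℝ) ^ W * wA N W Q a j (blk N W x j)) := by
    intro j
    unfold wB
    split_ifs
    · ring
    · ring
  rw [Finset.prod_congr rfl fun j _ => e j, Finset.prod_mul_distrib, ← nz_eq,
    Finset.prod_mul_distrib, prod_wA, prod_lc, Finset.prod_const, Finset.card_univ,
    Fintype.card_fin, Set.indicator_apply]
  by_cases h : x ∈ cube Q a
  · rw [if_pos h, if_pos h, mul_one, ← pow_mul, mul_comm W N, ← mul_pow]
    norm_num
  · rw [if_neg h, if_neg h]
    ring

lemma prob_nz (hW : 1 ≤ W) (γ : G) :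
    prob (nzDist N W) (cube Q a ∩ {x | value g x = γ}) =
    run (wB N W Q a) (bv N W g) (dl G) N γ := by
  classical
  rw [run_eq]
  show ∑ x, (cube Q a ∩ {x | value g x = γ}).indicator (nzDist N W) x =
    ∑ X : Fin N → Fin W → Fin 2, (∏ j : Fin N, wB N W Q a j (X j)) *
      dl G (γ * ((List.ofFn fun j : Fin N => bv N W g j (X j)).prod)⁻¹)
  rw [← (blk N W).sum_comp]
  apply Finset.sum_congr rfl
  intro x _
  rw [value_blk, dl_eq, prod_wB N W Q a hW, Set.indicator_apply, Set.indicator_apply]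
  by_cases h1 : x ∈ cube Q a
  · by_cases h2 : value g x = γ
    · rw [if_pos ⟨h1, h2⟩, if_pos h1, if_pos h2, mul_one]
    · rw [if_neg (fun h => h2 h.2), if_neg h2, mul_zero]
  · rw [if_neg (fun h => h1 h.1), if_neg h1, zero_mul]

lemma wB_sum (hW : 1 ≤ W) (j : ℕ) : ∑ y, |wB N W Q a j y| ≤ 1 := by
  classical
  have h1 := one_lt W hW
  rw [← sum_block W hW]
  apply Finset.sum_le_sum
  intro y _
  unfold wB
  split_ifs
  · simp
  · have h2 := wA_bd N W Q a j y
    have h3 : (0 : ℝ) ≤ (2 : ℝ) ^ W / ((2 : ℝ) ^ W - 1) := by positivity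
    rw [abs_of_nonneg (mul_nonneg h3 h2.1)]
    calc (2 : ℝ) ^ W / ((2 : ℝ) ^ W - 1) * wA N W Q a j y ≤
        (2 : ℝ) ^ W / ((2 : ℝ) ^ W - 1) * (1 / 2) ^ W := mul_le_mul_of_nonneg_left h2.2 h3
      _ = 1 / ((2 : ℝ) ^ W - 1) := by
        rw [div_mul_eq_mul_div, ← mul_pow]
        norm_num

lemma diff_act (hW : 1 ≤ W) (j : ℕ) (p : G → ℝ) :
    act (wB N W Q a j) (bv N W g j) p - act (wA N W Q a j) (bv N W g j) p =
      (1 / ((2 : ℝ) ^ W - 1)) • (act (wA N W Q a j) (bv N W g j) p -
        ((2 : ℝ) ^ W * wA N W Q a j 0) • sh (bv N W g j 0) p) := by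
  classical
  have h1 := one_lt W hW
  have h1' : (2 : ℝ) ^ W - 1 ≠ 0 := by positivity
  funext h
  simp only [Pi.sub_apply, Pi.smul_apply, smul_eq_mul, act, sh]
  have e : ∀ y : Fin W → Fin 2, wB N W Q a j y * p (h * (bv N W g j y)⁻¹) =
      (2 : ℝ) ^ W / ((2 : ℝ) ^ W - 1) * (wA N W Q a j y * p (h * (bv N W g j y)⁻¹)) -
        (if y = 0 then (2 : ℝ) ^ W / ((2 : ℝ) ^ W - 1) *
          (wA N W Q a j 0 * p (h * (bv N W g j 0)⁻¹)) else 0) := by
    intro y
    unfold wB
    split_ifs with hy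
    · rw [hy]
      ring
    · ring
  rw [Finset.sum_congr rfl fun y _ => e y, Finset.sum_sub_distrib, ← Finset.mul_sum,
    Finset.sum_ite_eq', if_pos (Finset.mem_univ _)]
  field_simp
  ring

lemma tele (hW : 1 ≤ W) (k : ℕ) :
    n1 (run (wB N W Q a) (bv N W g) (dl G) k - run (wA N W Q a) (bv N W g) (dl G) k) ≤
      (1 / ((2 : ℝ) ^ W - 1)) * ∑ j ∈ Finset.range k,
        n1 (run (wA N W Q a) (bv N W g) (dl G) (j + 1) - ((2 : ℝ) ^ W * wA N W Q a j 0) •
          sh (bv N W g j 0) (run (wA N W Q a) (bv N W g) (dl G) j)) := by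
  have h1 := one_lt W hW
  induction k with
  | zero =>
    have : run (wB N W Q a) (bv N W g) (dl G) 0 - run (wA N W Q a) (bv N W g) (dl G) 0 =
        (0 : ℝ) • (dl G) := by
      funext h
      simp [run]
    rw [this, n1_smul]
    simp
  | succ k ih =>
    have e : run (wB N W Q a) (bv N W g) (dl G) (k + 1) -
        run (wA N W Q a) (bv N W g) (dl G) (k + 1) =
        act (wB N W Q a k) (bv N W g k)
          (run (wB N W Q a) (bv N W g) (dl G) k - run (wA N W Q a) (bv N W g) (dl G) k) +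
        (1 / ((2 : ℝ) ^ W - 1)) • (run (wA N W Q a) (bv N W g) (dl G) (k + 1) -
          ((2 : ℝ) ^ W * wA N W Q a k 0) •
            sh (bv N W g k 0) (run (wA N W Q a) (bv N W g) (dl G) k)) := by
      show act (wB N W Q a k) (bv N W g k) (run (wB N W Q a) (bv N W g) (dl G) k) -
        act (wA N W Q a k) (bv N W g k) (run (wA N W Q a) (bv N W g) (dl G) k) = _ +
        (1 / ((2 : ℝ) ^ W - 1)) •
          (act (wA N W Q a k) (bv N W g k) (run (wA N W Q a) (bv N W g) (dl G) k) - _)
      rw [← diff_act N W Q a g hW, act_sub]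
      abel
    rw [e, Finset.sum_range_succ, mul_add]
    refine (n1_add _ _).trans (add_le_add ?_ ?_)
    · refine (n1_act _ _ _).trans ?_
      have := mul_le_mul_of_nonneg_right (wB_sum N W Q a hW k)
        (n1_nonneg (run (wB N W Q a) (bv N W g) (dl G) k - run (wA N W Q a) (bv N W g) (dl G) k))
      linarith
    · rw [n1_smul, abs_of_nonneg (by positivity)]

lemma block_err (hW : 1 ≤ W) (j : Fin N) :
    n1 (run (wA N W Q a) (bv N W g) (dl G) (j + 1) - ((2 : ℝ) ^ W * wA N W Q a j 0) •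
          sh (bv N W g j 0) (run (wA N W Q a) (bv N W g) (dl G) j)) ≤
      (if j ∈ Q.image (fun i => ((finProdFinEquiv (m := N) (n := W)).symm i).1) then 2 else 0) +
      ∑ t ∈ Finset.range W, Real.sqrt (Fintype.card G *
        (n2 (run (lc N W Q a) (lu N W g) (dl G) (W * j + t)) -
          n2 (run (lc N W Q a) (lu N W g) (dl G) (W * j + (t + 1))))) := by
  classical
  have hn : ∀ k, n1 (run (wA N W Q a) (bv N W g) (dl G) k) ≤ 1 := by
    intro k
    rw [run_block]
    refine (n1_run _ _ _ (lc_half N W Q a)).trans (le_of_eq n1_dl)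
  by_cases hj : j ∈ Q.image (fun i => ((finProdFinEquiv (m := N) (n := W)).symm i).1)
  · rw [if_pos hj]
    have h0 : 0 ≤ ∑ t ∈ Finset.range W, Real.sqrt (Fintype.card G *
        (n2 (run (lc N W Q a) (lu N W g) (dl G) (W * j + t)) -
          n2 (run (lc N W Q a) (lu N W g) (dl G) (W * j + (t + 1))))) :=
      Finset.sum_nonneg fun _ _ => Real.sqrt_nonneg _
    have hk := wA_bd N W Q a j 0
    have hk2 : (2 : ℝ) ^ W * wA N W Q a j 0 ≤ 1 := by
      calc (2 : ℝ) ^ W * wA N W Q a j 0 ≤ (2 : ℝ) ^ W * (1 / 2) ^ W :=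
            mul_le_mul_of_nonneg_left hk.2 (by positivity)
        _ = 1 := by
            rw [← mul_pow]
            norm_num
    have hk3 : 0 ≤ (2 : ℝ) ^ W * wA N W Q a j 0 := mul_nonneg (by positivity) hk.1
    have h2 := n1_sub (run (wA N W Q a) (bv N W g) (dl G) (j + 1))
      (((2 : ℝ) ^ W * wA N W Q a j 0) •
          sh (bv N W g j 0) (run (wA N W Q a) (bv N W g) (dl G) j))
    rw [n1_smul, n1_sh, abs_of_nonneg hk3] at h2
    have h3 := hn (j + 1)
    have h4 := hn j
    have h5 : (2 : ℝ) ^ W * wA N W Q a j 0 * n1 (run (wA N W Q a) (bv N W g) (dl G) j) ≤ 1 * 1 :=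
      mul_le_mul hk2 h4 (n1_nonneg _) zero_le_one
    linarith
  · rw [if_neg hj, zero_add]
    have hfree : ∀ t < W, ∀ s, lc N W Q a (W * j + t) s = 1 / 2 := by
      intro t ht s
      have e := pos_val N W j ⟨t, ht⟩
      have e' : lc N W Q a (W * j + t) s =
          lc N W Q a ((finProdFinEquiv (j, (⟨t, ht⟩ : Fin W)) : Fin (N * W)) : ℕ) s := by
        rw [e]
      rw [e', lc_fin, if_pos, mul_one]
      intro hQ
      exact absurd (Finset.mem_image.mpr ⟨_, hQ, by simp⟩) hj
    have hk : (2 : ℝ) ^ W * wA N W Q a j 0 = 1 := by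
      unfold wA
      rw [Finset.prod_congr rfl fun (t : Fin W) _ => hfree t t.2 _, Finset.prod_const, Finset.card_univ,
        Fintype.card_fin, ← mul_pow]
      norm_num
    rw [hk, one_smul, run_block, run_block, Nat.mul_succ]
    have h := block_good (c := fun t => lc N W Q a (W * j + t)) (fun t => lu N W g (W * j + t))
      (run (lc N W Q a) (lu N W g) (dl G) (W * j)) W
      (fun t ht => ⟨hfree t ht 0, hfree t ht 1⟩)
    simp only [← run_add] at h
    exact h

lemma total :
    ∑ j ∈ Finset.range N, ∑ t ∈ Finset.range W, Real.sqrt (Fintype.card G *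
        (n2 (run (lc N W Q a) (lu N W g) (dl G) (W * j + t)) -
          n2 (run (lc N W Q a) (lu N W g) (dl G) (W * j + (t + 1))))) ≤
      Real.sqrt (Fintype.card G * (N * W)) := by
  rw [← Finset.sum_product']
  apply Real.le_sqrt_of_sq_le
  refine (sq_sum_le_card_mul_sum_sq).trans ?_
  have e : ∀ x : ℕ × ℕ, Real.sqrt (Fintype.card G *
        (n2 (run (lc N W Q a) (lu N W g) (dl G) (W * x.1 + x.2)) -
          n2 (run (lc N W Q a) (lu N W g) (dl G) (W * x.1 + (x.2 + 1))))) ^ 2 =
      Fintype.card G *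
        (n2 (run (lc N W Q a) (lu N W g) (dl G) (W * x.1 + x.2)) -
          n2 (run (lc N W Q a) (lu N W g) (dl G) (W * x.1 + (x.2 + 1)))) := by
    intro x
    rw [Real.sq_sqrt]
    apply mul_nonneg (Nat.cast_nonneg _)
    have := n2_step (lc_half N W Q a (W * x.1 + x.2)) (lu N W g (W * x.1 + x.2))
      (run (lc N W Q a) (lu N W g) (dl G) (W * x.1 + x.2))
    show 0 ≤ _ - n2 (act (lc N W Q a (W * x.1 + x.2)) (lu N W g (W * x.1 + x.2))
      (run (lc N W Q a) (lu N W g) (dl G) (W * x.1 + x.2)))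
    linarith
  rw [Finset.sum_congr rfl fun x _ => e x, ← Finset.mul_sum, Finset.card_product,
    Finset.card_range, Finset.card_range, Finset.sum_product]
  have h2 : ∀ j : ℕ, ∑ t ∈ Finset.range W,
      (n2 (run (lc N W Q a) (lu N W g) (dl G) (W * j + t)) -
          n2 (run (lc N W Q a) (lu N W g) (dl G) (W * j + (t + 1)))) =
      n2 (run (lc N W Q a) (lu N W g) (dl G) (W * j)) -
        n2 (run (lc N W Q a) (lu N W g) (dl G) (W * (j + 1))) := by
    intro j
    exact Finset.sum_range_sub' (fun t => n2 (run (lc N W Q a) (lu N W g) (dl G) (W * j + t))) W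
  rw [Finset.sum_congr rfl fun j _ => h2 j,
    Finset.sum_range_sub' (fun j => n2 (run (lc N W Q a) (lu N W g) (dl G) (W * j))) N]
  have h3 : n2 (run (lc N W Q a) (lu N W g) (dl G) (W * 0)) = 1 := n2_dl
  rw [h3]
  have h4 := n2_nonneg (run (lc N W Q a) (lu N W g) (dl G) (W * N))
  have h5 : (0 : ℝ) ≤ ((N * W : ℕ) : ℝ) * Fintype.card G := by positivity
  calc ((N * W : ℕ) : ℝ) * (Fintype.card G *
        (1 - n2 (run (lc N W Q a) (lu N W g) (dl G) (W * N)))) =
      ((N * W : ℕ) : ℝ) * Fintype.card G *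
        (1 - n2 (run (lc N W Q a) (lu N W g) (dl G) (W * N))) := by ring
    _ ≤ ((N * W : ℕ) : ℝ) * Fintype.card G * 1 :=
        mul_le_mul_of_nonneg_left (by linarith) h5
    _ = Fintype.card G * (N * W) := by
        push_cast
        ring

end blocks

end NegDist

open NegDist in
theorem nzDist_fools (N W K : ℕ) (hW : 1 ≤ W) (Q : Finset (Fin (N * W)))
    (a : Fin (N * W) → Fin 2) (hQ : Q.card ≤ K) (G : Type) [Group G] [Finite G]
    (g : Fin (N * W) → Fin 2 → G) (γ : G) :
    |prob (nzDist N W) (cube Q a ∩ {x | value g x = γ})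
      - prob (unif (Fin 2) (N * W)) (cube Q a ∩ {x | value g x = γ})| ≤
      (2 * K + Real.sqrt (Nat.card G * (N * W))) / ((2 : ℝ) ^ W - 1) := by
  classical
  have := Fintype.ofFinite G
  have h1 := one_lt W hW
  rw [prob_nz N W Q a g hW, prob_unif, Nat.card_eq_fintype_card]
  refine (le_n1 (run (wB N W Q a) (bv N W g) (dl G) N - run (wA N W Q a) (bv N W g) (dl G) N)
    γ).trans ?_
  refine (tele N W Q a g hW N).trans ?_
  rw [one_div, inv_mul_eq_div]
  apply div_le_div_of_nonneg_right _ (by linarith)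
  rw [Finset.sum_range]
  refine (Finset.sum_le_sum fun j _ => block_err N W Q a g hW j).trans ?_
  rw [Finset.sum_add_distrib]
  apply add_le_add
  · rw [← Finset.sum_filter, Finset.sum_const, nsmul_eq_mul, mul_comm]
    have h2 : (Finset.univ.filter fun j : Fin N =>
        j ∈ Q.image (fun i => ((finProdFinEquiv (m := N) (n := W)).symm i).1)).card ≤ K := by
      refine le_trans ?_ hQ
      refine le_trans ?_ (Finset.card_image_le
        (f := fun i => ((finProdFinEquiv (m := N) (n := W)).symm i).1))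
      apply Finset.card_le_card
      intro j hj
      exact (Finset.mem_filter.mp hj).2
    have h3 : ((Finset.univ.filter fun j : Fin N =>
        j ∈ Q.image (fun i => ((finProdFinEquiv (m := N) (n := W)).symm i).1)).card : ℝ) ≤ K := by
      exact_mod_cast h2
    linarith
  · have h4 := total N W Q a g
    rw [Finset.sum_range] at h4
    exact h4

end Helper12.GR
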