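import Pool.Agent.Helper12.GR.NegAlg
import Pool.Agent.Helper12.GR.NegDist
import Pool.Agent.Helper12.BI.NegRectProg

set_option autoImplicit false

/-!
Programs over monoids whose blocks are not orthodox do not reduce to programs over groups.

Proof sketch. `N = 2 ^ W`, the program with letters `u ^ s` (`s` the bit) and `v` after each block of
`W` bits, as in Helper12/BI/NegRectProg.lean (`prog`, the value is the product of `u ^ r_j * v`, `r_j`
the number of ones in the block `j`). `F = {m | y * m ≠ y}`. Inputs without zero block have value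
outside `F` (`prob nzDist = 0`); inputs with exactly one zero block have value in `F`. The
probability of exactly one zero block is `N 2^(-W) (1 - 2^(-W))^(N-1) = (1 - 1/N)^(N-1) ≥ 1/3`
(`(1 + 1/(N-1))^(N-1) ≤ exp 1 ≤ 3`). `W` is chosen so large that the bound of `nzDist_fools` for
`G` with at most `c` elements is at most `η` (`(2 K + sqrt (c 2^W W)) / (2^W - 1) → 0`).
-/

namespace Helper12.GR

open Helper12.BI

namespace NegProg

theorem exists_width (η : ℝ) (hη : 0 < η) (K c : ℕ) : ∃ k : ℕ,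
    (2 * (K : ℝ) + Real.sqrt ((c : ℝ) * (((2 ^ (k + 1) : ℕ) : ℝ) * ((k + 1 : ℕ) : ℝ)))) /
      ((2 : ℝ) ^ (k + 1) - 1) ≤ η := by
  have t1 : Filter.Tendsto (fun n : ℕ => 4 * (K : ℝ) / (2 : ℝ) ^ n) Filter.atTop (nhds 0) :=
    Filter.Tendsto.const_div_atTop (tendsto_pow_atTop_atTop_of_one_lt one_lt_two) _
  have t2 : Filter.Tendsto (fun n : ℕ => (n : ℝ) / (2 : ℝ) ^ n) Filter.atTop (nhds 0) := by
    simpa using tendsto_pow_const_div_const_pow_of_one_lt 1 (one_lt_two (α := ℝ))
  have t3 : Filter.Tendsto (fun n : ℕ => 2 * Real.sqrt ((c : ℝ) * ((n : ℝ) / (2 : ℝ) ^ n)))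
      Filter.atTop (nhds 0) := by
    have := ((t2.const_mul (c : ℝ)).sqrt).const_mul 2
    simpa using this
  have t4 := t1.add t3
  rw [add_zero] at t4
  have t5 := (Filter.tendsto_add_atTop_iff_nat 1).2 t4
  obtain ⟨k, hk⟩ := (t5.eventually (ge_mem_nhds hη)).exists
  refine ⟨k, le_trans ?_ hk⟩
  obtain ⟨t, ht⟩ : ∃ t : ℝ, t = (2 : ℝ) ^ (k + 1) := ⟨_, rfl⟩
  have ht2 : (2 : ℝ) ≤ t := by
    rw [ht, pow_succ]
    have := one_le_pow₀ (one_le_two (α := ℝ)) (n := k)
    linarith
  obtain ⟨w, hw⟩ : ∃ w : ℝ, w = ((k + 1 : ℕ) : ℝ) := ⟨_, rfl⟩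
  have e1 : Real.sqrt ((c : ℝ) * (((2 ^ (k + 1) : ℕ) : ℝ) * ((k + 1 : ℕ) : ℝ))) =
      t * Real.sqrt ((c : ℝ) * (w / t)) := by
    have h0 : (0 : ℝ) ≤ t := by linarith
    rw [← hw, Nat.cast_pow, Nat.cast_ofNat, ← ht]
    have h1 : (c : ℝ) * (t * w) = t ^ 2 * ((c : ℝ) * (w / t)) := by
      field_simp
    rw [h1, Real.sqrt_mul (sq_nonneg t), Real.sqrt_sq h0]
  rw [e1, ← ht, ← hw]
  have h3 : 0 ≤ Real.sqrt ((c : ℝ) * (w / t)) := Real.sqrt_nonneg _
  have h4 : (0 : ℝ) ≤ K := Nat.cast_nonneg K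
  calc (2 * (K : ℝ) + t * Real.sqrt ((c : ℝ) * (w / t))) / (t - 1)
      ≤ (2 * (K : ℝ) + t * Real.sqrt ((c : ℝ) * (w / t))) / (t / 2) := by
        apply div_le_div_of_nonneg_left (by positivity) (by linarith) (by linarith)
    _ = 4 * (K : ℝ) / t + 2 * Real.sqrt ((c : ℝ) * (w / t)) := by
        field_simp
        ring

theorem split_ofFn : ∀ {N : ℕ} (f : Fin N → ℕ) (a : Fin N), f a = 0 → (∀ b, b ≠ a → f b ≠ 0) →
    ∃ l1 l2 : List ℕ, List.ofFn f = l1 ++ 0 :: l2 ∧ 0 ∉ l1 ∧ 0 ∉ l2 := by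
  intro N
  induction N with
  | zero => intro f a; exact a.elim0
  | succ N ih =>
    intro f a ha hb
    rw [List.ofFn_succ]
    refine Fin.cases ?_ (fun a' => ?_) a (motive := fun a => f a = 0 → (∀ b, b ≠ a → f b ≠ 0) →
      ∃ l1 l2 : List ℕ, (f 0 :: List.ofFn fun i => f i.succ) = l1 ++ 0 :: l2 ∧ 0 ∉ l1 ∧ 0 ∉ l2)
      ha hb
    · intro ha hb
      refine ⟨[], List.ofFn fun i => f i.succ, by rw [ha]; rfl, List.not_mem_nil, ?_⟩
      rw [List.mem_ofFn]
      rintro ⟨i, hi⟩
      exact hb i.succ (Fin.succ_ne_zero i) hi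
    · intro ha hb
      obtain ⟨l1, l2, e, h1, h2⟩ := ih (fun i => f i.succ) a' ha
        (fun b hba => hb b.succ (fun h => hba (Fin.succ_injective _ h)))
      refine ⟨f 0 :: l1, l2, by rw [e]; rfl, ?_, h2⟩
      rw [List.mem_cons]
      rintro (h | h)
      · exact hb 0 (Fin.succ_ne_zero a').symm h.symm
      · exact h1 h

/-- Exactly one block is zero. -/
def OneZero (N k : ℕ) (x : Fin (N * (k + 1)) → Fin 2) : Prop :=
  ∃ a : Fin N, (∀ j : Fin (k + 1), x (finProdFinEquiv (a, j)) = 0) ∧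
    ∀ b : Fin N, b ≠ a → ∃ j : Fin (k + 1), x (finProdFinEquiv (b, j)) ≠ 0

open Classical in
theorem count_one (N k : ℕ) : N * (2 ^ (k + 1) - 1) ^ (N - 1) ≤
    (Finset.univ.filter fun x : Fin (N * (k + 1)) → Fin 2 => OneZero N k x).card := by
  have h1 : (Finset.univ.biUnion fun a : Fin N => Fintype.piFinset fun b : Fin N =>
      if b = a then ({0} : Finset (Fin (k + 1) → Fin 2)) else
        Finset.univ.erase (0 : Fin (k + 1) → Fin 2)).card = N * (2 ^ (k + 1) - 1) ^ (N - 1) := by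
    rw [Finset.card_biUnion]
    · have h2 : ∀ a : Fin N, (Fintype.piFinset fun b : Fin N =>
          if b = a then ({0} : Finset (Fin (k + 1) → Fin 2)) else
          Finset.univ.erase (0 : Fin (k + 1) → Fin 2)).card = (2 ^ (k + 1) - 1) ^ (N - 1) := by
        intro a
        rw [Fintype.card_piFinset, ← Finset.mul_prod_erase _ _ (Finset.mem_univ a), if_pos rfl,
          Finset.card_singleton, one_mul]
        rw [Finset.prod_congr rfl (g := fun _ => 2 ^ (k + 1) - 1)]
        · rw [Finset.prod_const, Finset.card_erase_of_mem (Finset.mem_univ a), Finset.card_univ,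
            Fintype.card_fin]
        · intro b hb
          rw [if_neg (Finset.ne_of_mem_erase hb), Finset.card_erase_of_mem (Finset.mem_univ _),
            Finset.card_univ, Fintype.card_fun, Fintype.card_fin, Fintype.card_fin]
      rw [Finset.sum_congr rfl (fun a _ => h2 a), Finset.sum_const, Finset.card_univ,
        Fintype.card_fin, smul_eq_mul]
    · intro a _ b _ hab
      rw [Function.onFun, Finset.disjoint_left]
      intro y hya hyb
      rw [Fintype.mem_piFinset] at hya hyb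
      have h3 := hya a
      have h4 := hyb a
      rw [if_pos rfl, Finset.mem_singleton] at h3
      rw [if_neg hab, Finset.mem_erase] at h4
      exact h4.1 h3
  rw [← h1]
  refine Finset.card_le_card_of_injOn
    (fun y i => y (finProdFinEquiv.symm i).1 (finProdFinEquiv.symm i).2) ?_ ?_
  · intro y hy
    rw [Finset.mem_coe, Finset.mem_biUnion] at hy
    obtain ⟨a, _, ha⟩ := hy
    rw [Fintype.mem_piFinset] at ha
    rw [Finset.mem_coe, Finset.mem_filter]
    refine ⟨Finset.mem_univ _, a, ?_, ?_⟩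
    · intro j
      have h3 := ha a
      rw [if_pos rfl, Finset.mem_singleton] at h3
      show y (finProdFinEquiv.symm (finProdFinEquiv (a, j))).1
        (finProdFinEquiv.symm (finProdFinEquiv (a, j))).2 = 0
      rw [Equiv.symm_apply_apply]
      exact congrFun h3 j
    · intro b hb
      have h3 := ha b
      rw [if_neg hb, Finset.mem_erase] at h3
      by_contra hcon
      push Not at hcon
      apply h3.1
      funext j
      have h4 := hcon j
      have h5 : y (finProdFinEquiv.symm (finProdFinEquiv (b, j))).1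
        (finProdFinEquiv.symm (finProdFinEquiv (b, j))).2 = 0 := h4
      rw [Equiv.symm_apply_apply] at h5
      exact h5
  · intro y _ y' _ hyy
    funext a j
    have h3 := congrFun hyy (finProdFinEquiv (a, j))
    have h4 : y (finProdFinEquiv.symm (finProdFinEquiv (a, j))).1
        (finProdFinEquiv.symm (finProdFinEquiv (a, j))).2 =
      y' (finProdFinEquiv.symm (finProdFinEquiv (a, j))).1
        (finProdFinEquiv.symm (finProdFinEquiv (a, j))).2 := h3
    rw [Equiv.symm_apply_apply] at h4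
    exact h4

theorem third_le (k : ℕ) : (1 : ℝ) / 3 ≤
    (1 / 2 : ℝ) ^ (2 ^ (k + 1) * (k + 1)) *
      ((2 ^ (k + 1) * (2 ^ (k + 1) - 1) ^ (2 ^ (k + 1) - 1) : ℕ) : ℝ) := by
  obtain ⟨m, hm⟩ : ∃ m : ℕ, 2 ^ (k + 1) = m + 1 := ⟨2 ^ (k + 1) - 1, by
    have := Nat.one_le_two_pow (n := k + 1)
    omega⟩
  have hm1 : 1 ≤ m := by
    have : 2 ≤ 2 ^ (k + 1) := by
      rw [pow_succ]
      have := Nat.one_le_two_pow (n := k)
      omega
    omega
  have hm0 : (0 : ℝ) < m := by exact_mod_cast hm1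
  have e0 : (1 / 2 : ℝ) ^ (2 ^ (k + 1) * (k + 1)) = (1 / ((m : ℝ) + 1)) ^ (m + 1) := by
    rw [mul_comm (2 ^ (k + 1)) (k + 1), pow_mul, hm]
    congr 1
    rw [one_div, inv_pow, one_div]
    congr 1
    have : ((2 ^ (k + 1) : ℕ) : ℝ) = ((m + 1 : ℕ) : ℝ) := by rw [hm]
    push_cast at this
    exact this
  rw [e0, hm]
  have e1 : m + 1 - 1 = m := rfl
  rw [e1]
  push_cast
  have e2 : (1 / ((m : ℝ) + 1)) ^ (m + 1) * (((m : ℝ) + 1) * (m : ℝ) ^ m) =
      ((1 + 1 / (m : ℝ)) ^ m)⁻¹ := by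
    have : 1 + 1 / (m : ℝ) = ((m : ℝ) + 1) / m := by field_simp
    rw [this, div_pow, div_pow, inv_div, one_pow, pow_succ]
    field_simp
  rw [e2]
  have e3 : (1 + 1 / (m : ℝ)) ^ m ≤ 3 := by
    have h1 : 1 + 1 / (m : ℝ) ≤ Real.exp (1 / m) := by
      have := Real.add_one_le_exp (1 / (m : ℝ))
      linarith
    calc (1 + 1 / (m : ℝ)) ^ m ≤ Real.exp (1 / m) ^ m :=
          pow_le_pow_left₀ (by positivity) h1 _
      _ = Real.exp 1 := by
          rw [← Real.exp_nat_mul]
          congr 1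
          field_simp
      _ ≤ 3 := by
          have := Real.exp_one_lt_d9
          linarith
  rw [one_div]
  exact inv_anti₀ (by positivity) e3

end NegProg

open NegProg in
theorem not_reduces {M : Type} [Monoid M] [Finite M] (h : ¬ Orth M) (K c : ℕ) (η : ℝ)
    (hη : 0 < η) : ∃ (n : ℕ) (l : Fin n → Fin 2 → M) (F : Set M) (μ : (Fin n → Fin 2) → ℝ),
      IsDist μ ∧
      (∀ (Q : Finset (Fin n)) (a : Fin n → Fin 2) (G : Type) [Group G] [Finite G]
        (g : Fin n → Fin 2 → G) (γ : G), Q.card ≤ K → Nat.card G ≤ c →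
        |prob μ (cube Q a ∩ {x | value g x = γ})
          - prob (unif (Fin 2) n) (cube Q a ∩ {x | value g x = γ})| ≤ η) ∧
      prob μ {x | value l x ∈ F} = 0 ∧ 1 / 3 ≤ prob (unif (Fin 2) n) {x | value l x ∈ F} := by
  classical
  obtain ⟨u, v, y, hd1, hd2⟩ := exists_detector h
  obtain ⟨k, hk⟩ := exists_width η hη K c
  refine ⟨2 ^ (k + 1) * (k + 1), NegRectProg.prog u v (2 ^ (k + 1)) k, {m | y * m ≠ y},
    nzDist (2 ^ (k + 1)) (k + 1), nzDist_isDist _ _ (by omega), ?_, ?_, ?_⟩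
  · intro Q a G _ _ g γ hQ hG
    refine (nzDist_fools (2 ^ (k + 1)) (k + 1) K (by omega) Q a hQ G g γ).trans
      (le_trans ?_ hk)
    have h2 : (1 : ℝ) ≤ (2 : ℝ) ^ (k + 1) := one_le_pow₀ one_le_two
    apply div_le_div_of_nonneg_right _ (by linarith)
    have h3 : (Nat.card G : ℝ) ≤ (c : ℝ) := by exact_mod_cast hG
    have h4 := Real.sqrt_le_sqrt (mul_le_mul_of_nonneg_right h3
      (show (0 : ℝ) ≤ ((2 ^ (k + 1) : ℕ) : ℝ) * ((k + 1 : ℕ) : ℝ) by positivity))
    linarith
  · unfold prob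
    apply Finset.sum_eq_zero
    intro x _
    rw [Set.indicator_apply_eq_zero]
    intro hx
    unfold nzDist
    rw [if_neg]
    intro hnz
    apply hx
    rw [NegRectProg.value_prog]
    apply hd1
    rw [List.mem_ofFn]
    rintro ⟨a, ha⟩
    obtain ⟨t, ht⟩ := hnz a
    have h1 := (Finset.sum_eq_zero_iff.mp ha) t (Finset.mem_univ t)
    exact ht (Fin.ext h1)
  · have hsub : ∀ x : Fin (2 ^ (k + 1) * (k + 1)) → Fin 2, OneZero (2 ^ (k + 1)) k x →
        x ∈ {x | value (NegRectProg.prog u v (2 ^ (k + 1)) k) x ∈ {m | y * m ≠ y}} := by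
      rintro x ⟨a, ha, hb⟩
      show y * value (NegRectProg.prog u v (2 ^ (k + 1)) k) x ≠ y
      rw [NegRectProg.value_prog]
      obtain ⟨l1, l2, e, h1, h2⟩ := split_ofFn
        (fun a : Fin (2 ^ (k + 1)) => ∑ j : Fin (k + 1),
          ((x (finProdFinEquiv (a, j)) : Fin 2) : ℕ)) a
        (Finset.sum_eq_zero fun j _ => by rw [ha j]; rfl)
        (fun b hba h0 => by
          obtain ⟨j, hj⟩ := hb b hba
          exact hj (Fin.ext ((Finset.sum_eq_zero_iff.mp h0) j (Finset.mem_univ j))))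
      rw [e]
      exact hd2 l1 l2 h1 h2
    refine (third_le k).trans ?_
    unfold prob unif
    have h1 : ∑ x : Fin (2 ^ (k + 1) * (k + 1)) → Fin 2,
        (if OneZero (2 ^ (k + 1)) k x then (1 / 2 : ℝ) ^ (2 ^ (k + 1) * (k + 1)) else 0) ≤
        ∑ x : Fin (2 ^ (k + 1) * (k + 1)) → Fin 2,
        Set.indicator {x | value (NegRectProg.prog u v (2 ^ (k + 1)) k) x ∈ {m | y * m ≠ y}}
          (fun _ => (1 / (Fintype.card (Fin 2) : ℝ)) ^ (2 ^ (k + 1) * (k + 1))) x := by
      apply Finset.sum_le_sum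
      intro x _
      by_cases hx : OneZero (2 ^ (k + 1)) k x
      · rw [if_pos hx, Set.indicator_of_mem (hsub x hx), Fintype.card_fin, Nat.cast_ofNat]
      · rw [if_neg hx]
        exact Set.indicator_nonneg (fun _ _ => by positivity) x
    refine le_trans ?_ h1
    rw [← Finset.sum_filter, Finset.sum_const, nsmul_eq_mul, mul_comm]
    exact mul_le_mul_of_nonneg_right (by exact_mod_cast count_one (2 ^ (k + 1)) k) (by positivity)

end Helper12.GR
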