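import Pool.Agent.Helper12.GR.Inw

set_option autoImplicit false

/-!
The generator fools programs over groups, also when letters are fixed.

Proof sketch. `H = EuclideanSpace ℝ G`, `rho x : H →L[ℝ] H` the operator `(rho x f) h = f (h * x)`
(an isometry: `LinearIsometryEquiv.piLpCongrLeft`, or a linear map on a finite dimensional space with
norm at most one; `rho 1 = 1`, `rho (x * y) = rho x * rho y`). Letters: `A t s = rho (g t s)` for
`t < 2 ^ L`, or `0` if `t ∈ Q` and `s ≠ a t` (and `1` for `t ≥ 2 ^ L`). All have norm at most one.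
For a string `x` the ordered product `(List.ofFn fun t => A t (x t)).prod` is `rho (value g x)` if
`x ∈ cube Q a` and `0` otherwise, so its matrix coefficient at `δ_1`, `δ_γ`
(`EuclideanSpace.single`) is the indicator function of the set in question:
`(rho v δ_γ) 1 = δ_γ v`. So the two probabilities are the matrix coefficients of `Pt F L A` (by
`tOp_eq`; `prob (inwDist F L) B` is the mean value over the seeds of the indicator function of `B`) and
of `pr L A` (by `pr_eq`), and the vectors `δ_1`, `δ_γ` have norm one: use `inw_bound`.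
-/

namespace Helper12.GR

open Helper12.BI

/-- The distribution of the output of the generator. -/
noncomputable def inwDist (F : Type) [Field F] [Fintype F] [Algebra (ZMod 2) F] (L : ℕ) :
    (Fin (2 ^ L) → ZMod 2) → ℝ :=
  fun x => (Nat.card {w : Fin (2 * L + 1) → F //
    (fun t : Fin (2 ^ L) => gen L (ext w) t) = x} : ℝ) / (Fintype.card F : ℝ) ^ (2 * L + 1)

namespace RepAux

lemma fiber_sum {W X : Type} [Fintype W] [Fintype X] (f : W → X) (φ : X → ℝ) :
    ∑ x, (Nat.card {w // f w = x} : ℝ) * φ x = ∑ w, φ (f w) := by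
  classical
  rw [← Finset.sum_fiberwise (s := Finset.univ) (g := f) (f := fun w => φ (f w))]
  refine Finset.sum_congr rfl fun x _ => ?_
  rw [Finset.sum_congr rfl (g := fun _ => φ x) fun w hw => by rw [(Finset.mem_filter.1 hw).2],
    Finset.sum_const, nsmul_eq_mul, Nat.card_eq_fintype_card, Fintype.card_subtype]

/-- The weight of a set is the mean value of its indicator function over the seeds. -/
lemma prob_inw (F : Type) [Field F] [Fintype F] [Algebra (ZMod 2) F] (L : ℕ)
    (B : Set (Fin (2 ^ L) → ZMod 2)) :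
    prob (inwDist F L) B = av fun w : Fin (2 * L + 1) → F =>
      B.indicator (fun _ => (1 : ℝ)) (fun t : Fin (2 ^ L) => gen L (ext w) t) := by
  classical
  unfold prob av
  rw [← fiber_sum (fun w : Fin (2 * L + 1) → F => (fun t : Fin (2 ^ L) => gen L (ext w) t))
    (fun x => B.indicator (fun _ => (1 : ℝ)) x), smul_eq_mul, Finset.mul_sum]
  refine Finset.sum_congr rfl fun x _ => ?_
  by_cases hx : x ∈ B
  · rw [Set.indicator_of_mem hx, Set.indicator_of_mem hx, mul_one, inwDist, Fintype.card_fun,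
      Fintype.card_fin, Nat.cast_pow, div_eq_inv_mul]
  · rw [Set.indicator_of_notMem hx, Set.indicator_of_notMem hx, mul_zero, mul_zero]

/-- The weight of a set for the uniform distribution. -/
lemma prob_unif (n : ℕ) (B : Set (Fin n → ZMod 2)) :
    prob (unif (ZMod 2) n) B = av fun x : Fin n → ZMod 2 => B.indicator (fun _ => (1 : ℝ)) x := by
  classical
  unfold prob av
  rw [smul_eq_mul, Finset.mul_sum]
  refine Finset.sum_congr rfl fun x _ => ?_
  by_cases hx : x ∈ B
  · rw [Set.indicator_of_mem hx, Set.indicator_of_mem hx, mul_one, unif, Fintype.card_fun,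
      Fintype.card_fin, Nat.cast_pow, one_div, inv_pow]
  · rw [Set.indicator_of_notMem hx, Set.indicator_of_notMem hx, mul_zero]

section rep

variable {G : Type} [Group G] [Fintype G] [DecidableEq G]

/-- Left multiplication. -/
noncomputable def rho (x : G) : EuclideanSpace ℝ G →L[ℝ] EuclideanSpace ℝ G :=
  ((LinearIsometryEquiv.piLpCongrLeft 2 ℝ ℝ (Equiv.mulLeft x)).toContinuousLinearEquiv :
    EuclideanSpace ℝ G →L[ℝ] EuclideanSpace ℝ G)

/-- The basis vector. -/
noncomputable def dl (y : G) : EuclideanSpace ℝ G := EuclideanSpace.single y (1 : ℝ)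

lemma rho_dl (x y : G) : rho x (dl y) = dl (x * y) := by
  unfold rho dl
  exact LinearIsometryEquiv.piLpCongrLeft_single (p := 2) (𝕜 := ℝ) (Equiv.mulLeft x) y (1 : ℝ)

lemma norm_rho (x : G) : ‖rho x‖ ≤ 1 := by
  refine ContinuousLinearMap.opNorm_le_bound _ zero_le_one fun v => ?_
  rw [one_mul]
  unfold rho
  exact le_of_eq ((LinearIsometryEquiv.piLpCongrLeft 2 ℝ ℝ (Equiv.mulLeft x)).norm_map v)

lemma prod_dl (l : List G) (y : G) : (l.map rho).prod (dl y) = dl (l.prod * y) := by
  induction l with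
  | nil => simp
  | cons x l ih =>
    rw [List.map_cons, List.prod_cons, List.prod_cons, mul_apply_eq_comp, ih, rho_dl,
      mul_assoc]

lemma norm_dl (y : G) : ‖dl y‖ = 1 := by
  unfold dl
  simp

/-- The matrix coefficient. -/
noncomputable def co (γ : G) : (EuclideanSpace ℝ G →L[ℝ] EuclideanSpace ℝ G) →ₗ[ℝ] ℝ where
  toFun T := T (dl 1) γ
  map_add' _ _ := rfl
  map_smul' _ _ := rfl

lemma co_le (γ : G) (T : EuclideanSpace ℝ G →L[ℝ] EuclideanSpace ℝ G) : |co γ T| ≤ ‖T‖ := by
  have h1 : ‖(T (dl 1)) γ‖ ≤ ‖T (dl 1)‖ := PiLp.norm_apply_le _ _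
  have h2 : ‖T (dl 1)‖ ≤ ‖T‖ := by
    have := T.le_opNorm (dl (1 : G))
    rwa [norm_dl, mul_one] at this
  exact h1.trans h2

end rep

end RepAux

open RepAux

theorem inwDist_isDist (F : Type) [Field F] [Fintype F] [Algebra (ZMod 2) F] (L : ℕ) :
    IsDist (inwDist F L) := by
  classical
  refine ⟨fun x => by unfold inwDist; positivity, ?_⟩
  have h := prob_inw F L Set.univ
  unfold prob at h
  rw [Set.indicator_univ] at h
  rw [h]
  simp only [Set.indicator_univ]
  exact av_const 1

theorem inw_fools (F : Type) [Field F] [Fintype F] [Algebra (ZMod 2) F]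
    [Algebra.IsSeparable (ZMod 2) F] (L : ℕ) (Q : Finset (Fin (2 ^ L)))
    (a : Fin (2 ^ L) → ZMod 2) (G : Type) [Group G] [Finite G] (g : Fin (2 ^ L) → ZMod 2 → G)
    (γ : G) :
    |prob (inwDist F L) (cube Q a ∩ {x | value g x = γ})
      - prob (unif (ZMod 2) (2 ^ L)) (cube Q a ∩ {x | value g x = γ})| ≤
      9 * ((L : ℝ) ^ 2 / Fintype.card F) := by
  classical
  letI : Fintype G := Fintype.ofFinite G
  let A : ℕ → ZMod 2 → (EuclideanSpace ℝ G →L[ℝ] EuclideanSpace ℝ G) := fun t s =>
    if h : t < 2 ^ L then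
      (if (⟨t, h⟩ : Fin (2 ^ L)) ∈ Q ∧ s ≠ a ⟨t, h⟩ then 0 else rho (g ⟨t, h⟩ s)) else 1
  have hA : ∀ t s, ‖A t s‖ ≤ 1 := by
    intro t s
    show ‖(if h : t < 2 ^ L then
      (if (⟨t, h⟩ : Fin (2 ^ L)) ∈ Q ∧ s ≠ a ⟨t, h⟩ then 0 else rho (g ⟨t, h⟩ s)) else 1 :
        EuclideanSpace ℝ G →L[ℝ] EuclideanSpace ℝ G)‖ ≤ 1
    split_ifs with h1 h2
    · rw [norm_zero]
      exact zero_le_one
    · exact norm_rho _
    · exact ContinuousLinearMap.norm_id_le
  have hAt : ∀ (t : Fin (2 ^ L)) (s : ZMod 2),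
      A t s = if t ∈ Q ∧ s ≠ a t then 0 else rho (g t s) := by
    intro t s
    show (if h : (t : ℕ) < 2 ^ L then
      (if (⟨t, h⟩ : Fin (2 ^ L)) ∈ Q ∧ s ≠ a ⟨t, h⟩ then 0 else rho (g ⟨t, h⟩ s)) else 1 :
        EuclideanSpace ℝ G →L[ℝ] EuclideanSpace ℝ G) = _
    rw [dif_pos t.2]
  have key : ∀ x : Fin (2 ^ L) → ZMod 2,
      co γ (List.ofFn fun t : Fin (2 ^ L) => A t (x t)).prod =
        (cube Q a ∩ {x | value g x = γ}).indicator (fun _ => (1 : ℝ)) x := by
    intro x
    by_cases hx : x ∈ cube Q a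
    · have h1 : (List.ofFn fun t : Fin (2 ^ L) => A t (x t)) =
          (List.ofFn fun t : Fin (2 ^ L) => g t (x t)).map rho := by
        rw [List.map_ofFn]
        congr 1
        funext t
        rw [hAt, if_neg, Function.comp_apply]
        rintro ⟨h2, h3⟩
        exact h3 (hx t h2)
      rw [h1]
      show (((List.ofFn fun t : Fin (2 ^ L) => g t (x t)).map rho).prod (dl 1)) γ = _
      rw [prod_dl, mul_one]
      unfold dl
      by_cases h2 : value g x = γ
      · have hm : x ∈ cube Q a ∩ {x | value g x = γ} := ⟨hx, h2⟩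
        rw [Set.indicator_of_mem hm]
        have h3 : (List.ofFn fun t : Fin (2 ^ L) => g t (x t)).prod = γ := h2
        rw [h3]
        simp
      · rw [Set.indicator_of_notMem fun h => h2 h.2]
        have h3 : (List.ofFn fun t : Fin (2 ^ L) => g t (x t)).prod ≠ γ := h2
        simp [Ne.symm h3]
    · rw [Set.indicator_of_notMem fun h => hx h.1]
      have h1 : ∃ t ∈ Q, x t ≠ a t := by
        by_contra h
        push Not at h
        exact hx h
      obtain ⟨t, h2, h3⟩ := h1
      rw [List.prod_eq_zero, map_zero]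
      rw [List.mem_ofFn]
      exact ⟨t, by rw [hAt, if_pos ⟨h2, h3⟩]⟩
  have e1 : prob (inwDist F L) (cube Q a ∩ {x | value g x = γ}) = co γ (Pt F L A) := by
    rw [prob_inw, Pt, av_map]
    refine av_congr fun w => ?_
    rw [← key, tOp_eq]
    congr 2
    rw [List.ofFn_eq_map, ← List.map_coe_finRange_eq_range, List.map_map]
    rfl
  have e2 : prob (unif (ZMod 2) (2 ^ L)) (cube Q a ∩ {x | value g x = γ}) = co γ (pr L A) := by
    rw [prob_unif, pr_eq, av_map]
    exact av_congr fun x => (key x).symm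
  rw [e1, e2, ← map_sub]
  exact (co_le γ _).trans (inw_bound F L A hA)

end Helper12.GR
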