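import Pool.Agent.Helper12.GR.Viola
import Pool.Agent.Helper20.Comm.Bias

set_option autoImplicit false

/-!
The explicit generator: sums of `d` strings `Tr (b * a ^ i)`.

Proof sketch. `sumDist F 1 n` is the distribution of `Helper20.Comm.str n a b`; its biases are at most
`n / card F` by `Helper20.Comm.char_bound` (for the character `x ↦ ∏ i ∈ T, sgn (x i)`, which is not
trivial for nonempty `T`). `sumDist F (d + 1) n = iter (sumDist F 1 n) d` by counting (split off
one of the summands, `Fin.consEquiv` or `Fin.sum_univ_succ`). Then `viola` with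
`ε = n / card F` if this is at most one; otherwise the bound is trivial (the difference of two
means of signs is at most `2 ≤ 9`).
-/

namespace Helper12.GR

open Helper12.BI

/-- The distribution of the sum of `d` independent strings `x_i = Tr(b a^i)`. -/
noncomputable def sumDist (F : Type) [Field F] [Fintype F] [Algebra (ZMod 2) F] (d n : ℕ) :
    (Fin n → ZMod 2) → ℝ :=
  fun x => (Nat.card {p : Fin d → F × F //
    ∑ j, Helper20.Comm.str n (p j).1 (p j).2 = x} : ℝ) / (Fintype.card F : ℝ) ^ (2 * d)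

namespace SumsAux

lemma mean_sumDist (F : Type) [Field F] [Fintype F] [Algebra (ZMod 2) F] (d n : ℕ)
    (g : (Fin n → ZMod 2) → ℝ) :
    mean (sumDist F d n) g
      = (∑ p : Fin d → F × F, g (∑ j, Helper20.Comm.str n (p j).1 (p j).2))
        / (Fintype.card F : ℝ) ^ (2 * d) := by
  classical
  have hc : ∀ x : Fin n → ZMod 2,
      (Nat.card {p : Fin d → F × F // ∑ j, Helper20.Comm.str n (p j).1 (p j).2 = x} : ℝ)
        = ∑ p : Fin d → F × F,
          if ∑ j, Helper20.Comm.str n (p j).1 (p j).2 = x then (1 : ℝ) else 0 := by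
    intro x
    rw [Nat.card_eq_fintype_card, Fintype.card_subtype, Finset.sum_boole]
  have h1 : mean (sumDist F d n) g = (∑ x, ∑ p : Fin d → F × F,
        g x * if ∑ j, Helper20.Comm.str n (p j).1 (p j).2 = x then (1 : ℝ) else 0)
        / (Fintype.card F : ℝ) ^ (2 * d) := by
    rw [Finset.sum_div]
    refine Finset.sum_congr rfl fun x _ => ?_
    rw [← Finset.mul_sum, ← hc, sumDist]
    ring
  rw [h1, Finset.sum_comm]
  congr 1
  refine Finset.sum_congr rfl fun p _ => ?_
  simp

lemma sumDist_nonneg (F : Type) [Field F] [Fintype F] [Algebra (ZMod 2) F] (d n : ℕ)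
    (x : Fin n → ZMod 2) : 0 ≤ sumDist F d n x := by
  unfold sumDist
  positivity

lemma isDist_aux (F : Type) [Field F] [Fintype F] [Algebra (ZMod 2) F] (d n : ℕ) :
    IsDist (sumDist F d n) := by
  refine ⟨sumDist_nonneg F d n, ?_⟩
  have h := mean_sumDist F d n (fun _ => 1)
  have h2 : mean (sumDist F d n) (fun _ => 1) = ∑ x, sumDist F d n x := by
    unfold mean
    simp
  rw [← h2, h]
  have hF : (Fintype.card F : ℝ) ≠ 0 := by
    exact_mod_cast Fintype.card_ne_zero
  simp only [Finset.sum_const, Finset.card_univ, Fintype.card_fun, Fintype.card_prod,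
    Fintype.card_fin, nsmul_eq_mul, mul_one]
  push_cast
  rw [pow_mul, pow_two]
  exact div_self (pow_ne_zero _ (mul_ne_zero hF hF))

lemma mean_iter (F : Type) [Field F] [Fintype F] [Algebra (ZMod 2) F] (n : ℕ) (d : ℕ) :
    ∀ f : (Fin n → ZMod 2) → ℝ,
      mean (iter (sumDist F 1 n) d) f = mean (sumDist F (d + 1) n) f := by
  induction d with
  | zero => intro f; rfl
  | succ d ih =>
    intro f
    have h0 : mean (iter (sumDist F 1 n) (d + 1)) f
        = mean (sumDist F 1 n) fun w => mean (iter (sumDist F 1 n) d) fun y => f (w + y) :=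
      mean_conv _ _ _
    rw [h0]
    have h1 : (fun w => mean (iter (sumDist F 1 n) d) fun y => f (w + y))
        = fun w => (∑ p : Fin (d + 1) → F × F,
            f (w + ∑ j, Helper20.Comm.str n (p j).1 (p j).2))
          / (Fintype.card F : ℝ) ^ (2 * (d + 1)) := by
      funext w
      rw [ih, mean_sumDist]
    rw [h1, mean_sumDist, mean_sumDist]
    have h2 : (∑ p : Fin (d + 1 + 1) → F × F,
        f (∑ j, Helper20.Comm.str n (p j).1 (p j).2))
        = ∑ q : F × F, ∑ p : Fin (d + 1) → F × F,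
          f (Helper20.Comm.str n q.1 q.2 + ∑ j, Helper20.Comm.str n (p j).1 (p j).2) := by
      rw [← Fintype.sum_prod_type'
        (f := fun (q : F × F) (p : Fin (d + 1) → F × F) =>
          f (Helper20.Comm.str n q.1 q.2 + ∑ j, Helper20.Comm.str n (p j).1 (p j).2))]
      refine (Fintype.sum_equiv (Fin.consEquiv (fun _ => F × F)) _ _ ?_).symm
      intro x
      congr 1
      symm
      refine (Fin.sum_univ_succ _).trans ?_
      simp [Fin.consEquiv]
    have h3 : (∑ q : Fin 1 → F × F, ((∑ p : Fin (d + 1) → F × F,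
            f ((∑ j, Helper20.Comm.str n (q j).1 (q j).2)
              + ∑ j, Helper20.Comm.str n (p j).1 (p j).2))
          / (Fintype.card F : ℝ) ^ (2 * (d + 1))))
        = (∑ q : F × F, ∑ p : Fin (d + 1) → F × F,
          f (Helper20.Comm.str n q.1 q.2 + ∑ j, Helper20.Comm.str n (p j).1 (p j).2))
          / (Fintype.card F : ℝ) ^ (2 * (d + 1)) := by
      rw [Finset.sum_div]
      refine Fintype.sum_equiv (Equiv.funUnique (Fin 1) (F × F)) _ _ ?_
      intro x
      simp
    rw [h3, h2, div_div, ← pow_add]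
    congr 2

/-- the character with the support `T` -/
noncomputable def chr (n : ℕ) (T : Finset (Fin n)) : AddChar (Fin n → ZMod 2) ℂ where
  toFun x := ∏ i ∈ T, Helper20.Comm.sgn (x i)
  map_zero_eq_one' := by simp [Helper20.Comm.sgn_zero]
  map_add_eq_mul' x y := by
    rw [← Finset.prod_mul_distrib]
    exact Finset.prod_congr rfl fun i _ => Helper20.Comm.sgn_add _ _

lemma chr_apply (n : ℕ) (T : Finset (Fin n)) (x : Fin n → ZMod 2) :
    chr n T x = ∏ i ∈ T, Helper20.Comm.sgn (x i) := rfl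

lemma chr_ne (n : ℕ) (T : Finset (Fin n)) (hT : T.Nonempty) : chr n T ≠ 1 := by
  classical
  obtain ⟨i, hi⟩ := hT
  intro h
  have h1 : chr n T (Pi.single i 1) = 1 := by rw [h]; rfl
  rw [chr_apply, Finset.prod_eq_single_of_mem i hi] at h1
  · rw [Pi.single_eq_same] at h1
    have : Helper20.Comm.sgn 1 = -1 := by simp [Helper20.Comm.sgn]
    rw [this] at h1
    norm_num at h1
  · intro j _ hj
    rw [Pi.single_eq_of_ne hj]
    exact Helper20.Comm.sgn_zero

lemma sg_coe (t : ZMod 2) : ((sg t : ℝ) : ℂ) = Helper20.Comm.sgn t := by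
  unfold sg Helper20.Comm.sgn
  split_ifs <;> simp

lemma sg_abs (t : ZMod 2) : |sg t| = 1 := by
  unfold sg; split_ifs <;> simp

lemma sum_bound (F : Type) [Field F] [Fintype F] [Algebra (ZMod 2) F]
    [Algebra.IsSeparable (ZMod 2) F] (n : ℕ) (T : Finset (Fin n)) (hT : T.Nonempty) :
    |∑ a : F, ∑ b : F, ∏ i ∈ T, sg (Helper20.Comm.str n a b i)| ≤ n * Fintype.card F := by
  have h := Helper20.Comm.char_bound (F := F) n (chr n T) (chr_ne n T hT)
  have h2 : ∑ a : F, ∑ b : F, chr n T (Helper20.Comm.str n a b)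
      = ((∑ a : F, ∑ b : F, ∏ i ∈ T, sg (Helper20.Comm.str n a b i) : ℝ) : ℂ) := by
    push_cast
    refine Finset.sum_congr rfl fun a _ => Finset.sum_congr rfl fun b _ => ?_
    rw [chr_apply]
    exact Finset.prod_congr rfl fun i _ => (sg_coe _).symm
  rw [h2, Complex.norm_real, Real.norm_eq_abs] at h
  exact h

lemma bias (F : Type) [Field F] [Fintype F] [Algebra (ZMod 2) F]
    [Algebra.IsSeparable (ZMod 2) F] (n : ℕ) (T : Finset (Fin n)) (hT : T.Nonempty) :
    |mean (sumDist F 1 n) fun x => ∏ i ∈ T, sg (x i)| ≤ (n : ℝ) / Fintype.card F := by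
  have hF : (0 : ℝ) < Fintype.card F := by exact_mod_cast Fintype.card_pos
  rw [mean_sumDist]
  have h1 : (∑ p : Fin 1 → F × F, ∏ i ∈ T, sg ((∑ j, Helper20.Comm.str n (p j).1 (p j).2) i))
      = ∑ a : F, ∑ b : F, ∏ i ∈ T, sg (Helper20.Comm.str n a b i) := by
    rw [← Fintype.sum_prod_type' (f := fun (a b : F) => ∏ i ∈ T, sg (Helper20.Comm.str n a b i))]
    refine Fintype.sum_equiv (Equiv.funUnique (Fin 1) (F × F)) _ _ ?_
    intro x
    simp
  rw [h1, abs_div, abs_of_pos (by positivity : (0 : ℝ) < (Fintype.card F : ℝ) ^ (2 * 1)),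
    div_le_div_iff₀ (by positivity) hF]
  have h2 := sum_bound F n T hT
  calc |∑ a : F, ∑ b : F, ∏ i ∈ T, sg (Helper20.Comm.str n a b i)| * (Fintype.card F : ℝ)
      ≤ (n * Fintype.card F) * (Fintype.card F : ℝ) :=
        mul_le_mul_of_nonneg_right h2 hF.le
    _ = (n : ℝ) * (Fintype.card F : ℝ) ^ (2 * 1) := by ring

lemma abs_mean_le {n : ℕ} {μ : (Fin n → ZMod 2) → ℝ} (hμ : IsDist μ)
    (p : (Fin n → ZMod 2) → ZMod 2) : |mean μ fun x => sg (p x)| ≤ 1 := by
  unfold mean
  calc |∑ x, μ x * sg (p x)| ≤ ∑ x, |μ x * sg (p x)| := Finset.abs_sum_le_sum_abs _ _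
    _ = ∑ x, μ x := by
        refine Finset.sum_congr rfl fun x _ => ?_
        rw [abs_mul, sg_abs, mul_one, abs_of_nonneg (hμ.1 x)]
    _ ≤ 1 := hμ.2.le

end SumsAux

theorem sumDist_isDist (F : Type) [Field F] [Fintype F] [Algebra (ZMod 2) F] (d n : ℕ) :
    IsDist (sumDist F d n) := by
  exact SumsAux.isDist_aux F d n

theorem sumDist_fools (F : Type) [Field F] [Fintype F] [Algebra (ZMod 2) F]
    [Algebra.IsSeparable (ZMod 2) F] (d n : ℕ) (p : (Fin n → ZMod 2) → ZMod 2)
    (hp : DegLe (d + 1) p) :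
    |mean (sumDist F (d + 1) n) (fun x => sg (p x))
      - mean (unif (ZMod 2) n) (fun x => sg (p x))| ≤
      9 * ((n : ℝ) / Fintype.card F) ^ ((1 / 2 : ℝ) ^ d) := by
  have hF : (0 : ℝ) < Fintype.card F := by exact_mod_cast Fintype.card_pos
  have h0 : (0 : ℝ) ≤ (n : ℝ) / Fintype.card F := by positivity
  by_cases h1 : (n : ℝ) / Fintype.card F ≤ 1
  · rw [← SumsAux.mean_iter]
    exact viola (sumDist_isDist F 1 n) h0 h1 (fun T hT => SumsAux.bias F n T hT) d p hp
  · push Not at h1
    have ha := SumsAux.abs_mean_le (sumDist_isDist F (d + 1) n) p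
    have hb := SumsAux.abs_mean_le (unif_isDist (n := n)) p
    have hc : (1 : ℝ) ≤ ((n : ℝ) / Fintype.card F) ^ ((1 / 2 : ℝ) ^ d) :=
      Real.one_le_rpow h1.le (by positivity)
    rw [abs_le] at ha hb ⊢
    constructor <;> linarith [ha.1, ha.2, hb.1, hb.2]

end Helper12.GR
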