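import Pool.Agent.Helper12.GR.Defs

set_option autoImplicit false

/-!
Cells as tests: fixed letters and one program over a group dividing a power of `M`.

Proof: induction on the cell. Two letter conditions at the same position are equal or
contradictory (then `A = ∅`). A condition on a program over a group `G` dividing `M` is joined to the
previous one by taking the product group `G' × G`.
-/

namespace Helper12.GR

open Helper12.BI

/-- A divisor of `M` divides every monoid that maps onto `M`. -/
lemma divides_comap {G M M' : Type} [Monoid G] [Monoid M] [Monoid M'] (r : M' →* M)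
    (hr : Function.Surjective r) (h : Divides G M) : Divides G M' := by
  obtain ⟨N, φ, hφ⟩ := h
  refine ⟨N.comap r, φ.comp (r.submonoidComap N), ?_⟩
  intro g
  obtain ⟨x, rfl⟩ := hφ g
  obtain ⟨m, hm⟩ := hr (x : M)
  refine ⟨⟨m, ?_⟩, ?_⟩
  · rw [Submonoid.mem_comap, hm]
    exact x.2
  · show φ (r.submonoidComap N ⟨m, _⟩) = φ x
    congr 1
    exact Subtype.ext hm

/-- Products of divisors divide the product. -/
lemma divides_prod {G G' M M' : Type} [Monoid G] [Monoid G'] [Monoid M] [Monoid M']
    (h' : Divides G' M') (h : Divides G M) : Divides (G' × G) (M' × M) := by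
  obtain ⟨N, φ, hφ⟩ := h
  obtain ⟨N', φ', hφ'⟩ := h'
  refine ⟨N'.prod N, (φ'.prodMap φ).comp (Submonoid.prodEquiv N' N).toMonoidHom, ?_⟩
  rintro ⟨g', g⟩
  obtain ⟨x, rfl⟩ := hφ g
  obtain ⟨x', rfl⟩ := hφ' g'
  exact ⟨⟨(x'.1, x.1), ⟨x'.2, x.2⟩⟩, rfl⟩

lemma divides_succ {G G' M : Type} [Monoid G] [Monoid G'] [Monoid M] {k : ℕ}
    (h' : Divides G' (Fin k → M)) (h : Divides G M) : Divides (G' × G) (Fin (k + 1) → M) := by
  let r : (Fin (k + 1) → M) →* (Fin k → M) × M :=
    { toFun := fun f => (fun i => f i.castSucc, f (Fin.last k))
      map_one' := rfl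
      map_mul' := fun _ _ => rfl }
  refine divides_comap r ?_ (divides_prod h' h)
  rintro ⟨f, m⟩
  refine ⟨Fin.snoc f m, ?_⟩
  show ((fun i : Fin k => (Fin.snoc f m : Fin (k + 1) → M) i.castSucc),
    (Fin.snoc f m : Fin (k + 1) → M) (Fin.last k)) = (f, m)
  simp

lemma divides_le {G M : Type} [Monoid G] [Monoid M] {k K : ℕ} (hk : k ≤ K)
    (h : Divides G (Fin k → M)) : Divides G (Fin K → M) := by
  let r : (Fin K → M) →* (Fin k → M) :=
    { toFun := fun f i => f (Fin.castLE hk i)
      map_one' := rfl
      map_mul' := fun _ _ => rfl }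
  refine divides_comap r ?_ h
  intro f
  refine ⟨fun i => if hi : i.1 < k then f ⟨i.1, hi⟩ else 1, ?_⟩
  funext i
  show (if hi : (Fin.castLE hk i).1 < k then f ⟨(Fin.castLE hk i).1, hi⟩ else 1) = f i
  have : (Fin.castLE hk i).1 < k := i.2
  rw [dif_pos this]
  rfl

lemma gval_prod {ι S G G' : Type} [Monoid G] [Monoid G'] (P : List ι) (g : ι → S → G)
    (g' : ι → S → G') (x : ι → S) :
    gval P (fun i s => (g i s, g' i s)) x = (gval P g x, gval P g' x) := by
  unfold gval
  induction P with
  | nil => rfl
  | cons i P ih => simp only [List.map_cons, List.prod_cons, ih, Prod.mk_mul_mk]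

theorem cell_test {S M : Type} [Nonempty S] [Monoid M] {n : ℕ} {P : List (Fin n)} {k K : ℕ} (hk : k ≤ K)
    {A : Set (Fin n → S)} (hA : Cell M P k A) :
    A = ∅ ∨ ∃ (Q : Finset (Fin n)) (a : Fin n → S) (G : Type) (_ : Group G) (_ : Finite G)
      (g : Fin n → S → G) (γ : G), Q.card ≤ K ∧ Divides G (Fin K → M) ∧
        A = cube Q a ∩ {x | gval P g x = γ} := by
  suffices h : A = ∅ ∨ ∃ (Q : Finset (Fin n)) (a : Fin n → S) (G : Type) (_ : Group G)
      (_ : Finite G) (g : Fin n → S → G) (γ : G), Q.card ≤ k ∧ Divides G (Fin k → M) ∧
        A = cube Q a ∩ {x | gval P g x = γ} by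
    rcases h with h | ⟨Q, a, G, i1, i2, g, γ, hQ, hG, hA⟩
    · exact Or.inl h
    · exact Or.inr ⟨Q, a, G, i1, i2, g, γ, hQ.trans hk, divides_le hk hG, hA⟩
  clear hk
  induction hA with
  | univ =>
    right
    refine ⟨∅, fun _ => Classical.arbitrary S, Unit, inferInstance, inferInstance, fun _ _ => 1,
      1, by simp, ⟨⊤, 1, ?_⟩, ?_⟩
    · intro g
      exact ⟨1, Subsingleton.elim _ _⟩
    · symm
      apply Set.eq_univ_of_forall
      intro x
      refine ⟨?_, Subsingleton.elim (α := Unit) _ _⟩
      intro i hi
      simp at hi
  | @inter k A B hA hB ih =>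
    rcases ih with h | ⟨Q, a, G', i1, i2, g', γ', hQ, hG', hA'⟩
    · left
      rw [h, Set.empty_inter]
    · cases hB with
      | letter i hi s =>
        by_cases hiQ : i ∈ Q
        · by_cases has : a i = s
          · right
            refine ⟨Q, a, G', i1, i2, g', γ', by omega, divides_le (Nat.le_succ k) hG', ?_⟩
            rw [← hA']
            apply Set.inter_eq_left.2
            intro x hx
            rw [hA'] at hx
            show x i = s
            rw [hx.1 i hiQ, has]
          · left
            apply Set.eq_empty_of_forall_notMem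
            rintro x ⟨hx, hx'⟩
            rw [hA'] at hx
            apply has
            rw [← hx.1 i hiQ]
            exact hx'
        · right
          refine ⟨insert i Q, Function.update a i s, G', i1, i2, g', γ', ?_,
            divides_le (Nat.le_succ k) hG', ?_⟩
          · rw [Finset.card_insert_of_notMem hiQ]
            omega
          · rw [hA']
            ext x
            simp only [Set.mem_inter_iff, Set.mem_ofPred_eq]
            constructor
            · rintro ⟨⟨h1, h2⟩, h3⟩
              refine ⟨?_, h2⟩
              intro j hj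
              rcases Finset.mem_insert.1 hj with rfl | hj
              · simp [h3]
              · have : j ≠ i := fun h => hiQ (h ▸ hj)
                rw [Function.update_of_ne this]
                exact h1 j hj
            · rintro ⟨h1, h2⟩
              refine ⟨⟨?_, h2⟩, ?_⟩
              · intro j hj
                have : j ≠ i := fun h => hiQ (h ▸ hj)
                have := h1 j (Finset.mem_insert_of_mem hj)
                rwa [Function.update_of_ne ‹j ≠ i›] at this
              · have := h1 i (Finset.mem_insert_self i Q)
                simpa using this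
      | group G h g γ =>
        right
        refine ⟨Q, a, G' × G, inferInstance, inferInstance, fun i s => (g' i s, g i s),
          (γ', γ), by omega, divides_succ hG' h, ?_⟩
        rw [hA']
        ext x
        simp only [Set.mem_inter_iff, Set.mem_ofPred_eq, gval_prod, Prod.mk.injEq]
        tauto

end Helper12.GR
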