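import Pool.Agent.Helper12.GR.Step
import Pool.Agent.Helper12.GR.Fool
import Pool.Agent.Helper12.GR.Test
import Pool.Agent.Helper12.GR.CellPoly
import Pool.Agent.Helper12.GR.Disc
import Pool.Agent.Helper12.GR.Sums
import Pool.Agent.Helper12.GR.NegProg
import Pool.Agent.Helper12.GR.Bound
import Pool.Agent.Helper12.GR.Rep

set_option autoImplicit false

/-!
Reduction of monoid programs to group programs: assembly.
-/

namespace Helper12.GR

open Helper12.BI

section positive

variable {S M : Type} [Monoid M] {n : ℕ}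

lemma gval_ofFn {G : Type} [Monoid G] (σ : Equiv.Perm (Fin n)) (g : Fin n → S → G)
    (x : Fin n → S) : gval (List.ofFn σ) g x = value (fun i => g (σ i)) (x ∘ σ) := by
  unfold gval value
  rw [List.map_ofFn]
  rfl

lemma val_ofFn (σ : Equiv.Perm (Fin n)) (c : Fin n → S → M) (x : Fin n → S) :
    val (List.ofFn fun i => (σ i, c i)) x = value c (x ∘ σ) := by
  unfold val value
  rw [List.map_ofFn]
  rfl

lemma pos_ofFn (σ : Equiv.Perm (Fin n)) (c : Fin n → S → M) :
    pos (List.ofFn fun i => (σ i, c i)) = List.ofFn σ := by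
  unfold pos
  rw [List.map_ofFn]
  rfl

lemma nodup_ofFn (σ : Equiv.Perm (Fin n)) : (List.ofFn σ).Nodup :=
  List.nodup_ofFn.2 σ.injective

/-- `μ` gives the right probabilities, up to `η`, to the sets defined by at most `K` letters and the
value of a program over a group dividing the `K`-th power of `M`. -/
def FoolsGroups (M : Type) [Monoid M] {S : Type} [Fintype S] {n : ℕ} (σ : Equiv.Perm (Fin n))
    (μ : (Fin n → S) → ℝ) (K : ℕ) (η : ℝ) : Prop :=
  ∀ (Q : Finset (Fin n)) (a : Fin n → S) (G : Type) [Group G] [Finite G] (g : Fin n → S → G)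
    (γ : G), Q.card ≤ K → Divides G (Fin K → M) →
      |prob μ (cube Q a ∩ {x | value g (x ∘ σ) = γ})
        - prob (unif S n) (cube Q a ∩ {x | value g (x ∘ σ) = γ})| ≤ η

lemma FoolsGroups.cell [Fintype S] [Nonempty S] {σ : Equiv.Perm (Fin n)} {μ : (Fin n → S) → ℝ}
    {K : ℕ} {η : ℝ} (hη : 0 ≤ η) (h : FoolsGroups M σ μ K η) {k : ℕ} (hk : k ≤ K)
    {A : Set (Fin n → S)} (hA : Cell M (List.ofFn σ) k A) :
    |prob μ A - prob (unif S n) A| ≤ η := by
  rcases cell_test hk hA with rfl | ⟨Q, a, G, _, _, g, γ, hQ, hG, rfl⟩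
  · simpa [prob] using hη
  · have := h Q a G (fun i => g (σ i)) γ hQ hG
    simpa only [gval_ofFn] using this

/-- The quantitative reduction. -/
theorem reduce (S M : Type) [Monoid M] [Finite M] [Fintype S] [Nonempty S] (hO : Orth M) :
    ∃ lam C tau : ℝ, 1 < lam ∧ 0 < tau ∧ ∀ (n : ℕ) (σ : Equiv.Perm (Fin n))
      (μ : (Fin n → S) → ℝ) (K : ℕ) (η : ℝ), 0 ≤ η → IsDist μ → FoolsGroups M σ μ K η →
      ∀ (c : Fin n → S → M) (F : Set M),
        |prob μ {x | value c (x ∘ σ) ∈ F} - prob (unif S n) {x | value c (x ∘ σ) ∈ F}| ≤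
          C / lam ^ K + η / tau ^ K := by
  obtain ⟨lam, C, tau, h1, h2, h3, h4, h5⟩ := res_all S M hO
  refine ⟨lam, C, tau, h1, h3, fun n σ μ K η hη hμ hf c F => ?_⟩
  have hres := h5 (Fin n) (List.ofFn fun i => (σ i, c i)) (by
    rw [pos_ofFn]
    exact nodup_ofFn σ)
  rw [pos_ofFn] at hres
  have := fool_of_res h1.le h3 h4 hres F K η μ hμ (fun k hk A hA => hf.cell hη hk hA)
  simpa only [val_ofFn] using this

/-- Fooling the programs over `M` reduces to fooling programs over groups. -/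
def Reduces (M : Type) [Monoid M] : Prop :=
  ∀ (S : Type) [Fintype S] [Nonempty S] (δ : ℝ), 0 < δ → ∃ (K : ℕ) (η : ℝ), 0 < η ∧
    ∀ (n : ℕ) (σ : Equiv.Perm (Fin n)) (μ : (Fin n → S) → ℝ), IsDist μ →
      FoolsGroups M σ μ K η → ∀ (c : Fin n → S → M) (F : Set M),
        |prob μ {x | value c (x ∘ σ) ∈ F} - prob (unif S n) {x | value c (x ∘ σ) ∈ F}| ≤ δ

theorem reduces [Finite M] (hO : Orth M) : Reduces M := by
  intro S _ _ δ hδ
  obtain ⟨lam, C, tau, h1, h3, h⟩ := reduce S M hO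
  obtain ⟨K, hK⟩ : ∃ K : ℕ, C / lam ^ K ≤ δ / 2 := by
    have h4 : Filter.Tendsto (fun K : ℕ => C / lam ^ K) Filter.atTop (nhds 0) :=
      Filter.Tendsto.const_div_atTop (tendsto_pow_atTop_atTop_of_one_lt h1) C
    obtain ⟨K, hK⟩ := (h4.eventually (ge_mem_nhds (show (0 : ℝ) < δ / 2 by positivity))).exists
    exact ⟨K, hK⟩
  refine ⟨K, δ / 2 * tau ^ K, by positivity, fun n σ μ hμ hf c F => ?_⟩
  refine (h n σ μ K _ (by positivity) hμ hf c F).trans ?_
  rw [mul_div_assoc, div_self (by positivity)]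
  linarith

theorem not_reduces' [Finite M] (h : ¬ Orth M) : ¬ Reduces M := by
  intro hr
  obtain ⟨K, η, hη, h1⟩ := hr (Fin 2) (1 / 4) (by norm_num)
  obtain ⟨n, l, F, μ, hμ, h2, h3, h4⟩ := not_reduces h K (Nat.card (Fin K → M)) η hη
  have h5 := h1 n (Equiv.refl _) μ hμ (by
    intro Q a G _ _ g γ hQ hG
    refine h2 Q a G g γ hQ ?_
    obtain ⟨N, φ, hφ⟩ := hG
    exact (Nat.card_le_card_of_surjective φ hφ).trans
      (Nat.card_le_card_of_injective _ Subtype.val_injective)) l F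
  have h6 : ∀ x : Fin n → Fin 2, x ∘ (Equiv.refl (Fin n)) = x := fun x => rfl
  simp only [h6, h3] at h5
  rw [abs_le] at h5
  linarith [h5.1]

end positive

lemma prob_mem {S : Type} [Fintype S] {n : ℕ} {μ : (Fin n → S) → ℝ} (hμ : IsDist μ)
    (A : Set (Fin n → S)) : 0 ≤ prob μ A ∧ prob μ A ≤ 1 := by
  constructor
  · exact Finset.sum_nonneg fun x _ => Set.indicator_nonneg (fun z _ => hμ.1 z) x
  · rw [← hμ.2]
    exact Finset.sum_le_sum fun x _ => Set.indicator_le_self' (fun z _ => hμ.1 z) x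

lemma abs_prob_sub_le {S : Type} [Fintype S] {n : ℕ} {μ ν : (Fin n → S) → ℝ} (hμ : IsDist μ)
    (hν : IsDist ν) (A : Set (Fin n → S)) : |prob μ A - prob ν A| ≤ 1 := by
  have h1 := prob_mem hμ A
  have h2 := prob_mem hν A
  rw [abs_le]
  constructor <;> linarith [h1.1, h1.2, h2.1, h2.2]

/-- The explicit generator for monoids whose groups are `2`-groups. -/
theorem explicit (M : Type) [Monoid M] [Finite M] (hO : Orth M) (h2 : TwoGroups M) :
    ∃ (d : ℕ) (C c : ℝ), 1 ≤ d ∧ 0 < c ∧ ∀ (F : Type) [Field F] [Fintype F]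
      [Algebra (ZMod 2) F] [Algebra.IsSeparable (ZMod 2) F] (n : ℕ) (σ : Equiv.Perm (Fin n))
      (l : Fin n → ZMod 2 → M) (A : Set M),
        |prob (sumDist F d n) {x | value l (x ∘ σ) ∈ A}
          - prob (unif (ZMod 2) n) {x | value l (x ∘ σ) ∈ A}| ≤
          C * ((n : ℝ) / Fintype.card F) ^ c := by
  obtain ⟨lam, C, tau, h1, h3, h4, h5, h6⟩ := res_all (ZMod 2) M hO
  obtain ⟨D, hD, hcell⟩ := cell_poly M h2
  obtain ⟨d, rfl⟩ : ∃ d, D = d + 1 := ⟨D - 1, by omega⟩
  have key : ∀ (F : Type) [Field F] [Fintype F]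
      [Algebra (ZMod 2) F] [Algebra.IsSeparable (ZMod 2) F] (n : ℕ) (σ : Equiv.Perm (Fin n))
      (l : Fin n → ZMod 2 → M) (A : Set M) (T : ℕ),
        |prob (sumDist F (d + 1) n) {x | value l (x ∘ σ) ∈ A}
          - prob (unif (ZMod 2) n) {x | value l (x ∘ σ) ∈ A}| ≤
          C / lam ^ T + (9 * ((n : ℝ) / Fintype.card F) ^ ((1 / 2 : ℝ) ^ d)) / tau ^ T := by
    intro F _ _ _ _ n σ l A T
    have hres := h6 (Fin n) (List.ofFn fun i => (σ i, l i)) (by
      rw [pos_ofFn]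
      exact nodup_ofFn σ)
    have := fool_of_res h1.le h4 h5 hres A T (9 * ((n : ℝ) / Fintype.card F) ^ ((1 / 2 : ℝ) ^ d))
      (sumDist F (d + 1) n) (sumDist_isDist F (d + 1) n) (fun k _ A hA => ?_)
    · simpa only [val_ofFn] using this
    · obtain ⟨r, p, a, hp, rfl⟩ := hcell (Fin n) _ k A hA
      exact disc_of_poly (sumDist_isDist F (d + 1) n) (fun q hq => sumDist_fools F d n q hq) p a hp
  obtain ⟨C', c, hc, hb⟩ := power_bound (θ := (1 / 2 : ℝ) ^ d) h1 h3 h4 (by positivity)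
  refine ⟨d + 1, C', c, by omega, hc, fun F _ _ _ _ n σ l A => ?_⟩
  refine hb _ _ (by positivity) ?_ (key F n σ l A)
  exact abs_prob_sub_le (sumDist_isDist F (d + 1) n) unif_isDist _

/-- The explicit generator for all monoids with orthodox blocks, in the standard order. -/
theorem inw_explicit (M : Type) [Monoid M] [Finite M] (hO : Orth M) :
    ∃ (C c : ℝ), 0 < c ∧ ∀ (F : Type) [Field F] [Fintype F] [Algebra (ZMod 2) F]
      [Algebra.IsSeparable (ZMod 2) F] (L : ℕ) (l : Fin (2 ^ L) → ZMod 2 → M) (A : Set M),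
        |prob (inwDist F L) {x | value l x ∈ A}
          - prob (unif (ZMod 2) (2 ^ L)) {x | value l x ∈ A}| ≤
          C * ((L : ℝ) ^ 2 / Fintype.card F) ^ c := by
  obtain ⟨lam, C, tau, h1, h3, h⟩ := reduce (ZMod 2) M hO
  have hfool : ∀ (F : Type) [Field F] [Fintype F] [Algebra (ZMod 2) F]
      [Algebra.IsSeparable (ZMod 2) F] (L K : ℕ),
      FoolsGroups M (Equiv.refl (Fin (2 ^ L))) (inwDist F L) K
        (9 * ((L : ℝ) ^ 2 / Fintype.card F)) := by
    intro F _ _ _ _ L K Q a G _ _ g γ _ _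
    exact inw_fools F L Q a G g γ
  obtain ⟨C', c, hc, hb⟩ := power_bound (C := max C 1) (θ := 1) h1 (le_max_right _ _) h3
    (by norm_num)
  refine ⟨C', c, hc, fun F _ _ _ _ L l A => ?_⟩
  refine hb _ _ (by positivity) (abs_prob_sub_le (inwDist_isDist F L) unif_isDist _) fun T => ?_
  have h4 := h (2 ^ L) (Equiv.refl _) (inwDist F L) T _ (by positivity) (inwDist_isDist F L)
    (hfool F L T) l A
  refine h4.trans ?_
  rw [Real.rpow_one]
  have h5 : C / lam ^ T ≤ max C 1 / lam ^ T :=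
    div_le_div_of_nonneg_right (le_max_left _ _) (by positivity)
  linarith

end Helper12.GR
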