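import Pool.Agent.Helper12.GR.Spec

set_option autoImplicit false

/-!
One step of the generator, for products of contractions.

Proof sketch for `close_step`. `lam₀ = N / card F ≤ lam`, `Z` the operator of the step, `X'`, `Y'` the
mean operators. Fix `u`, `v`; `f w = adjoint (X w) u`, `g w = Y w v`, `T g w = av_e g (w + sh N e)`.
`av f = adjoint X' u`, `av g = Y' v` (`av_map` for the linear maps `A ↦ A v` and
`A ↦ adjoint A u`; over the reals `adjoint` is linear), `av ‖f‖ ^ 2 ≤ ‖u‖ ^ 2`, `av ‖g‖ ^ 2 ≤ ‖v‖ ^ 2`.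
`sq`: `⟪u, Z v⟫ = av_w ⟪f w, T g w⟫` (`av_comm`), `⟪u, X' (Y' v)⟫ = ⟪av f, av g⟫`,
the difference is `av_w ⟪f w - av f, T g w - av g⟫` (as `av (T g) = av g`), by Cauchy-Schwarz
(`sq_av_mul_le` for the norms) its square is at most `av ‖f - av f‖ ^ 2 * av ‖T g - av g‖ ^ 2`;
then `av_norm_sub_sq` and `spectral`.
`loss`: `adjoint Z u = av_w av_e adjoint (Y (w + sh N e)) (f w)`; for fixed `e` substitute
`y = w + sh N e`, i.e. `w = y + sh N e` (characteristic two), so it is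
`av_y adjoint (Y y) (T f y)`, and `‖adjoint Z u‖ ^ 2 ≤ av_y ‖T f y‖ ^ 2` (`norm_av_sq_le`)
`= ‖av f‖ ^ 2 + av ‖T f - av f‖ ^ 2 ≤ ‖av f‖ ^ 2 + lam ^ 2 * (‖u‖ ^ 2 - ‖av f‖ ^ 2)`.
-/

namespace Helper12.GR

open Helper12.BI

open scoped InnerProductSpace

variable {F : Type} [Field F] [Fintype F] [Algebra (ZMod 2) F] [Algebra.IsSeparable (ZMod 2) F]
variable {H : Type} [NormedAddCommGroup H] [InnerProductSpace ℝ H] [CompleteSpace H]

/-- `Z` is close to `X * Y`, in terms of the losses of norm. -/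
structure Close (lam : ℝ) (Z X Y : H →L[ℝ] H) : Prop where
  hZ : ‖Z‖ ≤ 1
  hX : ‖X‖ ≤ 1
  hY : ‖Y‖ ≤ 1
  sq : ∀ u v : H, ⟪u, Z v - X (Y v)⟫_ℝ ^ 2 ≤
    lam ^ 2 * (‖u‖ ^ 2 - ‖ContinuousLinearMap.adjoint X u‖ ^ 2) * (‖v‖ ^ 2 - ‖Y v‖ ^ 2)
  loss : ∀ u : H, (1 - lam ^ 2) * (‖u‖ ^ 2 - ‖ContinuousLinearMap.adjoint X u‖ ^ 2) ≤
    ‖u‖ ^ 2 - ‖ContinuousLinearMap.adjoint Z u‖ ^ 2

section aux

variable {ι : Type} [Fintype ι]

omit [CompleteSpace H] in
private lemma av_apply (f : ι → H →L[ℝ] H) (u : H) : (av f) u = av fun x => f x u := by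
  unfold av
  rw [ContinuousLinearMap.smul_apply, ContinuousLinearMap.sum_apply]

private lemma adj_av (f : ι → H →L[ℝ] H) :
    ContinuousLinearMap.adjoint (av f) = av fun x => ContinuousLinearMap.adjoint (f x) := by
  unfold av
  rw [map_smulₛₗ, map_sum]
  simp

private lemma norm_av_le_one [Nonempty ι] (f : ι → H →L[ℝ] H) (h : ∀ x, ‖f x‖ ≤ 1) :
    ‖av f‖ ≤ 1 := by
  have h1 := norm_av_le f
  have h2 : (av fun x => ‖f x‖) ≤ av fun _ : ι => (1 : ℝ) := av_mono h
  rw [av_const] at h2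
  exact h1.trans h2

private lemma norm_le_of_le_one {A : H →L[ℝ] H} (h : ‖A‖ ≤ 1) (u : H) : ‖A u‖ ≤ ‖u‖ := by
  have h1 := A.le_opNorm u
  have h2 : ‖A‖ * ‖u‖ ≤ 1 * ‖u‖ := mul_le_mul_of_nonneg_right h (norm_nonneg u)
  linarith

private lemma norm_adj_le_of_le_one {A : H →L[ℝ] H} (h : ‖A‖ ≤ 1) (u : H) :
    ‖ContinuousLinearMap.adjoint A u‖ ≤ ‖u‖ := by
  apply norm_le_of_le_one
  rw [LinearIsometryEquiv.norm_map]
  exact h

omit [CompleteSpace H] in
private lemma av_sq_le [Nonempty ι] (f : ι → H) (u : H) (h : ∀ x, ‖f x‖ ≤ ‖u‖) :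
    (av fun x => ‖f x‖ ^ 2) ≤ ‖u‖ ^ 2 := by
  have h2 : (av fun x => ‖f x‖ ^ 2) ≤ av fun _ : ι => ‖u‖ ^ 2 :=
    av_mono fun x => pow_le_pow_left₀ (norm_nonneg _) (h x) 2
  rw [av_const] at h2
  exact h2

end aux

omit [Fintype F] [Algebra.IsSeparable (ZMod 2) F] in
private lemma add_self_F (x : F) : x + x = 0 := by
  have h2 : (2 : F) = 0 := by
    have h := map_ofNat (algebraMap (ZMod 2) F) 2
    rw [← h, show (OfNat.ofNat 2 : ZMod 2) = 0 from rfl, map_zero]
  rw [← two_mul, h2, zero_mul]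

omit [Algebra (ZMod 2) F] [Algebra.IsSeparable (ZMod 2) F] [CompleteSpace H] in
private lemma av_shift (N : ℕ) (f : (Fin N → F) → H) :
    (av fun w => av fun e : F × F => f (w + sh N e)) = av f := by
  haveI : Nonempty (F × F) := ⟨0⟩
  rw [av_comm, av_congr (g := fun _ : F × F => av f), av_const]
  intro e
  exact av_equiv (Equiv.addRight (sh N e)) f

/-- One step of the generator. -/
theorem close_step (N : ℕ) (X Y : (Fin N → F) → H →L[ℝ] H) (hX : ∀ w, ‖X w‖ ≤ 1)
    (hY : ∀ w, ‖Y w‖ ≤ 1) {lam : ℝ} (hlam : (N : ℝ) / Fintype.card F ≤ lam) :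
    Close lam (av fun e : F × F => av fun w => X w * Y (w + sh N e)) (av X) (av Y) := by
  haveI : Nonempty (Fin N → F) := ⟨0⟩
  haveI : Nonempty (F × F) := ⟨0⟩
  have hlam0 : 0 ≤ (N : ℝ) / Fintype.card F := by positivity
  have hlam2 : ((N : ℝ) / Fintype.card F) ^ 2 ≤ lam ^ 2 := pow_le_pow_left₀ hlam0 hlam 2
  have hsp : ∀ (f : (Fin N → F) → H) (u : H), (∀ w, ‖f w‖ ≤ ‖u‖) →
      (av fun y => ‖(av fun e : F × F => f (y + sh N e)) - av f‖ ^ 2) ≤
        lam ^ 2 * (‖u‖ ^ 2 - ‖av f‖ ^ 2) := by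
    intro f u hf
    have h1 := spectral N f
    have h2 := av_sq_le f u hf
    have h3 : 0 ≤ (av fun y => ‖f y‖ ^ 2) - ‖av f‖ ^ 2 := by
      have := norm_av_sq_le f
      linarith
    calc (av fun y => ‖(av fun e : F × F => f (y + sh N e)) - av f‖ ^ 2)
        ≤ ((N : ℝ) / Fintype.card F) ^ 2 * ((av fun y => ‖f y‖ ^ 2) - ‖av f‖ ^ 2) := h1
      _ ≤ lam ^ 2 * ((av fun y => ‖f y‖ ^ 2) - ‖av f‖ ^ 2) :=
          mul_le_mul_of_nonneg_right hlam2 h3
      _ ≤ lam ^ 2 * (‖u‖ ^ 2 - ‖av f‖ ^ 2) :=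
          mul_le_mul_of_nonneg_left (by linarith) (sq_nonneg lam)
  refine ⟨?_, norm_av_le_one X hX, norm_av_le_one Y hY, ?_, ?_⟩
  · apply norm_av_le_one
    intro e
    apply norm_av_le_one
    intro w
    calc ‖X w * Y (w + sh N e)‖ ≤ ‖X w‖ * ‖Y (w + sh N e)‖ := norm_mul_le _ _
      _ ≤ 1 * 1 := mul_le_mul (hX w) (hY _) (norm_nonneg _) zero_le_one
      _ = 1 := one_mul 1
  · intro u v
    set f : (Fin N → F) → H := fun w => ContinuousLinearMap.adjoint (X w) u with hf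
    set g : (Fin N → F) → H := fun w => Y w v with hg
    set T : (Fin N → F) → H := fun w => av fun e : F × F => g (w + sh N e) with hT
    have ha : ContinuousLinearMap.adjoint (av X) u = av f := by
      rw [adj_av, av_apply]
    have hb : (av Y) v = av g := av_apply Y v
    have hTb : av T = av g := av_shift N g
    have hZ : ⟪u, (av fun e : F × F => av fun w => X w * Y (w + sh N e)) v⟫_ℝ =
        av fun w => ⟪f w, T w⟫_ℝ := by
      rw [av_apply, ← av_inner_right]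
      have h1 : ∀ e : F × F, ⟪u, (av fun w => X w * Y (w + sh N e)) v⟫_ℝ =
          av fun w => ⟪f w, g (w + sh N e)⟫_ℝ := by
        intro e
        rw [av_apply, ← av_inner_right]
        apply av_congr
        intro w
        rw [hf, hg]
        simp only [ContinuousLinearMap.mul_apply]
        rw [ContinuousLinearMap.adjoint_inner_left]
      rw [av_congr h1, av_comm]
      apply av_congr
      intro w
      rw [hT]
      exact av_inner_right (f w) fun e => g (w + sh N e)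
    have hXY : ⟪u, (av X) ((av Y) v)⟫_ℝ = ⟪av f, av g⟫_ℝ := by
      rw [← ha, ← hb, ContinuousLinearMap.adjoint_inner_left]
    have hD : ⟪u, (av fun e : F × F => av fun w => X w * Y (w + sh N e)) v - (av X) ((av Y) v)⟫_ℝ =
        av fun w => ⟪f w - av f, T w - av g⟫_ℝ := by
      rw [inner_sub_right, hZ, hXY]
      have h1 : ∀ w, ⟪f w - av f, T w - av g⟫_ℝ =
          ⟪f w, T w⟫_ℝ - ⟪f w, av g⟫_ℝ - (⟪av f, T w⟫_ℝ - ⟪av f, av g⟫_ℝ) := by
        intro w
        rw [inner_sub_left, inner_sub_right, inner_sub_right]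
      rw [av_congr h1, av_sub, av_sub, av_sub, av_const, av_inner_left, av_inner_right, hTb]
      ring
    rw [hD, ha, hb]
    have hCS : (av fun w => ⟪f w - av f, T w - av g⟫_ℝ) ^ 2 ≤
        (av fun w => ‖f w - av f‖ ^ 2) * av fun w => ‖T w - av g‖ ^ 2 := by
      have h1 : |av fun w => ⟪f w - av f, T w - av g⟫_ℝ| ≤
          av fun w => ‖f w - av f‖ * ‖T w - av g‖ := by
        have h2 := norm_av_le fun w => ⟪f w - av f, T w - av g⟫_ℝ
        rw [Real.norm_eq_abs] at h2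
        refine h2.trans (av_mono fun w => ?_)
        exact norm_inner_le_norm _ _
      have h3 : (av fun w => ⟪f w - av f, T w - av g⟫_ℝ) ^ 2 ≤
          (av fun w => ‖f w - av f‖ * ‖T w - av g‖) ^ 2 := by
        rw [← sq_abs]
        exact pow_le_pow_left₀ (abs_nonneg _) h1 2
      exact h3.trans (sq_av_mul_le _ _)
    have h1 : (av fun w => ‖f w - av f‖ ^ 2) ≤ ‖u‖ ^ 2 - ‖av f‖ ^ 2 := by
      rw [av_norm_sub_sq]
      have := av_sq_le f u fun w => norm_adj_le_of_le_one (hX w) u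
      linarith
    have h2 : (av fun w => ‖T w - av g‖ ^ 2) ≤ lam ^ 2 * (‖v‖ ^ 2 - ‖av g‖ ^ 2) :=
      hsp g v fun w => norm_le_of_le_one (hY w) v
    have h3 : 0 ≤ av fun w => ‖T w - av g‖ ^ 2 := av_nonneg fun w => sq_nonneg _
    have h4 : 0 ≤ ‖u‖ ^ 2 - ‖av f‖ ^ 2 :=
      (av_nonneg fun w => sq_nonneg _).trans h1
    calc (av fun w => ⟪f w - av f, T w - av g⟫_ℝ) ^ 2
        ≤ (av fun w => ‖f w - av f‖ ^ 2) * av fun w => ‖T w - av g‖ ^ 2 := hCS
      _ ≤ (‖u‖ ^ 2 - ‖av f‖ ^ 2) * (lam ^ 2 * (‖v‖ ^ 2 - ‖av g‖ ^ 2)) :=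
          mul_le_mul h1 h2 h3 h4
      _ = lam ^ 2 * (‖u‖ ^ 2 - ‖av f‖ ^ 2) * (‖v‖ ^ 2 - ‖av g‖ ^ 2) := by ring
  · intro u
    set f : (Fin N → F) → H := fun w => ContinuousLinearMap.adjoint (X w) u with hf
    set T : (Fin N → F) → H := fun w => av fun e : F × F => f (w + sh N e) with hT
    have ha : ContinuousLinearMap.adjoint (av X) u = av f := by
      rw [adj_av, av_apply]
    have hTa : av T = av f := av_shift N f
    have hZ : ContinuousLinearMap.adjoint
        (av fun e : F × F => av fun w => X w * Y (w + sh N e)) u =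
        av fun y => ContinuousLinearMap.adjoint (Y y) (T y) := by
      rw [adj_av, av_apply]
      have h1 : ∀ e : F × F, ContinuousLinearMap.adjoint (av fun w => X w * Y (w + sh N e)) u =
          av fun y => ContinuousLinearMap.adjoint (Y y) (f (y + sh N e)) := by
        intro e
        rw [adj_av, av_apply,
          ← av_equiv (Equiv.addRight (sh N e))
            fun y => ContinuousLinearMap.adjoint (Y y) (f (y + sh N e))]
        apply av_congr
        intro w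
        have h2 : w + sh N e + sh N e = w := by
          funext j
          simp only [Pi.add_apply]
          rw [add_assoc, add_self_F, add_zero]
        simp only [Equiv.coe_addRight]
        rw [h2, hf]
        have h3 : X w * Y (w + sh N e) = (X w).comp (Y (w + sh N e)) := rfl
        rw [h3, ContinuousLinearMap.adjoint_comp]
        rfl
      rw [av_congr h1, av_comm]
      apply av_congr
      intro y
      rw [hT]
      exact (av_map (ContinuousLinearMap.adjoint (Y y)).toLinearMap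
        fun e : F × F => f (y + sh N e)).symm
    rw [ha, hZ]
    have h1 : ‖av fun y => ContinuousLinearMap.adjoint (Y y) (T y)‖ ^ 2 ≤
        av fun y => ‖T y‖ ^ 2 := by
      refine (norm_av_sq_le _).trans (av_mono fun y => ?_)
      exact pow_le_pow_left₀ (norm_nonneg _) (norm_adj_le_of_le_one (hY y) (T y)) 2
    have h2 : (av fun y => ‖T y - av f‖ ^ 2) ≤ lam ^ 2 * (‖u‖ ^ 2 - ‖av f‖ ^ 2) :=
      hsp f u fun w => norm_adj_le_of_le_one (hX w) u
    have h3 := av_norm_sub_sq T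
    rw [hTa] at h3
    nlinarith [h1, h2, h3]

end Helper12.GR
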