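import Pool.Agent.Helper12.GR.Act

set_option autoImplicit false

/-!
If the blocks of `M` are not all orthodox, products of elements `u ^ r * v` detect whether exactly
one of the exponents is zero.

Proof sketch. Let `x, x', z, z'` violate `Orth`: all in one `J`-class, `x z = x' z` and `x z'` in
this class too, `x' z' ≠ x z'`.
(1) `stabR` for `x * z`: `t` with `x * z * t = x`; `u = z * t`; then `x * u = x` and
`x' * u = x' z t = x z t = x`. `x = x' * u` and `stabR` (or `JEq x x'` and `JLe x' (x' * u)`)
give `x * w = x'` for some `w` (`x' u = x` is in the class, so `x' * u * w = x'`).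
(2) `stabR` for `x * z'`: `x * z' * t1 = x`; `t' = t1 * w`, `v = z' * t'`; so `x * v = x'`.
(3) `x' * v ≠ x'`: otherwise `x' z' t' = x' = x z' t'`; then `JLe x' (x' * z')`,
`x' z'` and `x z'` are in the class and in the left ideal class of `z'` (`stabL`), so
`x' z' = s * (x z')` for some `s`; and `t''` with `x z' t' t'' = x z'` (`stabR`). So
`x' z' = s x z' = s x z' t' t'' = x' z' t' t'' = x z' t' t'' = x z'`, a contradiction.
(4) The detector with `y = x'`: if `r ≠ 0` then `x' * (u ^ r * v) = x * u ^ (r - 1) * v = x * v = x'`.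
So `x' * prod = x'` if no exponent is zero. If exactly one is zero: `x' * prod l1 = x'`, then
`x' * v`, and if `x' * v * prod l2 = x'` with `l2` without zeros then `JEq x' (x' * v)`;
`v` is in the class of `x'` (below `z'`, above `x v = x'`), so `x' v` is in the left ideal class of
`x'`: `x' v = s * x'` (`x' = x * v` gives `v = s1 * x'` by `stabL`, so `x' v = x' s1 x'`),
and `x' v * prod l2 = s * (x' * prod l2) = s * x' = x' v`, so `x' = x' v`, contradicting (3).
-/

namespace Helper12.GR

open Helper12.BI

theorem exists_detector {M : Type} [Monoid M] [Finite M] (h : ¬ Orth M) : ∃ u v y : M,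
    (∀ l : List ℕ, 0 ∉ l → y * (l.map fun r => u ^ r * v).prod = y) ∧
    ∀ l1 l2 : List ℕ, 0 ∉ l1 → 0 ∉ l2 →
      y * ((l1 ++ 0 :: l2).map fun r => u ^ r * v).prod ≠ y := by
  unfold Orth at h
  push Not at h
  obtain ⟨x, x', z, z', hxx', hxz, hxz', heq, h1, h2, hne⟩ := h
  obtain ⟨t, ht⟩ := stabR h1.1
  have hu : x * (z * t) = x := by rw [← mul_assoc]; exact ht
  have hu' : x' * (z * t) = x := by rw [← mul_assoc, ← heq]; exact ht
  obtain ⟨w, hw⟩ := stabR (x := x') (w := z * t) (by rw [hu']; exact hxx'.2)
  rw [hu'] at hw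
  obtain ⟨t1, ht1⟩ := stabR h2.1
  have hv : x * (z' * (t1 * w)) = x' := by
    calc x * (z' * (t1 * w)) = (x * z' * t1) * w := by simp only [mul_assoc]
      _ = x' := by rw [ht1, hw]
  generalize t1 * w = t' at hv
  have h3 : x' * (z' * t') ≠ x' := by
    intro h3
    apply hne
    have hJ : JLe z' (x * z') := hxz'.2.trans h2.1
    obtain ⟨q2, hq2⟩ := stabL hJ
    have hxt : x * z' * t' = x' := by rw [mul_assoc]; exact hv
    obtain ⟨t'', ht''⟩ := stabR (x := x * z') (w := t') (by
      rw [hxt]; exact (JLe.of_mul_right x z').trans hxx'.1)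
    calc x' * z' = x' * (q2 * (x * z')) := by rw [hq2]
      _ = x' * (q2 * (x * z' * t' * t'')) := by rw [ht'']
      _ = x' * (q2 * (x * z')) * t' * t'' := by simp only [mul_assoc]
      _ = x' * z' * t' * t'' := by rw [hq2]
      _ = x' * t'' := by rw [mul_assoc x' z' t', h3]
      _ = x * z' * t' * t'' := by rw [hxt]
      _ = x * z' := ht''
  have hpow : ∀ k : ℕ, x * (z * t) ^ k = x := by
    intro k
    induction k with
    | zero => simp
    | succ k ih => rw [pow_succ, ← mul_assoc, ih, hu]
  have hstep : ∀ r : ℕ, r ≠ 0 → x' * ((z * t) ^ r * (z' * t')) = x' := by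
    intro r hr
    obtain ⟨k, rfl⟩ := Nat.exists_eq_succ_of_ne_zero hr
    calc x' * ((z * t) ^ (k + 1) * (z' * t')) = x' * (z * t) * (z * t) ^ k * (z' * t') := by
          rw [pow_succ']; simp only [mul_assoc]
      _ = x' := by rw [hu', hpow, hv]
  have hlist : ∀ l : List ℕ, 0 ∉ l →
      x' * (l.map fun r => (z * t) ^ r * (z' * t')).prod = x' := by
    intro l
    induction l with
    | nil => intro _; simp
    | cons r l ih =>
      intro h0
      rw [List.map_cons, List.prod_cons, ← mul_assoc, hstep r (fun h => h0 (by simp [h])),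
        ih (fun h => h0 (List.mem_cons_of_mem _ h))]
  refine ⟨z * t, z' * t', x', hlist, fun l1 l2 h1' h2' h5 => ?_⟩
  rw [List.map_append, List.prod_append, List.map_cons, List.prod_cons, pow_zero, one_mul,
    ← mul_assoc, hlist l1 h1', ← mul_assoc] at h5
  obtain ⟨s1, hs1⟩ := stabL (x := z' * t') (w := x) (by
    rw [hv]; exact (JLe.of_mul_right z' t').trans (hxz'.2.trans hxx'.1))
  rw [hv] at hs1
  apply h3
  calc x' * (z' * t') = x' * s1 * x' := by rw [← hs1, mul_assoc]
    _ = x' * s1 * (x' * (l2.map fun r => (z * t) ^ r * (z' * t')).prod) := by rw [hlist l2 h2']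
    _ = x' * (s1 * x') * (l2.map fun r => (z * t) ^ r * (z' * t')).prod := by
        simp only [mul_assoc]
    _ = x' * (z' * t') * (l2.map fun r => (z * t) ^ r * (z' * t')).prod := by rw [hs1]
    _ = x' := h5

end Helper12.GR
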