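import Pool.Agent.Helper12.GR.Deg

set_option autoImplicit false

/-!
Programs over `2`-groups that read bits are polynomials of bounded degree.

Proof sketch for `group_poly` (induction on `m`). `m = 0`: the group is trivial. `m + 1`: the centre
of `G` is nontrivial (`IsPGroup.center_nontrivial`), so there is a central subgroup `Z = {1, z}` of
order two (`exists_prime_orderOf_dvd_card` in the centre, `Subgroup.zpowers z`, normal). `G ⧸ Z` has
`2 ^ m` elements; let `s : G ⧸ Z → G` be a section (`Quotient.out`), and `e g ∈ ZMod 2` with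
`g = s (g Z) * z ^ e g`. Then `e (g h) = e g + e h + β (g Z) (h Z)` for a function `β`, so
`e` of the value of a program is the sum over its positions `i` of `e (c_i (x i))` and
`β (value mod Z of the instructions before i) (c_i (x i) Z)`. By induction the coordinates of
the value mod `Z` of a program are polynomials of degree at most `D`, and `x i` has degree one, so
each term is a function of the `m` coordinates and of `x i`, hence of degree at most `m D + m + 1`
or so (`any_fun`). The coordinates for `G` are those of `G ⧸ Z` and `e`. It is convenient to do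
an induction on the list of positions, from the right (`P ++ [i]`).
-/

namespace Helper12.GR

open Helper12.BI

private lemma gval_nil {ι S G : Type} [Monoid G] (g : ι → S → G) (x : ι → S) :
    gval [] g x = 1 := rfl

private lemma gval_snoc {ι S G : Type} [Monoid G] (P : List ι) (i : ι) (g : ι → S → G)
    (x : ι → S) : gval (P ++ [i]) g x = gval P g x * g i (x i) := by
  simp [gval]

private lemma gval_map {ι S G H : Type} [Monoid G] [Monoid H] (φ : G →* H) (P : List ι)
    (g : ι → S → G) (x : ι → S) : φ (gval P g x) = gval P (fun i c => φ (g i c)) x := by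
  induction P using List.reverseRecOn with
  | nil => simp [gval_nil]
  | append_singleton P i ih => rw [gval_snoc, gval_snoc, map_mul, ih]

/-- There is a central subgroup of order two. -/
private lemma exists_central (G : Type) [Group G] [Finite G] (m : ℕ)
    (hG : Nat.card G = 2 ^ (m + 1)) :
    ∃ Z : Subgroup G, Z ≤ Subgroup.center G ∧ Nat.card Z = 2 := by
  have : Fact (Nat.Prime 2) := ⟨Nat.prime_two⟩
  have hp : IsPGroup 2 G := IsPGroup.of_card hG
  have : Nontrivial G := by
    rw [← Finite.one_lt_card_iff_nontrivial, hG]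
    exact Nat.one_lt_two_pow (Nat.succ_ne_zero m)
  have : Nontrivial (Subgroup.center G) := hp.center_nontrivial
  have hd : 2 ∣ Nat.card (Subgroup.center G) := by
    obtain ⟨n, hn⟩ := IsPGroup.iff_card.mp (hp.to_subgroup (Subgroup.center G))
    have h1 : 1 < Nat.card (Subgroup.center G) := Finite.one_lt_card
    rcases n with _ | n
    · rw [hn] at h1; simp at h1
    · rw [hn]; exact dvd_pow_self 2 (Nat.succ_ne_zero n)
  obtain ⟨z, hz⟩ := exists_prime_orderOf_dvd_card' 2 hd
  refine ⟨Subgroup.zpowers (z : G), ?_, ?_⟩
  · rw [Subgroup.zpowers_le]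
    exact z.2
  · rw [Nat.card_zpowers, Subgroup.orderOf_coe, hz]

/-- The coordinate in the central subgroup. -/
private lemma exists_coord (G : Type) [Group G] [Finite G] (Z : Subgroup G) [Z.Normal]
    (hZ : Z ≤ Subgroup.center G) (h2 : Nat.card Z = 2) :
    ∃ (e : G → ZMod 2) (β : G ⧸ Z → G ⧸ Z → ZMod 2),
      (∀ a b : G, (a : G ⧸ Z) = (b : G ⧸ Z) → e a = e b → a = b) ∧
      ∀ a b : G, e (a * b) = e a + e b + β (a : G ⧸ Z) (b : G ⧸ Z) := by
  have : Fact (Nat.Prime 2) := ⟨Nat.prime_two⟩
  let θ : Z ≃* Multiplicative (ZMod 2) :=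
    mulEquivOfPrimeCardEq (p := 2) h2 (by simp [Nat.card_eq_fintype_card])
  let s : G ⧸ Z → G := Quotient.out
  have hs : ∀ u : G ⧸ Z, ((s u : G) : G ⧸ Z) = u := fun u => QuotientGroup.out_eq' u
  have hmem : ∀ a : G, (s (a : G ⧸ Z))⁻¹ * a ∈ Z := by
    intro a
    rw [← QuotientGroup.eq]
    exact hs _
  let c : G → Z := fun a => ⟨(s (a : G ⧸ Z))⁻¹ * a, hmem a⟩
  have hc : ∀ a : G, a = s (a : G ⧸ Z) * (c a : G) := by
    intro a
    simp [c]
  have hcent : ∀ (z : Z) (a : G), a * (z : G) = (z : G) * a := by
    intro z a
    exact (Subgroup.mem_center_iff.mp (hZ z.2) a)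
  have aux : ∀ (t : G) (p q d : Z), t * ((p * q * d : Z) : G)
      = t * (d : G) * ((p : G) * (q : G)) := by
    intro t p q d
    rw [Subgroup.coe_mul, Subgroup.coe_mul, mul_assoc t, ← hcent d ((p : G) * (q : G))]
  refine ⟨fun a => Multiplicative.toAdd (θ (c a)),
    fun u v => Multiplicative.toAdd (θ (c (s u * s v))), ?_, ?_⟩
  · intro a b hab he
    have h1 : c a = c b := θ.injective (Multiplicative.toAdd.injective he)
    rw [hc a, hc b, hab, h1]
  · intro a b
    have key : c (a * b) = c a * c b * c (s (a : G ⧸ Z) * s (b : G ⧸ Z)) := by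
      apply Subtype.ext
      have hq : (((s (a : G ⧸ Z) * s (b : G ⧸ Z) : G)) : G ⧸ Z) = ((a * b : G) : G ⧸ Z) := by
        rw [QuotientGroup.mk_mul, hs, hs, QuotientGroup.mk_mul]
      have h1 : s ((a * b : G) : G ⧸ Z) * (c (a * b) : G) = a * b := (hc (a * b)).symm
      have h2 : s ((a * b : G) : G ⧸ Z) * (c (s (a : G ⧸ Z) * s (b : G ⧸ Z)) : G)
          = s (a : G ⧸ Z) * s (b : G ⧸ Z) := by
        have := hc (s (a : G ⧸ Z) * s (b : G ⧸ Z))
        rw [hq] at this
        exact this.symm
      apply mul_left_cancel (a := s ((a * b : G) : G ⧸ Z))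
      rw [h1]
      have h3 : s ((a * b : G) : G ⧸ Z) *
          ((c a * c b * c (s (a : G ⧸ Z) * s (b : G ⧸ Z)) : Z) : G)
          = s (a : G ⧸ Z) * s (b : G ⧸ Z) * ((c a : G) * (c b : G)) := by
        rw [aux, h2]
      rw [h3]
      conv_lhs => rw [hc a, hc b]
      rw [mul_assoc, ← mul_assoc (c a : G) (s (b : G ⧸ Z)) (c b : G), ← hcent (c a) (s (b : G ⧸ Z))]
      simp only [mul_assoc]
    show Multiplicative.toAdd (θ (c (a * b))) = _
    rw [key, map_mul θ, map_mul θ, toAdd_mul, toAdd_mul]

theorem group_poly (m : ℕ) : ∃ D : ℕ, ∀ (G : Type) [Group G] [Finite G], Nat.card G = 2 ^ m →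
    ∃ co : G → Fin m → ZMod 2, Function.Injective co ∧
      ∀ (ι : Type) (P : List ι) (g : ι → ZMod 2 → G) (j : Fin m),
        DegLe D fun x : ι → ZMod 2 => co (gval P g x) j := by
  induction m with
  | zero =>
    refine ⟨0, fun G _ _ hG => ⟨fun _ => Fin.elim0, ?_, fun ι P g j => Fin.elim0 j⟩⟩
    intro a b _
    have : Subsingleton G := by
      rw [pow_zero, Nat.card_eq_one_iff_unique] at hG
      exact hG.1
    exact Subsingleton.elim a b
  | succ m ih =>
    obtain ⟨D, hD⟩ := ih
    refine ⟨(m + 1) * (D + 1), fun G _ _ hG => ?_⟩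
    obtain ⟨Z, hZ, h2⟩ := exists_central G m hG
    have : Z.Normal := ⟨fun n hn g => by
      rw [Subgroup.mem_center_iff.mp (hZ hn) g, mul_inv_cancel_right]
      exact hn⟩
    have hcard : Nat.card (G ⧸ Z) = 2 ^ m := by
      have h := Subgroup.card_eq_card_quotient_mul_card_subgroup Z
      rw [hG, h2, pow_succ] at h
      exact (Nat.eq_of_mul_eq_mul_right (by norm_num) h).symm
    obtain ⟨co, hco, hdeg⟩ := hD (G ⧸ Z) hcard
    obtain ⟨e, β, he1, he2⟩ := exists_coord G Z hZ h2
    have hle : D ≤ (m + 1) * (D + 1) := by nlinarith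
    refine ⟨fun a => Fin.cons (e a) (co (a : G ⧸ Z)), ?_, ?_⟩
    · intro a b hab
      have hab' : (Fin.cons (e a) (co (a : G ⧸ Z)) : Fin (m + 1) → ZMod 2)
        = Fin.cons (e b) (co (b : G ⧸ Z)) := hab
      rw [Fin.cons_inj] at hab'
      exact he1 a b (hco hab'.2) hab'.1
    · intro ι P g j
      have hq : ∀ (Q : List ι) (x : ι → ZMod 2), ((gval Q g x : G) : G ⧸ Z)
          = gval Q (fun i c => ((g i c : G) : G ⧸ Z)) x := by
        intro Q x
        exact gval_map (QuotientGroup.mk' Z) Q g x
      refine Fin.cases ?_ (fun j => ?_) j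
      · simp only [Fin.cons_zero]
        induction P using List.reverseRecOn with
        | nil => exact DegLe.const _ (e 1)
        | append_singleton Q i ihQ =>
          -- the term added by the last instruction
          have hterm : DegLe ((m + 1) * (D + 1)) fun x : ι → ZMod 2 =>
              e (g i (x i)) + β ((gval Q g x : G) : G ⧸ Z) ((g i (x i) : G) : G ⧸ Z) := by
            have hinv := Function.leftInverse_invFun hco
            have : Nonempty (G ⧸ Z) := ⟨1⟩
            have h := any_fun (r := m + 1) (d := D + 1)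
              (fun (k : Fin (m + 1)) (x : ι → ZMod 2) =>
                (Fin.cons (x i) (co (gval Q (fun i c => ((g i c : G) : G ⧸ Z)) x)) :
                  Fin (m + 1) → ZMod 2) k)
              (by
                intro k
                refine Fin.cases ?_ (fun k => ?_) k
                · simp only [Fin.cons_zero]
                  exact DegLe.coord D i
                · simp only [Fin.cons_succ]
                  exact (hdeg ι Q _ k).mono (Nat.le_succ D))
              (fun w => e (g i (w 0)) +
                β (Function.invFun co (fun k => w k.succ)) ((g i (w 0) : G) : G ⧸ Z))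
            simp only [Fin.cons_zero, Fin.cons_succ] at h
            convert h using 3 with x
            rw [hq Q x]
            exact congrArg₂ β (hinv _).symm rfl
          have h := ihQ.add hterm
          convert h using 2 with x
          rw [gval_snoc, he2, add_assoc]
      · simp only [Fin.cons_succ]
        have h := (hdeg ι P (fun i c => ((g i c : G) : G ⧸ Z)) j).mono hle
        convert h using 3 with x
        rw [hq P x]

end Helper12.GR
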