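import Pool.Agent.Helper12.GR.Gen
import Pool.Agent.Helper20.Comm.Bias

set_option autoImplicit false

/-!
The spectral bound for the shifts `sh N (a, b)`.

Proof sketch. `V = Fin N → F`, characters `χ c x = sgn (Tr (∑ j, c j * x j))` for `c : V`
(`sgn t = 1` if `t = 0`, else `-1`, real valued). `χ c (x + y) = χ c x * χ c y`, `χ c x ^ 2 = 1`,
`∑ c, χ c x = if x = 0 then card V else 0` (if `x ≠ 0` there is a `c` with `χ c x = -1` by
surjectivity of the trace; translate the sum). Fourier coefficients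
`co f c = av fun x => χ c x • f x`.
(1) Parseval: `∑ c, ‖co f c‖ ^ 2 = av fun x => ‖f x‖ ^ 2` (expand the square as
`av (x, y) (∑ c, χ c (x + y)) ⟪f x, f y⟫`; `x + y = 0` iff `x = y` in characteristic two).
(2) `co f 0 = av f`; so for `g` with `av g = m`: `av ‖g - m‖ ^ 2 = ∑_(c ≠ 0) ‖co g c‖ ^ 2` (`av_norm_sub_sq`).
(3) `T f y = av fun e => f (y + sh N e)` has `co (T f) c = β c • co f c`,
`β c = av fun e => χ c (sh N e)`, and `β 0 = 1`, so `av (T f) = av f`.
(4) For `c ≠ 0`: `|β c| ≤ N / card F`: `∑ j, c j * (b * a ^ j) = b * P a` for the nonzero polynomial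
`P` with coefficients `c j`, of degree less than `N`; for `P a ≠ 0` the sum over `b` of
`sgn (Tr (b * P a))` is `0` (as `Helper20.Comm.sum_sgn_trace`), and `P` has at most `N` roots
(as `Helper20.Comm.card_roots_le`). The case `N = 0` is trivial (no `c ≠ 0`).
-/

namespace Helper12.GR

open Helper12.BI

variable {F : Type} [Field F] [Fintype F] [Algebra (ZMod 2) F] [Algebra.IsSeparable (ZMod 2) F]
variable {H : Type} [NormedAddCommGroup H] [InnerProductSpace ℝ H]

namespace Spec

open scoped InnerProductSpace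

/-- The sign of an element of `ZMod 2`. -/
noncomputable def rs (t : ZMod 2) : ℝ := if t = 0 then 1 else -1

lemma rs_zero : rs 0 = 1 := by simp [rs]

lemma rs_one : rs 1 = -1 := by simp [rs]

lemma rs_add (a b : ZMod 2) : rs (a + b) = rs a * rs b := by
  have h : ∀ t : ZMod 2, t = 0 ∨ t = 1 := by decide
  have e : (1 : ZMod 2) + 1 = 0 := by decide
  rcases h a with rfl | rfl <;> rcases h b with rfl | rfl <;> simp [rs, e]

/-- The characters. -/
noncomputable def ch {N : ℕ} (c x : Fin N → F) : ℝ :=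
  rs (Algebra.trace (ZMod 2) F (∑ j, c j * x j))

omit [Fintype F] [Algebra.IsSeparable (ZMod 2) F] in
lemma ch_add_right {N : ℕ} (c x y : Fin N → F) : ch c (x + y) = ch c x * ch c y := by
  unfold ch
  rw [← rs_add, ← map_add, ← Finset.sum_add_distrib]
  congr 2
  exact Finset.sum_congr rfl fun j _ => by rw [Pi.add_apply, mul_add]

omit [Fintype F] [Algebra.IsSeparable (ZMod 2) F] in
lemma ch_add_left {N : ℕ} (c d x : Fin N → F) : ch (c + d) x = ch c x * ch d x := by
  unfold ch
  rw [← rs_add, ← map_add, ← Finset.sum_add_distrib]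
  congr 2
  exact Finset.sum_congr rfl fun j _ => by rw [Pi.add_apply, add_mul]

omit [Fintype F] [Algebra.IsSeparable (ZMod 2) F] in
lemma ch_zero_left {N : ℕ} (x : Fin N → F) : ch 0 x = 1 := by
  unfold ch
  simp [rs_zero]

omit [Fintype F] [Algebra.IsSeparable (ZMod 2) F] in
lemma ch_zero_right {N : ℕ} (c : Fin N → F) : ch c 0 = 1 := by
  unfold ch
  simp [rs_zero]

omit [Fintype F] [Algebra (ZMod 2) F] [Algebra.IsSeparable (ZMod 2) F] in
lemma add_self' [Algebra (ZMod 2) F] {N : ℕ} (x : Fin N → F) : x + x = 0 := by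
  have : CharP F 2 := charP_of_injective_algebraMap (algebraMap (ZMod 2) F).injective 2
  ext j
  simp only [Pi.add_apply, Pi.zero_apply]
  exact CharTwo.add_self_eq_zero _

omit [Fintype F] [Algebra.IsSeparable (ZMod 2) F] in
lemma eq_of_add_eq_zero {N : ℕ} {x y : Fin N → F} (h : x + y = 0) : x = y := by
  have h2 := add_self' (F := F) y
  exact add_right_cancel (h.trans h2.symm)

omit [Fintype F] [Algebra.IsSeparable (ZMod 2) F] in
lemma ch_mul_self {N : ℕ} (c x : Fin N → F) : ch c x * ch c x = 1 := by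
  rw [← ch_add_right, add_self', ch_zero_right]

lemma sum_rs_trace (c : F) (hc : c ≠ 0) :
    ∑ b : F, rs (Algebra.trace (ZMod 2) F (b * c)) = 0 := by
  obtain ⟨b₀, hb₀⟩ := Helper20.Comm.exists_trace_one c hc
  have h : ∑ b : F, rs (Algebra.trace (ZMod 2) F (b * c))
      = ∑ b : F, rs (Algebra.trace (ZMod 2) F ((b + b₀) * c)) :=
    (Equiv.sum_comp (Equiv.addRight b₀) (fun b => rs (Algebra.trace (ZMod 2) F (b * c)))).symm
  have h2 : ∑ b : F, rs (Algebra.trace (ZMod 2) F ((b + b₀) * c))
      = - ∑ b : F, rs (Algebra.trace (ZMod 2) F (b * c)) := by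
    rw [← Finset.sum_neg_distrib]
    apply Finset.sum_congr rfl
    intro b _
    rw [add_mul, map_add, rs_add, hb₀, rs_one]
    ring
  rw [h2] at h
  linarith

lemma exists_ch {N : ℕ} (x : Fin N → F) (hx : x ≠ 0) : ∃ c₀ : Fin N → F, ch c₀ x = -1 := by
  classical
  obtain ⟨j, hj⟩ : ∃ j, x j ≠ 0 := by
    by_contra hno
    push Not at hno
    exact hx (funext hno)
  obtain ⟨b, hb⟩ := Helper20.Comm.exists_trace_one (x j) hj
  refine ⟨fun i => if i = j then b else 0, ?_⟩
  unfold ch
  have h : ∑ i, (if i = j then b else 0) * x i = b * x j := by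
    rw [Finset.sum_eq_single j]
    · rw [if_pos rfl]
    · intro i _ hi
      rw [if_neg hi, zero_mul]
    · intro h
      exact absurd (Finset.mem_univ _) h
  rw [h, hb, rs_one]

lemma sum_ch {N : ℕ} (x : Fin N → F) (hx : x ≠ 0) : ∑ c : Fin N → F, ch c x = 0 := by
  obtain ⟨c₀, h0⟩ := exists_ch x hx
  have h : ∑ c : Fin N → F, ch (c + c₀) x = ∑ c : Fin N → F, ch c x :=
    Equiv.sum_comp (Equiv.addRight c₀) fun c : Fin N → F => ch c x
  have h2 : ∑ c : Fin N → F, ch (c + c₀) x = - ∑ c : Fin N → F, ch c x := by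
    rw [← Finset.sum_neg_distrib]
    apply Finset.sum_congr rfl
    intro c _
    rw [ch_add_left, h0]
    ring
  rw [h2] at h
  linarith

/-- The Fourier coefficients. -/
noncomputable def co {N : ℕ} (f : (Fin N → F) → H) (c : Fin N → F) : H :=
  av fun x => ch c x • f x

omit [Algebra.IsSeparable (ZMod 2) F] in
lemma co_zero {N : ℕ} (f : (Fin N → F) → H) : co f 0 = av f := by
  unfold co
  exact av_congr fun x => by rw [ch_zero_left, one_smul]

lemma parseval {N : ℕ} (f : (Fin N → F) → H) :
    ∑ c : Fin N → F, ‖co f c‖ ^ 2 = av fun x => ‖f x‖ ^ 2 := by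
  classical
  have hK : (Fintype.card (Fin N → F) : ℝ) ≠ 0 := by exact_mod_cast Fintype.card_ne_zero
  set K : ℝ := (Fintype.card (Fin N → F) : ℝ) with hKdef
  have h1 : ∀ c : Fin N → F, ‖co f c‖ ^ 2 =
      K⁻¹ * K⁻¹ * ∑ x, ∑ y, ch c (x + y) * ⟪f x, f y⟫_ℝ := by
    intro c
    rw [← real_inner_self_eq_norm_sq]
    unfold co av
    rw [real_inner_smul_left, real_inner_smul_right, sum_inner, ← mul_assoc]
    congr 1
    apply Finset.sum_congr rfl
    intro x _
    rw [inner_sum]
    apply Finset.sum_congr rfl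
    intro y _
    rw [real_inner_smul_left, real_inner_smul_right, ch_add_right]
    ring
  have h2 : ∑ c : Fin N → F, ‖co f c‖ ^ 2 =
      K⁻¹ * K⁻¹ * ∑ x, ∑ y, (∑ c, ch c (x + y)) * ⟪f x, f y⟫_ℝ := by
    simp only [h1]
    rw [← Finset.mul_sum, Finset.sum_comm]
    congr 1
    apply Finset.sum_congr rfl
    intro x _
    rw [Finset.sum_comm]
    apply Finset.sum_congr rfl
    intro y _
    rw [Finset.sum_mul]
  rw [h2]
  have h3 : ∀ x : Fin N → F, ∑ y, (∑ c, ch c (x + y)) * ⟪f x, f y⟫_ℝ = K * ‖f x‖ ^ 2 := by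
    intro x
    rw [Finset.sum_eq_single x]
    · rw [real_inner_self_eq_norm_sq]
      congr 1
      simp only [add_self' (F := F) x, ch_zero_right]
      rw [Finset.sum_const, Finset.card_univ, nsmul_eq_mul, mul_one]
    · intro y _ hy
      rw [sum_ch, zero_mul]
      intro h0
      exact hy (eq_of_add_eq_zero h0).symm
    · intro h
      exact absurd (Finset.mem_univ _) h
  simp only [h3]
  rw [← Finset.mul_sum]
  unfold av
  rw [smul_eq_mul, ← hKdef]
  field_simp

/-- The eigenvalues of the shifts. -/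
noncomputable def be {N : ℕ} (c : Fin N → F) : ℝ := av fun e : F × F => ch c (sh N e)

omit [Algebra.IsSeparable (ZMod 2) F] in
lemma co_shift {N : ℕ} (f : (Fin N → F) → H) (c : Fin N → F) :
    co (fun y => av fun e : F × F => f (y + sh N e)) c = be c • co f c := by
  unfold co be
  have h1 : ∀ x : Fin N → F, (ch c x • av fun e : F × F => f (x + sh N e)) =
      av fun e : F × F => ch c x • f (x + sh N e) := fun x => (av_smul _ _).symm
  rw [av_congr h1, av_comm]
  have h2 : ∀ e : F × F, (av fun x : Fin N → F => ch c x • f (x + sh N e)) =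
      ch c (sh N e) • av fun x => ch c x • f x := by
    intro e
    rw [← av_smul, ← av_equiv (Equiv.addRight (sh N e)) fun x => ch c (sh N e) • ch c x • f x]
    refine av_congr fun x => ?_
    simp only [Equiv.coe_addRight]
    rw [smul_smul, ch_add_right]
    congr 1
    rw [mul_comm, mul_assoc, ch_mul_self, mul_one]
  rw [av_congr h2]
  unfold av
  rw [← Finset.sum_smul, smul_assoc]

open Polynomial in
lemma be_le {N : ℕ} (c : Fin N → F) (hc : c ≠ 0) : |be c| ≤ (N : ℝ) / Fintype.card F := by
  classical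
  have hq : (0 : ℝ) < Fintype.card F := by exact_mod_cast Fintype.card_pos
  obtain ⟨j0, hj0⟩ : ∃ j, c j ≠ 0 := by
    by_contra hno
    push Not at hno
    exact hc (funext hno)
  set P : F[X] := ∑ i : Fin N, C (c i) * X ^ (i : ℕ) with hP
  have hcoef : P.coeff (j0 : ℕ) = c j0 := by
    rw [hP, finsetSum_coeff, Finset.sum_eq_single j0]
    · simp
    · intro i _ hi
      rw [coeff_C_mul, coeff_X_pow, if_neg, mul_zero]
      intro h
      exact hi (Fin.ext h).symm
    · intro h
      exact absurd (Finset.mem_univ _) h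
  have hP0 : P ≠ 0 := by
    intro h
    rw [h, coeff_zero] at hcoef
    exact hj0 hcoef.symm
  have hdeg : P.natDegree ≤ N := by
    rw [hP]
    apply natDegree_sum_le_of_forall_le
    intro i _
    exact (natDegree_C_mul_X_pow_le _ _).trans i.2.le
  have hev : ∀ a : F, P.eval a = ∑ i : Fin N, c i * a ^ (i : ℕ) := by
    intro a
    rw [hP, eval_finsetSum]
    simp
  have hroots : (Finset.univ.filter fun a : F => P.eval a = 0).card ≤ N := by
    have hsub : (Finset.univ.filter fun a : F => P.eval a = 0) ⊆ P.roots.toFinset := by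
      intro a ha
      rw [Finset.mem_filter] at ha
      rw [Multiset.mem_toFinset, mem_roots hP0, IsRoot]
      exact ha.2
    calc _ ≤ P.roots.toFinset.card := Finset.card_le_card hsub
      _ ≤ Multiset.card P.roots := Multiset.toFinset_card_le _
      _ ≤ P.natDegree := card_roots' _
      _ ≤ N := hdeg
  have hch : ∀ a b : F, ch c (sh N (a, b)) = rs (Algebra.trace (ZMod 2) F (b * P.eval a)) := by
    intro a b
    unfold ch sh
    rw [hev, Finset.mul_sum]
    congr 2
    exact Finset.sum_congr rfl fun i _ => by ring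
  have hin : ∀ a : F, ∑ b : F, ch c (sh N (a, b)) =
      if P.eval a = 0 then (Fintype.card F : ℝ) else 0 := by
    intro a
    split_ifs with h
    · simp only [hch, h, mul_zero, map_zero, rs_zero]
      simp
    · simp only [hch]
      exact sum_rs_trace _ h
  unfold be av
  rw [Fintype.sum_prod_type, smul_eq_mul]
  simp only [hin]
  rw [← Finset.sum_filter, Finset.sum_const, nsmul_eq_mul, Fintype.card_prod, Nat.cast_mul]
  rw [abs_of_nonneg (by positivity)]
  rw [div_eq_mul_inv, mul_inv]
  have h3 : ((Finset.univ.filter fun a : F => P.eval a = 0).card : ℝ) ≤ N := by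
    exact_mod_cast hroots
  calc (Fintype.card F : ℝ)⁻¹ * (Fintype.card F : ℝ)⁻¹ *
        (((Finset.univ.filter fun a : F => P.eval a = 0).card : ℝ) * (Fintype.card F : ℝ))
      = ((Finset.univ.filter fun a : F => P.eval a = 0).card : ℝ) * (Fintype.card F : ℝ)⁻¹ := by
        field_simp
    _ ≤ (N : ℝ) * (Fintype.card F : ℝ)⁻¹ := by
        apply mul_le_mul_of_nonneg_right h3
        positivity

end Spec

open Spec in
theorem spectral (N : ℕ) (f : (Fin N → F) → H) :
    (av fun y => ‖(av fun e : F × F => f (y + sh N e)) - av f‖ ^ 2) ≤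
      ((N : ℝ) / Fintype.card F) ^ 2 * ((av fun y => ‖f y‖ ^ 2) - ‖av f‖ ^ 2) := by
  classical
  set g : (Fin N → F) → H := fun y => av fun e : F × F => f (y + sh N e) with hg
  have hav : av g = av f := by
    have h := co_shift f (0 : Fin N → F)
    rw [co_zero, co_zero] at h
    have hb : be (0 : Fin N → F) = 1 := by
      unfold be
      rw [av_congr fun e => ch_zero_left (sh N e), av_const]
    rw [hb, one_smul] at h
    exact h
  have h1 : (av fun y => ‖g y - av f‖ ^ 2) = (av fun y => ‖g y‖ ^ 2) - ‖av f‖ ^ 2 := by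
    rw [← hav]
    exact av_norm_sub_sq g
  have h2 : ∀ u : (Fin N → F) → H, (av fun y => ‖u y‖ ^ 2) - ‖av u‖ ^ 2 =
      ∑ c ∈ Finset.univ.erase (0 : Fin N → F), ‖co u c‖ ^ 2 := by
    intro u
    rw [← parseval u, ← Finset.add_sum_erase Finset.univ _ (Finset.mem_univ (0 : Fin N → F)),
      co_zero]
    ring
  have h3 := h2 g
  rw [hav] at h3
  change (av fun y => ‖g y - av f‖ ^ 2) ≤ _
  rw [h1, h3, h2 f, Finset.mul_sum]
  apply Finset.sum_le_sum
  intro c hc
  rw [hg, co_shift, norm_smul, mul_pow]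
  apply mul_le_mul_of_nonneg_right _ (by positivity)
  rw [Real.norm_eq_abs]
  exact pow_le_pow_left₀ (abs_nonneg _) (be_le c (Finset.ne_of_mem_erase hc)) 2

end Helper12.GR
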