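import Pool.Agent.Helper12.GR.Act
import Pool.Agent.Helper12.GR.Prob

set_option autoImplicit false

/-!
A run from `y` either stays in the `J`-class of `y` for all inputs, or there is a first position
where it can leave it, and then it does so with probability bounded below.

Proof sketch. `e` a lowest idempotent with `y * e = y` (`exists_low`), `act`, `q₀` from `exists_act`,
`low_iff`: the run stays (`JEq y (y * w)`) iff `act w q₀ ≠ none`. Take the longest prefix `L1` which
is alive (for all inputs); if `L1 ≠ L` then `L = L1 ++ (i, c) :: L2` and for some `x₀` the state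
`act (val L1 x₀) q₀ = some q` is killed by `c (x₀ i)`. The event
`{x | act (val L1 x) q₀ = some q} ∩ {x | x i = x₀ i}` has probability at least
`(1 / card S) ^ card Q * (1 / card S)` (`prob_reach`, `U_letter`, `U_inter`; `val_congr` for the
dependence).
-/

namespace Helper12.GR

open Helper12.BI

variable {ι S M : Type} [Monoid M]

private lemma split0 (y : M) (L : List (ι × (S → M))) :
    (∀ x, JEq y (y * val L x)) ∨ ∃ L1 i c L2, L = L1 ++ (i, c) :: L2 ∧
      (∀ x, JEq y (y * val L1 x)) ∧ ∃ x₀ : ι → S, ¬ JEq y (y * val L1 x₀ * c (x₀ i)) := by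
  induction L using List.reverseRecOn with
  | nil =>
    left
    intro x
    rw [val_nil, mul_one]
    exact JEq.refl y
  | append_singleton L p ih =>
    rcases ih with h | ⟨L1, i, c, L2, h1, h2, h3⟩
    · by_cases h4 : ∀ x, JEq y (y * val (L ++ [p]) x)
      · left
        exact h4
      · right
        push Not at h4
        obtain ⟨x₀, hx⟩ := h4
        refine ⟨L, p.1, p.2, [], rfl, h, x₀, ?_⟩
        have h5 : val (L ++ [p]) x₀ = val L x₀ * p.2 (x₀ p.1) := by
          rw [val_append]
          simp [val]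
        rw [h5, ← mul_assoc] at hx
        exact hx
    · right
      refine ⟨L1, i, c, L2 ++ [p], ?_, h2, h3⟩
      rw [h1]
      simp

theorem splitR [Finite ι] [Finite S] [Nonempty S] [Finite M] (hO : Orth M) (y : M)
    {L : List (ι × (S → M))} (hL : (pos L).Nodup) :
    (∀ x, JEq y (y * val L x)) ∨ ∃ L1 i c L2, L = L1 ++ (i, c) :: L2 ∧
      (∀ x, JEq y (y * val L1 x)) ∧
      (1 / (Nat.card S : ℝ)) ^ (Nat.card M + 1) ≤ U {x | ¬ JEq y (y * val L1 x * c (x i))} := by
  rcases split0 y L with h | ⟨L1, i, c, L2, h1, h2, x₀, h3⟩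
  · left
    exact h
  · right
    refine ⟨L1, i, c, L2, h1, h2, ?_⟩
    obtain ⟨e, he1, he2, he3⟩ := exists_low y
    have hlow := low_iff he2 he3
    obtain ⟨Q, hQ, act, q₀, hact, hcard, hq, _⟩ := exists_act hO he1
    have hst : ∀ w, JEq y (y * w) ↔ act w q₀ ≠ none := fun w => (hlow w).trans (hq w).symm
    have hnd : (pos L1).Nodup ∧ i ∉ pos L1 := by
      rw [h1, pos_append, pos_cons] at hL
      rw [List.nodup_append] at hL
      refine ⟨hL.1, fun hi => ?_⟩
      exact hL.2.2 i hi i (List.mem_cons_self) rfl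
    have hreach := prob_reach hact hnd.1 q₀ (fun x => (hst _).1 (h2 x)) x₀
    have hA : DependsOn (pos L1) {x | act (val L1 x) q₀ = act (val L1 x₀) q₀} := by
      intro x x' hx
      simp only [Set.mem_ofPred_eq]
      rw [val_congr hx]
    have hB : DependsOn [i] {x : ι → S | x i = x₀ i} := by
      intro x x' hx
      simp only [Set.mem_ofPred_eq]
      rw [hx i (List.mem_singleton.2 rfl)]
    have hdis : List.Disjoint (pos L1) [i] := by
      intro j hj hj'
      rw [List.mem_singleton] at hj'
      rw [hj'] at hj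
      exact hnd.2 hj
    have hU := U_inter hA hB hdis
    rw [U_letter] at hU
    have hsub : {x | act (val L1 x) q₀ = act (val L1 x₀) q₀} ∩ {x : ι → S | x i = x₀ i} ⊆
        {x | ¬ JEq y (y * val L1 x * c (x i))} := by
      rintro x ⟨hx1, hx2⟩
      simp only [Set.mem_ofPred_eq] at hx1 hx2 ⊢
      intro h4
      apply h3
      rw [mul_assoc, hst, hact.mul] at h4 ⊢
      rw [hx1, hx2] at h4
      exact h4
    have hS : (1 : ℝ) ≤ (Nat.card S : ℝ) := by
      have : 0 < Nat.card S := Nat.card_pos
      exact_mod_cast this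
    have hS0 : (0 : ℝ) ≤ 1 / (Nat.card S : ℝ) := by positivity
    have hS1 : 1 / (Nat.card S : ℝ) ≤ 1 := by
      rw [div_le_one (by linarith)]
      exact hS
    calc (1 / (Nat.card S : ℝ)) ^ (Nat.card M + 1)
        ≤ (1 / (Nat.card S : ℝ)) ^ (Nat.card Q + 1) :=
          pow_le_pow_of_le_one hS0 hS1 (by omega)
      _ = (1 / (Nat.card S : ℝ)) ^ Nat.card Q * (1 / (Nat.card S : ℝ)) := pow_succ _ _
      _ ≤ U {x | act (val L1 x) q₀ = act (val L1 x₀) q₀} * (1 / (Nat.card S : ℝ)) :=
          mul_le_mul_of_nonneg_right hreach hS0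
      _ = U ({x | act (val L1 x) q₀ = act (val L1 x₀) q₀} ∩ {x : ι → S | x i = x₀ i}) := hU.symm
      _ ≤ _ := U_mono hsub

end Helper12.GR
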