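import Pool.Agent.Helper12.GR.Loop
import Pool.Agent.Helper12.GR.Alive

set_option autoImplicit false

/-!
The induction on the height and the resolution of all programs.
-/

namespace Helper12.GR

open Helper12.BI

variable {S M : Type} [Monoid M]

theorem step [Finite S] [Nonempty S] [Finite M] (hO : Orth M) {t : ℕ} {tau : ℝ}
    (htau0 : 0 < tau) (htau : tau ≤ (1 / (Nat.card S : ℝ)) ^ (Nat.card M + 1))
    (hPL : HasPL M S t tau) : HasPR M S (t + 1) tau := by
  obtain ⟨lam, C, hlam, hC, hloop⟩ := loop hO htau0 htau hPL (2 ^ (Nat.card M + 1))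
  refine ⟨lam, C, hlam, hC, fun ι _ y L hL hy halive => ?_⟩
  obtain ⟨e, he, hye, hlow⟩ := exists_low y
  have hle : JLe y e := ⟨y, 1, by rw [mul_one, hye]⟩
  have hte : ht e ≤ t := by
    have := ht_le hle
    omega
  have hl := low_iff hye hlow
  obtain ⟨Q, _, act, q₀, hact, hcard, hsome, hdet⟩ := exists_act hO he
  have hmain := hloop ι e (fun L v => ∀ x, JEq e (e * (val L x * v))) ?_ ?_ L 1 hL ?_
  · refine hmain.of_determined fun x x' h => ?_
    simp only [mul_one] at h
    rw [← hye, mul_assoc, h, mul_assoc]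
  · intro L1 i c L2 v x hnd h x'
    classical
    rw [pos_append, pos_cons] at hnd
    have hdis := (List.nodup_append.1 hnd).2.2
    have h1 := h (fun j => if j ∈ pos L1 then x' j else x j)
    rw [val_append, val_cons] at h1
    have h2 : val L1 (fun j => if j ∈ pos L1 then x' j else x j) = val L1 x' :=
      val_congr fun j hj => by simp [hj]
    have h3 : val L2 (fun j => if j ∈ pos L1 then x' j else x j) = val L2 x :=
      val_congr fun j hj => by
        have : j ∉ pos L1 := fun hj' => hdis j hj' j (List.mem_cons_of_mem _ hj) rfl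
        simp [this]
    have h4 : i ∉ pos L1 := fun hj' => hdis i hj' i List.mem_cons_self rfl
    simp only [h2, h3, h4, if_false] at h1
    simpa only [mul_assoc] using h1
  · intro L v hL' hPr ht' lam' hlam'
    obtain ⟨s⟩ := ‹Nonempty S›
    have hev : JLe e v := by
      refine (hPr fun _ => s).1.trans ?_
      rw [← mul_assoc]
      exact JLe.of_mul_left _ _
    have hevJ : JEq e v := JEq.of_ht hev (hte.trans ht')
    have hal : ∀ x, act (val L x) q₀ ≠ none := by
      intro x
      rw [hsome]
      refine ⟨(hPr x).1.trans ?_, JLe.of_mul_right _ _⟩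
      rw [← mul_assoc]
      exact JLe.of_mul_right _ _
    have hres := res_alive hact hL' q₀ hal hlam' htau0 htau
    have hres2 := hres.of_determined (g := fun x => e * (val L x * v))
      (fun x x' h => (hdet _ _ v h.symm hevJ (hPr x')))
    refine hres2.mono (by linarith) le_rfl ?_
    exact pow_le_pow_right₀ hlam' (Nat.pow_le_pow_right (by norm_num) (by omega))
  · intro x
    rw [mul_one]
    exact (hl _).1 (halive x)

theorem main_PR (t : ℕ) : ∀ (M : Type) [Monoid M] [Finite M] [Finite S] [Nonempty S], Orth M →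
    ∀ tau : ℝ, 0 < tau → tau ≤ (1 / (Nat.card S : ℝ)) ^ (Nat.card M + 1) → HasPR M S t tau := by
  induction t with
  | zero =>
    intro M _ _ _ _ _ tau _ _
    exact ⟨2, 1, by norm_num, le_rfl, fun ι _ y L _ hy => absurd hy (by omega)⟩
  | succ t ih =>
    intro M _ _ _ _ hO tau h0 h1
    have : Finite Mᵐᵒᵖ := Finite.of_equiv M MulOpposite.opEquiv
    have hcard : Nat.card Mᵐᵒᵖ = Nat.card M := Nat.card_congr MulOpposite.opEquiv.symm
    exact step hO h0 h1 (HasPL_of_HasPR (ih Mᵐᵒᵖ (orth_op hO) tau h0 (by rwa [hcard])))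

/-- All programs over a finite monoid with orthodox blocks are resolved by cells. -/
theorem res_all (S M : Type) [Monoid M] [Finite S] [Nonempty S] [Finite M] (hO : Orth M) :
    ∃ lam C tau : ℝ, 1 < lam ∧ 1 ≤ C ∧ 0 < tau ∧ tau ≤ 1 ∧ ∀ (ι : Type) [Finite ι]
      (L : List (ι × (S → M))), (pos L).Nodup → Res M (pos L) (val L) lam C tau := by
  have hS : 0 < (Nat.card S : ℝ) := by exact_mod_cast Nat.card_pos
  have hS1 : (1 : ℝ) ≤ Nat.card S := by exact_mod_cast Nat.card_pos
  have htau0 : 0 < (1 / (Nat.card S : ℝ)) ^ (Nat.card M + 1) := by positivity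
  have : Finite Mᵐᵒᵖ := Finite.of_equiv M MulOpposite.opEquiv
  have hcard : Nat.card Mᵐᵒᵖ = Nat.card M := Nat.card_congr MulOpposite.opEquiv.symm
  have hPL : HasPL M S (Nat.card M + 1) ((1 / (Nat.card S : ℝ)) ^ (Nat.card M + 1)) :=
    HasPL_of_HasPR (main_PR (Nat.card M + 1) Mᵐᵒᵖ (orth_op hO) _ htau0 (by rw [hcard]))
  obtain ⟨lam, C, hlam, hC, hloop⟩ := loop hO htau0 le_rfl hPL 0
  refine ⟨lam, C, _, hlam, hC, htau0, ?_, fun ι _ L hL => ?_⟩
  · apply pow_le_one₀ (by positivity)
    rw [div_le_one hS]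
    exact hS1
  · have h := hloop ι 1 (fun _ _ => True) (fun _ _ _ _ _ _ _ _ => trivial) ?_ L 1 hL trivial
    · simpa using h
    · intro L v _ _ hv
      have := ht_le_card v
      omega

end Helper12.GR
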