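import Pool.Agent.Helper12.GR.Defs

set_option autoImplicit false

/-!
The uniform measure on `ι → S`: additivity, independence of disjoint sets of positions.

Proof sketch for `U_inter`: with `I` the set of positions in `P`, `(ι → S)` is equivalent to
`({i // i ∈ P} → S) × ({i // i ∉ P} → S)` (`Equiv.piEquivPiSubtypeProd`); `A` corresponds to
`A' ×ˢ univ` and `B` to `univ ×ˢ B'`; count. (Classical decidability.)
`U_letter`: the `card S` sets `{x | x i = s}` have the same cardinality (swap the letter) and
partition the space.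
-/

namespace Helper12.GR

open Helper12.BI

variable {ι S : Type}

/-- `A` depends only on the letters at the positions in `P`. -/
def DependsOn (P : List ι) (A : Set (ι → S)) : Prop :=
  ∀ x y : ι → S, (∀ i ∈ P, x i = y i) → (x ∈ A ↔ y ∈ A)

lemma U_nonneg (A : Set (ι → S)) : 0 ≤ U A := by
  unfold U
  positivity

private lemma card_pos' [Finite ι] [Finite S] [Nonempty S] : (0 : ℝ) < (Nat.card (ι → S) : ℝ) := by
  have : 0 < Nat.card (ι → S) := Nat.card_pos
  exact_mod_cast this

lemma U_univ [Finite ι] [Finite S] [Nonempty S] : U (Set.univ : Set (ι → S)) = 1 := by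
  unfold U
  rw [Nat.card_congr (Equiv.Set.univ (ι → S))]
  exact div_self (card_pos').ne'

lemma U_mono [Finite ι] [Finite S] {A B : Set (ι → S)} (h : A ⊆ B) : U A ≤ U B := by
  unfold U
  have : Nat.card A ≤ Nat.card B := Nat.card_mono (Set.toFinite B) h
  gcongr

lemma U_le_one [Finite ι] [Finite S] (A : Set (ι → S)) : U A ≤ 1 := by
  unfold U
  have h : Nat.card A ≤ Nat.card (ι → S) := by
    have := Nat.card_mono (Set.toFinite (Set.univ : Set (ι → S))) (Set.subset_univ A)
    rwa [Nat.card_congr (Equiv.Set.univ (ι → S))] at this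
  exact div_le_one_of_le₀ (by exact_mod_cast h) (by positivity)

lemma U_empty : U (∅ : Set (ι → S)) = 0 := by
  unfold U
  simp

lemma U_nonempty {A : Set (ι → S)} (h : 0 < U A) : A.Nonempty := by
  rcases A.eq_empty_or_nonempty with h' | h'
  · rw [h', U_empty] at h
    exact absurd h (lt_irrefl 0)
  · exact h'

/-- Additivity for finite partitions. -/
lemma U_partition [Finite ι] [Finite S] {J : Type} [Fintype J] (A : J → Set (ι → S))
    (h : ∀ x, ∃! j, x ∈ A j) (B : Set (ι → S)) : ∑ j, U (A j ∩ B) = U B := by
  classical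
  unfold U
  rw [← Finset.sum_div]
  congr 1
  have e : B ≃ Σ j, (A j ∩ B : Set (ι → S)) :=
    { toFun := fun x => ⟨(h x.1).choose, ⟨x.1, (h x.1).choose_spec.1, x.2⟩⟩
      invFun := fun p => ⟨p.2.1, p.2.2.2⟩
      left_inv := fun x => rfl
      right_inv := fun p => by
        obtain ⟨j, ⟨x, hx1, hx2⟩⟩ := p
        have : (h x).choose = j := ((h x).choose_spec.2 j hx1).symm
        subst this
        rfl }
  rw [Nat.card_congr e, Nat.card_sigma]
  push_cast
  rfl

/-- Additivity for finite families of disjoint sets. -/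
lemma U_iUnion [Finite ι] [Finite S] {J : Type} (s : Finset J) (A : J → Set (ι → S))
    (h : ∀ i ∈ s, ∀ j ∈ s, i ≠ j → Disjoint (A i) (A j)) :
    U (⋃ j ∈ s, A j) = ∑ j ∈ s, U (A j) := by
  classical
  induction s using Finset.induction_on with
  | empty => simp [U_empty]
  | insert a s ha ih =>
    rw [Finset.sum_insert ha, Finset.set_biUnion_insert,
      ← ih fun i hi j hj => h i (Finset.mem_insert_of_mem hi) j (Finset.mem_insert_of_mem hj)]
    have hd : Disjoint (A a) (⋃ j ∈ s, A j) := by
      rw [Set.disjoint_iUnion₂_right]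
      intro j hj
      exact h a (Finset.mem_insert_self a s) j (Finset.mem_insert_of_mem hj)
        (fun e => ha (e ▸ hj))
    unfold U
    rw [← add_div]
    congr 1
    have := Set.ncard_union_eq hd (Set.toFinite _) (Set.toFinite _)
    rw [← Nat.card_coe_set_eq, ← Nat.card_coe_set_eq, ← Nat.card_coe_set_eq] at this
    exact_mod_cast this

lemma U_compl [Finite ι] [Finite S] [Nonempty S] (A : Set (ι → S)) : U Aᶜ = 1 - U A := by
  have h1 : U A + U Aᶜ = 1 := by
    rw [← U_univ (ι := ι) (S := S)]
    unfold U
    rw [← add_div]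
    congr 1
    have := Set.ncard_union_eq (disjoint_compl_right (a := A)) (Set.toFinite _) (Set.toFinite _)
    rw [Set.union_compl_self, ← Nat.card_coe_set_eq, ← Nat.card_coe_set_eq,
      ← Nat.card_coe_set_eq] at this
    exact_mod_cast this.symm
  linarith

/-- Independence. -/
lemma U_inter [Finite ι] [Finite S] {P P' : List ι} {A B : Set (ι → S)} (hA : DependsOn P A)
    (hB : DependsOn P' B) (h : List.Disjoint P P') : U (A ∩ B) = U A * U B := by
  classical
  rcases isEmpty_or_nonempty (ι → S) with hE | hE
  · have : ∀ C : Set (ι → S), U C = 0 := fun C => by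
      unfold U
      rw [Nat.card_of_isEmpty (α := ι → S)]
      simp
    rw [this, this, zero_mul]
  obtain ⟨x0⟩ := hE
  have hN : (0 : ℝ) < (Nat.card (ι → S) : ℝ) := by
    have : Nonempty (ι → S) := ⟨x0⟩
    have : 0 < Nat.card (ι → S) := Nat.card_pos
    exact_mod_cast this
  -- the exchange of the letters at the positions of P
  let mix : (ι → S) → (ι → S) → (ι → S) := fun x y i => if i ∈ P then x i else y i
  have hmA : ∀ x y, mix x y ∈ A ↔ x ∈ A := fun x y => hA _ _ fun i hi => by simp [mix, hi]
  have hmB : ∀ x y, mix x y ∈ B ↔ y ∈ B := fun x y => hB _ _ fun i hi => by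
    have : i ∉ P := fun hi' => h hi' hi
    simp [mix, this]
  have e : (A ∩ B : Set (ι → S)) × (ι → S) ≃ A × B :=
    { toFun := fun p => (⟨mix p.1.1 p.2, (hmA _ _).2 p.1.2.1⟩, ⟨mix p.2 p.1.1, (hmB _ _).2 p.1.2.2⟩)
      invFun := fun q => (⟨mix q.1.1 q.2.1, (hmA _ _).2 q.1.2, (hmB _ _).2 q.2.2⟩,
        mix q.2.1 q.1.1)
      left_inv := fun p => by
        ext i
        · by_cases hi : i ∈ P <;> simp [mix, hi]
        · by_cases hi : i ∈ P <;> simp [mix, hi]
      right_inv := fun q => by
        ext i
        · by_cases hi : i ∈ P <;> simp [mix, hi]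
        · by_cases hi : i ∈ P <;> simp [mix, hi] }
  have hc := Nat.card_congr e
  rw [Nat.card_prod, Nat.card_prod] at hc
  have hc' : (Nat.card (A ∩ B : Set (ι → S)) : ℝ) * (Nat.card (ι → S) : ℝ)
      = (Nat.card A : ℝ) * (Nat.card B : ℝ) := by exact_mod_cast hc
  unfold U
  rw [div_mul_div_comm, ← hc', mul_div_mul_right _ _ hN.ne']

lemma U_letter [Finite ι] [Finite S] [Nonempty S] (i : ι) (s : S) :
    U {x : ι → S | x i = s} = 1 / (Nat.card S : ℝ) := by
  classical
  have hS : (0 : ℝ) < (Nat.card S : ℝ) := by
    have : 0 < Nat.card S := Nat.card_pos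
    exact_mod_cast this
  have e : ({x : ι → S | x i = s} : Set (ι → S)) × S ≃ (ι → S) :=
    { toFun := fun p => Function.update p.1.1 i p.2
      invFun := fun x => (⟨Function.update x i s, by simp⟩, x i)
      left_inv := fun p => by
        obtain ⟨⟨x, hx⟩, t⟩ := p
        have hx' : x i = s := hx
        ext j
        · by_cases hj : j = i
          · subst hj
            simp [hx']
          · simp [hj]
        · simp
      right_inv := fun x => by
        funext j
        by_cases hj : j = i
        · subst hj
          simp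
        · simp [hj] }
  have hc := Nat.card_congr e
  rw [Nat.card_prod] at hc
  have hN := card_pos' (ι := ι) (S := S)
  have hc' : (Nat.card ({x : ι → S | x i = s} : Set (ι → S)) : ℝ) * (Nat.card S : ℝ)
      = (Nat.card (ι → S) : ℝ) := by exact_mod_cast hc
  unfold U
  rw [div_eq_div_iff hN.ne' hS.ne', hc', one_mul]

lemma DependsOn.mono {P P' : List ι} {A : Set (ι → S)} (h : DependsOn P A) (hP : P ⊆ P') :
    DependsOn P' A := fun x y hxy => h x y fun i hi => hxy i (hP hi)

lemma DependsOn.inter {P : List ι} {A B : Set (ι → S)} (hA : DependsOn P A)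
    (hB : DependsOn P B) : DependsOn P (A ∩ B) := fun x y h =>
  and_congr (hA x y h) (hB x y h)

lemma Basic.dependsOn {M : Type} [Monoid M] {P : List ι} {A : Set (ι → S)}
    (h : Basic M P A) : DependsOn P A := by
  intro x y hxy
  cases h with
  | letter i hi s => simp only [Set.mem_setOf_eq, hxy i hi]
  | group G hG g γ =>
    have : gval P g x = gval P g y := by
      unfold gval
      congr 1
      apply List.map_congr_left
      intro i hi
      rw [hxy i hi]
    simp only [Set.mem_setOf_eq, this]

lemma Cell.dependsOn {M : Type} [Monoid M] {P : List ι} {k : ℕ} {A : Set (ι → S)}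
    (h : Cell M P k A) : DependsOn P A := by
  induction h with
  | univ => exact fun x y _ => Iff.rfl
  | inter _ hB ih => exact ih.inter (Basic.dependsOn hB)

end Helper12.GR
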