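import Pool.Agent.Helper12.GR.Mean

set_option autoImplicit false

/-!
The sum of `d` independent small bias strings fools polynomials of degree `d` (Bogdanov-Viola,
Lovett, Viola 2009).

Proof sketch. Notation: `E μ f = ∑ x, μ x * f x`, `e = sg`, `V = Fin n → ZMod 2`.
`viola`: induction on `d`. `d = 1`: a polynomial of degree one is `a + ∑ i ∈ T, x i`, so
`sg (p x)` is `± ∏ i ∈ T, sg (x i)`; for `T = ∅` the difference is `0`, otherwise the uniform mean
is `0`. Step from `d` to `d + 1`: `D' = conv ν (iter ν d)`, i.e. `W + Y` with `W ∼ ν`,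
`Y ∼ D_d = iter ν d`, `err` the error for `d` (`0 ≤ err`, `ε ≤ err`), `p` of degree `d + 1`,
`δ = |E U (e p)|`.
(a) `D'` fools degree `d` with error `err` (for each `w` the polynomial `p' (w + y)` in `y` has
degree at most `d`).
(b) `δ ≥ sqrt err`: `e (p x) * E_h e (p (x + h)) = E_h e (p x + p (x + h))`, where
`E_h e (p (x + h)) = E U (e p) = ± δ` and `x ↦ p x + p (x + h)` has degree `d`; average over `x ∼ D'`
and over `x ∼ U` and subtract: the error for `p` is at most `err / δ ≤ sqrt err`.
(c) `δ < sqrt err`: Cauchy-Schwarz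
`(E_Y E_W e (p (W + Y))) ^ 2 ≤ E_Y (E_W e (p (W + Y))) ^ 2 = E_W E_W' E_Y e (p (W+Y) + p (W'+Y))
≤ err + E_W E_W' E_U e (p (W+U) + p (W'+U)) = err + E_U (E_W e (p (W + U))) ^ 2
≤ err + δ ^ 2 + ε ^ 2`; the last step by Parseval: with the Fourier coefficients
`a_T = E_U e (p) ∏_(i in T) sg`, one has `E_W e (p (W + u)) = ∑_T a_T b_T χ_T u`, `b_T` the bias of
`W` (`b_∅ = 1`, `|b_T| ≤ ε`), `∑_T a_T ^ 2 = 1`. So the error is at most
`sqrt (3 err) + sqrt err ≤ 3 sqrt err`.
With `err = 9 ε ^ (1 / 2 ^ (d - 1))` this gives `9 ε ^ (1 / 2 ^ d)`.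
-/

namespace Helper12.GR

open Helper12.BI

variable {n : ℕ}

namespace Vio

lemma mean_mul (μ f : (Fin n → ZMod 2) → ℝ) (c : ℝ) :
    mean μ (fun x => c * f x) = c * mean μ f := by
  unfold mean
  rw [Finset.mul_sum]
  exact Finset.sum_congr rfl fun x _ => by ring

lemma mean_add (μ f g : (Fin n → ZMod 2) → ℝ) :
    mean μ (fun x => f x + g x) = mean μ f + mean μ g := by
  unfold mean
  rw [← Finset.sum_add_distrib]
  exact Finset.sum_congr rfl fun x _ => by ring

lemma mean_sub (μ f g : (Fin n → ZMod 2) → ℝ) :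
    mean μ (fun x => f x - g x) = mean μ f - mean μ g := by
  unfold mean
  rw [← Finset.sum_sub_distrib]
  exact Finset.sum_congr rfl fun x _ => by ring

lemma mean_const {μ : (Fin n → ZMod 2) → ℝ} (hμ : IsDist μ) (c : ℝ) :
    mean μ (fun _ => c) = c := by
  unfold mean
  rw [← Finset.sum_mul, hμ.2, one_mul]

lemma mean_mono {μ : (Fin n → ZMod 2) → ℝ} (hμ : IsDist μ) {f g : (Fin n → ZMod 2) → ℝ}
    (h : ∀ x, f x ≤ g x) : mean μ f ≤ mean μ g :=
  Finset.sum_le_sum fun x _ => mul_le_mul_of_nonneg_left (h x) (hμ.1 x)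

lemma abs_mean_le {μ : (Fin n → ZMod 2) → ℝ} (hμ : IsDist μ) {f : (Fin n → ZMod 2) → ℝ}
    {c : ℝ} (h : ∀ x, |f x| ≤ c) : |mean μ f| ≤ c := by
  rw [abs_le]
  constructor
  · have := mean_mono hμ (f := fun _ => -c) (g := f) fun x => (abs_le.1 (h x)).1
    rwa [mean_const hμ] at this
  · have := mean_mono hμ (f := f) (g := fun _ => c) fun x => (abs_le.1 (h x)).2
    rwa [mean_const hμ] at this

lemma mean_comm (μ ν : (Fin n → ZMod 2) → ℝ) (F : (Fin n → ZMod 2) → (Fin n → ZMod 2) → ℝ) :
    (mean μ fun x => mean ν fun y => F x y) = mean ν fun y => mean μ fun x => F x y := by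
  unfold mean
  simp only [Finset.mul_sum]
  rw [Finset.sum_comm]
  exact Finset.sum_congr rfl fun x _ => Finset.sum_congr rfl fun y _ => by ring

lemma sq_mean_le {μ : (Fin n → ZMod 2) → ℝ} (hμ : IsDist μ) (f : (Fin n → ZMod 2) → ℝ) :
    mean μ f ^ 2 ≤ mean μ fun x => f x ^ 2 := by
  have h : 0 ≤ mean μ fun x => (f x - mean μ f) ^ 2 := by
    have := mean_mono hμ (f := fun _ => (0 : ℝ)) (g := fun x => (f x - mean μ f) ^ 2)
      fun x => sq_nonneg _
    rwa [mean_const hμ] at this
  have h2 : (mean μ fun x => (f x - mean μ f) ^ 2) =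
      (mean μ fun x => f x ^ 2) - mean μ f ^ 2 := by
    have e : (fun x => (f x - mean μ f) ^ 2) =
        fun x => (f x ^ 2 - (2 * mean μ f) * f x) + mean μ f ^ 2 := by
      funext x; ring
    rw [e, mean_add, mean_sub, mean_mul, mean_const hμ]
    ring
  rw [h2] at h
  linarith

lemma sq_mean (μ f : (Fin n → ZMod 2) → ℝ) :
    mean μ f ^ 2 = mean μ fun x => mean μ fun y => f x * f y := by
  have : ∀ x, (mean μ fun y => f x * f y) = f x * mean μ f := fun x => mean_mul μ f (f x)
  simp only [this]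
  have e : (fun x => f x * mean μ f) = fun x => mean μ f * f x := by funext x; ring
  rw [e, mean_mul]
  ring

lemma sg_sq (t : ZMod 2) : sg t ^ 2 = 1 := by
  unfold sg; split <;> norm_num

lemma abs_sg (t : ZMod 2) : |sg t| = 1 := by
  unfold sg; split <;> norm_num

lemma sg_sum {T : Finset (Fin n)} (x : Fin n → ZMod 2) :
    sg (∑ i ∈ T, x i) = ∏ i ∈ T, sg (x i) := by
  classical
  induction T using Finset.induction_on with
  | empty => simp [sg]
  | insert a s ha ih => rw [Finset.sum_insert ha, Finset.prod_insert ha, sg_add, ih]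

lemma base {ν : (Fin n → ZMod 2) → ℝ} (hν : IsDist ν) {ε : ℝ} (h0 : 0 ≤ ε)
    (hb : ∀ T : Finset (Fin n), T.Nonempty → |mean ν fun x => ∏ i ∈ T, sg (x i)| ≤ ε)
    (p : (Fin n → ZMod 2) → ZMod 2) (hp : DegLe 1 p) :
    |mean ν (fun x => sg (p x)) - mean (unif (ZMod 2) n) (fun x => sg (p x))| ≤ ε := by
  obtain ⟨a, T, h⟩ := DegLe_one hp
  have e : (fun x => sg (p x)) = fun x => sg a * ∏ i ∈ T, sg (x i) := by
    funext x
    rw [h x, sg_add, sg_sum]
  rw [e, mean_mul, mean_mul, ← mul_sub, abs_mul, abs_sg, one_mul]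
  rcases T.eq_empty_or_nonempty with rfl | hT
  · simp only [Finset.prod_empty]
    rw [mean_const hν, mean_const unif_isDist, sub_self, abs_zero]
    exact h0
  · rw [mean_char hT, sub_zero]
    exact hb T hT

lemma fool_conv {ν μ : (Fin n → ZMod 2) → ℝ} (hν : IsDist ν) {err : ℝ} {d : ℕ}
    (ih : ∀ p : (Fin n → ZMod 2) → ZMod 2, DegLe d p →
      |mean μ (fun x => sg (p x)) - mean (unif (ZMod 2) n) (fun x => sg (p x))| ≤ err)
    (p : (Fin n → ZMod 2) → ZMod 2) (hp : DegLe d p) :
    |mean (conv ν μ) (fun x => sg (p x)) - mean (unif (ZMod 2) n) (fun x => sg (p x))| ≤ err := by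
  have e : mean (unif (ZMod 2) n) (fun x => sg (p x)) =
      mean ν fun w => mean (unif (ZMod 2) n) fun y => sg (p (w + y)) := by
    have : ∀ w : Fin n → ZMod 2, (mean (unif (ZMod 2) n) fun y => sg (p (w + y))) =
        mean (unif (ZMod 2) n) (fun x => sg (p x)) := fun w =>
      mean_unif_shift (fun x => sg (p x)) w
    simp only [this]
    rw [mean_const hν]
  rw [e, mean_conv, ← mean_sub]
  refine abs_mean_le hν fun w => ?_
  have hs : DegLe d fun y => p (w + y) := by
    have := hp.shift w
    simpa only [add_comm] using this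
  exact ih _ hs

end Vio

open Vio

theorem viola {ν : (Fin n → ZMod 2) → ℝ} (hν : IsDist ν) {ε : ℝ} (h0 : 0 ≤ ε) (h1 : ε ≤ 1)
    (hb : ∀ T : Finset (Fin n), T.Nonempty → |mean ν fun x => ∏ i ∈ T, sg (x i)| ≤ ε) (d : ℕ)
    (p : (Fin n → ZMod 2) → ZMod 2) (hp : DegLe (d + 1) p) :
    |mean (iter ν d) (fun x => sg (p x)) - mean (unif (ZMod 2) n) (fun x => sg (p x))| ≤
      9 * ε ^ ((1 / 2 : ℝ) ^ d) := by
  induction d generalizing p with
  | zero =>
    have := base hν h0 hb p hp
    rw [pow_zero, Real.rpow_one]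
    have e : iter ν 0 = ν := rfl
    rw [e]
    linarith
  | succ d ih =>
    have e : iter ν (d + 1) = conv ν (iter ν d) := rfl
    rw [e]
    set s : ℝ := ε ^ ((1 / 2 : ℝ) ^ (d + 1)) with hs
    have hs0 : 0 ≤ s := Real.rpow_nonneg h0 _
    have hss : ε ^ ((1 / 2 : ℝ) ^ d) = s ^ 2 := by
      rw [hs, ← Real.rpow_natCast (ε ^ ((1 / 2 : ℝ) ^ (d + 1))) 2, ← Real.rpow_mul h0]
      congr 1
      rw [pow_succ]
      push_cast
      ring
    have hεs : ε ≤ s ^ 2 := by
      rw [← hss]
      have h12 : ((1 / 2 : ℝ) ^ d) ≤ 1 := pow_le_one₀ (by norm_num) (by norm_num)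
      rcases h0.eq_or_lt with h | h
      · rw [← h]; exact Real.rpow_nonneg le_rfl _
      · calc ε = ε ^ (1 : ℝ) := (Real.rpow_one ε).symm
          _ ≤ _ := Real.rpow_le_rpow_of_exponent_ge h h1 h12
    rw [hss] at ih
    set U := unif (ZMod 2) n with hU
    have hUd : IsDist U := unif_isDist
    have hDd : IsDist (iter ν d) := iter_isDist hν d
    set m := mean U (fun x => sg (p x)) with hm
    have hfool := fool_conv (μ := iter ν d) hν ih
    by_cases hδ : |m| ≤ 3 * s
    · -- small mean
      have hA : (mean (conv ν (iter ν d)) fun x => sg (p x)) ^ 2 ≤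
          mean (iter ν d) fun y => (mean ν fun w => sg (p (w + y))) ^ 2 := by
        rw [mean_conv, mean_comm]
        exact sq_mean_le hDd _
      have hexp : ∀ μ : (Fin n → ZMod 2) → ℝ,
          (mean μ fun y => (mean ν fun w => sg (p (w + y))) ^ 2) =
            mean ν fun w => mean ν fun w' => mean μ fun y => sg (p (w + y) + p (w' + y)) := by
        intro μ
        have h2 : ∀ y : Fin n → ZMod 2, (mean ν fun w => sg (p (w + y))) ^ 2 =
            mean ν fun w => mean ν fun w' => sg (p (w + y) + p (w' + y)) := by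
          intro y
          rw [sq_mean]
          simp only [sg_add]
        simp only [h2]
        rw [mean_comm μ ν]
        congr 1
        funext w
        rw [mean_comm μ ν]
      have hB : |(mean (iter ν d) fun y => (mean ν fun w => sg (p (w + y))) ^ 2) -
          mean U fun y => (mean ν fun w => sg (p (w + y))) ^ 2| ≤ 9 * s ^ 2 := by
        rw [hexp, hexp, ← mean_sub]
        refine abs_mean_le hν fun w => ?_
        rw [← mean_sub]
        refine abs_mean_le hν fun w' => ?_
        have hq : DegLe (d + 1) fun y => p (w + y) + p (w' + y) := by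
          have h3 := (DegLe_deriv hp (w' - w)).shift w
          have e3 : (fun x : Fin n → ZMod 2 => p (x + w) + p (x + w + (w' - w))) =
              fun y => p (w + y) + p (w' + y) := by
            funext y
            have : y + w + (w' - w) = w' + y := by abel
            rw [this, add_comm y w]
          rw [e3] at h3
          exact h3
        exact ih _ hq
      have hC : (mean U fun y => (mean ν fun w => sg (p (w + y))) ^ 2) ≤ m ^ 2 + ε ^ 2 :=
        parseval hν hb (fun x => sg (p x)) fun x => sg_sq _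
      have hm2 : m ^ 2 ≤ (3 * s) ^ 2 := by
        rw [← sq_abs m]
        exact pow_le_pow_left₀ (abs_nonneg _) hδ 2
      have hε2 : ε ^ 2 ≤ s ^ 2 := by nlinarith
      have hA2 : (mean (conv ν (iter ν d)) fun x => sg (p x)) ^ 2 ≤ (6 * s) ^ 2 := by
        have := (abs_le.1 hB).2
        nlinarith
      have hA3 : |mean (conv ν (iter ν d)) fun x => sg (p x)| ≤ 6 * s :=
        abs_le_of_sq_le_sq hA2 (by positivity)
      have h4 := abs_sub (mean (conv ν (iter ν d)) fun x => sg (p x)) m
      linarith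
    · -- large mean
      rw [not_le] at hδ
      have key : m * (mean (conv ν (iter ν d)) (fun x => sg (p x)) - m) =
          mean U fun h => (mean (conv ν (iter ν d)) fun x => sg (p x + p (x + h))) -
            mean U fun x => sg (p x + p (x + h)) := by
        have hpt : ∀ x : Fin n → ZMod 2, m * sg (p x) = mean U fun h => sg (p x + p (x + h)) := by
          intro x
          have : (mean U fun h => sg (p (x + h))) = m := mean_unif_shift (fun x => sg (p x)) x
          rw [← this, mul_comm, ← mean_mul]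
          simp only [sg_add]
        rw [mean_sub, mul_sub, hm, ← mean_mul, ← hm]
        have h2 : m * m = mean U fun x => m * sg (p x) := by rw [mean_mul]
        rw [h2]
        simp only [hpt]
        rw [mean_comm (conv ν (iter ν d)) U, mean_comm U U]
      have hle : |m * (mean (conv ν (iter ν d)) (fun x => sg (p x)) - m)| ≤ 9 * s ^ 2 := by
        rw [key]
        exact abs_mean_le hUd fun h => hfool _ (DegLe_deriv hp h)
      rw [abs_mul] at hle
      have hmpos : 0 < |m| := lt_of_le_of_lt (by positivity) hδ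
      have h5 : |m| * |mean (conv ν (iter ν d)) (fun x => sg (p x)) - m| ≤ |m| * (3 * s) := by
        nlinarith
      have h6 := le_of_mul_le_mul_left h5 hmpos
      linarith

end Helper12.GR
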